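import Pool.Agent.Lib.MP_5ef378_an.SX.Defs53

/-!
Row AVG: averaging the dyadic form over translations gives the translation invariant form
with kernel `kap`.
-/

set_option autoImplicit false

open MeasureTheory Set
open scoped ENNReal

namespace Pool.Agent.Lib.SX53.A58

open Pool.Agent.Lib.SX53

lemma hh_meas : Measurable hh := by
  unfold hh
  refine Measurable.ite (?_ : MeasurableSet (Ico (0:ℝ) (1/2))) measurable_const
    (Measurable.ite (?_ : MeasurableSet (Ico (1/2:ℝ) 1)) measurable_const measurable_const)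
  · exact measurableSet_Ico
  · exact measurableSet_Ico

lemma et_meas : Measurable et := by
  unfold et
  refine Measurable.ite (?_ : MeasurableSet (Ico (0:ℝ) (1/4))) measurable_const
    (Measurable.ite (?_ : MeasurableSet (Ico (1/4:ℝ) (3/4))) measurable_const
      (Measurable.ite (?_ : MeasurableSet (Ico (3/4:ℝ) 1)) measurable_const measurable_const))
  · exact measurableSet_Ico
  · exact measurableSet_Ico
  · exact measurableSet_Ico

lemma hh_bd (u : ℝ) : |hh u| ≤ 1 := by
  unfold hh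
  split_ifs <;> simp

lemma et_bd (u : ℝ) : |et u| ≤ 1 := by
  unfold et
  split_ifs <;> simp

lemma hh_zero {u : ℝ} (h : u < 0 ∨ 1 ≤ u) : hh u = 0 := by
  unfold hh
  rcases h with h | h
  · rw [if_neg (by intro h'; linarith [h'.1]), if_neg (by intro h'; linarith [h'.1])]
  · rw [if_neg (by intro h'; linarith [h'.2]), if_neg (by intro h'; linarith [h'.2])]

lemma et_zero {u : ℝ} (h : u < 0 ∨ 1 ≤ u) : et u = 0 := by
  unfold et
  rcases h with h | h
  · rw [if_neg (by intro h'; linarith [h'.1]), if_neg (by intro h'; linarith [h'.1]),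
      if_neg (by intro h'; linarith [h'.1])]
  · rw [if_neg (by intro h'; linarith [h'.2]), if_neg (by intro h'; linarith [h'.2]),
      if_neg (by intro h'; linarith [h'.2])]

/-- the local averages -/
noncomputable def a0 (A : ℝ → ℝ) (d ω : ℝ) : ℝ := ∫ x, hh ((x - ω) / d) * A x

noncomputable def b0 (B : ℝ → ℝ) (d ω : ℝ) : ℝ := ∫ y, et ((y - ω) / d) * B y

lemma term_eq (A B : ℝ → ℝ) {d : ℝ} (hd : 0 < d) (ω : ℝ) (k : ℤ) :
    term A B d ω k = d⁻¹ * |a0 A d (ω + k * d)| * |b0 B d (ω + k * d)| := by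
  unfold term a0 b0
  have e : ∀ x : ℝ, (x - ω) / d - k = (x - (ω + k * d)) / d := by
    intro x
    field_simp
    ring
  simp only [e]

lemma a0_meas (A : ℝ → ℝ) (hA : Continuous A) (d : ℝ) : StronglyMeasurable (a0 A d) := by
  have h : StronglyMeasurable (fun z : ℝ × ℝ => hh ((z.2 - z.1) / d) * A z.2) := by
    apply Measurable.stronglyMeasurable
    exact (hh_meas.comp ((measurable_snd.sub measurable_fst).div_const d)).mul
      (hA.measurable.comp measurable_snd)
  exact h.integral_prod_right'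

lemma b0_meas (B : ℝ → ℝ) (hB : Continuous B) (d : ℝ) : StronglyMeasurable (b0 B d) := by
  have h : StronglyMeasurable (fun z : ℝ × ℝ => et ((z.2 - z.1) / d) * B z.2) := by
    apply Measurable.stronglyMeasurable
    exact (et_meas.comp ((measurable_snd.sub measurable_fst).div_const d)).mul
      (hB.measurable.comp measurable_snd)
  exact h.integral_prod_right'

/-- Periodization over one period. -/
lemma period_one (φ : ℝ → ℝ≥0∞) (hφ : Measurable φ) {d : ℝ} (hd : 0 < d) (t : ℝ) :
    ∫⁻ ω in Ioc t (t + d), ∑' k : ℤ, φ (ω + k * d) = ∫⁻ ω, φ ω := by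
  have hlt := lintegral_tsum (μ := volume.restrict (Ioc t (t + d)))
    (f := fun (k : ℤ) (ω : ℝ) => φ (ω + k * d))
    (fun k => (hφ.comp (measurable_id.add_const _)).aemeasurable)
  rw [hlt]
  have hu : (⋃ k : ℤ, Ioc (t + k • d) (t + (k + 1) • d)) = (univ : Set ℝ) :=
    iUnion_Ioc_add_zsmul hd t
  have hdj : Pairwise (Function.onFun Disjoint (fun k : ℤ => Ioc (t + k • d) (t + (k + 1) • d))) :=
    pairwise_disjoint_Ioc_add_zsmul t d
  rw [← setLIntegral_univ (f := φ), ← hu, lintegral_iUnion (fun k => measurableSet_Ioc) hdj]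
  refine tsum_congr (fun k => ?_)
  have h1 : (fun ω : ℝ => ω + k * d) ⁻¹' (Ioc (t + k • d) (t + (k + 1) • d)) = Ioc t (t + d) := by
    ext x
    simp only [mem_preimage, mem_Ioc, zsmul_eq_mul]
    push_cast
    constructor
    · rintro ⟨h1, h2⟩
      constructor <;> nlinarith
    · rintro ⟨h1, h2⟩
      constructor <;> nlinarith
  have hmp : MeasurePreserving (fun ω : ℝ => ω + k * d) volume volume :=
    measurePreserving_add_right volume _
  have h2 := hmp.setLIntegral_comp_preimage (s := Ioc (t + k • d) (t + (k + 1) • d))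
    measurableSet_Ioc hφ
  rw [h1] at h2
  exact h2

/-- Periodization over `m` periods. -/
lemma period (φ : ℝ → ℝ≥0∞) (hφ : Measurable φ) {d : ℝ} (hd : 0 < d) (m : ℕ) :
    ∫⁻ ω in Ioc 0 (m * d), ∑' k : ℤ, φ (ω + k * d) = m * ∫⁻ ω, φ ω := by
  induction m with
  | zero => simp
  | succ m ih =>
    have hsplit : Ioc (0:ℝ) ((m + 1 : ℕ) * d) = Ioc 0 (m * d) ∪ Ioc (m * d) (m * d + d) := by
      rw [Ioc_union_Ioc_eq_Ioc (by positivity) (by linarith)]
      push_cast
      congr 1
      ring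
    rw [hsplit, lintegral_union measurableSet_Ioc (by
      rw [Set.disjoint_left]
      intro x hx hx'
      exact absurd hx.2 (not_le.mpr hx'.1)), ih, period_one φ hφ hd]
    push_cast
    ring

lemma triple_int (A B : ℝ → ℝ) (hA : Continuous A) (hA' : HasCompactSupport A)
    (hB : Continuous B) (hB' : HasCompactSupport B) {d : ℝ} (hd : 0 < d) :
    Integrable (fun z : (ℝ × ℝ) × ℝ =>
      (A z.1.1 * B z.1.2) * (hh ((z.1.1 - z.2) / d) * et ((z.1.2 - z.2) / d))) := by
  obtain ⟨R, hR⟩ := hA'.isCompact.isBounded.subset_closedBall (0:ℝ)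
  have hAR : ∀ x, A x ≠ 0 → |x| ≤ R := by
    intro x hx
    have := hR (subset_tsupport A hx)
    simpa [Metric.mem_closedBall, dist_zero_right] using this
  have hAi : Integrable A := hA.integrable_of_hasCompactSupport hA'
  have hBi : Integrable B := hB.integrable_of_hasCompactSupport hB'
  have h1 : Integrable (fun z : ℝ × ℝ => A z.1 * B z.2) := hAi.mul_prod hBi
  have h2 : Integrable (fun ω : ℝ => (Icc (-R - d) R).indicator (fun _ => (1:ℝ)) ω) := by
    rw [integrable_indicator_iff measurableSet_Icc]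
    exact integrableOn_const (by simp [Real.volume_Icc])
  have h3 : Integrable (fun z : (ℝ × ℝ) × ℝ => (A z.1.1 * B z.1.2) *
      (Icc (-R - d) R).indicator (fun _ => (1:ℝ)) z.2) := h1.mul_prod h2
  refine h3.mono ?_ ?_
  · apply Measurable.aestronglyMeasurable
    refine Measurable.mul ?_ ?_
    · exact (hA.measurable.comp (measurable_fst.comp measurable_fst)).mul
        (hB.measurable.comp (measurable_snd.comp measurable_fst))
    · refine Measurable.mul ?_ ?_
      · exact hh_meas.comp (((measurable_fst.comp measurable_fst).sub measurable_snd).div_const d)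
      · exact et_meas.comp (((measurable_snd.comp measurable_fst).sub measurable_snd).div_const d)
  · refine Filter.Eventually.of_forall ?_
    rintro ⟨⟨x, y⟩, ω⟩
    simp only [norm_mul, Real.norm_eq_abs]
    by_cases hx : A x = 0
    · simp [hx]
    by_cases hh0 : hh ((x - ω) / d) = 0
    · simp only [hh0, abs_zero, zero_mul, mul_zero]
      positivity
    · have hxR := hAR x hx
      have h01 : 0 ≤ (x - ω) / d ∧ (x - ω) / d < 1 := by
        by_contra hcon
        rw [not_and_or, not_le, not_lt] at hcon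
        exact hh0 (hh_zero hcon)
      have hω : ω ∈ Icc (-R - d) R := by
        rw [abs_le] at hxR
        have h4 : 0 ≤ x - ω := by
          by_contra hneg
          push Not at hneg
          have := div_neg_of_neg_of_pos hneg hd
          linarith [h01.1]
        have h5 : x - ω < d := by
          have := (div_lt_one hd).mp h01.2
          exact this
        constructor <;> linarith
      rw [indicator_of_mem hω]
      have := hh_bd ((x - ω) / d)
      have := et_bd ((y - ω) / d)
      have h6 : |hh ((x - ω) / d)| * |et ((y - ω) / d)| ≤ 1 := by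
        exact mul_le_one₀ (hh_bd _) (abs_nonneg _) (et_bd _)
      simp only [abs_one]
      exact mul_le_mul_of_nonneg_left h6 (by positivity)

lemma kap_eq {d : ℝ} (hd : 0 < d) (x y : ℝ) :
    d⁻¹ * kap ((x - y) / d) = (d⁻¹ * d⁻¹) * ∫ ω, hh ((x - ω) / d) * et ((y - ω) / d) := by
  have h1 : ∫ ω, hh ((x - ω) / d) * et ((y - ω) / d)
      = ∫ u, hh ((u + (x - y)) / d) * et (u / d) := by
    have := integral_sub_left_eq_self (fun u : ℝ => hh ((u + (x - y)) / d) * et (u / d)) volume y
    rw [← this]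
    congr 1
    ext ω
    congr 3
    ring
  have h2 : ∫ u, hh ((u + (x - y)) / d) * et (u / d) = d * kap ((x - y) / d) := by
    have := Measure.integral_comp_div (fun w : ℝ => hh (w + (x - y) / d) * et w) d
    simp only [add_div]
    rw [this, abs_of_pos hd, smul_eq_mul]
    rfl
  rw [h1, h2]
  field_simp

lemma scale_int (A B : ℝ → ℝ) (hA : Continuous A) (hA' : HasCompactSupport A)
    (hB : Continuous B) (hB' : HasCompactSupport B) {d : ℝ} (hd : 0 < d) :
    Integrable (fun z : ℝ × ℝ => A z.1 * B z.2 * (d⁻¹ * kap ((z.1 - z.2) / d))) ∧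
    ∫ z : ℝ × ℝ, A z.1 * B z.2 * (d⁻¹ * kap ((z.1 - z.2) / d)) =
      ∫ ω, d⁻¹ * (d⁻¹ * (a0 A d ω * b0 B d ω)) := by
  have ht := triple_int A B hA hA' hB hB' hd
  have e : (fun z : ℝ × ℝ => A z.1 * B z.2 * (d⁻¹ * kap ((z.1 - z.2) / d)))
      = fun z : ℝ × ℝ => (d⁻¹ * d⁻¹) *
        ∫ ω, (A z.1 * B z.2) * (hh ((z.1 - ω) / d) * et ((z.2 - ω) / d)) := by
    ext z
    rw [kap_eq hd, integral_const_mul]
    ring
  rw [e]
  constructor
  · exact (ht.integral_prod_left).const_mul _
  · rw [integral_const_mul, integral_integral_swap (f := fun (z : ℝ × ℝ) (ω : ℝ) =>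
      (A z.1 * B z.2) * (hh ((z.1 - ω) / d) * et ((z.2 - ω) / d))) ht,
      ← integral_const_mul]
    congr 1
    ext ω
    have : (fun z : ℝ × ℝ => A z.1 * B z.2 * (hh ((z.1 - ω) / d) * et ((z.2 - ω) / d)))
        = fun z : ℝ × ℝ => (hh ((z.1 - ω) / d) * A z.1) * (et ((z.2 - ω) / d) * B z.2) := by
      ext z
      ring
    rw [this]
    have h3 := integral_prod_mul (μ := (volume : Measure ℝ)) (ν := (volume : Measure ℝ))
      (fun x => hh ((x - ω) / d) * A x) (fun y => et ((y - ω) / d) * B y)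
    rw [← Measure.volume_eq_prod] at h3
    rw [h3]
    unfold a0 b0
    ring

theorem avg58 : StAvg := by
  intro A B hA hA' hB hB' r hr n C hC
  -- the scales
  have hd : ∀ j : ℕ, 0 < (2:ℝ) ^ j * r := fun j => by positivity
  set φ : ℕ → ℝ → ℝ≥0∞ := fun j ω =>
    ENNReal.ofReal ((2 ^ j * r)⁻¹ * |a0 A (2 ^ j * r) ω| * |b0 B (2 ^ j * r) ω|) with hφd
  have hφm : ∀ j, Measurable (φ j) := by
    intro j
    apply Measurable.ennreal_ofReal
    exact ((a0_meas A hA _).measurable.abs.const_mul _).mul (b0_meas B hB _).measurable.abs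
  -- the hypothesis, integrated
  have key : ∑ j ∈ Finset.range n, ENNReal.ofReal ((2 ^ j * r)⁻¹) * ∫⁻ ω, φ j ω ≤ C := by
    set L : ℝ := 2 ^ n * r with hL
    have hLpos : 0 < L := by positivity
    have h1 : ∫⁻ ω in Ioc 0 L, (∑ j ∈ Finset.range n, ∑' k : ℤ, φ j (ω + k * (2 ^ j * r)))
        ≤ ∫⁻ _ω in Ioc 0 L, C := by
      apply lintegral_mono
      intro ω
      have := hC ω
      simp only [term_eq A B (hd _)] at this
      exact this
    rw [lintegral_const, Measure.restrict_apply_univ, Real.volume_Ioc, sub_zero] at h1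
    rw [lintegral_finsetSum _ (fun j _ => by
      apply Measurable.tsum
      intro k
      exact (hφm j).comp (measurable_id.add_const _))] at h1
    have h2 : ∀ j ∈ Finset.range n,
        ∫⁻ ω in Ioc 0 L, ∑' k : ℤ, φ j (ω + k * (2 ^ j * r))
          = ENNReal.ofReal L * (ENNReal.ofReal ((2 ^ j * r)⁻¹) * ∫⁻ ω, φ j ω) := by
      intro j hj
      have hjn : j ≤ n := (Finset.mem_range.mp hj).le
      have hL' : L = ((2 ^ (n - j) : ℕ) : ℝ) * (2 ^ j * r) := by
        push_cast
        rw [hL, ← mul_assoc, ← pow_add, Nat.sub_add_cancel hjn]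
      rw [hL', period (φ j) (hφm j) (hd j), ← mul_assoc, ← ENNReal.ofReal_mul (by positivity),
        mul_assoc, mul_inv_cancel₀ (hd j).ne', mul_one, ENNReal.ofReal_natCast]
    rw [Finset.sum_congr rfl h2, ← Finset.mul_sum, mul_comm C] at h1
    exact (ENNReal.mul_le_mul_iff_right (by simpa using hLpos) ENNReal.ofReal_ne_top).mp h1
  -- the form
  have hform : ∫ x, ∫ y, A x * B y *
      ∑ j ∈ Finset.range n, (2 ^ j * r)⁻¹ * kap ((x - y) / (2 ^ j * r))
      = ∑ j ∈ Finset.range n, ∫ ω, (2 ^ j * r)⁻¹ * ((2 ^ j * r)⁻¹ *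
          (a0 A (2 ^ j * r) ω * b0 B (2 ^ j * r) ω)) := by
    have hi : Integrable (fun z : ℝ × ℝ => ∑ j ∈ Finset.range n,
        A z.1 * B z.2 * ((2 ^ j * r)⁻¹ * kap ((z.1 - z.2) / (2 ^ j * r)))) :=
      integrable_finsetSum _ (fun j _ => (scale_int A B hA hA' hB hB' (hd j)).1)
    have h3 := integral_prod _ hi
    rw [← Measure.volume_eq_prod] at h3
    simp only [Finset.mul_sum]
    rw [← h3, integral_finsetSum _ (fun j _ => (scale_int A B hA hA' hB hB' (hd j)).1)]
    exact Finset.sum_congr rfl (fun j _ => (scale_int A B hA hA' hB hB' (hd j)).2)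
  rw [hform]
  refine le_trans ?_ key
  have h4 : ∀ j, ENNReal.ofReal |∫ ω, (2 ^ j * r)⁻¹ * ((2 ^ j * r)⁻¹ *
          (a0 A (2 ^ j * r) ω * b0 B (2 ^ j * r) ω))| ≤
      ENNReal.ofReal ((2 ^ j * r)⁻¹) * ∫⁻ ω, φ j ω := by
    intro j
    rw [integral_const_mul, abs_mul, abs_of_pos (inv_pos.mpr (hd j)),
      ENNReal.ofReal_mul (inv_pos.mpr (hd j)).le]
    gcongr
    rw [← Real.norm_eq_abs, ofReal_norm]
    refine (enorm_integral_le_lintegral_enorm _).trans ?_
    apply lintegral_mono
    intro ω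
    simp only [hφd]
    rw [← ofReal_norm, norm_mul, norm_mul, Real.norm_eq_abs, Real.norm_eq_abs,
      Real.norm_eq_abs, abs_of_pos (inv_pos.mpr (hd j)), mul_assoc]
  calc ENNReal.ofReal |∑ j ∈ Finset.range n, ∫ ω, (2 ^ j * r)⁻¹ * ((2 ^ j * r)⁻¹ *
          (a0 A (2 ^ j * r) ω * b0 B (2 ^ j * r) ω))|
      ≤ ENNReal.ofReal (∑ j ∈ Finset.range n, |∫ ω, (2 ^ j * r)⁻¹ * ((2 ^ j * r)⁻¹ *
          (a0 A (2 ^ j * r) ω * b0 B (2 ^ j * r) ω))|) :=
        ENNReal.ofReal_le_ofReal (Finset.abs_sum_le_sum_abs _ _)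
    _ = ∑ j ∈ Finset.range n, ENNReal.ofReal |∫ ω, (2 ^ j * r)⁻¹ * ((2 ^ j * r)⁻¹ *
          (a0 A (2 ^ j * r) ω * b0 B (2 ^ j * r) ω))| :=
        ENNReal.ofReal_sum_of_nonneg (fun _ _ => abs_nonneg _)
    _ ≤ _ := Finset.sum_le_sum (fun j _ => h4 j)

end Pool.Agent.Lib.SX53.A58
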