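import Pool.Agent.Lib.MP_5ef378_an.SX.Defs53

/-!
Row BIG of page SX: the sum over the frozen variables, from the maximal theorem on the line,
pointwise Hoelder, reflections, Hoelder on hyperplanes and measurability.
-/

set_option autoImplicit false

open MeasureTheory Set
open scoped ENNReal

namespace Pool.Agent.Lib.SX53.Big76

/-- The maximal function of order three. -/
noncomputable def M3 (φ : ℝ → ℝ≥0∞) (t : ℝ) : ℝ≥0∞ := MM (fun x => φ x ^ 3) t ^ (1 / 3 : ℝ)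

lemma M3_def (φ : ℝ → ℝ≥0∞) (t : ℝ) :
    M3 φ t = MM (fun x => φ x ^ 3) t ^ (1 / 3 : ℝ) := rfl

lemma M3_pow (φ : ℝ → ℝ≥0∞) (t : ℝ) : M3 φ t ^ 4 = MM (fun x => φ x ^ 3) t ^ (4 / 3 : ℝ) := by
  unfold M3
  rw [← ENNReal.rpow_natCast, ← ENNReal.rpow_mul]
  norm_num

lemma pow_b (a : ℝ≥0∞) : (a ^ 3) ^ (4 / 3 : ℝ) = a ^ 4 := by
  rw [← ENNReal.rpow_natCast, ← ENNReal.rpow_mul, ← ENNReal.rpow_natCast]
  norm_num

lemma hl4 {C : ℝ≥0∞} (hC : ∀ φ : ℝ → ℝ≥0∞, Measurable φ →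
    ∫⁻ t, MM φ t ^ (4 / 3 : ℝ) ≤ C * ∫⁻ t, φ t ^ (4 / 3 : ℝ)) (φ : ℝ → ℝ≥0∞)
    (hφ : Measurable φ) : ∫⁻ t, M3 φ t ^ 4 ≤ C * ∫⁻ t, φ t ^ 4 := by
  have := hC (fun x => φ x ^ 3) (hφ.pow_const 3)
  simp only [M3_pow]
  simpa only [pow_b] using this

section swaps

variable {F : ℝ → ℝ → ℝ → ℝ≥0∞}

lemma swap23 (hF : Measurable (fun z : ℝ × ℝ × ℝ => F z.1 z.2.1 z.2.2)) :
    ∫⁻ x, ∫⁻ y, ∫⁻ z, F x y z = ∫⁻ x, ∫⁻ z, ∫⁻ y, F x y z := by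
  refine lintegral_congr fun x => ?_
  rw [lintegral_lintegral_swap]
  exact (hF.comp (measurable_const.prodMk measurable_id :
    Measurable (fun q : ℝ × ℝ => (x, q)))).aemeasurable

lemma swap12 (hF : Measurable (fun z : ℝ × ℝ × ℝ => F z.1 z.2.1 z.2.2)) :
    ∫⁻ x, ∫⁻ y, ∫⁻ z, F x y z = ∫⁻ y, ∫⁻ x, ∫⁻ z, F x y z := by
  rw [lintegral_lintegral_swap]
  have : Measurable (fun q : ℝ × ℝ => ∫⁻ z, F q.1 q.2 z) := by
    apply Measurable.lintegral_prod_right' (f := fun q : (ℝ × ℝ) × ℝ => F q.1.1 q.1.2 q.2)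
    exact hF.comp (by fun_prop : Measurable (fun q : (ℝ × ℝ) × ℝ => (q.1.1, q.1.2, q.2)))
  exact this.aemeasurable

/-- The outer variable to the inside. -/
lemma rot (hF : Measurable (fun z : ℝ × ℝ × ℝ => F z.1 z.2.1 z.2.2)) :
    ∫⁻ x, ∫⁻ y, ∫⁻ z, F x y z = ∫⁻ y, ∫⁻ z, ∫⁻ x, F x y z := by
  rw [swap12 hF]
  refine swap23 (F := fun y x z => F x y z) ?_
  exact hF.comp (by fun_prop : Measurable (fun q : ℝ × ℝ × ℝ => (q.2.1, q.1, q.2.2)))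

/-- The inner variable to the outside. -/
lemma rot' (hF : Measurable (fun z : ℝ × ℝ × ℝ => F z.1 z.2.1 z.2.2)) :
    ∫⁻ x, ∫⁻ y, ∫⁻ z, F x y z = ∫⁻ z, ∫⁻ x, ∫⁻ y, F x y z := by
  rw [swap23 hF]
  refine swap12 (F := fun x z y => F x y z) ?_
  exact hF.comp (by fun_prop : Measurable (fun q : ℝ × ℝ × ℝ => (q.1, q.2.2, q.2.1)))

end swaps

lemma mes3 (hM : StMes) {f : ℝ × ℝ × ℝ → ℝ} (hf : Continuous f) :
    Measurable (fun z : ℝ × ℝ × ℝ => M3 (fun x => ‖f (x, z.2.1, z.2.2)‖ₑ) z.1) := by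
  unfold M3
  exact (hM f hf).pow_const _

lemma mes2 (hM : StMes) {f : ℝ × ℝ → ℝ} (hf : Continuous f) :
    Measurable (fun z : ℝ × ℝ => M3 (fun x => ‖f (x, z.2)‖ₑ) z.1) := by
  have h := mes3 hM (f := fun q : ℝ × ℝ × ℝ => f (q.1, q.2.1)) (by fun_prop)
  have h2 := h.comp (by fun_prop : Measurable (fun q : ℝ × ℝ => (q.1, q.2, (0 : ℝ))))
  simpa only [Function.comp_def] using h2

attribute [local irreducible] M3 MM

lemma pt3 (hP : StPt) {f l p : ℝ → ℝ} (hf : Continuous f) (hl : Continuous l)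
    (hp : Continuous p) (t : ℝ) :
    MM (fun x => ‖f x * l x * p x‖ₑ) t ≤
      M3 (fun x => ‖f x‖ₑ) t * M3 (fun x => ‖l x‖ₑ) t * M3 (fun x => ‖p x‖ₑ) t := by
  have := hP (fun x => ‖f x‖ₑ) (fun x => ‖l x‖ₑ) (fun x => ‖p x‖ₑ)
    hf.measurable.enorm hl.measurable.enorm hp.measurable.enorm t
  simpa only [enorm_mul, M3_def] using this

theorem big76 (hHL : StHL) (hP : StPt) (hI : StInv) (hH : StHyp) (hM : StMes) : StBig := by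
  obtain ⟨C, hC, hC'⟩ := hHL
  refine ⟨C ^ (1 / 4 : ℝ) * C ^ (1 / 4 : ℝ) * (C * C) ^ (1 / 4 : ℝ) * (C * C) ^ (1 / 4 : ℝ),
    ?_, ?_⟩
  · have h4 : (0 : ℝ) ≤ 1 / 4 := by norm_num
    have a1 : C ^ (1 / 4 : ℝ) ≠ ⊤ := ENNReal.rpow_ne_top_of_nonneg h4 hC
    have a2 : (C * C) ^ (1 / 4 : ℝ) ≠ ⊤ :=
      ENNReal.rpow_ne_top_of_nonneg h4 (ENNReal.mul_ne_top hC hC)
    exact ENNReal.mul_ne_top (ENNReal.mul_ne_top (ENNReal.mul_ne_top a1 a1) a2) a2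
  intro f g e l p r hf _ hg _ he _ hl _ hp _ hr _
  -- the six maximal functions
  set F : ℝ → ℝ → ℝ → ℝ≥0∞ := fun x y z => M3 (fun u => ‖f (u, y, z)‖ₑ) x with hFd
  set G : ℝ → ℝ → ℝ → ℝ≥0∞ := fun y z w => M3 (fun u => ‖g (y, z, u)‖ₑ) w with hGd
  set E : ℝ → ℝ → ℝ≥0∞ := fun z w => M3 (fun u => ‖e (z, u)‖ₑ) w with hEd
  set L : ℝ → ℝ → ℝ≥0∞ := fun z x => M3 (fun u => ‖l (z, u)‖ₑ) x with hLd
  set R : ℝ → ℝ → ℝ≥0∞ := fun w y => M3 (fun u => ‖r (u, y)‖ₑ) w with hRd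
  set P : ℝ → ℝ → ℝ≥0∞ := fun x y => M3 (fun u => ‖p (u, y)‖ₑ) x with hPd
  have mF : Measurable (fun z : ℝ × ℝ × ℝ => F z.1 z.2.1 z.2.2) := mes3 hM hf
  have mG : Measurable (fun z : ℝ × ℝ × ℝ => G z.1 z.2.1 z.2.2) := by
    have h := mes3 hM (f := fun q : ℝ × ℝ × ℝ => g (q.2.1, q.2.2, q.1)) (by fun_prop)
    have h2 := h.comp (by fun_prop : Measurable (fun q : ℝ × ℝ × ℝ => (q.2.2, q.1, q.2.1)))
    simpa only [Function.comp_def] using h2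
  have mE : Measurable (fun z : ℝ × ℝ => E z.1 z.2) := by
    have h := mes2 hM (f := fun q : ℝ × ℝ => e (q.2, q.1)) (by fun_prop)
    have h2 := h.comp (by fun_prop : Measurable (fun q : ℝ × ℝ => (q.2, q.1)))
    simpa only [Function.comp_def] using h2
  have mL : Measurable (fun z : ℝ × ℝ => L z.1 z.2) := by
    have h := mes2 hM (f := fun q : ℝ × ℝ => l (q.2, q.1)) (by fun_prop)
    have h2 := h.comp (by fun_prop : Measurable (fun q : ℝ × ℝ => (q.2, q.1)))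
    simpa only [Function.comp_def] using h2
  have mR : Measurable (fun z : ℝ × ℝ => R z.1 z.2) := mes2 hM hr
  have mP : Measurable (fun z : ℝ × ℝ => P z.1 z.2) := mes2 hM hp
  set H : ℝ → ℝ → ℝ → ℝ≥0∞ := fun z w x => E z w * L z x with hHd
  set K : ℝ → ℝ → ℝ → ℝ≥0∞ := fun w x y => R w y * P x y with hKd
  have mH : Measurable (fun z : ℝ × ℝ × ℝ => H z.1 z.2.1 z.2.2) := by
    have h1 := mE.comp (by fun_prop : Measurable (fun q : ℝ × ℝ × ℝ => (q.1, q.2.1)))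
    have h2 := mL.comp (by fun_prop : Measurable (fun q : ℝ × ℝ × ℝ => (q.1, q.2.2)))
    exact h1.mul h2
  have mK : Measurable (fun z : ℝ × ℝ × ℝ => K z.1 z.2.1 z.2.2) := by
    have h1 := mR.comp (by fun_prop : Measurable (fun q : ℝ × ℝ × ℝ => (q.1, q.2.2)))
    have h2 := mP.comp (by fun_prop : Measurable (fun q : ℝ × ℝ × ℝ => (q.2.1, q.2.2)))
    exact h1.mul h2
  -- the integrand
  set Φ : ℝ → ℝ → ℝ → ℝ≥0∞ := fun x y z => F x y z * G y z (0 - x - y - z) *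
    H z (0 - x - y - z) x * K (0 - x - y - z) x y with hΦd
  have mΦ : Measurable (fun z : ℝ × ℝ × ℝ => Φ z.1 z.2.1 z.2.2) := by
    have h2 := mG.comp (by fun_prop :
      Measurable (fun q : ℝ × ℝ × ℝ => (q.2.1, q.2.2, 0 - q.1 - q.2.1 - q.2.2)))
    have h3 := mH.comp (by fun_prop :
      Measurable (fun q : ℝ × ℝ × ℝ => (q.2.2, 0 - q.1 - q.2.1 - q.2.2, q.1)))
    have h4 := mK.comp (by fun_prop :
      Measurable (fun q : ℝ × ℝ × ℝ => (0 - q.1 - q.2.1 - q.2.2, q.1, q.2.1)))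
    exact ((mF.mul h2).mul h3).mul h4
  have point : ∀ y z x : ℝ,
      MM (fun x => ‖f (x, y, z) * l (z, x) * p (x, y)‖ₑ) x *
      MM (fun u => ‖g (y, z, -y - z - u) * e (z, -y - z - u) * r (-y - z - u, y)‖ₑ) x
        ≤ Φ x y z := by
    intro y z x
    have h1 := pt3 hP (f := fun x => f (x, y, z)) (l := fun x => l (z, x))
      (p := fun x => p (x, y)) (by fun_prop) (by fun_prop) (by fun_prop) x
    have h2 := hI (fun u => ‖g (y, z, u) * e (z, u) * r (u, y)‖ₑ) (-y - z) x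
    have h3 := pt3 hP (f := fun u => g (y, z, u)) (l := fun u => e (z, u))
      (p := fun u => r (u, y)) (by fun_prop) (by fun_prop) (by fun_prop) (-y - z - x)
    rw [h2]
    refine (mul_le_mul' h1 h3).trans (le_of_eq ?_)
    have hx : -y - z - x = 0 - x - y - z := by ring
    simp only [hΦd, hHd, hKd, hFd, hGd, hEd, hLd, hRd, hPd, hx]
    ring
  have step1 : ∫⁻ x2 : ℝ, ∫⁻ x3 : ℝ, ∫⁻ t : ℝ,
      MM (fun x => ‖f (x, x2, x3) * l (x3, x) * p (x, x2)‖ₑ) t *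
      MM (fun y => ‖g (x2, x3, -x2 - x3 - y) * e (x3, -x2 - x3 - y) *
        r (-x2 - x3 - y, x2)‖ₑ) t ≤ ∫⁻ x, ∫⁻ y, ∫⁻ z, Φ x y z := by
    rw [rot mΦ]
    exact lintegral_mono fun y => lintegral_mono fun z => lintegral_mono fun x => point y z x
  refine step1.trans ((hH F G H K mF mG mH mK 0).trans ?_)
  -- the four norms
  have nF : ∫⁻ x, ∫⁻ y, ∫⁻ z, F x y z ^ 4 ≤ C * ∫⁻ x, ∫⁻ y, ∫⁻ z, ‖f (x, y, z)‖ₑ ^ 4 := by
    have m1 : Measurable (fun z : ℝ × ℝ × ℝ => F z.1 z.2.1 z.2.2 ^ 4) := mF.pow_const 4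
    have m2 : Measurable (fun z : ℝ × ℝ × ℝ => ‖f (z.1, z.2.1, z.2.2)‖ₑ ^ 4) :=
      hf.measurable.enorm.pow_const 4
    rw [rot (F := fun x y z => F x y z ^ 4) m1,
      rot (F := fun x y z => ‖f (x, y, z)‖ₑ ^ 4) m2]
    have key : ∀ y z : ℝ, ∫⁻ x, F x y z ^ 4 ≤ C * ∫⁻ x, ‖f (x, y, z)‖ₑ ^ 4 := fun y z =>
      hl4 hC' (fun x => ‖f (x, y, z)‖ₑ)
        (hf.comp (by fun_prop : Continuous fun x : ℝ => (x, y, z))).measurable.enorm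
    calc ∫⁻ y, ∫⁻ z, ∫⁻ x, F x y z ^ 4 ≤ ∫⁻ y, ∫⁻ z, C * ∫⁻ x, ‖f (x, y, z)‖ₑ ^ 4 :=
          lintegral_mono fun y => lintegral_mono fun z => key y z
      _ = C * ∫⁻ y, ∫⁻ z, ∫⁻ x, ‖f (x, y, z)‖ₑ ^ 4 := by
          simp_rw [lintegral_const_mul' _ _ hC]
  have nG : ∫⁻ x, ∫⁻ y, ∫⁻ z, G x y z ^ 4 ≤ C * ∫⁻ x, ∫⁻ y, ∫⁻ z, ‖g (x, y, z)‖ₑ ^ 4 := by
    have key : ∀ x y : ℝ, ∫⁻ z, G x y z ^ 4 ≤ C * ∫⁻ z, ‖g (x, y, z)‖ₑ ^ 4 := fun x y =>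
      hl4 hC' (fun z => ‖g (x, y, z)‖ₑ)
        (hg.comp (by fun_prop : Continuous fun z : ℝ => (x, y, z))).measurable.enorm
    calc ∫⁻ x, ∫⁻ y, ∫⁻ z, G x y z ^ 4 ≤ ∫⁻ x, ∫⁻ y, C * ∫⁻ z, ‖g (x, y, z)‖ₑ ^ 4 :=
          lintegral_mono fun x => lintegral_mono fun y => key x y
      _ = C * ∫⁻ x, ∫⁻ y, ∫⁻ z, ‖g (x, y, z)‖ₑ ^ 4 := by
          simp_rw [lintegral_const_mul' _ _ hC]
  have nH : ∫⁻ x, ∫⁻ y, ∫⁻ z, H x y z ^ 4 ≤
      (C * C) * ∫⁻ x, ∫⁻ y, ∫⁻ z, ‖e (x, y) * l (x, z)‖ₑ ^ 4 := by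
    have key : ∀ x : ℝ, ∫⁻ y, ∫⁻ z, H x y z ^ 4 ≤
        (C * C) * ∫⁻ y, ∫⁻ z, ‖e (x, y) * l (x, z)‖ₑ ^ 4 := by
      intro x
      have mE' : Measurable (fun y => E x y ^ 4) :=
        (mE.comp (measurable_const.prodMk measurable_id :
          Measurable (fun y : ℝ => (x, y)))).pow_const 4
      have mL' : Measurable (fun y => L x y ^ 4) :=
        (mL.comp (measurable_const.prodMk measurable_id :
          Measurable (fun y : ℝ => (x, y)))).pow_const 4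
      have a1 : ∫⁻ y, ∫⁻ z, H x y z ^ 4 = (∫⁻ y, E x y ^ 4) * ∫⁻ z, L x z ^ 4 := by
        simp only [hHd, mul_pow]
        exact lintegral_lintegral_mul mE'.aemeasurable mL'.aemeasurable
      have a2 : ∫⁻ y, ∫⁻ z, ‖e (x, y) * l (x, z)‖ₑ ^ 4 =
          (∫⁻ y, ‖e (x, y)‖ₑ ^ 4) * ∫⁻ z, ‖l (x, z)‖ₑ ^ 4 := by
        simp only [enorm_mul, mul_pow]
        exact lintegral_lintegral_mul (f := fun y => ‖e (x, y)‖ₑ ^ 4)
          (g := fun z => ‖l (x, z)‖ₑ ^ 4) (by fun_prop) (by fun_prop)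
      rw [a1, a2]
      have b1 := hl4 hC' (fun y => ‖e (x, y)‖ₑ)
        (he.comp (by fun_prop : Continuous fun y : ℝ => (x, y))).measurable.enorm
      have b2 := hl4 hC' (fun y => ‖l (x, y)‖ₑ)
        (hl.comp (by fun_prop : Continuous fun y : ℝ => (x, y))).measurable.enorm
      refine (mul_le_mul' b1 b2).trans (le_of_eq ?_)
      ring
    calc ∫⁻ x, ∫⁻ y, ∫⁻ z, H x y z ^ 4 ≤
          ∫⁻ x, (C * C) * ∫⁻ y, ∫⁻ z, ‖e (x, y) * l (x, z)‖ₑ ^ 4 := lintegral_mono key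
      _ = (C * C) * ∫⁻ x, ∫⁻ y, ∫⁻ z, ‖e (x, y) * l (x, z)‖ₑ ^ 4 :=
          lintegral_const_mul' _ _ (ENNReal.mul_ne_top hC hC)
  have nK : ∫⁻ x, ∫⁻ y, ∫⁻ z, K x y z ^ 4 ≤
      (C * C) * ∫⁻ x, ∫⁻ y, ∫⁻ z, ‖r (x, z) * p (y, z)‖ₑ ^ 4 := by
    have m1 : Measurable (fun z : ℝ × ℝ × ℝ => K z.1 z.2.1 z.2.2 ^ 4) := mK.pow_const 4
    have m2 : Measurable (fun z : ℝ × ℝ × ℝ => ‖r (z.1, z.2.2) * p (z.2.1, z.2.2)‖ₑ ^ 4) := by
      fun_prop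
    rw [rot' (F := fun x y z => K x y z ^ 4) m1,
      rot' (F := fun x y z => ‖r (x, z) * p (y, z)‖ₑ ^ 4) m2]
    have key : ∀ z : ℝ, ∫⁻ x, ∫⁻ y, K x y z ^ 4 ≤
        (C * C) * ∫⁻ x, ∫⁻ y, ‖r (x, z) * p (y, z)‖ₑ ^ 4 := by
      intro z
      have mR' : Measurable (fun x => R x z ^ 4) :=
        (mR.comp (measurable_id.prodMk measurable_const :
          Measurable (fun x : ℝ => (x, z)))).pow_const 4
      have mP' : Measurable (fun y => P y z ^ 4) :=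
        (mP.comp (measurable_id.prodMk measurable_const :
          Measurable (fun y : ℝ => (y, z)))).pow_const 4
      have a1 : ∫⁻ x, ∫⁻ y, K x y z ^ 4 = (∫⁻ x, R x z ^ 4) * ∫⁻ y, P y z ^ 4 := by
        simp only [hKd, mul_pow]
        exact lintegral_lintegral_mul mR'.aemeasurable mP'.aemeasurable
      have a2 : ∫⁻ x, ∫⁻ y, ‖r (x, z) * p (y, z)‖ₑ ^ 4 =
          (∫⁻ x, ‖r (x, z)‖ₑ ^ 4) * ∫⁻ y, ‖p (y, z)‖ₑ ^ 4 := by
        simp only [enorm_mul, mul_pow]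
        exact lintegral_lintegral_mul (f := fun x => ‖r (x, z)‖ₑ ^ 4)
          (g := fun y => ‖p (y, z)‖ₑ ^ 4) (by fun_prop) (by fun_prop)
      rw [a1, a2]
      have b1 := hl4 hC' (fun x => ‖r (x, z)‖ₑ)
        (hr.comp (by fun_prop : Continuous fun x : ℝ => (x, z))).measurable.enorm
      have b2 := hl4 hC' (fun y => ‖p (y, z)‖ₑ)
        (hp.comp (by fun_prop : Continuous fun y : ℝ => (y, z))).measurable.enorm
      refine (mul_le_mul' b1 b2).trans (le_of_eq ?_)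
      ring
    calc ∫⁻ z, ∫⁻ x, ∫⁻ y, K x y z ^ 4 ≤
          ∫⁻ z, (C * C) * ∫⁻ x, ∫⁻ y, ‖r (x, z) * p (y, z)‖ₑ ^ 4 := lintegral_mono key
      _ = (C * C) * ∫⁻ z, ∫⁻ x, ∫⁻ y, ‖r (x, z) * p (y, z)‖ₑ ^ 4 :=
          lintegral_const_mul' _ _ (ENNReal.mul_ne_top hC hC)
  have h4 : (0 : ℝ) ≤ 1 / 4 := by norm_num
  refine (mul_le_mul' (mul_le_mul' (mul_le_mul' (ENNReal.rpow_le_rpow nF h4)
    (ENNReal.rpow_le_rpow nG h4)) (ENNReal.rpow_le_rpow nH h4))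
    (ENNReal.rpow_le_rpow nK h4)).trans (le_of_eq ?_)
  simp only [ENNReal.mul_rpow_of_nonneg _ _ h4]
  ring

end Pool.Agent.Lib.SX53.Big76
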