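import Pool.Agent.Lib.MP_5ef378_an.SX.Avg58

/-!
Row DIL: averaging over dilations.
-/

set_option autoImplicit false

open MeasureTheory Set
open scoped ENNReal

namespace Pool.Agent.Lib.SX53.D58

open Pool.Agent.Lib.SX53 Pool.Agent.Lib.SX53.A58

lemma kap_meas : Measurable kap := by
  have h : StronglyMeasurable (fun z : ℝ × ℝ => hh (z.2 + z.1) * et z.2) := by
    apply Measurable.stronglyMeasurable
    exact (hh_meas.comp (measurable_snd.add measurable_fst)).mul (et_meas.comp measurable_snd)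
  exact h.integral_prod_right'.measurable

lemma kap_bd (s : ℝ) : |kap s| ≤ 1 := by
  have h : kap s = ∫ w in Icc (0:ℝ) 1, hh (w + s) * et w := by
    refine (setIntegral_eq_integral_of_forall_compl_eq_zero (fun w hw => ?_)).symm
    rw [et_zero, mul_zero]
    rw [mem_Icc, not_and_or, not_le, not_le] at hw
    rcases hw with hw | hw
    · exact Or.inl hw
    · exact Or.inr hw.le
  rw [h, ← Real.norm_eq_abs]
  have h2 := norm_setIntegral_le_of_norm_le_const (μ := volume) (s := Icc (0:ℝ) 1) (C := 1)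
    (f := fun w => hh (w + s) * et w) (by simp) (by
      intro w _
      rw [norm_mul]
      exact mul_le_one₀ (hh_bd _) (norm_nonneg _) (et_bd _))
  simpa using h2

theorem dil58 : StDil := by
  intro A B hA hA' hB hB' a ha n C hC
  by_cases hCt : C = ⊤
  · rw [hCt, ENNReal.mul_top (by norm_num)]
    exact le_top
  have ha2 : a ≤ 2 * a := by linarith
  have hAi : Integrable A := hA.integrable_of_hasCompactSupport hA'
  have hBi : Integrable B := hB.integrable_of_hasCompactSupport hB'
  have h1 : Integrable (fun z : ℝ × ℝ => A z.1 * B z.2) := hAi.mul_prod hBi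
  -- the triple integrand
  obtain ⟨S, hS⟩ : ∃ S : ℝ → ℝ → ℝ, S = fun r s =>
    ∑ j ∈ Finset.range n, (2 ^ j * r ^ 2)⁻¹ * kap (s / (2 ^ j * r)) := ⟨_, rfl⟩
  have hSm : Measurable (fun p : ℝ × ℝ => S p.1 p.2) := by
    rw [hS]
    refine Finset.measurable_fun_sum _ (fun j _ => ?_)
    refine Measurable.mul ?_ (kap_meas.comp ?_)
    · exact ((measurable_fst.pow_const 2).const_mul _).inv
    · exact measurable_snd.div (measurable_fst.const_mul _)
  have hSb : ∀ r, a < r → ∀ s, |S r s| ≤ n * (a ^ 2)⁻¹ := by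
    intro r hr s
    have : ∀ j ∈ Finset.range n, |(2 ^ j * r ^ 2)⁻¹ * kap (s / (2 ^ j * r))| ≤ (a ^ 2)⁻¹ := by
      intro j _
      rw [abs_mul]
      have h2 : |((2:ℝ) ^ j * r ^ 2)⁻¹| ≤ (a ^ 2)⁻¹ := by
        have hr0 : 0 < r := ha.trans hr
        rw [abs_of_pos (by positivity)]
        apply inv_anti₀ (by positivity)
        have h3 : (1:ℝ) ≤ 2 ^ j := one_le_pow₀ (by norm_num)
        nlinarith [pow_le_pow_left₀ ha.le hr.le 2, pow_pos hr0 2]
      calc _ ≤ (a ^ 2)⁻¹ * 1 := mul_le_mul h2 (kap_bd _) (abs_nonneg _) (by positivity)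
        _ = _ := mul_one _
    calc |S r s| ≤ ∑ j ∈ Finset.range n, |(2 ^ j * r ^ 2)⁻¹ * kap (s / (2 ^ j * r))| := by
          rw [hS]
          exact Finset.abs_sum_le_sum_abs _ _
      _ ≤ ∑ _j ∈ Finset.range n, (a ^ 2)⁻¹ := Finset.sum_le_sum this
      _ = _ := by simp
  set μ : Measure ℝ := volume.restrict (Ioc a (2 * a)) with hμ
  have hG : Integrable (fun p : (ℝ × ℝ) × ℝ => (A p.1.1 * B p.1.2) * S p.2 (p.1.1 - p.1.2))
      (volume.prod μ) := by
    have h2 : Integrable (fun _ : ℝ => (n * (a ^ 2)⁻¹ : ℝ)) μ := by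
      apply integrable_const
    have h3 := h1.mul_prod h2
    refine h3.mono ?_ ?_
    · apply Measurable.aestronglyMeasurable
      refine Measurable.mul ?_ ?_
      · exact (hA.measurable.comp (measurable_fst.comp measurable_fst)).mul
          (hB.measurable.comp (measurable_snd.comp measurable_fst))
      · have hm : Measurable (fun p : (ℝ × ℝ) × ℝ => (p.2, p.1.1 - p.1.2)) :=
          measurable_snd.prodMk
            ((measurable_fst.comp measurable_fst).sub (measurable_snd.comp measurable_fst))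
        exact hSm.comp hm
    · have hae : ∀ᵐ p : (ℝ × ℝ) × ℝ ∂(volume.prod μ), p.2 ∈ Ioc a (2 * a) := by
        have : ∀ᵐ r ∂μ, r ∈ Ioc a (2 * a) := ae_restrict_mem measurableSet_Ioc
        exact Measure.quasiMeasurePreserving_snd.ae this
      filter_upwards [hae] with p hp
      rw [norm_mul (A p.1.1 * B p.1.2), norm_mul (A p.1.1 * B p.1.2), Real.norm_eq_abs (S _ _),
        Real.norm_of_nonneg (by positivity : (0:ℝ) ≤ n * (a ^ 2)⁻¹)]
      exact mul_le_mul_of_nonneg_left (hSb _ hp.1 _) (norm_nonneg _)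
  -- the form with kernel KK
  have hKK : ∀ s, KK a n s = 8 * ∫ r, S r s ∂μ := by
    intro s
    unfold KK
    rw [intervalIntegral.integral_of_le ha2, hS]
  have hin : Integrable (fun z : ℝ × ℝ => A z.1 * B z.2 * KK a n (z.1 - z.2)) := by
    have := (hG.integral_prod_left).const_mul 8
    refine this.congr (Filter.Eventually.of_forall (fun z => ?_))
    simp only [hKK, integral_const_mul]
    ring
  have e1 : ∫ x, ∫ y, A x * B y * KK a n (x - y) =
      8 * ∫ r, (∫ z : ℝ × ℝ, (A z.1 * B z.2) * S r (z.1 - z.2)) ∂μ := by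
    have h3 := integral_prod _ hin
    rw [← Measure.volume_eq_prod] at h3
    rw [← h3]
    have h4 : (fun z : ℝ × ℝ => A z.1 * B z.2 * KK a n (z.1 - z.2)) =
        fun z => 8 * ∫ r, (A z.1 * B z.2) * S r (z.1 - z.2) ∂μ := by
      ext z
      rw [hKK, integral_const_mul]
      ring
    rw [h4, integral_const_mul]
    congr 1
    exact integral_integral_swap (f := fun (z : ℝ × ℝ) (r : ℝ) =>
      (A z.1 * B z.2) * S r (z.1 - z.2)) hG
  -- each dilation
  have e2 : ∀ r, a < r → r ≤ 2 * a →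
      ‖∫ z : ℝ × ℝ, (A z.1 * B z.2) * S r (z.1 - z.2)‖ ≤ r⁻¹ * C.toReal := by
    intro r hr1 hr2
    have hr0 : 0 < r := ha.trans hr1
    have hd : ∀ j : ℕ, 0 < (2:ℝ) ^ j * r := fun j => by positivity
    have h5 : (fun z : ℝ × ℝ => (A z.1 * B z.2) * S r (z.1 - z.2)) =
        fun z => r⁻¹ * (A z.1 * B z.2 *
          ∑ j ∈ Finset.range n, (2 ^ j * r)⁻¹ * kap ((z.1 - z.2) / (2 ^ j * r))) := by
      ext z
      simp only [hS, Finset.mul_sum]
      refine Finset.sum_congr rfl (fun j _ => ?_)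
      have : ((2:ℝ) ^ j * r ^ 2)⁻¹ = r⁻¹ * (2 ^ j * r)⁻¹ := by
        rw [← mul_inv]
        ring
      rw [this]
      ring
    have hi : Integrable (fun z : ℝ × ℝ => A z.1 * B z.2 *
        ∑ j ∈ Finset.range n, (2 ^ j * r)⁻¹ * kap ((z.1 - z.2) / (2 ^ j * r))) := by
      simp only [Finset.mul_sum]
      exact integrable_finsetSum _ (fun j _ => (scale_int A B hA hA' hB hB' (hd j)).1)
    have h3 := integral_prod _ hi
    rw [← Measure.volume_eq_prod] at h3
    rw [h5, integral_const_mul, h3, norm_mul, Real.norm_of_nonneg (inv_pos.mpr hr0).le]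
    apply mul_le_mul_of_nonneg_left _ (inv_pos.mpr hr0).le
    have := hC r hr1.le hr2
    rw [Real.norm_eq_abs]
    exact (ENNReal.ofReal_le_iff_le_toReal hCt).mp this
  rw [e1]
  have e3 : ‖∫ r, (∫ z : ℝ × ℝ, (A z.1 * B z.2) * S r (z.1 - z.2)) ∂μ‖ ≤
      ∫ r, r⁻¹ * C.toReal ∂μ := by
    apply norm_integral_le_of_norm_le
    · apply Integrable.mul_const
      have : IntervalIntegrable (fun r : ℝ => r⁻¹) volume a (2 * a) := by
        apply intervalIntegral.intervalIntegrable_inv
        · intro x hx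
          rw [uIcc_of_le ha2] at hx
          exact (ha.trans_le hx.1).ne'
        · exact continuousOn_id
      exact this.1
    · filter_upwards [ae_restrict_mem measurableSet_Ioc] with r hr
      exact e2 r hr.1 hr.2
  have e4 : ∫ r, r⁻¹ * C.toReal ∂μ = Real.log 2 * C.toReal := by
    rw [integral_mul_const, hμ, ← intervalIntegral.integral_of_le ha2,
      integral_inv_of_pos ha (by linarith)]
    congr 2
    field_simp
  rw [e4] at e3
  rw [abs_mul, abs_of_pos (by norm_num : (0:ℝ) < 8)]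
  have h6 : 6 * C = ENNReal.ofReal (6 * C.toReal) := by
    rw [ENNReal.ofReal_mul (by norm_num), ENNReal.ofReal_toReal hCt]
    norm_num
  rw [h6]
  apply ENNReal.ofReal_le_ofReal
  rw [Real.norm_eq_abs] at e3
  have h7 := Real.log_two_lt_d9
  have h8 : 0 ≤ C.toReal := ENNReal.toReal_nonneg
  nlinarith

end Pool.Agent.Lib.SX53.D58

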