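import Pool.Agent.Lib.MP_5ef378_an.SX.Defs53

/-!
Rows ERR and KKC: the smooth truncation is the truncated kernel up to trivial errors.
-/

set_option autoImplicit false

open MeasureTheory Set Filter Topology

namespace Pool.Agent.Lib.SX53

/-- Row KKC. -/
theorem kkc17 (h : StKap) : StKKc := by
  intro a ha n
  have hc : Continuous kap := h.1
  have hF : Continuous (Function.uncurry fun (s r : ℝ) =>
      ∑ j ∈ Finset.range n, (2 ^ j * (max r a) ^ 2)⁻¹ * kap (s / (2 ^ j * max r a))) := by
    refine continuous_finset_sum _ fun j _ => ?_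
    have hm : ∀ p : ℝ × ℝ, 0 < max p.2 a := fun p => lt_max_of_lt_right ha
    refine Continuous.mul ?_ (hc.comp ?_)
    · refine Continuous.inv₀ (by fun_prop) fun p => ?_
      have := hm p
      positivity
    · refine Continuous.div (by fun_prop) (by fun_prop) fun p => ?_
      have := hm p
      positivity
  have h1 : Continuous fun s : ℝ => ∫ r in a..(2 * a),
      ∑ j ∈ Finset.range n, (2 ^ j * (max r a) ^ 2)⁻¹ * kap (s / (2 ^ j * max r a)) :=
    intervalIntegral.continuous_parametric_intervalIntegral_of_continuous' hF a (2 * a)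
  have h2 : KK a n = fun s : ℝ => 8 * ∫ r in a..(2 * a),
      ∑ j ∈ Finset.range n, (2 ^ j * (max r a) ^ 2)⁻¹ * kap (s / (2 ^ j * max r a)) := by
    funext s
    unfold KK
    congr 1
    refine intervalIntegral.integral_congr fun r hr => ?_
    rw [uIcc_of_le (by linarith)] at hr
    rw [max_eq_left hr.1]
  rw [h2]
  exact continuous_const.mul h1

/-- The primitive of `kap`. -/
noncomputable def Phi (x : ℝ) : ℝ := ∫ u in (0 : ℝ)..x, kap u

theorem kk_pos (h : StKap) {a : ℝ} (ha : 0 < a) (n : ℕ) {s : ℝ} (hs : 0 < s) :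
    KK a n s = 8 / s * (Phi (s / a) - Phi (s / (2 ^ n * a))) := by
  have hc : Continuous kap := h.1
  have hpiece : ∀ j : ℕ, ∫ r in a..(2 * a), (2 ^ j * r ^ 2)⁻¹ * kap (s / (2 ^ j * r)) =
      1 / s * (Phi (s / (2 ^ j * a)) - Phi (s / (2 ^ (j + 1) * a))) := by
    intro j
    have hsub := intervalIntegral.integral_comp_mul_deriv (a := a) (b := 2 * a)
      (f := fun r => s / (2 ^ j * r)) (f' := fun r => -(s / (2 ^ j * r ^ 2))) (g := kap)
      (by
        intro r hr
        rw [uIcc_of_le (by linarith)] at hr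
        have hr0 : 0 < r := ha.trans_le hr.1
        have h1 : HasDerivAt (fun r : ℝ => 2 ^ j * r) (2 ^ j) r := by
          simpa using (hasDerivAt_id r).const_mul ((2 : ℝ) ^ j)
        have h2 := (hasDerivAt_const r s).div h1 (by positivity)
        refine h2.congr_deriv ?_
        field_simp
        ring)
      (by
        refine ContinuousOn.neg (ContinuousOn.div continuousOn_const (by fun_prop) ?_)
        intro r hr
        rw [uIcc_of_le (by linarith)] at hr
        have hr0 : 0 < r := ha.trans_le hr.1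
        positivity)
      hc
    have e1 : ∫ r in a..(2 * a), (2 ^ j * r ^ 2)⁻¹ * kap (s / (2 ^ j * r)) =
        ∫ r in a..(2 * a), (-(1 / s)) * ((kap ∘ fun r => s / (2 ^ j * r)) r *
          -(s / (2 ^ j * r ^ 2))) := by
      refine intervalIntegral.integral_congr fun r hr => ?_
      rw [uIcc_of_le (by linarith)] at hr
      have hr0 : 0 < r := ha.trans_le hr.1
      simp only [Function.comp_apply]
      field_simp
    rw [e1, intervalIntegral.integral_const_mul, hsub]
    have e2 : ∫ u in (s / (2 ^ j * a))..(s / (2 ^ j * (2 * a))), kap u =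
        Phi (s / (2 ^ (j + 1) * a)) - Phi (s / (2 ^ j * a)) := by
      unfold Phi
      rw [show (2 : ℝ) ^ j * (2 * a) = 2 ^ (j + 1) * a by ring]
      rw [intervalIntegral.integral_interval_sub_left (hc.intervalIntegrable _ _)
        (hc.intervalIntegrable _ _)]
    rw [e2]; ring
  unfold KK
  rw [intervalIntegral.integral_finsetSum]
  · simp_rw [hpiece]
    rw [← Finset.mul_sum]
    have htel := Finset.sum_range_sub' (fun j : ℕ => Phi (s / (2 ^ j * a))) n
    rw [htel]
    simp only [pow_zero, one_mul]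
    ring
  · intro j _
    refine ContinuousOn.intervalIntegrable ?_
    rw [uIcc_of_le (by linarith)]
    have hne : ∀ r ∈ Icc a (2 * a), (r : ℝ) ≠ 0 := fun r hr => (ha.trans_le hr.1).ne'
    refine ContinuousOn.mul ?_ (hc.comp_continuousOn ?_)
    · refine ContinuousOn.inv₀ (by fun_prop) fun r hr => ?_
      have := hne r hr
      positivity
    · refine ContinuousOn.div continuousOn_const (by fun_prop) fun r hr => ?_
      have := hne r hr
      positivity

theorem kk_neg (h : StKap) (a : ℝ) (n : ℕ) (s : ℝ) : KK a n (-s) = - KK a n s := by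
  unfold KK
  rw [← mul_neg, ← intervalIntegral.integral_neg]
  congr 1
  refine intervalIntegral.integral_congr fun r _ => ?_
  rw [← Finset.sum_neg_distrib]
  refine Finset.sum_congr rfl fun j _ => ?_
  rw [neg_div, h.2.1]; ring

theorem kk_zero (h : StKap) (a : ℝ) (n : ℕ) : KK a n 0 = 0 := by
  have := kk_neg h a n 0
  rw [neg_zero] at this
  linarith

theorem phi_one (h : StKap) {x : ℝ} (hx : 1 ≤ x) : Phi x = 1 / 8 := by
  have hc : Continuous kap := h.1
  unfold Phi
  rw [← intervalIntegral.integral_add_adjacent_intervals (hc.intervalIntegrable 0 1)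
    (hc.intervalIntegrable 1 x), h.2.2.2.2]
  have : ∫ u in (1 : ℝ)..x, kap u = ∫ u in (1 : ℝ)..x, (0 : ℝ) := by
    refine intervalIntegral.integral_congr fun u hu => ?_
    rw [uIcc_of_le hx] at hu
    exact h.2.2.1 u (hu.1.trans (le_abs_self _))
  rw [this]; simp

theorem phi_le (h : StKap) {x : ℝ} (hx : 0 ≤ x) : |Phi x| ≤ 2 * x ^ 2 := by
  have hc : Continuous kap := h.1
  have h1 : ‖∫ u in (0 : ℝ)..x, kap u‖ ≤ ∫ u in (0 : ℝ)..x, 4 * u := by
    refine intervalIntegral.norm_integral_le_of_norm_le hx ?_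
      ((by fun_prop : Continuous fun u : ℝ => 4 * u).intervalIntegrable _ _)
    refine Eventually.of_forall fun u hu => ?_
    rw [Real.norm_eq_abs]
    refine (h.2.2.2.1 u).trans (le_of_eq ?_)
    rw [abs_of_pos hu.1]
  have h2 : ∫ u in (0 : ℝ)..x, 4 * u = 2 * x ^ 2 := by
    rw [intervalIntegral.integral_const_mul, integral_id]; ring
  rw [h2] at h1
  exact h1

/-- the estimate for positive `s`. -/
theorem err_pos (h : StKap) {e N : ℝ} (he : 0 < e) (hN : e < N) (n : ℕ) (hb : N ≤ 2 ^ n * e)
    (hb2 : 2 ^ n * e ≤ 2 * N) {s : ℝ} (hs : 0 < s) :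
    |trK e N s - KK e n s| ≤ 40 * ((if |s| ≤ e then e⁻¹ else 0) +
      (if |s| ≤ 2 * (2 ^ n * e) then (2 ^ n * e)⁻¹ else 0)) := by
  set b := 2 ^ n * e with hbdef
  have hN0 : 0 < N := he.trans hN
  have hb0 : 0 < b := hN0.trans_le hb
  rw [kk_pos h he n hs, ← hbdef]
  unfold trK
  rw [abs_of_pos hs]
  have hPb : |Phi (s / b)| ≤ 2 * (s / b) ^ 2 := phi_le h (by positivity)
  have hbi : 0 < b⁻¹ := inv_pos.2 hb0
  have hei : 0 < e⁻¹ := inv_pos.2 he
  -- the tail term
  have htail : s ≤ b → |8 / s * Phi (s / b)| ≤ 16 * b⁻¹ := by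
    intro hsb
    rw [abs_mul, abs_of_pos (by positivity : 0 < 8 / s)]
    calc 8 / s * |Phi (s / b)| ≤ 8 / s * (2 * (s / b) ^ 2) :=
          mul_le_mul_of_nonneg_left hPb (by positivity)
      _ = 16 * b⁻¹ * (s / b) := by field_simp; ring
      _ ≤ 16 * b⁻¹ * 1 := mul_le_mul_of_nonneg_left ((div_le_one hb0).2 hsb) (by positivity)
      _ = _ := mul_one _
  by_cases h1 : s ≤ e
  · rw [if_neg (by intro hc; linarith [hc.1]), if_pos h1, if_pos (by linarith)]
    have hsb : s ≤ b := by linarith
    have ht := htail hsb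
    have hPe : |Phi (s / e)| ≤ 2 * (s / e) ^ 2 := phi_le h (by positivity)
    have he2 : |8 / s * Phi (s / e)| ≤ 16 * e⁻¹ := by
      rw [abs_mul, abs_of_pos (by positivity : 0 < 8 / s)]
      calc 8 / s * |Phi (s / e)| ≤ 8 / s * (2 * (s / e) ^ 2) :=
            mul_le_mul_of_nonneg_left hPe (by positivity)
        _ = 16 * e⁻¹ * (s / e) := by field_simp; ring
        _ ≤ 16 * e⁻¹ * 1 := mul_le_mul_of_nonneg_left ((div_le_one he).2 h1) (by positivity)
        _ = _ := mul_one _
    rw [zero_sub, abs_neg, mul_sub]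
    have := abs_sub (8 / s * Phi (s / e)) (8 / s * Phi (s / b))
    linarith
  · push Not at h1
    have hp1 : Phi (s / e) = 1 / 8 := phi_one h ((one_le_div he).2 h1.le)
    rw [hp1, if_neg (not_le.2 h1), zero_add]
    have heq : 8 / s * (1 / 8 - Phi (s / b)) = 1 / s - 8 / s * Phi (s / b) := by
      field_simp
    rw [heq]
    by_cases h2 : s < N
    · rw [if_pos ⟨h1, h2⟩, if_pos (by linarith)]
      have ht := htail (h2.le.trans hb)
      have : 1 / s - (1 / s - 8 / s * Phi (s / b)) = 8 / s * Phi (s / b) := by ring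
      rw [this]; linarith
    · push Not at h2
      rw [if_neg (by intro hc; linarith [hc.2])]
      by_cases h3 : s ≤ b
      · rw [if_pos (by linarith)]
        have ht := htail h3
        have h4 : 1 / s ≤ 2 * b⁻¹ := by
          rw [← div_eq_mul_inv, div_le_div_iff₀ hs hb0]
          nlinarith
        have h5 : 0 < 1 / s := by positivity
        rw [zero_sub, abs_neg]
        have := abs_sub (1 / s) (8 / s * Phi (s / b))
        rw [abs_of_pos h5] at this
        linarith
      · push Not at h3
        have hp2 : Phi (s / b) = 1 / 8 := phi_one h ((one_le_div hb0).2 h3.le)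
        rw [hp2]
        have : (0 : ℝ) - (1 / s - 8 / s * (1 / 8)) = 0 := by field_simp; ring
        rw [this, abs_zero]
        split_ifs <;> positivity

/-- Row ERR. -/
theorem err17 (h : StKap) : StErr := by
  intro e N he hN
  have hN0 : 0 < N := he.trans hN
  obtain ⟨n, hn1, hn2⟩ := exists_nat_pow_near (x := N / e) (y := 2) ((one_le_div he).2 hN.le)
    (by norm_num)
  refine ⟨n + 1, 2 ^ (n + 1) * e, by positivity, fun s => ?_⟩
  have hb : N ≤ 2 ^ (n + 1) * e := by
    rw [div_lt_iff₀ he] at hn2; exact hn2.le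
  have hb2 : 2 ^ (n + 1) * e ≤ 2 * N := by
    rw [le_div_iff₀ he] at hn1
    rw [pow_succ]; nlinarith
  rcases lt_trichotomy s 0 with hs | hs | hs
  · have h1 := err_pos h he hN (n + 1) hb hb2 (s := -s) (by linarith)
    rw [kk_neg h, abs_neg] at h1
    have h2 : trK e N (-s) = - trK e N s := by
      unfold trK
      rw [abs_neg]
      split_ifs
      · rw [div_neg]
      · rw [neg_zero]
    rw [h2, show -trK e N s - -KK e (n + 1) s = -(trK e N s - KK e (n + 1) s) by ring,
      abs_neg] at h1
    exact h1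
  · subst hs
    rw [kk_zero h]
    have h2 : trK e N 0 = 0 := by
      unfold trK
      rw [if_neg]
      intro hc
      rw [abs_zero] at hc
      linarith [hc.1]
    rw [h2, sub_zero, abs_zero]
    have : 0 < e⁻¹ := inv_pos.2 he
    split_ifs <;> positivity
  · exact err_pos h he hN (n + 1) hb hb2 hs

end Pool.Agent.Lib.SX53
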