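import Pool.Agent.Lib.MP_5ef378_an.SX.Fin2b

set_option autoImplicit false

open MeasureTheory Set
open scoped ENNReal

namespace Pool.Agent.Lib.SX53

/-- The main part. -/
def StMain : Prop := ∃ C : ℝ≥0∞, C ≠ ⊤ ∧
  ∀ (f g : (Fin 3 → ℝ) → ℝ) (e l p r : (Fin 2 → ℝ) → ℝ),
  Continuous f → HasCompactSupport f → Continuous g → HasCompactSupport g →
  Continuous e → HasCompactSupport e → Continuous l → HasCompactSupport l →
  Continuous p → HasCompactSupport p → Continuous r → HasCompactSupport r →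
  ∀ h k : (Fin 3 → ℝ) → ℝ,
  (h = fun x => e ![x 0, x 1] * l ![x 0, x 2]) → (k = fun x => r ![x 0, x 2] * p ![x 1, x 2]) →
  ∀ (a : ℝ), 0 < a → ∀ n : ℕ, ENNReal.ofReal |form (KK a n) f g h k| ≤
    C * (eLpNorm f 4 volume * eLpNorm g 4 volume * eLpNorm h 4 volume * eLpNorm k 4 volume)

theorem cont_pair (i j : Fin 3) : Continuous fun x : Fin 3 → ℝ => (![x i, x j] : Fin 2 → ℝ) := by
  refine continuous_pi fun m => ?_
  fin_cases m
  · exact continuous_apply i
  · exact continuous_apply j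

/-- A product of two functions of two of the variables has compact support. -/
theorem prod_supp {u v : (Fin 2 → ℝ) → ℝ} (hu : HasCompactSupport u) (hv : HasCompactSupport v)
    (i1 j1 i2 j2 : Fin 3) (hij : ∀ m : Fin 3, m = i1 ∨ m = j1 ∨ m = i2 ∨ m = j2) :
    HasCompactSupport fun x : Fin 3 → ℝ => u ![x i1, x j1] * v ![x i2, x j2] := by
  obtain ⟨R1, h1⟩ := hu.isCompact.isBounded.subset_closedBall (0 : Fin 2 → ℝ)
  obtain ⟨R2, h2⟩ := hv.isCompact.isBounded.subset_closedBall (0 : Fin 2 → ℝ)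
  refine HasCompactSupport.of_support_subset_isCompact
    (K := Set.pi univ fun _ : Fin 3 => Icc (-(max R1 R2)) (max R1 R2))
    (isCompact_univ_pi fun _ => isCompact_Icc) ?_
  intro x hx
  obtain ⟨hu0, hv0⟩ := mul_ne_zero_iff.1 (show u ![x i1, x j1] * v ![x i2, x j2] ≠ 0 from hx)
  have hu1 := h1 (subset_tsupport u hu0)
  have hv1 := h2 (subset_tsupport v hv0)
  rw [mem_closedBall_zero_iff] at hu1 hv1
  have a0 : |x i1| ≤ R1 := (norm_le_pi_norm (![x i1, x j1] : Fin 2 → ℝ) 0).trans hu1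
  have a1 : |x j1| ≤ R1 := (norm_le_pi_norm (![x i1, x j1] : Fin 2 → ℝ) 1).trans hu1
  have a2 : |x i2| ≤ R2 := (norm_le_pi_norm (![x i2, x j2] : Fin 2 → ℝ) 0).trans hv1
  have a3 : |x j2| ≤ R2 := (norm_le_pi_norm (![x i2, x j2] : Fin 2 → ℝ) 1).trans hv1
  rw [Set.mem_univ_pi]
  intro m
  rw [Set.mem_Icc, ← abs_le]
  rcases hij m with rfl | rfl | rfl | rfl
  · exact a0.trans (le_max_left _ _)
  · exact a1.trans (le_max_left _ _)
  · exact a2.trans (le_max_right _ _)
  · exact a3.trans (le_max_right _ _)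

theorem eL_ne_top {f : (Fin 3 → ℝ) → ℝ} (hf : Continuous f) (hfc : HasCompactSupport f) :
    eLpNorm f 4 volume ≠ ⊤ :=
  (hf.memLp_of_hasCompactSupport hfc).eLpNorm_ne_top

theorem final2 (hM : StMain) (hE : StErr) (hH : StHyp) (hK : StKKc) : StFinal := by
  obtain ⟨C, hC, hM⟩ := hM
  refine ⟨(C + 240).toReal, ?_⟩
  intro f g e l p r hf hfc hg hgc he hec hl hlc hp hpc hr hrc h k hh hk ε N hε hN
  have hhc : Continuous h := by
    rw [hh]
    exact (he.comp (cont_pair 0 1)).mul (hl.comp (cont_pair 0 2))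
  have hkc : Continuous k := by
    rw [hk]
    exact (hr.comp (cont_pair 0 2)).mul (hp.comp (cont_pair 1 2))
  have hhs : HasCompactSupport h := by
    rw [hh]
    exact prod_supp hec hlc 0 1 0 2 (by decide)
  have hks : HasCompactSupport k := by
    rw [hk]
    exact prod_supp hrc hpc 0 2 1 2 (by decide)
  obtain ⟨n, h1⟩ := err2 hE hH hK hf hg hhc hkc hfc hgc hε hN
  have h2 := hM f g e l p r hf hfc hg hgc he hec hl hlc hp hpc hr hrc h k hh hk ε hε n
  have h3 : ENNReal.ofReal |form (trK ε N) f g h k| ≤ (C + 240) *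
      (eLpNorm f 4 volume * eLpNorm g 4 volume * eLpNorm h 4 volume * eLpNorm k 4 volume) := by
    rw [add_mul]
    refine le_trans ?_ (add_le_add h2 h1)
    rw [← ENNReal.ofReal_add (abs_nonneg _) (abs_nonneg _)]
    refine ENNReal.ofReal_le_ofReal ?_
    calc |form (trK ε N) f g h k| = |form (KK ε n) f g h k +
          (form (trK ε N) f g h k - form (KK ε n) f g h k)| := by
          congr 1
          ring
      _ ≤ _ := abs_add_le _ _
  have hfin : (C + 240) *
      (eLpNorm f 4 volume * eLpNorm g 4 volume * eLpNorm h 4 volume * eLpNorm k 4 volume) ≠ ⊤ :=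
    ENNReal.mul_ne_top (ENNReal.add_ne_top.2 ⟨hC, by norm_num⟩)
      (ENNReal.mul_ne_top (ENNReal.mul_ne_top (ENNReal.mul_ne_top (eL_ne_top hf hfc)
        (eL_ne_top hg hgc)) (eL_ne_top hhc hhs)) (eL_ne_top hkc hks))
  have h4 := (ENNReal.ofReal_le_iff_le_toReal hfin).1 h3
  rw [ENNReal.toReal_mul, ENNReal.toReal_mul, ENNReal.toReal_mul, ENNReal.toReal_mul] at h4
  simpa only [mul_assoc] using h4

end Pool.Agent.Lib.SX53
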