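import Pool.Agent.Lib.MP_5ef378_an.SX.Defs53

/-!
Row HL: the maximal theorem on the line with exponent `4/3`.
-/

set_option autoImplicit false

namespace Pool.Agent.Lib.SX53

open MeasureTheory Filter Topology Metric Set
open scoped ENNReal NNReal

namespace HL24

theorem lt_MM {φ : ℝ → ℝ≥0∞} {t : ℝ} {a : ℝ≥0∞} : a < MM φ t ↔
    ∃ u v : ℝ, (u < t ∧ t < v) ∧ a < (ENNReal.ofReal (v - u))⁻¹ * ∫⁻ x in Ioo u v, φ x := by
  unfold MM
  simp only [lt_iSup_iff, exists_prop]

theorem isOpen_lt_MM (φ : ℝ → ℝ≥0∞) (a : ℝ≥0∞) : IsOpen {t | a < MM φ t} := by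
  have : {t | a < MM φ t} = ⋃ (u : ℝ) (v : ℝ) (_ : a < (ENNReal.ofReal (v - u))⁻¹ *
      ∫⁻ x in Ioo u v, φ x), Ioo u v := by
    ext t
    simp only [mem_ofPred_eq, lt_MM, mem_iUnion, mem_Ioo, exists_prop]
    constructor
    · rintro ⟨u, v, h1, h2⟩
      exact ⟨u, v, h2, h1⟩
    · rintro ⟨u, v, h2, h1⟩
      exact ⟨u, v, h1, h2⟩
  rw [this]
  exact isOpen_iUnion fun u => isOpen_iUnion fun v => isOpen_iUnion fun _ => isOpen_Ioo

theorem measurable_MM (φ : ℝ → ℝ≥0∞) : Measurable (MM φ) :=
  measurable_of_Ioi fun a => (isOpen_lt_MM φ a).measurableSet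

/-- weak type (1,1) -/
theorem weak {ψ : ℝ → ℝ≥0∞} {lam : ℝ≥0∞} (hl0 : lam ≠ 0) (hl1 : lam ≠ ⊤) :
    volume {x : ℝ | ∃ r : ℝ, 0 < r ∧ lam * ENNReal.ofReal r <
      ∫⁻ y in closedBall x r, ψ y} * lam ≤ 10 * ∫⁻ y, ψ y := by
  set S := {x : ℝ | ∃ r : ℝ, 0 < r ∧ lam * ENNReal.ofReal r <
      ∫⁻ y in closedBall x r, ψ y} with hS
  rcases eq_or_ne (∫⁻ y, ψ y) ⊤ with hI | hI
  · rw [hI, ENNReal.mul_top (by norm_num)]; exact le_top
  have hex : ∀ x ∈ S, ∃ r : ℝ, 0 < r ∧ lam * ENNReal.ofReal r <
      ∫⁻ y in closedBall x r, ψ y := fun x hx => hx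
  choose! n hn0 hn using hex
  set R : ℝ := ((∫⁻ y, ψ y) / lam).toReal with hR
  have hfin : (∫⁻ y, ψ y) / lam ≠ ⊤ := ENNReal.div_ne_top hI hl0
  have hr : ∀ x ∈ S, n x ≤ R := by
    intro x hx
    have h1 : ENNReal.ofReal (n x) < (∫⁻ y, ψ y) / lam := by
      rw [ENNReal.lt_div_iff_mul_lt (Or.inl hl0) (Or.inl hl1), mul_comm]
      exact (hn x hx).trans_le (setLIntegral_le_lintegral _ _)
    rw [ENNReal.ofReal_lt_iff_lt_toReal (hn0 x hx).le hfin] at h1
    exact h1.le
  obtain ⟨u, hu, hdisj, hcov⟩ := Vitali.exists_disjoint_subfamily_covering_enlargement_closedBall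
    S (fun x => x) n R hr 5 (by norm_num)
  have hcount : u.Countable := by
    refine hdisj.countable_of_nonempty_interior fun y hy => ?_
    refine ⟨y, ?_⟩
    exact ball_subset_interior_closedBall (mem_ball_self (hn0 y (hu hy)))
  have hsub : S ⊆ ⋃ y ∈ u, closedBall y (5 * n y) := by
    intro x hx
    obtain ⟨b, hb, hxb⟩ := hcov x hx
    exact mem_biUnion hb (hxb (mem_closedBall_self (hn0 x hx).le))
  have h1 : volume S ≤ ∑' y : u, 10 * ENNReal.ofReal (n y) := by
    refine (measure_mono hsub).trans ((measure_biUnion_le _ hcount _).trans ?_)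
    refine ENNReal.tsum_le_tsum fun y => ?_
    rw [Real.volume_closedBall, ← mul_assoc, ENNReal.ofReal_mul (by norm_num)]
    refine mul_le_mul_left (le_of_eq ?_) _
    norm_num
  calc volume S * lam ≤ (∑' y : u, 10 * ENNReal.ofReal (n y)) * lam :=
        mul_le_mul_left h1 _
    _ = ∑' y : u, 10 * (lam * ENNReal.ofReal (n y)) := by
        rw [← ENNReal.tsum_mul_right]
        exact tsum_congr fun y => by ring
    _ ≤ ∑' y : u, 10 * ∫⁻ z in closedBall (y : ℝ) (n y), ψ z :=
        ENNReal.tsum_le_tsum fun y => mul_le_mul_right (hn y (hu y.2)).le _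
    _ = 10 * ∫⁻ z in ⋃ y ∈ u, closedBall y (n y), ψ z := by
        rw [ENNReal.tsum_mul_left, lintegral_biUnion hcount (fun y _ => measurableSet_closedBall) hdisj]
    _ ≤ 10 * ∫⁻ z, ψ z := mul_le_mul_right (setLIntegral_le_lintegral _ _) _

/-- powers of two -/
noncomputable def b (s : ℝ) : ℝ≥0∞ := (2 : ℝ≥0∞) ^ s

theorem b_ne_zero (s : ℝ) : b s ≠ 0 := by
  unfold b; exact (ENNReal.rpow_pos (by norm_num) (by norm_num)).ne'

theorem b_ne_top (s : ℝ) : b s ≠ ⊤ := by
  unfold b; exact ENNReal.rpow_ne_top_of_ne_zero (by norm_num) (by norm_num)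

theorem b_add (s t : ℝ) : b (s + t) = b s * b t := by
  unfold b; exact ENNReal.rpow_add _ _ (by norm_num) (by norm_num)

theorem b_zpow (n : ℤ) : b n = (2 : ℝ≥0∞) ^ n := by
  unfold b; exact ENNReal.rpow_intCast _ _

theorem b_mul (s t : ℝ) : b (s * t) = b s ^ t := by
  unfold b; exact ENNReal.rpow_mul _ _ _

theorem b_mono {s t : ℝ} (h : s ≤ t) : b s ≤ b t := by
  unfold b; exact ENNReal.rpow_le_rpow_of_exponent_le (by norm_num) h

theorem b_lt {s t : ℝ} (h : b s < b t) : s < t := by
  by_contra hc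
  push Not at hc
  exact absurd (b_mono hc) (not_le.mpr h)

open Classical in
/-- discrete layers, upper bound of a power -/
theorem layer_le (F : ℝ≥0∞) {p : ℝ} (hp : 1 < p) :
    F ^ p ≤ ∑' k : ℤ, if b k < F then b ((k + 1) * p) else 0 := by
  have hp0 : 0 < p := by linarith
  rcases eq_or_ne F 0 with rfl | h0
  · rw [ENNReal.zero_rpow_of_pos hp0]; exact zero_le
  rcases eq_or_ne F ⊤ with rfl | h1
  · have hle : ∀ n : ℕ, (n : ℝ≥0∞) ≤ ∑' k : ℤ, if b k < (⊤ : ℝ≥0∞) then b ((k + 1) * p) else 0 := by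
      intro n
      refine le_trans ?_ (ENNReal.le_tsum (n : ℤ))
      rw [if_pos (lt_top_iff_ne_top.mpr (b_ne_top _))]
      have h2 : b (n : ℝ) ≤ b ((((n : ℤ) : ℝ) + 1) * p) := by
        refine b_mono ?_
        push_cast
        have : (0 : ℝ) ≤ n := Nat.cast_nonneg n
        nlinarith
      refine le_trans ?_ h2
      have h3 : b (n : ℝ) = (2 : ℝ≥0∞) ^ n := by unfold b; exact ENNReal.rpow_natCast _ _
      rw [h3]
      exact_mod_cast (Nat.lt_two_pow_self (n := n)).le
    have : (∑' k : ℤ, if b k < (⊤ : ℝ≥0∞) then b ((k + 1) * p) else 0) = ⊤ := by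
      by_contra hc
      obtain ⟨n, hn⟩ := ENNReal.exists_nat_gt hc
      exact absurd (hle n) (not_le.mpr hn)
    rw [this]; exact le_top
  · obtain ⟨n, hn1, hn2⟩ := ENNReal.exists_mem_Ioc_zpow h0 h1 (y := 2) (by norm_num) (by norm_num)
    refine le_trans ?_ (ENNReal.le_tsum n)
    rw [if_pos (by rw [b_zpow]; exact hn1), b_mul]
    refine ENNReal.rpow_le_rpow ?_ hp0.le
    have : b ((n : ℝ) + 1) = b ((n + 1 : ℤ) : ℝ) := by push_cast; rfl
    rw [this, b_zpow]
    exact hn2

open Classical in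
/-- discrete layers, sum of the lower layers -/
theorem layer_sum {q : ℝ} (hq : 0 < q) : ∃ C : ℝ≥0, ∀ t : ℝ≥0∞,
    (∑' k : ℤ, if b ((k : ℝ) - 8) < t then b (k * q) else 0) ≤ C * t ^ q := by
  -- the geometric series
  have hr : b (-q) < 1 := by
    have h1 : b (-q) = (2 : ℝ≥0∞) ^ (-q) := rfl
    rw [h1]
    exact ENNReal.rpow_lt_one_of_one_lt_of_neg (by norm_num) (by linarith)
  have hgeo : (1 - b (-q))⁻¹ ≠ ⊤ := by
    rw [ENNReal.inv_ne_top]
    exact (tsub_pos_of_lt hr).ne'
  have hCne : b (8 * q) * (1 - b (-q))⁻¹ ≠ ⊤ := ENNReal.mul_ne_top (b_ne_top _) hgeo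
  refine ⟨(b (8 * q) * (1 - b (-q))⁻¹).toNNReal, fun t => ?_⟩
  rw [ENNReal.coe_toNNReal hCne]
  have hC0 : b (8 * q) * (1 - b (-q))⁻¹ ≠ 0 := by
    refine mul_ne_zero (b_ne_zero _) ?_
    rw [ENNReal.inv_ne_zero]
    exact ne_top_of_le_ne_top ENNReal.one_ne_top tsub_le_self
  rcases eq_or_ne t 0 with rfl | h0
  · simp
  rcases eq_or_ne t ⊤ with rfl | h1
  · rw [ENNReal.top_rpow_of_pos hq, ENNReal.mul_top hC0]; exact le_top
  obtain ⟨K, hK1, hK2⟩ := ENNReal.exists_mem_Ioc_zpow h0 h1 (y := 2) (by norm_num) (by norm_num)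
  have hsupp : ∀ k : ℤ, b ((k : ℝ) - 8) < t → k ≤ K + 8 := by
    intro k hk
    have h2 := hk.trans_le hK2
    rw [← b_zpow] at h2
    have h3 := b_lt h2
    push_cast at h3
    have h4 : (k : ℝ) < ((K + 9 : ℤ) : ℝ) := by push_cast; linarith
    have h5 : k < K + 9 := by exact_mod_cast h4
    omega
  have hinj : Function.Injective (fun j : ℕ => K + 8 - (j : ℤ)) := by
    intro i j hij
    simp only at hij
    omega
  have hts := hinj.tsum_eq (f := fun k : ℤ => if b ((k : ℝ) - 8) < t then b (k * q) else 0) (by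
    intro k hk
    rw [Function.mem_support] at hk
    have h2 : b ((k : ℝ) - 8) < t := by
      by_contra hc
      exact hk (if_neg hc)
    have h3 := hsupp k h2
    exact ⟨(K + 8 - k).toNat, by simp only; rw [Int.toNat_of_nonneg (by omega)]; ring⟩)
  rw [← hts]
  calc (∑' j : ℕ, if b (((K + 8 - (j : ℤ) : ℤ) : ℝ) - 8) < t then b (((K + 8 - (j : ℤ) : ℤ) : ℝ) * q) else 0)
      ≤ ∑' j : ℕ, b (8 * q) * (b K) ^ q * (b (-q)) ^ j := by
        refine ENNReal.tsum_le_tsum fun j => ?_
        split_ifs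
        · have e : (((K + 8 - (j : ℤ) : ℤ) : ℝ)) * q = 8 * q + (K * q + (-q) * j) := by
            push_cast; ring
          rw [e, b_add, b_add, b_mul (K : ℝ) q, b_mul (-q) j, ENNReal.rpow_natCast, mul_assoc]
        · exact zero_le
    _ = b (8 * q) * (b K) ^ q * (1 - b (-q))⁻¹ := by
        rw [ENNReal.tsum_mul_left, ENNReal.tsum_geometric]
    _ ≤ b (8 * q) * t ^ q * (1 - b (-q))⁻¹ := by
        refine mul_le_mul_left (mul_le_mul_right (ENNReal.rpow_le_rpow ?_ hq.le) _) _
        rw [b_zpow]; exact hK1.le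
    _ = b (8 * q) * (1 - b (-q))⁻¹ * t ^ q := by ring

end HL24
open HL24

open Classical in
/-- ROW HL. -/
theorem hl24 : StHL := by
  set p : ℝ := 4 / 3 with hpdef
  have hp : 1 < p := by rw [hpdef]; norm_num
  have hp0 : 0 < p := by linarith
  have hq : 0 < p - 1 := by linarith
  obtain ⟨C0, hC0⟩ := layer_sum hq
  refine ⟨640 * ((2 : ℝ≥0) ^ p) * C0, ?_, fun φ hφ => ?_⟩
  · refine ENNReal.mul_ne_top (ENNReal.mul_ne_top (by norm_num) ?_) ENNReal.coe_ne_top
    exact ENNReal.rpow_ne_top_of_nonneg hp0.le (by norm_num)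
  set F : ℝ → ℝ≥0∞ := MM φ with hF
  have hFm : Measurable F := measurable_MM φ
  -- the truncated functions
  set φk : ℤ → ℝ → ℝ≥0∞ := fun k y => if b ((k : ℝ) - 8) < φ y then φ y else 0 with hφk
  have hφkm : ∀ k, Measurable (φk k) := fun k =>
    Measurable.ite (measurableSet_lt measurable_const hφ) hφ measurable_const
  have hSk : ∀ k : ℤ, volume {x | b k < F x} * b ((k : ℝ) - 6) ≤ 10 * ∫⁻ y, φk k y := by
    intro k
    refine le_trans (mul_le_mul_left (measure_mono ?_) _) (weak (ψ := φk k) (b_ne_zero _) (b_ne_top _))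
    intro x hx
    by_contra hc
    simp only [mem_ofPred_eq, not_exists, not_and, not_lt] at hc
    have hball : ∀ r : ℝ, 0 < r → ∫⁻ y in closedBall x r, φ y ≤
        b ((k : ℝ) - 5) * ENNReal.ofReal r := by
      intro r hr
      have h1 : ∀ y, φ y ≤ φk k y + b ((k : ℝ) - 8) := by
        intro y
        simp only [hφk]
        split_ifs with h
        · exact le_self_add
        · rw [zero_add]; exact not_lt.mp h
      calc ∫⁻ y in closedBall x r, φ y
          ≤ ∫⁻ y in closedBall x r, (φk k y + b ((k : ℝ) - 8)) := lintegral_mono h1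
        _ = (∫⁻ y in closedBall x r, φk k y) +
            b ((k : ℝ) - 8) * volume (closedBall x r) := by
            rw [lintegral_add_left (hφkm k), setLIntegral_const]
        _ ≤ b ((k : ℝ) - 6) * ENNReal.ofReal r +
            b ((k : ℝ) - 8) * (4 * ENNReal.ofReal r) := by
            refine add_le_add (hc r hr) ?_
            rw [Real.volume_closedBall]
            refine mul_le_mul_right ?_ _
            rw [ENNReal.ofReal_mul (by norm_num)]
            refine mul_le_mul_left ?_ _
            norm_num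
        _ = b ((k : ℝ) - 5) * ENNReal.ofReal r := by
            have e6 : b ((k : ℝ) - 6) = 4 * b ((k : ℝ) - 8) := by
              have : (k : ℝ) - 6 = 2 + ((k : ℝ) - 8) := by ring
              rw [this, b_add]
              have h4 : b 2 = 4 := by
                unfold b
                have : (2 : ℝ≥0∞) ^ (2 : ℝ) = (2 : ℝ≥0∞) ^ (2 : ℕ) := by
                  rw [← ENNReal.rpow_natCast]; norm_num
                rw [this]; norm_num
              rw [h4]
            have e5 : b ((k : ℝ) - 5) = 2 * b ((k : ℝ) - 6) := by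
              have : (k : ℝ) - 5 = 1 + ((k : ℝ) - 6) := by ring
              rw [this, b_add]
              have h4 : b 1 = 2 := by
                unfold b; exact ENNReal.rpow_one _
              rw [h4]
            rw [e5, e6]; ring
    have hle : F x ≤ b k := by
      refine iSup_le fun u => iSup_le fun v => iSup_le fun huv => ?_
      have hr : 0 < v - u := by linarith [huv.1, huv.2]
      have hr' : ENNReal.ofReal (v - u) ≠ 0 := (ENNReal.ofReal_pos.mpr hr).ne'
      rw [mul_comm, ← div_eq_mul_inv, ENNReal.div_le_iff hr' ENNReal.ofReal_ne_top]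
      have hsub : Ioo u v ⊆ closedBall x (v - u) := by
        intro y hy
        rw [Real.closedBall_eq_Icc]
        constructor <;> linarith [hy.1, hy.2, huv.1, huv.2]
      refine (lintegral_mono_set hsub).trans ((hball _ hr).trans ?_)
      exact mul_le_mul_left (b_mono (by linarith)) _
    exact absurd hx (not_lt.mpr hle)
  calc ∫⁻ x, F x ^ p ≤ ∫⁻ x, ∑' k : ℤ, {x | b k < F x}.indicator (fun _ => b ((k + 1) * p)) x := by
        refine lintegral_mono fun x => ?_
        refine (layer_le (F x) hp).trans (le_of_eq (tsum_congr fun k => ?_))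
        rw [indicator_apply]
        rfl
    _ = ∑' k : ℤ, b ((k + 1) * p) * volume {x | b k < F x} := by
        rw [lintegral_tsum]
        · refine tsum_congr fun k => ?_
          rw [lintegral_indicator (measurableSet_lt measurable_const hFm), setLIntegral_const]
        · exact fun k => (measurable_const.indicator
            (measurableSet_lt measurable_const hFm)).aemeasurable
    _ ≤ ∑' k : ℤ, 640 * b p * (b (k * (p - 1)) * ∫⁻ y, φk k y) := by
        refine ENNReal.tsum_le_tsum fun k => ?_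
        have h1 : volume {x | b k < F x} ≤ b (6 - k) * (10 * ∫⁻ y, φk k y) := by
          have h2 : volume {x | b k < F x} = b (6 - k) * (volume {x | b k < F x} * b ((k : ℝ) - 6)) := by
            rw [mul_comm (volume _), ← mul_assoc, ← b_add]
            have : (6 : ℝ) - k + (k - 6) = 0 := by ring
            rw [this]
            unfold b; simp
          rw [h2]
          exact mul_le_mul_right (hSk k) _
        refine (mul_le_mul_right h1 _).trans (le_of_eq ?_)
        have e : b (((k : ℝ) + 1) * p) * b (6 - k) = 64 * b p * b (k * (p - 1)) := by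
          rw [← b_add]
          have : ((k : ℝ) + 1) * p + (6 - k) = 6 + (p + k * (p - 1)) := by ring
          rw [this, b_add, b_add]
          have h6 : b 6 = 64 := by
            unfold b
            have : (2 : ℝ≥0∞) ^ (6 : ℝ) = (2 : ℝ≥0∞) ^ (6 : ℕ) := by
              rw [← ENNReal.rpow_natCast]; norm_num
            rw [this]; norm_num
          rw [h6]; ring
        rw [← mul_assoc, e]; ring
    _ = 640 * b p * ∫⁻ y, φ y * ∑' k : ℤ, (if b ((k : ℝ) - 8) < φ y then b (k * (p - 1)) else 0) := by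
        rw [ENNReal.tsum_mul_left]
        congr 1
        rw [← funext_iff.mpr fun (y : ℝ) => ENNReal.tsum_mul_left (a := φ y)
          (f := fun k : ℤ => if b ((k : ℝ) - 8) < φ y then b (k * (p - 1)) else 0)]
        rw [lintegral_tsum]
        · refine tsum_congr fun k => ?_
          rw [← lintegral_const_mul _ (hφkm k)]
          refine lintegral_congr fun y => ?_
          simp only [hφk]
          split_ifs
          · ring
          · simp
        · refine fun k => (hφ.mul (Measurable.ite (measurableSet_lt measurable_const hφ)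
            measurable_const measurable_const)).aemeasurable
    _ ≤ 640 * b p * ∫⁻ y, φ y * (C0 * φ y ^ (p - 1)) := by
        refine mul_le_mul_right (lintegral_mono fun y => mul_le_mul_right (hC0 (φ y)) _) _
    _ = (640 * ((2 : ℝ≥0) ^ p) * C0) * ∫⁻ y, φ y ^ p := by
        have e1 : ∀ y, φ y * (C0 * φ y ^ (p - 1)) = C0 * φ y ^ p := by
          intro y
          have : φ y ^ p = φ y * φ y ^ (p - 1) := by
            have h2 : p = 1 + (p - 1) := by ring
            conv_lhs => rw [h2]
            rw [ENNReal.rpow_add_of_nonneg _ _ zero_le_one hq.le, ENNReal.rpow_one]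
          rw [this]; ring
        simp only [e1]
        rw [lintegral_const_mul _ (hφ.pow_const _)]
        rw [← mul_assoc]
        congr 1

end Pool.Agent.Lib.SX53
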