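import Pool.Agent.Lib.MP_5ef378_an.SX.Defs53

/-!
Rows INV, PT and HYP.
-/

set_option autoImplicit false

open MeasureTheory Set
open scoped ENNReal

namespace Pool.Agent.Lib.SX53

namespace S37

theorem inv_le (φ : ℝ → ℝ≥0∞) (c t : ℝ) : MM (fun y => φ (c - y)) t ≤ MM φ (c - t) := by
  unfold MM
  refine iSup_le fun u => iSup_le fun v => iSup_le fun huv => ?_
  refine le_iSup_of_le (c - v) (le_iSup_of_le (c - u) (le_iSup_of_le
    ⟨by linarith [huv.2], by linarith [huv.1]⟩ (le_of_eq ?_)))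
  have h1 : c - u - (c - v) = v - u := by ring
  rw [h1]
  congr 1
  rw [← lintegral_indicator measurableSet_Ioo, ← lintegral_indicator measurableSet_Ioo,
    ← lintegral_sub_left_eq_self ((Ioo (c - v) (c - u)).indicator fun a => φ a) c]
  refine lintegral_congr fun x => ?_
  by_cases hx : x ∈ Ioo u v
  · rw [indicator_of_mem hx, indicator_of_mem]
    exact ⟨by linarith [hx.2], by linarith [hx.1]⟩
  · rw [indicator_of_notMem hx, indicator_of_notMem]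
    rintro ⟨h2, h3⟩
    exact hx ⟨by linarith, by linarith⟩

end S37

open S37 in
theorem inv37 : StInv := by
  intro φ c t
  refine le_antisymm (inv_le φ c t) ?_
  have h1 := inv_le (fun y => φ (c - y)) c (c - t)
  simp only [sub_sub_cancel] at h1
  exact h1

namespace S37

theorem root3 (a : ℝ≥0∞) : (a ^ 3) ^ (1 / 3 : ℝ) = a := by
  have h1 := ENNReal.pow_rpow_inv_natCast (n := 3) (by norm_num) a
  have h2 : (((3 : ℕ) : ℝ))⁻¹ = 1 / 3 := by norm_num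
  rw [h2] at h1
  exact h1

theorem root4 (a : ℝ≥0∞) : (a ^ 4) ^ (1 / 4 : ℝ) = a := by
  have h1 := ENNReal.pow_rpow_inv_natCast (n := 4) (by norm_num) a
  have h2 : (((4 : ℕ) : ℝ))⁻¹ = 1 / 4 := by norm_num
  rw [h2] at h1
  exact h1

theorem hoelder3 {μ : Measure ℝ} (f l p : ℝ → ℝ≥0∞) (hf : Measurable f) (hl : Measurable l)
    (hp : Measurable p) : ∫⁻ x, f x * l x * p x ∂μ ≤
      (∫⁻ x, f x ^ 3 ∂μ) ^ (1 / 3 : ℝ) * (∫⁻ x, l x ^ 3 ∂μ) ^ (1 / 3 : ℝ) *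
        (∫⁻ x, p x ^ 3 ∂μ) ^ (1 / 3 : ℝ) := by
  have h1 := ENNReal.lintegral_prod_norm_pow_le (μ := μ) (Finset.univ : Finset (Fin 3))
    (f := ![fun x => f x ^ 3, fun x => l x ^ 3, fun x => p x ^ 3])
    (fun i _ => by
      fin_cases i
      · exact (hf.pow_const 3).aemeasurable
      · exact (hl.pow_const 3).aemeasurable
      · exact (hp.pow_const 3).aemeasurable)
    (p := fun _ => (1 / 3 : ℝ)) (by simp) (fun i _ => by norm_num)
  simp only [Fin.prod_univ_three, Matrix.cons_val_zero, Matrix.cons_val_one,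
    Matrix.cons_val_two, Matrix.head_cons, Matrix.tail_cons, Matrix.cons_val] at h1
  simp only [root3] at h1
  exact h1

theorem hoelder4 {α : Type} [MeasurableSpace α] {μ : Measure α} (f g h k : α → ℝ≥0∞)
    (hf : Measurable f) (hg : Measurable g) (hh : Measurable h) (hk : Measurable k) :
    ∫⁻ x, f x * g x * h x * k x ∂μ ≤
      (∫⁻ x, f x ^ 4 ∂μ) ^ (1 / 4 : ℝ) * (∫⁻ x, g x ^ 4 ∂μ) ^ (1 / 4 : ℝ) *
        (∫⁻ x, h x ^ 4 ∂μ) ^ (1 / 4 : ℝ) * (∫⁻ x, k x ^ 4 ∂μ) ^ (1 / 4 : ℝ) := by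
  have h1 := ENNReal.lintegral_prod_norm_pow_le (μ := μ) (Finset.univ : Finset (Fin 4))
    (f := ![fun x => f x ^ 4, fun x => g x ^ 4, fun x => h x ^ 4, fun x => k x ^ 4])
    (fun i _ => by
      fin_cases i
      · exact (hf.pow_const 4).aemeasurable
      · exact (hg.pow_const 4).aemeasurable
      · exact (hh.pow_const 4).aemeasurable
      · exact (hk.pow_const 4).aemeasurable)
    (p := fun _ => (1 / 4 : ℝ)) (by simp) (fun i _ => by norm_num)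
  simp only [Fin.prod_univ_four, Matrix.cons_val_zero, Matrix.cons_val_one,
    Matrix.cons_val_two, Matrix.head_cons, Matrix.tail_cons, Matrix.cons_val] at h1
  simp only [root4] at h1
  exact h1

end S37

open S37 in
theorem pt37 : StPt := by
  intro f l p hf hl hp t
  unfold MM
  refine iSup_le fun u => iSup_le fun v => iSup_le fun huv => ?_
  set c : ℝ≥0∞ := (ENNReal.ofReal (v - u))⁻¹ with hc
  have huv' : 0 < v - u := by linarith [huv.1, huv.2]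
  have hc0 : c ≠ 0 := ENNReal.inv_ne_zero.2 ENNReal.ofReal_ne_top
  have hct : c ≠ ⊤ := ENNReal.inv_ne_top.2 (ENNReal.ofReal_pos.2 huv').ne'
  have hroot : c ^ (1 / 3 : ℝ) * c ^ (1 / 3 : ℝ) * c ^ (1 / 3 : ℝ) = c := by
    rw [← ENNReal.rpow_add _ _ hc0 hct, ← ENNReal.rpow_add _ _ hc0 hct]
    norm_num
  have key : ∀ a : ℝ → ℝ≥0∞, c ^ (1 / 3 : ℝ) * (∫⁻ x in Ioo u v, a x) ^ (1 / 3 : ℝ) ≤
      (⨆ (u : ℝ) (v : ℝ) (_ : u < t ∧ t < v), (ENNReal.ofReal (v - u))⁻¹ *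
        ∫⁻ x in Ioo u v, a x) ^ (1 / 3 : ℝ) := by
    intro a
    rw [← ENNReal.mul_rpow_of_nonneg _ _ (by norm_num : (0 : ℝ) ≤ 1 / 3)]
    refine ENNReal.rpow_le_rpow ?_ (by norm_num)
    exact le_iSup_of_le u (le_iSup_of_le v (le_iSup_of_le huv le_rfl))
  calc c * ∫⁻ x in Ioo u v, f x * l x * p x ≤
      c * ((∫⁻ x in Ioo u v, f x ^ 3) ^ (1 / 3 : ℝ) * (∫⁻ x in Ioo u v, l x ^ 3) ^ (1 / 3 : ℝ) *
        (∫⁻ x in Ioo u v, p x ^ 3) ^ (1 / 3 : ℝ)) :=
        mul_le_mul_right (hoelder3 f l p hf hl hp) c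
    _ = (c ^ (1 / 3 : ℝ) * (∫⁻ x in Ioo u v, f x ^ 3) ^ (1 / 3 : ℝ)) *
        (c ^ (1 / 3 : ℝ) * (∫⁻ x in Ioo u v, l x ^ 3) ^ (1 / 3 : ℝ)) *
        (c ^ (1 / 3 : ℝ) * (∫⁻ x in Ioo u v, p x ^ 3) ^ (1 / 3 : ℝ)) := by
        nth_rewrite 1 [← hroot]
        ring
    _ ≤ _ := mul_le_mul' (mul_le_mul' (key _) (key _)) (key _)

namespace S37

/-- measurable in three variables -/
def M3 (Ψ : ℝ → ℝ → ℝ → ℝ≥0∞) : Prop := Measurable fun q : ℝ × ℝ × ℝ => Ψ q.1 q.2.1 q.2.2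

theorem swap12 {Ψ : ℝ → ℝ → ℝ → ℝ≥0∞} (h : M3 Ψ) :
    ∫⁻ x, ∫⁻ y, ∫⁻ z, Ψ x y z = ∫⁻ y, ∫⁻ x, ∫⁻ z, Ψ x y z := by
  refine lintegral_lintegral_swap (f := fun x y => ∫⁻ z, Ψ x y z) ?_
  refine Measurable.aemeasurable ?_
  have h1 : Measurable fun q : (ℝ × ℝ) × ℝ => Ψ q.1.1 q.1.2 q.2 :=
    h.comp ((measurable_fst.comp measurable_fst).prodMk
      ((measurable_snd.comp measurable_fst).prodMk measurable_snd))
  exact h1.lintegral_prod_right'

theorem swap23 {Ψ : ℝ → ℝ → ℝ → ℝ≥0∞} (h : M3 Ψ) :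
    ∫⁻ x, ∫⁻ y, ∫⁻ z, Ψ x y z = ∫⁻ x, ∫⁻ z, ∫⁻ y, Ψ x y z := by
  refine lintegral_congr fun x => lintegral_lintegral_swap ?_
  refine Measurable.aemeasurable ?_
  exact h.comp (measurable_const.prodMk measurable_id)

theorem triple {Ψ : ℝ → ℝ → ℝ → ℝ≥0∞} (h : M3 Ψ) :
    ∫⁻ q : ℝ × ℝ × ℝ, Ψ q.1 q.2.1 q.2.2 = ∫⁻ x, ∫⁻ y, ∫⁻ z, Ψ x y z := by
  rw [Measure.volume_eq_prod, lintegral_prod _ h.aemeasurable]
  refine lintegral_congr fun x => ?_
  have h1 : Measurable fun q : ℝ × ℝ => Ψ x q.1 q.2 :=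
    h.comp (measurable_const.prodMk measurable_id)
  rw [Measure.volume_eq_prod, lintegral_prod _ h1.aemeasurable]

theorem subst_last (s : ℝ) (φ : ℝ → ℝ≥0∞) : ∫⁻ x, φ (s - x) = ∫⁻ x, φ x :=
  lintegral_sub_left_eq_self φ s

end S37

open S37 in
theorem hyp37 : StHyp := by
  intro F G H K hF hG hH hK s
  have mx : Measurable fun q : ℝ × ℝ × ℝ => q.1 := measurable_fst
  have my : Measurable fun q : ℝ × ℝ × ℝ => q.2.1 := measurable_fst.comp measurable_snd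
  have mz : Measurable fun q : ℝ × ℝ × ℝ => q.2.2 := measurable_snd.comp measurable_snd
  have mw : Measurable fun q : ℝ × ℝ × ℝ => s - q.1 - q.2.1 - q.2.2 :=
    ((measurable_const.sub mx).sub my).sub mz
  have hG' : M3 fun x y z => G y z (s - x - y - z) := hG.comp (my.prodMk (mz.prodMk mw))
  have hH' : M3 fun x y z => H z (s - x - y - z) x := hH.comp (mz.prodMk (mw.prodMk mx))
  have hK' : M3 fun x y z => K (s - x - y - z) x y := hK.comp (mw.prodMk (mx.prodMk my))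
  have hF' : M3 F := hF
  have hall : M3 fun x y z => F x y z * G y z (s - x - y - z) * H z (s - x - y - z) x *
      K (s - x - y - z) x y := ((hF'.mul hG').mul hH').mul hK'
  rw [← triple hall]
  refine (hoelder4 (fun q : ℝ × ℝ × ℝ => F q.1 q.2.1 q.2.2)
    (fun q => G q.2.1 q.2.2 (s - q.1 - q.2.1 - q.2.2))
    (fun q => H q.2.2 (s - q.1 - q.2.1 - q.2.2) q.1)
    (fun q => K (s - q.1 - q.2.1 - q.2.2) q.1 q.2.1) hF' hG' hH' hK').trans_eq ?_
  have pF : M3 fun x y z => F x y z ^ 4 := Measurable.pow_const hF' 4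
  have pG : M3 fun x y z => G y z (s - x - y - z) ^ 4 := Measurable.pow_const hG' 4
  have pH : M3 fun x y z => H z (s - x - y - z) x ^ 4 := Measurable.pow_const hH' 4
  have pK : M3 fun x y z => K (s - x - y - z) x y ^ 4 := Measurable.pow_const hK' 4
  rw [triple pF, triple pG, triple pH, triple pK]
  have eG : ∫⁻ x, ∫⁻ y, ∫⁻ z, G y z (s - x - y - z) ^ 4 = ∫⁻ x, ∫⁻ y, ∫⁻ z, G x y z ^ 4 := by
    rw [swap12 pG]
    have q1 : M3 fun y x z => G y z (s - x - y - z) ^ 4 :=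
      Measurable.comp (g := fun q : ℝ × ℝ × ℝ => G q.2.1 q.2.2 (s - q.1 - q.2.1 - q.2.2) ^ 4) pG
        (my.prodMk (mx.prodMk mz))
    rw [swap23 q1]
    refine lintegral_congr fun y => lintegral_congr fun z => ?_
    rw [← subst_last (s - y - z) fun w => G y z w ^ 4]
    refine lintegral_congr fun x => ?_
    rw [show s - x - y - z = s - y - z - x by ring]
  have eH : ∫⁻ x, ∫⁻ y, ∫⁻ z, H z (s - x - y - z) x ^ 4 = ∫⁻ x, ∫⁻ y, ∫⁻ z, H x y z ^ 4 := by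
    rw [swap23 pH]
    have e1 : ∀ x z, ∫⁻ y, H z (s - x - y - z) x ^ 4 = ∫⁻ w, H z w x ^ 4 := by
      intro x z
      rw [← subst_last (s - x - z) fun w => H z w x ^ 4]
      refine lintegral_congr fun y => ?_
      rw [show s - x - y - z = s - x - z - y by ring]
    rw [lintegral_congr fun x => lintegral_congr fun z => e1 x z]
    have q1 : M3 fun x z w => H z w x ^ 4 :=
      (Measurable.pow_const hH 4).comp (my.prodMk (mz.prodMk mx))
    rw [swap12 q1]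
    have q2 : M3 fun z x w => H z w x ^ 4 :=
      (Measurable.pow_const hH 4).comp (mx.prodMk (mz.prodMk my))
    rw [swap23 q2]
  have eK : ∫⁻ x, ∫⁻ y, ∫⁻ z, K (s - x - y - z) x y ^ 4 = ∫⁻ x, ∫⁻ y, ∫⁻ z, K x y z ^ 4 := by
    have e1 : ∀ x y, ∫⁻ z, K (s - x - y - z) x y ^ 4 = ∫⁻ w, K w x y ^ 4 := fun x y =>
      subst_last (s - x - y) fun w => K w x y ^ 4
    rw [lintegral_congr fun x => lintegral_congr fun y => e1 x y]
    have q1 : M3 fun x y w => K w x y ^ 4 :=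
      (Measurable.pow_const hK 4).comp (mz.prodMk (mx.prodMk my))
    rw [swap23 q1]
    have q2 : M3 fun x w y => K w x y ^ 4 :=
      (Measurable.pow_const hK 4).comp (my.prodMk (mx.prodMk mz))
    rw [swap12 q2]
  rw [eG, eH, eK]

end Pool.Agent.Lib.SX53
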