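import Mathlib

/-!
Definitions for the bound of the simplex Hilbert form when the two functions that contain both
`x₁` and `x₄` split across `x₁ | x₄` (the other two functions are arbitrary).
-/

set_option autoImplicit false

open MeasureTheory Set
open scoped ENNReal

namespace Pool.Agent.Lib.SX53

/-- The Haar function of the interval `[0,1)`. -/
noncomputable def hh (u : ℝ) : ℝ :=
  if 0 ≤ u ∧ u < 1 / 2 then 1 else if 1 / 2 ≤ u ∧ u < 1 then -1 else 0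

/-- The difference of the Haar functions of the two halves. -/
noncomputable def et (u : ℝ) : ℝ :=
  if 0 ≤ u ∧ u < 1 / 4 then 1 else if 1 / 4 ≤ u ∧ u < 3 / 4 then -1
  else if 3 / 4 ≤ u ∧ u < 1 then 1 else 0

/-- The correlation of `hh` and `et`. -/
noncomputable def kap (s : ℝ) : ℝ := ∫ w, hh (w + s) * et w

/-- The smooth truncation of the kernel `1 / s` between the scales `a` and `2 ^ n * a`. -/
noncomputable def KK (a : ℝ) (n : ℕ) (s : ℝ) : ℝ :=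
  8 * ∫ r in a..(2 * a), ∑ j ∈ Finset.range n, (2 ^ j * r ^ 2)⁻¹ * kap (s / (2 ^ j * r))

/-- The truncated kernel. -/
noncomputable def trK (e N t : ℝ) : ℝ := if e < |t| ∧ |t| < N then 1 / t else 0

/-- The Hardy-Littlewood maximal function on the line. -/
noncomputable def MM (φ : ℝ → ℝ≥0∞) (t : ℝ) : ℝ≥0∞ :=
  ⨆ (u : ℝ) (v : ℝ) (_ : u < t ∧ t < v),
    (ENNReal.ofReal (v - u))⁻¹ * ∫⁻ x in Ioo u v, φ x

/-- One scale of the dyadic form. -/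
noncomputable def term (A B : ℝ → ℝ) (d ω : ℝ) (k : ℤ) : ℝ :=
  d⁻¹ * |∫ x, hh ((x - ω) / d - k) * A x| * |∫ y, et ((y - ω) / d - k) * B y|

/-! Single node inequality. -/

/-- The potential. -/
noncomputable def th (a b m n : ℝ) : ℝ := (a ^ 2 * n / m + b ^ 2 * m / n) / 2 + m * n

/-- ROW NODE. -/
def StNode : Prop := ∀ a1 a2 A1 A2 b1 b2 B1 B2 m n : ℝ,
  |a1| ≤ A1 → |a2| ≤ A2 → |b1| ≤ B1 → |b2| ≤ B2 →
  (A1 + A2) / 2 ≤ m → (B1 + B2) / 2 ≤ n →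
  th ((a1 + a2) / 2) ((b1 + b2) / 2) m n
    + ((((a1 - a2) / 2) ^ 2 * n / m + ((b1 - b2) / 2) ^ 2 * m / n)) / 2
  ≤ (th a1 b1 (max m A1) (max n B1) + th a2 b2 (max m A2) (max n B2)) / 2

/-- ROW HAAR (uses NODE). -/
def StHaar : Prop := ∀ A B : ℝ → ℝ, Continuous A → HasCompactSupport A →
  Continuous B → HasCompactSupport B → ∀ d : ℝ, 0 < d → ∀ (ω : ℝ) (n : ℕ),
  (∑ j ∈ Finset.range n, ∑' k : ℤ, ENNReal.ofReal (term A B (2 ^ j * d) ω k))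
    ≤ 6 * ∫⁻ t, MM (fun x => ‖A x‖ₑ) t * MM (fun x => ‖B x‖ₑ) t

/-- ROW AVG. -/
def StAvg : Prop := ∀ A B : ℝ → ℝ, Continuous A → HasCompactSupport A →
  Continuous B → HasCompactSupport B → ∀ r : ℝ, 0 < r → ∀ (n : ℕ) (C : ℝ≥0∞),
  (∀ ω : ℝ, (∑ j ∈ Finset.range n, ∑' k : ℤ, ENNReal.ofReal (term A B (2 ^ j * r) ω k)) ≤ C) →
  ENNReal.ofReal |∫ x, ∫ y, A x * B y *
    ∑ j ∈ Finset.range n, (2 ^ j * r)⁻¹ * kap ((x - y) / (2 ^ j * r))| ≤ C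

/-- ROW DIL. -/
def StDil : Prop := ∀ A B : ℝ → ℝ, Continuous A → HasCompactSupport A →
  Continuous B → HasCompactSupport B → ∀ a : ℝ, 0 < a → ∀ (n : ℕ) (C : ℝ≥0∞),
  (∀ r : ℝ, a ≤ r → r ≤ 2 * a → ENNReal.ofReal |∫ x, ∫ y, A x * B y *
    ∑ j ∈ Finset.range n, (2 ^ j * r)⁻¹ * kap ((x - y) / (2 ^ j * r))| ≤ C) →
  ENNReal.ofReal |∫ x, ∫ y, A x * B y * KK a n (x - y)| ≤ 6 * C

/-- ROW KAP: elementary facts on `kap`. -/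
def StKap : Prop := Continuous kap ∧ (∀ s, kap (-s) = -kap s) ∧ (∀ s, 1 ≤ |s| → kap s = 0) ∧
  (∀ s, |kap s| ≤ 4 * |s|) ∧ (∫ s in (0 : ℝ)..1, kap s) = 1 / 8

/-- ROW ERR (uses KAP). -/
def StErr : Prop := ∀ e N : ℝ, 0 < e → e < N → ∃ (n : ℕ) (b : ℝ), 0 < b ∧ ∀ s : ℝ,
  |trK e N s - KK e n s| ≤ 40 * ((if |s| ≤ e then e⁻¹ else 0) + (if |s| ≤ 2 * b then b⁻¹ else 0))

/-- continuity and boundedness of `KK` (part of row ERR). -/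
def StKKc : Prop := ∀ a : ℝ, 0 < a → ∀ n : ℕ, Continuous (KK a n)

/-- ROW HL: the maximal theorem on the line with exponent `4/3`. -/
def StHL : Prop := ∃ C : ℝ≥0∞, C ≠ ⊤ ∧ ∀ φ : ℝ → ℝ≥0∞, Measurable φ →
  ∫⁻ t, MM φ t ^ (4 / 3 : ℝ) ≤ C * ∫⁻ t, φ t ^ (4 / 3 : ℝ)

/-- ROW PT: pointwise Hoelder for three factors. -/
def StPt : Prop := ∀ (f l p : ℝ → ℝ≥0∞), Measurable f → Measurable l → Measurable p → ∀ t,
  MM (fun x => f x * l x * p x) t ≤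
    MM (fun x => f x ^ 3) t ^ (1 / 3 : ℝ) * MM (fun x => l x ^ 3) t ^ (1 / 3 : ℝ)
      * MM (fun x => p x ^ 3) t ^ (1 / 3 : ℝ)

/-- ROW INV: translation and reflection. -/
def StInv : Prop := ∀ (φ : ℝ → ℝ≥0∞) (c t : ℝ), MM (fun y => φ (c - y)) t = MM φ (c - t)

/-- ROW HYP: Hoelder on the hyperplanes `x₁ + x₂ + x₃ + x₄ = s`. -/
def StHyp : Prop := ∀ (F G H K : ℝ → ℝ → ℝ → ℝ≥0∞),
  Measurable (fun z : ℝ × ℝ × ℝ => F z.1 z.2.1 z.2.2) →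
  Measurable (fun z : ℝ × ℝ × ℝ => G z.1 z.2.1 z.2.2) →
  Measurable (fun z : ℝ × ℝ × ℝ => H z.1 z.2.1 z.2.2) →
  Measurable (fun z : ℝ × ℝ × ℝ => K z.1 z.2.1 z.2.2) → ∀ s : ℝ,
  ∫⁻ x, ∫⁻ y, ∫⁻ z, F x y z * G y z (s - x - y - z) * H z (s - x - y - z) x
      * K (s - x - y - z) x y ≤
    (∫⁻ x, ∫⁻ y, ∫⁻ z, F x y z ^ 4) ^ (1 / 4 : ℝ) * (∫⁻ x, ∫⁻ y, ∫⁻ z, G x y z ^ 4) ^ (1 / 4 : ℝ)
    * (∫⁻ x, ∫⁻ y, ∫⁻ z, H x y z ^ 4) ^ (1 / 4 : ℝ)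
    * (∫⁻ x, ∫⁻ y, ∫⁻ z, K x y z ^ 4) ^ (1 / 4 : ℝ)

/-- ROW MES: joint measurability of the maximal function in one variable. -/
def StMes : Prop := ∀ (f : ℝ × ℝ × ℝ → ℝ), Continuous f →
  Measurable (fun z : ℝ × ℝ × ℝ => MM (fun x => ‖f (x, z.2.1, z.2.2)‖ₑ ^ 3) z.1)

/-- ROW BIG (uses HL, PT, INV, HYP, MES): the sum over the frozen variables. -/
def StBig : Prop := ∃ C : ℝ≥0∞, C ≠ ⊤ ∧ ∀ (f g : ℝ × ℝ × ℝ → ℝ) (e l p r : ℝ × ℝ → ℝ),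
  Continuous f → HasCompactSupport f → Continuous g → HasCompactSupport g →
  Continuous e → HasCompactSupport e → Continuous l → HasCompactSupport l →
  Continuous p → HasCompactSupport p → Continuous r → HasCompactSupport r →
  ∫⁻ x2 : ℝ, ∫⁻ x3 : ℝ, ∫⁻ t : ℝ,
      MM (fun x => ‖f (x, x2, x3) * l (x3, x) * p (x, x2)‖ₑ) t *
      MM (fun y => ‖g (x2, x3, -x2 - x3 - y) * e (x3, -x2 - x3 - y) * r (-x2 - x3 - y, x2)‖ₑ) t ≤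
    C * (∫⁻ x, ∫⁻ y, ∫⁻ z, ‖f (x, y, z)‖ₑ ^ 4) ^ (1 / 4 : ℝ)
      * (∫⁻ x, ∫⁻ y, ∫⁻ z, ‖g (x, y, z)‖ₑ ^ 4) ^ (1 / 4 : ℝ)
      * (∫⁻ x, ∫⁻ y, ∫⁻ z, ‖e (x, y) * l (x, z)‖ₑ ^ 4) ^ (1 / 4 : ℝ)
      * (∫⁻ x, ∫⁻ y, ∫⁻ z, ‖r (x, z) * p (y, z)‖ₑ ^ 4) ^ (1 / 4 : ℝ)

/-- The truncated form. -/
noncomputable def form (Ker : ℝ → ℝ) (f g h k : (Fin 3 → ℝ) → ℝ) : ℝ :=
  ∫ x : Fin 4 → ℝ, f ![x 0, x 1, x 2] * g ![x 1, x 2, x 3] * h ![x 2, x 3, x 0] *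
    k ![x 3, x 0, x 1] * Ker (∑ i, x i)

/-- FINAL STATEMENT. -/
def StFinal : Prop := ∃ C : ℝ, ∀ (f g : (Fin 3 → ℝ) → ℝ) (e l p r : (Fin 2 → ℝ) → ℝ),
  Continuous f → HasCompactSupport f → Continuous g → HasCompactSupport g →
  Continuous e → HasCompactSupport e → Continuous l → HasCompactSupport l →
  Continuous p → HasCompactSupport p → Continuous r → HasCompactSupport r →
  ∀ h k : (Fin 3 → ℝ) → ℝ,
  (h = fun x => e ![x 0, x 1] * l ![x 0, x 2]) → (k = fun x => r ![x 0, x 2] * p ![x 1, x 2]) →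
  ∀ ε N : ℝ, 0 < ε → ε < N →
  |form (trK ε N) f g h k| ≤
    C * (eLpNorm f 4 volume).toReal * (eLpNorm g 4 volume).toReal *
      (eLpNorm h 4 volume).toReal * (eLpNorm k 4 volume).toReal

end Pool.Agent.Lib.SX53
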