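import Mathlib
import Pool.Agent.Lib.MP_5ef378_an.SX.Defs53

/-!
# Row KAP: the correlation `kap` is an explicit piecewise linear function
-/

set_option autoImplicit false

open MeasureTheory Set

namespace Pool.Agent.Lib.SX53

/-- the indicator of `[a, b)` -/
noncomputable def ind75 (a b w : ℝ) : ℝ := (Ico a b).indicator (fun _ => (1 : ℝ)) w

theorem ind75_mul (a b c d w : ℝ) :
    ind75 a b w * ind75 c d w = (Ico a b ∩ Ico c d).indicator (fun _ => (1 : ℝ)) w := by
  unfold ind75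
  by_cases h1 : w ∈ Ico a b <;> by_cases h2 : w ∈ Ico c d
  · have h3 : w ∈ Ico a b ∩ Ico c d := ⟨h1, h2⟩
    rw [Set.indicator_of_mem h1, Set.indicator_of_mem h2, Set.indicator_of_mem h3, mul_one]
  · have h3 : w ∉ Ico a b ∩ Ico c d := fun h => h2 h.2
    rw [Set.indicator_of_notMem h2, Set.indicator_of_notMem h3, mul_zero]
  · have h3 : w ∉ Ico a b ∩ Ico c d := fun h => h1 h.1
    rw [Set.indicator_of_notMem h1, Set.indicator_of_notMem h3, zero_mul]
  · have h3 : w ∉ Ico a b ∩ Ico c d := fun h => h1 h.1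
    rw [Set.indicator_of_notMem h1, Set.indicator_of_notMem h3, zero_mul]

theorem ind75_int (a b c d : ℝ) : Integrable (fun w => ind75 a b w * ind75 c d w) := by
  simp only [ind75_mul]
  rw [integrable_indicator_iff (measurableSet_Ico.inter measurableSet_Ico)]
  rw [Set.Ico_inter_Ico]
  exact integrableOn_const (by simp) (by simp)

theorem abs75 (a b c d : ℝ) (hab : a ≤ b) (hcd : c ≤ d) :
    max (min b d - max a c) 0 = (|a - d| + |b - c| - |a - c| - |b - d|) / 2 := by
  rcases le_total b d with h1 | h1 <;> rcases le_total a c with h2 | h2 <;>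
  rcases le_total a d with h3 | h3 <;> rcases le_total b c with h4 | h4 <;>
  simp only [min_eq_left, min_eq_right, max_eq_left, max_eq_right, h1, h2] <;>
  (first
    | rw [abs_of_nonpos (sub_nonpos.2 h3)]
    | rw [abs_of_nonneg (sub_nonneg.2 h3)]) <;>
  (first
    | rw [abs_of_nonpos (sub_nonpos.2 h4)]
    | rw [abs_of_nonneg (sub_nonneg.2 h4)]) <;>
  (first
    | rw [abs_of_nonpos (sub_nonpos.2 h2)]
    | rw [abs_of_nonneg (sub_nonneg.2 h2)]) <;>
  (first
    | rw [abs_of_nonpos (sub_nonpos.2 h1)]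
    | rw [abs_of_nonneg (sub_nonneg.2 h1)]) <;>
  (first
    | (rw [max_eq_right (by linarith)]; linarith)
    | (rw [max_eq_left (by linarith)]; linarith))

theorem ov75 (a b c d : ℝ) (hab : a ≤ b) (hcd : c ≤ d) :
    ∫ w, ind75 a b w * ind75 c d w = (|a - d| + |b - c| - |a - c| - |b - d|) / 2 := by
  rw [← abs75 a b c d hab hcd]
  simp only [ind75_mul]
  rw [Set.Ico_inter_Ico, integral_indicator measurableSet_Ico, setIntegral_const, smul_eq_mul,
    mul_one, Real.volume_real_Ico]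

theorem hh75 (s w : ℝ) : hh (w + s) = ind75 (-s) (1 / 2 - s) w - ind75 (1 / 2 - s) (1 - s) w := by
  unfold hh ind75
  simp only [Set.indicator, Set.mem_Ico]
  split_ifs <;> first | (norm_num; done) | (exfalso; grind)

theorem et75 (w : ℝ) : et w = ind75 0 (1 / 4) w - ind75 (1 / 4) (3 / 4) w + ind75 (3 / 4) 1 w := by
  unfold et ind75
  simp only [Set.indicator, Set.mem_Ico]
  split_ifs <;> first | (norm_num; done) | (exfalso; grind)

theorem six75 {f1 f2 f3 f4 f5 f6 : ℝ → ℝ} (i1 : Integrable f1) (i2 : Integrable f2)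
    (i3 : Integrable f3) (i4 : Integrable f4) (i5 : Integrable f5) (i6 : Integrable f6) :
    ∫ w, (f1 w - f2 w + f3 w - f4 w + f5 w - f6 w) =
      (∫ w, f1 w) - (∫ w, f2 w) + (∫ w, f3 w) - (∫ w, f4 w) + (∫ w, f5 w) - ∫ w, f6 w := by
  have a2 : Integrable (fun w => f1 w - f2 w) := i1.sub i2
  have a3 : Integrable (fun w => f1 w - f2 w + f3 w) := a2.add i3
  have a4 : Integrable (fun w => f1 w - f2 w + f3 w - f4 w) := a3.sub i4
  have a5 : Integrable (fun w => f1 w - f2 w + f3 w - f4 w + f5 w) := a4.add i5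
  rw [integral_sub a5 i6, integral_add a4 i5, integral_sub a3 i4, integral_add a2 i3,
    integral_sub i1 i2]

/-- the explicit formula -/
theorem kapF75 (s : ℝ) : kap s = (|s + 1| - 2 * |s + 3 / 4| - 2 * |s + 1 / 2| + 6 * |s + 1 / 4|
    - 6 * |s - 1 / 4| + 2 * |s - 1 / 2| + 2 * |s - 3 / 4| - |s - 1|) / 2 := by
  have h0 : (fun w => hh (w + s) * et w) = fun w =>
      ind75 (-s) (1 / 2 - s) w * ind75 0 (1 / 4) w
        - ind75 (-s) (1 / 2 - s) w * ind75 (1 / 4) (3 / 4) w
        + ind75 (-s) (1 / 2 - s) w * ind75 (3 / 4) 1 w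
        - ind75 (1 / 2 - s) (1 - s) w * ind75 0 (1 / 4) w
        + ind75 (1 / 2 - s) (1 - s) w * ind75 (1 / 4) (3 / 4) w
        - ind75 (1 / 2 - s) (1 - s) w * ind75 (3 / 4) 1 w := by
    funext w
    rw [hh75, et75]
    ring
  have i1 := ind75_int (-s) (1 / 2 - s) 0 (1 / 4)
  have i2 := ind75_int (-s) (1 / 2 - s) (1 / 4) (3 / 4)
  have i3 := ind75_int (-s) (1 / 2 - s) (3 / 4) 1
  have i4 := ind75_int (1 / 2 - s) (1 - s) 0 (1 / 4)
  have i5 := ind75_int (1 / 2 - s) (1 - s) (1 / 4) (3 / 4)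
  have i6 := ind75_int (1 / 2 - s) (1 - s) (3 / 4) 1
  unfold kap
  rw [h0, six75 i1 i2 i3 i4 i5 i6,
    ov75 _ _ _ _ (by linarith) (by norm_num), ov75 _ _ _ _ (by linarith) (by norm_num),
    ov75 _ _ _ _ (by linarith) (by norm_num), ov75 _ _ _ _ (by linarith) (by norm_num),
    ov75 _ _ _ _ (by linarith) (by norm_num), ov75 _ _ _ _ (by linarith) (by norm_num)]
  have e1 : |-s - 1 / 4| = |s + 1 / 4| := by rw [← abs_neg]; congr 1; ring
  have e2 : |1 / 2 - s - 0| = |s - 1 / 2| := by rw [← abs_neg]; congr 1; ring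
  have e3 : |-s - 0| = |s| := by rw [← abs_neg]; congr 1; ring
  have e4 : |1 / 2 - s - 1 / 4| = |s - 1 / 4| := by rw [← abs_neg]; congr 1; ring
  have e5 : |-s - 3 / 4| = |s + 3 / 4| := by rw [← abs_neg]; congr 1; ring
  have e6 : |1 / 2 - s - 3 / 4| = |s + 1 / 4| := by rw [← abs_neg]; congr 1; ring
  have e7 : |-s - 1| = |s + 1| := by rw [← abs_neg]; congr 1; ring
  have e8 : |1 / 2 - s - 1| = |s + 1 / 2| := by rw [← abs_neg]; congr 1; ring
  have e9 : |1 - s - 0| = |s - 1| := by rw [← abs_neg]; congr 1; ring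
  have e10 : |1 - s - 1 / 4| = |s - 3 / 4| := by rw [← abs_neg]; congr 1; ring
  have e11 : |1 - s - 3 / 4| = |s - 1 / 4| := by rw [← abs_neg]; congr 1; ring
  have e12 : |1 - s - 1| = |s| := by rw [← abs_neg]; congr 1; ring
  rw [e1, e2, e3, e4, e5, e6, e7, e8, e9, e10, e11, e12]
  ring

theorem kap75_cont : Continuous kap := by
  have : kap = fun s => (|s + 1| - 2 * |s + 3 / 4| - 2 * |s + 1 / 2| + 6 * |s + 1 / 4|
    - 6 * |s - 1 / 4| + 2 * |s - 1 / 2| + 2 * |s - 3 / 4| - |s - 1|) / 2 := funext kapF75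
  rw [this]
  fun_prop

theorem kap75_odd (s : ℝ) : kap (-s) = -kap s := by
  rw [kapF75, kapF75]
  have e1 : |-s + 1| = |s - 1| := by rw [← abs_neg]; congr 1; ring
  have e2 : |-s + 3 / 4| = |s - 3 / 4| := by rw [← abs_neg]; congr 1; ring
  have e3 : |-s + 1 / 2| = |s - 1 / 2| := by rw [← abs_neg]; congr 1; ring
  have e4 : |-s + 1 / 4| = |s - 1 / 4| := by rw [← abs_neg]; congr 1; ring
  have e5 : |-s - 1 / 4| = |s + 1 / 4| := by rw [← abs_neg]; congr 1; ring
  have e6 : |-s - 1 / 2| = |s + 1 / 2| := by rw [← abs_neg]; congr 1; ring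
  have e7 : |-s - 3 / 4| = |s + 3 / 4| := by rw [← abs_neg]; congr 1; ring
  have e8 : |-s - 1| = |s + 1| := by rw [← abs_neg]; congr 1; ring
  rw [e1, e2, e3, e4, e5, e6, e7, e8]
  ring

theorem kap75_a (s : ℝ) (h0 : 0 ≤ s) (h1 : s ≤ 1 / 4) : kap s = 3 * s := by
  rw [kapF75, abs_of_nonneg (show 0 ≤ s + 1 by linarith),
    abs_of_nonneg (show 0 ≤ s + 3 / 4 by linarith), abs_of_nonneg (show 0 ≤ s + 1 / 2 by linarith),
    abs_of_nonneg (show 0 ≤ s + 1 / 4 by linarith), abs_of_nonpos (show s - 1 / 4 ≤ 0 by linarith),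
    abs_of_nonpos (show s - 1 / 2 ≤ 0 by linarith), abs_of_nonpos (show s - 3 / 4 ≤ 0 by linarith),
    abs_of_nonpos (show s - 1 ≤ 0 by linarith)]
  ring

theorem kap75_b (s : ℝ) (h0 : 1 / 4 ≤ s) (h1 : s ≤ 1 / 2) : kap s = 3 / 2 - 3 * s := by
  rw [kapF75, abs_of_nonneg (show 0 ≤ s + 1 by linarith),
    abs_of_nonneg (show 0 ≤ s + 3 / 4 by linarith), abs_of_nonneg (show 0 ≤ s + 1 / 2 by linarith),
    abs_of_nonneg (show 0 ≤ s + 1 / 4 by linarith), abs_of_nonneg (show 0 ≤ s - 1 / 4 by linarith),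
    abs_of_nonpos (show s - 1 / 2 ≤ 0 by linarith), abs_of_nonpos (show s - 3 / 4 ≤ 0 by linarith),
    abs_of_nonpos (show s - 1 ≤ 0 by linarith)]
  ring

theorem kap75_c (s : ℝ) (h0 : 1 / 2 ≤ s) (h1 : s ≤ 3 / 4) : kap s = 1 / 2 - s := by
  rw [kapF75, abs_of_nonneg (show 0 ≤ s + 1 by linarith),
    abs_of_nonneg (show 0 ≤ s + 3 / 4 by linarith), abs_of_nonneg (show 0 ≤ s + 1 / 2 by linarith),
    abs_of_nonneg (show 0 ≤ s + 1 / 4 by linarith), abs_of_nonneg (show 0 ≤ s - 1 / 4 by linarith),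
    abs_of_nonneg (show 0 ≤ s - 1 / 2 by linarith), abs_of_nonpos (show s - 3 / 4 ≤ 0 by linarith),
    abs_of_nonpos (show s - 1 ≤ 0 by linarith)]
  ring

theorem kap75_d (s : ℝ) (h0 : 3 / 4 ≤ s) (h1 : s ≤ 1) : kap s = s - 1 := by
  rw [kapF75, abs_of_nonneg (show 0 ≤ s + 1 by linarith),
    abs_of_nonneg (show 0 ≤ s + 3 / 4 by linarith), abs_of_nonneg (show 0 ≤ s + 1 / 2 by linarith),
    abs_of_nonneg (show 0 ≤ s + 1 / 4 by linarith), abs_of_nonneg (show 0 ≤ s - 1 / 4 by linarith),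
    abs_of_nonneg (show 0 ≤ s - 1 / 2 by linarith), abs_of_nonneg (show 0 ≤ s - 3 / 4 by linarith),
    abs_of_nonpos (show s - 1 ≤ 0 by linarith)]
  ring

theorem kap75_e (s : ℝ) (h0 : 1 ≤ s) : kap s = 0 := by
  rw [kapF75, abs_of_nonneg (show 0 ≤ s + 1 by linarith),
    abs_of_nonneg (show 0 ≤ s + 3 / 4 by linarith), abs_of_nonneg (show 0 ≤ s + 1 / 2 by linarith),
    abs_of_nonneg (show 0 ≤ s + 1 / 4 by linarith), abs_of_nonneg (show 0 ≤ s - 1 / 4 by linarith),
    abs_of_nonneg (show 0 ≤ s - 1 / 2 by linarith), abs_of_nonneg (show 0 ≤ s - 3 / 4 by linarith),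
    abs_of_nonneg (show 0 ≤ s - 1 by linarith)]
  ring

theorem kap75_bound_nonneg (s : ℝ) (h : 0 ≤ s) : |kap s| ≤ 4 * s := by
  rw [abs_le]
  rcases le_total s (1 / 4) with h1 | h1
  · rw [kap75_a s h h1]
    constructor <;> linarith
  rcases le_total s (1 / 2) with h2 | h2
  · rw [kap75_b s h1 h2]
    constructor <;> linarith
  rcases le_total s (3 / 4) with h3 | h3
  · rw [kap75_c s h2 h3]
    constructor <;> linarith
  rcases le_total s 1 with h4 | h4
  · rw [kap75_d s h3 h4]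
    constructor <;> linarith
  · rw [kap75_e s h4]
    constructor <;> linarith

theorem kap75_integral : (∫ s in (0 : ℝ)..1, kap s) = 1 / 8 := by
  have hi : ∀ a b : ℝ, IntervalIntegrable kap volume a b := fun a b =>
    kap75_cont.intervalIntegrable a b
  rw [← intervalIntegral.integral_add_adjacent_intervals (hi 0 (1 / 4)) (hi (1 / 4) 1),
    ← intervalIntegral.integral_add_adjacent_intervals (hi (1 / 4) (1 / 2)) (hi (1 / 2) 1),
    ← intervalIntegral.integral_add_adjacent_intervals (hi (1 / 2) (3 / 4)) (hi (3 / 4) 1)]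
  have h1 : (∫ s in (0 : ℝ)..(1 / 4), kap s) = ∫ s in (0 : ℝ)..(1 / 4), 3 * s := by
    apply intervalIntegral.integral_congr
    intro s hs
    rw [Set.uIcc_of_le (by norm_num)] at hs
    exact kap75_a s hs.1 hs.2
  have h2 : (∫ s in (1 / 4 : ℝ)..(1 / 2), kap s) = ∫ s in (1 / 4 : ℝ)..(1 / 2), (3 / 2 - 3 * s) := by
    apply intervalIntegral.integral_congr
    intro s hs
    rw [Set.uIcc_of_le (by norm_num)] at hs
    exact kap75_b s hs.1 hs.2
  have h3 : (∫ s in (1 / 2 : ℝ)..(3 / 4), kap s) = ∫ s in (1 / 2 : ℝ)..(3 / 4), (1 / 2 - s) := by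
    apply intervalIntegral.integral_congr
    intro s hs
    rw [Set.uIcc_of_le (by norm_num)] at hs
    exact kap75_c s hs.1 hs.2
  have h4 : (∫ s in (3 / 4 : ℝ)..1, kap s) = ∫ s in (3 / 4 : ℝ)..1, (s - 1) := by
    apply intervalIntegral.integral_congr
    intro s hs
    rw [Set.uIcc_of_le (by norm_num)] at hs
    exact kap75_d s hs.1 hs.2
  rw [h1, h2, h3, h4]
  rw [intervalIntegral.integral_sub (Continuous.intervalIntegrable (by fun_prop) _ _)
      (Continuous.intervalIntegrable (by fun_prop) _ _),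
    intervalIntegral.integral_sub (Continuous.intervalIntegrable (by fun_prop) _ _)
      (Continuous.intervalIntegrable (by fun_prop) _ _),
    intervalIntegral.integral_sub (Continuous.intervalIntegrable (by fun_prop) _ _)
      (Continuous.intervalIntegrable (by fun_prop) _ _),
    intervalIntegral.integral_const_mul, intervalIntegral.integral_const_mul]
  simp only [integral_id, intervalIntegral.integral_const, smul_eq_mul]
  norm_num

/-- ROW KAP -/
theorem kap75 : StKap := by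
  refine ⟨kap75_cont, kap75_odd, ?_, ?_, kap75_integral⟩
  · intro s hs
    rcases le_total 0 s with h | h
    · rw [abs_of_nonneg h] at hs
      exact kap75_e s hs
    · rw [abs_of_nonpos h] at hs
      have := kap75_e (-s) hs
      rw [kap75_odd] at this
      linarith
  · intro s
    rcases le_total 0 s with h | h
    · rw [abs_of_nonneg h]
      exact kap75_bound_nonneg s h
    · rw [abs_of_nonpos h]
      have := kap75_bound_nonneg (-s) (by linarith)
      rwa [kap75_odd, abs_neg] at this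

end Pool.Agent.Lib.SX53
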