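import Pool.Agent.Lib.MP_5ef378_an.SX.Defs53

/-! Row MES: lower semicontinuity of the maximal function in one variable. -/

set_option autoImplicit false

open MeasureTheory Set Filter Topology
open scoped ENNReal

namespace Pool.Agent.Lib.SX53

theorem MES93 : StMes := by
  intro f hf
  apply LowerSemicontinuous.measurable
  refine lowerSemicontinuous_iSup fun u => lowerSemicontinuous_iSup fun v => ?_
  intro z0 y hy
  by_cases h0 : u < z0.1 ∧ z0.1 < v
  · have huv : u ≤ v := (h0.1.trans h0.2).le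
    have hc1 : Continuous (fun p : (ℝ × ℝ × ℝ) × ℝ => ‖f (p.2, p.1.2.1, p.1.2.2)‖ ^ 3) := by
      fun_prop
    have he : ∀ z : ℝ × ℝ × ℝ, (∫⁻ x in Ioo u v, ‖f (x, z.2.1, z.2.2)‖ₑ ^ 3) =
        ENNReal.ofReal (∫ x in u..v, ‖f (x, z.2.1, z.2.2)‖ ^ 3) := by
      intro z
      have hcz : Continuous (fun x : ℝ => ‖f (x, z.2.1, z.2.2)‖ ^ 3) := by fun_prop
      rw [intervalIntegral.integral_of_le huv, integral_Ioc_eq_integral_Ioo,
        ofReal_integral_eq_lintegral_ofReal]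
      · refine lintegral_congr fun x => ?_
        rw [ENNReal.ofReal_pow (norm_nonneg _), ofReal_norm]
      · exact (hcz.integrableOn_Icc (a := u) (b := v)).mono_set Ioo_subset_Icc_self
      · exact ae_of_all _ fun x => by positivity
    have hc : Continuous (fun z : ℝ × ℝ × ℝ =>
        (ENNReal.ofReal (v - u))⁻¹ * ∫⁻ x in Ioo u v, ‖f (x, z.2.1, z.2.2)‖ₑ ^ 3) := by
      have h1 : Continuous (fun z : ℝ × ℝ × ℝ => ∫⁻ x in Ioo u v, ‖f (x, z.2.1, z.2.2)‖ₑ ^ 3) := by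
        simp_rw [he]
        exact ENNReal.continuous_ofReal.comp
          (intervalIntegral.continuous_parametric_intervalIntegral_of_continuous' hc1 u v)
      refine (ENNReal.continuous_const_mul ?_).comp h1
      rw [ENNReal.inv_ne_top, Ne, ENNReal.ofReal_eq_zero, not_le, sub_pos]
      exact h0.1.trans h0.2
    have hy' : y < (ENNReal.ofReal (v - u))⁻¹ *
        ∫⁻ x in Ioo u v, ‖f (x, z0.2.1, z0.2.2)‖ₑ ^ 3 := by
      have h1 := iSup_pos (f := fun _ : u < z0.1 ∧ z0.1 < v => (ENNReal.ofReal (v - u))⁻¹ *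
        ∫⁻ x in Ioo u v, ‖f (x, z0.2.1, z0.2.2)‖ₑ ^ 3) h0
      rw [← h1]
      exact hy
    have e1 := hc.continuousAt.eventually (lt_mem_nhds hy')
    have e2 : ∀ᶠ z : ℝ × ℝ × ℝ in 𝓝 z0, u < z.1 ∧ z.1 < v :=
      (continuous_fst.continuousAt.eventually (lt_mem_nhds h0.1)).and
        (continuous_fst.continuousAt.eventually (gt_mem_nhds h0.2))
    filter_upwards [e1, e2] with z h1 h2
    have h3 := iSup_pos (f := fun _ : u < z.1 ∧ z.1 < v => (ENNReal.ofReal (v - u))⁻¹ *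
        ∫⁻ x in Ioo u v, ‖f (x, z.2.1, z.2.2)‖ₑ ^ 3) h2
    exact h1.trans_eq h3.symm
  · have h1 := iSup_neg (f := fun _ : u < z0.1 ∧ z0.1 < v => (ENNReal.ofReal (v - u))⁻¹ *
        ∫⁻ x in Ioo u v, ‖f (x, z0.2.1, z0.2.2)‖ₑ ^ 3) h0
    exact absurd (hy.trans_eq h1) not_lt_bot

end Pool.Agent.Lib.SX53
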