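import Pool.Agent.Lib.MP_5ef378_an.SX.Defs53

/-!
Piece P3 of FINAL: the bound of the form with the smooth truncation `KK a n`.
-/

set_option autoImplicit false

open MeasureTheory Set Filter Topology
open scoped ENNReal

namespace Pool.Agent.Lib.SX53

/-- The four coordinates as a pair of pairs: `((x1, x2), (x0, x3))`. -/
def m4 : (ℝ × ℝ) × (ℝ × ℝ) ≃ᵐ (Fin 4 → ℝ) where
  toFun z := ![z.2.1, z.1.1, z.1.2, z.2.2]
  invFun x := ((x 1, x 2), (x 0, x 3))
  left_inv z := by simp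
  right_inv x := by
    ext i
    fin_cases i <;> rfl
  measurable_toFun := by
    refine measurable_pi_iff.2 fun i => ?_
    fin_cases i
    · exact measurable_snd.fst
    · exact measurable_fst.fst
    · exact measurable_fst.snd
    · exact measurable_snd.snd
  measurable_invFun := by
    refine Measurable.prodMk (Measurable.prodMk ?_ ?_) (Measurable.prodMk ?_ ?_) <;>
    exact measurable_pi_apply _

theorem m4_mp : MeasurePreserving (m4 : (ℝ × ℝ) × (ℝ × ℝ) → (Fin 4 → ℝ)) volume volume := by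
  refine ⟨m4.measurable, ?_⟩
  symm
  refine Measure.pi_eq fun s hs => ?_
  rw [Measure.map_apply m4.measurable (MeasurableSet.univ_pi hs)]
  have h : (m4 : (ℝ × ℝ) × (ℝ × ℝ) → (Fin 4 → ℝ)) ⁻¹' (Set.univ.pi s) =
      (s 1 ×ˢ s 2) ×ˢ (s 0 ×ˢ s 3) := by
    ext z
    simp only [Set.mem_preimage, Set.mem_univ_pi, Set.mem_prod]
    constructor
    · intro h
      exact ⟨⟨h 1, h 2⟩, ⟨h 0, h 3⟩⟩
    · rintro ⟨⟨h1, h2⟩, ⟨h0, h3⟩⟩ i
      fin_cases i
      · exact h0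
      · exact h1
      · exact h2
      · exact h3
  rw [h, Measure.volume_eq_prod, Measure.prod_prod, Measure.volume_eq_prod, Measure.prod_prod,
    Measure.prod_prod, Fin.prod_univ_four]
  ring

theorem int_m4 (G : (Fin 4 → ℝ) → ℝ) :
    ∫ x, G x = ∫ z : (ℝ × ℝ) × (ℝ × ℝ), G ![z.2.1, z.1.1, z.1.2, z.2.2] := by
  rw [← m4_mp.integral_comp m4.measurableEmbedding]
  rfl

theorem bdd_supp {n : ℕ} {f : (Fin n → ℝ) → ℝ} (hf : HasCompactSupport f) :
    ∃ c : ℝ, 0 ≤ c ∧ ∀ v, f v ≠ 0 → ∀ i, |v i| ≤ c := by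
  obtain ⟨c, hc⟩ := hf.isCompact.isBounded.subset_closedBall 0
  refine ⟨max c 0, le_max_right _ _, fun v hv i => ?_⟩
  have h1 : v ∈ Metric.closedBall (0 : Fin n → ℝ) c := hc (subset_tsupport _ hv)
  rw [mem_closedBall_zero_iff] at h1
  have h2 := norm_le_pi_norm v i
  rw [Real.norm_eq_abs] at h2
  exact (h2.trans h1).trans (le_max_left _ _)

theorem v2c {X : Type*} [TopologicalSpace X] {a b : X → ℝ} (ha : Continuous a)
    (hb : Continuous b) : Continuous fun x => (![a x, b x] : Fin 2 → ℝ) := by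
  refine continuous_pi fun i => ?_
  fin_cases i
  · exact ha
  · exact hb

theorem v3c {X : Type*} [TopologicalSpace X] {a b c : X → ℝ} (ha : Continuous a)
    (hb : Continuous b) (hc : Continuous c) :
    Continuous fun x => (![a x, b x, c x] : Fin 3 → ℝ) := by
  refine continuous_pi fun i => ?_
  fin_cases i
  · exact ha
  · exact hb
  · exact hc

section
variable {f g : (Fin 3 → ℝ) → ℝ} {e l p r : (Fin 2 → ℝ) → ℝ}

/-- the integrand in the order `((x1, x2), (x0, x3))`. -/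
noncomputable def GG (Ker : ℝ → ℝ) (f g : (Fin 3 → ℝ) → ℝ) (e l p r : (Fin 2 → ℝ) → ℝ)
    (z : (ℝ × ℝ) × (ℝ × ℝ)) : ℝ :=
  f ![z.2.1, z.1.1, z.1.2] * g ![z.1.1, z.1.2, z.2.2] *
    (e ![z.1.2, z.2.2] * l ![z.1.2, z.2.1]) * (r ![z.2.2, z.1.1] * p ![z.2.1, z.1.1]) *
    Ker (z.2.1 + z.1.1 + z.1.2 + z.2.2)

theorem GG_cont {Ker : ℝ → ℝ} (hK : Continuous Ker) (hf : Continuous f) (hg : Continuous g)
    (he : Continuous e) (hl : Continuous l) (hp : Continuous p) (hr : Continuous r) :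
    Continuous (GG Ker f g e l p r) := by
  unfold GG
  have c1 : Continuous fun z : (ℝ × ℝ) × (ℝ × ℝ) => z.1.1 := by fun_prop
  have c2 : Continuous fun z : (ℝ × ℝ) × (ℝ × ℝ) => z.1.2 := by fun_prop
  have c0 : Continuous fun z : (ℝ × ℝ) × (ℝ × ℝ) => z.2.1 := by fun_prop
  have c3 : Continuous fun z : (ℝ × ℝ) × (ℝ × ℝ) => z.2.2 := by fun_prop
  exact ((((hf.comp (v3c c0 c1 c2)).mul (hg.comp (v3c c1 c2 c3))).mul
    ((he.comp (v2c c2 c3)).mul (hl.comp (v2c c2 c0)))).mul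
    ((hr.comp (v2c c3 c1)).mul (hp.comp (v2c c0 c1)))).mul (hK.comp (by fun_prop))

theorem GG_supp (Ker : ℝ → ℝ) (hf' : HasCompactSupport f) (hg' : HasCompactSupport g) :
    HasCompactSupport (GG Ker f g e l p r) := by
  obtain ⟨c, hc0, hc⟩ := bdd_supp hf'
  obtain ⟨d, hd0, hd⟩ := bdd_supp hg'
  refine HasCompactSupport.intro
    (isCompact_closedBall (0 : (ℝ × ℝ) × (ℝ × ℝ)) (max c d)) fun z hz => ?_
  by_contra hne
  have h1 : f ![z.2.1, z.1.1, z.1.2] ≠ 0 := by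
    intro h; apply hne; unfold GG; rw [h]; ring
  have h2 : g ![z.1.1, z.1.2, z.2.2] ≠ 0 := by
    intro h; apply hne; unfold GG; rw [h]; ring
  apply hz
  rw [mem_closedBall_zero_iff, Prod.norm_def, Prod.norm_def, Prod.norm_def]
  have a0 := hc _ h1 0
  have a1 := hc _ h1 1
  have a2 := hc _ h1 2
  have a3 := hd _ h2 2
  simp only [Matrix.cons_val_zero, Matrix.cons_val_one, Matrix.cons_val] at a0 a1 a2 a3
  have m1 := le_max_left c d
  have m2 := le_max_right c d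
  refine max_le (max_le ?_ ?_) (max_le ?_ ?_) <;> rw [Real.norm_eq_abs] <;> linarith

theorem form_eq {Ker : ℝ → ℝ} (hK : Continuous Ker) (hf : Continuous f) (hf' : HasCompactSupport f)
    (hg : Continuous g) (hg' : HasCompactSupport g)
    (he : Continuous e) (hl : Continuous l) (hp : Continuous p) (hr : Continuous r) :
    form Ker f g (fun x => e ![x 0, x 1] * l ![x 0, x 2])
      (fun x => r ![x 0, x 2] * p ![x 1, x 2]) =
    ∫ x2 : ℝ, ∫ x3 : ℝ, ∫ x : ℝ, ∫ y : ℝ,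
      (f ![x, x2, x3] * l ![x3, x] * p ![x, x2]) *
      (g ![x2, x3, -x2 - x3 - y] * e ![x3, -x2 - x3 - y] * r ![-x2 - x3 - y, x2]) *
      Ker (x - y) := by
  have hGi : Integrable (GG Ker f g e l p r) (volume.prod volume) :=
    (GG_cont hK hf hg he hl hp hr).integrable_of_hasCompactSupport (GG_supp Ker hf' hg')
  unfold form
  rw [int_m4]
  have h1 : (∫ z : (ℝ × ℝ) × (ℝ × ℝ), f ![![z.2.1, z.1.1, z.1.2, z.2.2] 0,
      ![z.2.1, z.1.1, z.1.2, z.2.2] 1, ![z.2.1, z.1.1, z.1.2, z.2.2] 2] *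
      g ![![z.2.1, z.1.1, z.1.2, z.2.2] 1, ![z.2.1, z.1.1, z.1.2, z.2.2] 2,
        ![z.2.1, z.1.1, z.1.2, z.2.2] 3] *
      (fun x : Fin 3 → ℝ => e ![x 0, x 1] * l ![x 0, x 2]) ![![z.2.1, z.1.1, z.1.2, z.2.2] 2,
        ![z.2.1, z.1.1, z.1.2, z.2.2] 3, ![z.2.1, z.1.1, z.1.2, z.2.2] 0] *
      (fun x : Fin 3 → ℝ => r ![x 0, x 2] * p ![x 1, x 2]) ![![z.2.1, z.1.1, z.1.2, z.2.2] 3,
        ![z.2.1, z.1.1, z.1.2, z.2.2] 0, ![z.2.1, z.1.1, z.1.2, z.2.2] 1] *
      Ker (∑ i, ![z.2.1, z.1.1, z.1.2, z.2.2] i)) =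
      ∫ z : (ℝ × ℝ) × (ℝ × ℝ), GG Ker f g e l p r z := by
    refine integral_congr_ae (Eventually.of_forall fun z => ?_)
    simp only [GG, Fin.sum_univ_four]
    rfl
  have e1 : ∫ z : (ℝ × ℝ) × (ℝ × ℝ), GG Ker f g e l p r z =
      ∫ z1 : ℝ × ℝ, ∫ z2 : ℝ × ℝ, GG Ker f g e l p r (z1, z2) := integral_prod _ hGi
  have hJ : Integrable (fun z1 : ℝ × ℝ => ∫ z2 : ℝ × ℝ, GG Ker f g e l p r (z1, z2))
      (volume.prod volume) := hGi.integral_prod_left
  have e2 : ∫ z1 : ℝ × ℝ, ∫ z2 : ℝ × ℝ, GG Ker f g e l p r (z1, z2) =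
      ∫ x2 : ℝ, ∫ x3 : ℝ, ∫ z2 : ℝ × ℝ, GG Ker f g e l p r ((x2, x3), z2) := integral_prod _ hJ
  rw [h1, e1, e2]
  refine integral_congr_ae (Eventually.of_forall fun x2 => ?_)
  refine integral_congr_ae (Eventually.of_forall fun x3 => ?_)
  simp only
  have hIc : Continuous fun w : ℝ × ℝ => GG Ker f g e l p r ((x2, x3), w) :=
    (GG_cont hK hf hg he hl hp hr).comp (by fun_prop)
  have hIs : HasCompactSupport fun w : ℝ × ℝ => GG Ker f g e l p r ((x2, x3), w) := by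
    obtain ⟨c, hc⟩ := (GG_supp (e := e) (l := l) (p := p) (r := r) Ker hf' hg'
      ).isCompact.isBounded.subset_closedBall 0
    refine HasCompactSupport.intro (isCompact_closedBall (0 : ℝ × ℝ) c) fun w hw => ?_
    by_contra hne
    apply hw
    have h3 : ((x2, x3), w) ∈ Metric.closedBall (0 : (ℝ × ℝ) × (ℝ × ℝ)) c :=
      hc (subset_tsupport _ hne)
    rw [mem_closedBall_zero_iff, Prod.norm_def] at h3
    rw [mem_closedBall_zero_iff]
    exact (le_max_right _ _).trans h3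
  have hIi : Integrable (fun w : ℝ × ℝ => GG Ker f g e l p r ((x2, x3), w))
      (volume.prod volume) := hIc.integrable_of_hasCompactSupport hIs
  have e3 : ∫ w : ℝ × ℝ, GG Ker f g e l p r ((x2, x3), w) =
      ∫ x : ℝ, ∫ y : ℝ, GG Ker f g e l p r ((x2, x3), (x, y)) := integral_prod _ hIi
  rw [e3]
  refine integral_congr_ae (Eventually.of_forall fun x => ?_)
  simp only
  rw [← integral_sub_left_eq_self (fun w => GG Ker f g e l p r ((x2, x3), (x, w))) volume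
    (-x2 - x3)]
  refine integral_congr_ae (Eventually.of_forall fun y => ?_)
  simp only [GG]
  rw [show x + x2 + x3 + (-x2 - x3 - y) = x - y by ring]
  ring

end

/-- The bound of the form with the smooth truncation. -/
theorem main17 (hHaar : StHaar) (hAvg : StAvg) (hDil : StDil) (hKc : StKKc) (hBig : StBig) :
    ∃ C : ℝ≥0∞, C ≠ ⊤ ∧ ∀ (f g : (Fin 3 → ℝ) → ℝ) (e l p r : (Fin 2 → ℝ) → ℝ),
      Continuous f → HasCompactSupport f → Continuous g → HasCompactSupport g →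
      Continuous e → HasCompactSupport e → Continuous l → HasCompactSupport l →
      Continuous p → HasCompactSupport p → Continuous r → HasCompactSupport r →
      ∀ h k : (Fin 3 → ℝ) → ℝ,
      (h = fun x => e ![x 0, x 1] * l ![x 0, x 2]) →
      (k = fun x => r ![x 0, x 2] * p ![x 1, x 2]) →
      ∀ a : ℝ, 0 < a → ∀ n : ℕ,
      ENNReal.ofReal |form (KK a n) f g h k| ≤
        C * (∫⁻ x, ∫⁻ y, ∫⁻ z, ‖f ![x, y, z]‖ₑ ^ 4) ^ (1 / 4 : ℝ)
          * (∫⁻ x, ∫⁻ y, ∫⁻ z, ‖g ![x, y, z]‖ₑ ^ 4) ^ (1 / 4 : ℝ)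
          * (∫⁻ x, ∫⁻ y, ∫⁻ z, ‖h ![x, y, z]‖ₑ ^ 4) ^ (1 / 4 : ℝ)
          * (∫⁻ x, ∫⁻ y, ∫⁻ z, ‖k ![x, y, z]‖ₑ ^ 4) ^ (1 / 4 : ℝ) := by
  obtain ⟨C, hC, hB⟩ := hBig
  refine ⟨36 * C, ENNReal.mul_ne_top (by simp) hC, ?_⟩
  intro f g e l p r hf hf' hg hg' he he' hl hl' hp hp' hr hr' h k hh hk a ha n
  subst hh hk
  have s3 : ∀ {φ : (Fin 3 → ℝ) → ℝ}, HasCompactSupport φ →
      HasCompactSupport fun q : ℝ × ℝ × ℝ => φ ![q.1, q.2.1, q.2.2] := by
    intro φ hφ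
    obtain ⟨c, hc0, hc⟩ := bdd_supp hφ
    refine HasCompactSupport.intro (isCompact_closedBall (0 : ℝ × ℝ × ℝ) c) fun q hq => ?_
    by_contra hne
    apply hq
    have a0 := hc _ hne 0
    have a1 := hc _ hne 1
    have a2 := hc _ hne 2
    simp only [Matrix.cons_val_zero, Matrix.cons_val_one, Matrix.cons_val] at a0 a1 a2
    rw [mem_closedBall_zero_iff, Prod.norm_def, Prod.norm_def]
    refine max_le ?_ (max_le ?_ ?_) <;> rw [Real.norm_eq_abs] <;> assumption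
  have s2 : ∀ {φ : (Fin 2 → ℝ) → ℝ}, HasCompactSupport φ →
      HasCompactSupport fun q : ℝ × ℝ => φ ![q.1, q.2] := by
    intro φ hφ
    obtain ⟨c, hc0, hc⟩ := bdd_supp hφ
    refine HasCompactSupport.intro (isCompact_closedBall (0 : ℝ × ℝ) c) fun q hq => ?_
    by_contra hne
    apply hq
    have a0 := hc _ hne 0
    have a1 := hc _ hne 1
    simp only [Matrix.cons_val_zero, Matrix.cons_val_one] at a0 a1
    rw [mem_closedBall_zero_iff, Prod.norm_def]
    refine max_le ?_ ?_ <;> rw [Real.norm_eq_abs] <;> assumption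
  have c3 : ∀ {φ : (Fin 3 → ℝ) → ℝ}, Continuous φ →
      Continuous fun q : ℝ × ℝ × ℝ => φ ![q.1, q.2.1, q.2.2] := fun hφ =>
    hφ.comp (v3c (by fun_prop) (by fun_prop) (by fun_prop))
  have c2 : ∀ {φ : (Fin 2 → ℝ) → ℝ}, Continuous φ →
      Continuous fun q : ℝ × ℝ => φ ![q.1, q.2] := fun hφ =>
    hφ.comp (v2c (by fun_prop) (by fun_prop))
  have hb := hB (fun q => f ![q.1, q.2.1, q.2.2]) (fun q => g ![q.1, q.2.1, q.2.2])
    (fun q => e ![q.1, q.2]) (fun q => l ![q.1, q.2]) (fun q => p ![q.1, q.2])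
    (fun q => r ![q.1, q.2]) (c3 hf) (s3 hf') (c3 hg) (s3 hg') (c2 he) (s2 he') (c2 hl) (s2 hl')
    (c2 hp) (s2 hp') (c2 hr) (s2 hr')
  simp only at hb
  rw [form_eq (hKc a ha n) hf hf' hg hg' he hl hp hr]
  -- the inner bound
  have hin : ∀ x2 x3 : ℝ, ‖∫ x : ℝ, ∫ y : ℝ,
      (f ![x, x2, x3] * l ![x3, x] * p ![x, x2]) *
      (g ![x2, x3, -x2 - x3 - y] * e ![x3, -x2 - x3 - y] * r ![-x2 - x3 - y, x2]) *
      KK a n (x - y)‖ₑ ≤ 36 * ∫⁻ t : ℝ,
      MM (fun x => ‖f ![x, x2, x3] * l ![x3, x] * p ![x, x2]‖ₑ) t *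
      MM (fun y => ‖g ![x2, x3, -x2 - x3 - y] * e ![x3, -x2 - x3 - y] *
        r ![-x2 - x3 - y, x2]‖ₑ) t := by
    intro x2 x3
    have cA : Continuous fun x => f ![x, x2, x3] * l ![x3, x] * p ![x, x2] :=
      ((hf.comp (v3c continuous_id continuous_const continuous_const)).mul
        (hl.comp (v2c continuous_const continuous_id))).mul
        (hp.comp (v2c continuous_id continuous_const))
    have cy : Continuous fun y : ℝ => -x2 - x3 - y := by fun_prop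
    have cB : Continuous fun y => g ![x2, x3, -x2 - x3 - y] * e ![x3, -x2 - x3 - y] *
        r ![-x2 - x3 - y, x2] :=
      ((hg.comp (v3c continuous_const continuous_const cy)).mul
        (he.comp (v2c continuous_const cy))).mul (hr.comp (v2c cy continuous_const))
    have sA : HasCompactSupport fun x => f ![x, x2, x3] * l ![x3, x] * p ![x, x2] := by
      obtain ⟨c, hc0, hc⟩ := bdd_supp hf'
      refine HasCompactSupport.intro (isCompact_Icc (a := -c) (b := c)) fun x hx => ?_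
      by_contra hne
      apply hx
      have : f ![x, x2, x3] ≠ 0 := by
        intro h0; apply hne; rw [h0]; ring
      have a0 := hc _ this 0
      simp only [Matrix.cons_val_zero] at a0
      exact abs_le.1 a0
    have sB : HasCompactSupport fun y => g ![x2, x3, -x2 - x3 - y] * e ![x3, -x2 - x3 - y] *
        r ![-x2 - x3 - y, x2] := by
      obtain ⟨c, hc0, hc⟩ := bdd_supp hg'
      refine HasCompactSupport.intro (isCompact_Icc (a := -x2 - x3 - c) (b := -x2 - x3 + c))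
        fun y hy => ?_
      by_contra hne
      apply hy
      have : g ![x2, x3, -x2 - x3 - y] ≠ 0 := by
        intro h0; apply hne; rw [h0]; ring
      have a2 := hc _ this 2
      simp only [Matrix.cons_val] at a2
      obtain ⟨u1, u2⟩ := abs_le.1 a2
      exact ⟨by linarith, by linarith⟩
    have key := hDil _ _ cA sA cB sB a ha n _ fun ρ hρ _ =>
      hAvg _ _ cA sA cB sB ρ (ha.trans_le hρ) n _ fun ω =>
        hHaar _ _ cA sA cB sB ρ (ha.trans_le hρ) ω n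
    rw [← mul_assoc, show (6 : ℝ≥0∞) * 6 = 36 by norm_num] at key
    rw [Real.enorm_eq_ofReal_abs]
    exact key
  rw [← Real.enorm_eq_ofReal_abs]
  calc _ ≤ ∫⁻ x2 : ℝ, ‖∫ x3 : ℝ, ∫ x : ℝ, ∫ y : ℝ,
      (f ![x, x2, x3] * l ![x3, x] * p ![x, x2]) *
      (g ![x2, x3, -x2 - x3 - y] * e ![x3, -x2 - x3 - y] * r ![-x2 - x3 - y, x2]) *
      KK a n (x - y)‖ₑ := enorm_integral_le_lintegral_enorm _
    _ ≤ ∫⁻ x2 : ℝ, ∫⁻ x3 : ℝ, ‖∫ x : ℝ, ∫ y : ℝ,
      (f ![x, x2, x3] * l ![x3, x] * p ![x, x2]) *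
      (g ![x2, x3, -x2 - x3 - y] * e ![x3, -x2 - x3 - y] * r ![-x2 - x3 - y, x2]) *
      KK a n (x - y)‖ₑ := lintegral_mono fun x2 => enorm_integral_le_lintegral_enorm _
    _ ≤ ∫⁻ x2 : ℝ, ∫⁻ x3 : ℝ, 36 * ∫⁻ t : ℝ,
      MM (fun x => ‖f ![x, x2, x3] * l ![x3, x] * p ![x, x2]‖ₑ) t *
      MM (fun y => ‖g ![x2, x3, -x2 - x3 - y] * e ![x3, -x2 - x3 - y] *
        r ![-x2 - x3 - y, x2]‖ₑ) t := lintegral_mono fun x2 => lintegral_mono fun x3 => hin x2 x3
    _ = 36 * ∫⁻ x2 : ℝ, ∫⁻ x3 : ℝ, ∫⁻ t : ℝ,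
      MM (fun x => ‖f ![x, x2, x3] * l ![x3, x] * p ![x, x2]‖ₑ) t *
      MM (fun y => ‖g ![x2, x3, -x2 - x3 - y] * e ![x3, -x2 - x3 - y] *
        r ![-x2 - x3 - y, x2]‖ₑ) t := by
        rw [← lintegral_const_mul' _ _ (by simp)]
        refine lintegral_congr fun x2 => ?_
        rw [lintegral_const_mul' _ _ (by simp)]
    _ ≤ 36 * _ := mul_le_mul_right hb _
    _ = _ := by
        simp only [Matrix.cons_val_zero, Matrix.cons_val_one, Matrix.cons_val]
        ring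

end Pool.Agent.Lib.SX53
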