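import Pool.Agent.Lib.MP_5ef378_an.SX.Haar53
import Pool.Agent.Lib.MP_5ef378_an.SX.Avg58
import Pool.Agent.Lib.MP_5ef378_an.SX.Dil58
import Pool.Agent.Lib.MP_5ef378_an.SX.Kap75
import Pool.Agent.Lib.MP_5ef378_an.SX.Err17
import Pool.Agent.Lib.MP_5ef378_an.SX.HL24
import Pool.Agent.Lib.MP_5ef378_an.SX.Inv37
import Pool.Agent.Lib.MP_5ef378_an.SX.MES93
import Pool.Agent.Lib.MP_5ef378_an.SX.Big76
import Pool.Agent.Lib.MP_5ef378_an.SX.Main17
import Pool.Agent.Lib.MP_5ef378_an.SX.Fin2

/-! The final statement from all rows. -/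

set_option autoImplicit false

open MeasureTheory Set
open scoped ENNReal

namespace Pool.Agent.Lib.SX53

theorem kkc_all : StKKc := kkc17 kap75

theorem big_all : StBig := Big76.big76 hl24 pt37 inv37 hyp37 MES93

theorem stMain_all : StMain := by
  obtain ⟨C, hC, h⟩ := main17 haar53 A58.avg58 D58.dil58 kkc_all big_all
  refine ⟨C, hC, ?_⟩
  intro f g e l p r hf hfs hg hgs he hes hl hls hp hps hr hrs h' k' hh hk a ha n
  have c2 : ∀ {β : Type} [TopologicalSpace β] {s t : β → ℝ}, Continuous s → Continuous t →
      Continuous fun z => ![s z, t z] := by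
    intro β _ s t hs ht
    refine continuous_pi fun q => ?_
    fin_cases q
    · exact hs
    · exact ht
  have hhc : Continuous h' := by
    rw [hh]
    exact (he.comp (c2 (continuous_apply 0) (continuous_apply 1))).mul
      (hl.comp (c2 (continuous_apply 0) (continuous_apply 2)))
  have hkc : Continuous k' := by
    rw [hk]
    exact (hr.comp (c2 (continuous_apply 0) (continuous_apply 2))).mul
      (hp.comp (c2 (continuous_apply 1) (continuous_apply 2)))
  have := h f g e l p r hf hfs hg hgs he hes hl hls hp hps hr hrs h' k' hh hk a ha n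
  rw [eL4 hf.measurable, eL4 hg.measurable, eL4 hhc.measurable, eL4 hkc.measurable]
  refine le_trans this (le_of_eq ?_)
  ring

theorem all53 : StFinal := final2 stMain_all (err17 kap75) hyp37 kkc_all

end Pool.Agent.Lib.SX53
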