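import Pool.Agent.Lib.MP_5ef378_an.SX.Defs53

/-! Row AVG (helper33): average over the translations of the grid. -/

set_option autoImplicit false

open MeasureTheory Set
open scoped ENNReal

namespace Pool.Agent.Lib.SX53.Avg33

theorem hh_meas : Measurable hh := by
  unfold hh
  refine Measurable.ite (measurableSet_Ico (a := (0 : ℝ)) (b := 1 / 2)) measurable_const ?_
  exact Measurable.ite (measurableSet_Ico (a := (1 / 2 : ℝ)) (b := 1)) measurable_const
    measurable_const

theorem et_meas : Measurable et := by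
  unfold et
  refine Measurable.ite (measurableSet_Ico (a := (0 : ℝ)) (b := 1 / 4)) measurable_const ?_
  refine Measurable.ite (measurableSet_Ico (a := (1 / 4 : ℝ)) (b := 3 / 4)) measurable_const ?_
  exact Measurable.ite (measurableSet_Ico (a := (3 / 4 : ℝ)) (b := 1)) measurable_const
    measurable_const

theorem hh_abs (u : ℝ) : |hh u| ≤ 1 := by
  unfold hh; split_ifs <;> simp

theorem et_abs (u : ℝ) : |et u| ≤ 1 := by
  unfold et; split_ifs <;> simp

theorem hh_supp (u : ℝ) (h : ¬ (0 ≤ u ∧ u < 1)) : hh u = 0 := by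
  unfold hh
  rw [if_neg, if_neg]
  · rintro ⟨h1, h2⟩; exact h ⟨by linarith, h2⟩
  · rintro ⟨h1, h2⟩; exact h ⟨h1, by linarith⟩

/-- the local product -/
noncomputable def gg (A B : ℝ → ℝ) (d w : ℝ) : ℝ :=
  (∫ x, hh ((x - w) / d) * A x) * (∫ y, et ((y - w) / d) * B y)

theorem term_eq (A B : ℝ → ℝ) (d ω : ℝ) (hd : 0 < d) (k : ℤ) :
    term A B d ω k = d⁻¹ * |gg A B d (ω + k * d)| := by
  unfold term gg
  rw [abs_mul, mul_assoc]
  have h : ∀ x : ℝ, (x - ω) / d - k = (x - (ω + k * d)) / d := by
    intro x; field_simp; ring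
  simp_rw [h]

theorem kap_scale (d x y : ℝ) (hd : 0 < d) :
    ∫ w, hh ((x - w) / d) * et ((y - w) / d) = d * kap ((x - y) / d) := by
  have h1 : ∀ w : ℝ, hh ((x - w) / d) * et ((y - w) / d) =
      (fun u => (fun v => hh (v + (x - y) / d) * et v) (u / d)) (y - w) := by
    intro w
    simp only
    congr 2
    field_simp
    ring
  simp_rw [h1]
  rw [integral_sub_left_eq_self (fun u => (fun v => hh (v + (x - y) / d) * et v) (u / d)) volume y]
  rw [Measure.integral_comp_div (fun v => hh (v + (x - y) / d) * et v) d]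
  rw [abs_of_pos hd, smul_eq_mul]
  rfl

theorem kap_abs (s : ℝ) : |kap s| ≤ 1 := by
  unfold kap
  have h : ∀ w : ℝ, ‖hh (w + s) * et w‖ ≤ (Ico (0 : ℝ) 1).indicator (fun _ => (1 : ℝ)) w := by
    intro w
    by_cases hw : w ∈ Ico (0 : ℝ) 1
    · rw [Set.indicator_of_mem hw, norm_mul]
      exact mul_le_one₀ (hh_abs _) (norm_nonneg _) (et_abs _)
    · rw [Set.indicator_of_notMem hw]
      have : et w = 0 := by
        unfold et
        rw [if_neg, if_neg, if_neg]
        · rintro ⟨h1, h2⟩; exact hw ⟨by linarith, h2⟩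
        · rintro ⟨h1, h2⟩; exact hw ⟨by linarith, by linarith⟩
        · rintro ⟨h1, h2⟩; exact hw ⟨h1, by linarith⟩
      rw [this, mul_zero, norm_zero]
  have h2 : ‖∫ w, hh (w + s) * et w‖ ≤ ∫ w, (Ico (0 : ℝ) 1).indicator (fun _ => (1 : ℝ)) w := by
    apply norm_integral_le_of_norm_le _ (Filter.Eventually.of_forall h)
    rw [integrable_indicator_iff measurableSet_Ico]
    exact integrableOn_const (by simp)
  rw [Real.norm_eq_abs] at h2
  refine h2.trans ?_
  rw [integral_indicator measurableSet_Ico]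
  simp

theorem kap_meas : Measurable kap := by
  unfold kap
  have h : Measurable (fun z : ℝ × ℝ => hh (z.2 + z.1) * et z.2) :=
    (hh_meas.comp (measurable_snd.add measurable_fst)).mul (et_meas.comp measurable_snd)
  exact (h.stronglyMeasurable.integral_prod_right (ν := volume)).measurable

theorem gg_meas (A B : ℝ → ℝ) (hA : Measurable A) (hB : Measurable B) (d : ℝ) :
    Measurable (gg A B d) := by
  unfold gg
  have h1 : Measurable (fun z : ℝ × ℝ => hh ((z.2 - z.1) / d) * A z.2) :=
    (hh_meas.comp ((measurable_snd.sub measurable_fst).div_const d)).mul (hA.comp measurable_snd)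
  have h2 : Measurable (fun z : ℝ × ℝ => et ((z.2 - z.1) / d) * B z.2) :=
    (et_meas.comp ((measurable_snd.sub measurable_fst).div_const d)).mul (hB.comp measurable_snd)
  exact ((h1.stronglyMeasurable.integral_prod_right (ν := volume)).measurable).mul
    ((h2.stronglyMeasurable.integral_prod_right (ν := volume)).measurable)

/-- Fubini for one scale. -/
theorem fub (A B : ℝ → ℝ) (hA : Continuous A) (hAs : HasCompactSupport A)
    (hB : Continuous B) (hBs : HasCompactSupport B) (d : ℝ) (hd : 0 < d) :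
    ∫ x, ∫ y, A x * B y * (d⁻¹ * kap ((x - y) / d)) = (d ^ 2)⁻¹ * ∫ w, gg A B d w := by
  have hAi : Integrable A := hA.integrable_of_hasCompactSupport hAs
  have hBi : Integrable B := hB.integrable_of_hasCompactSupport hBs
  obtain ⟨M, hM⟩ : ∃ M : ℝ, ∀ x, A x ≠ 0 → |x| ≤ M := by
    obtain ⟨M, hM⟩ := hAs.isBounded.exists_norm_le
    refine ⟨M, fun x hx => hM x (subset_tsupport A (by simpa using hx))⟩
  set F : (ℝ × ℝ) → ℝ → ℝ := fun z w =>
    A z.1 * B z.2 * (hh ((z.1 - w) / d) * et ((z.2 - w) / d)) with hF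
  have hFi : Integrable (Function.uncurry F) ((volume.prod volume).prod volume) := by
    have hbd : Integrable (fun p : (ℝ × ℝ) × ℝ => (|A p.1.1| * |B p.1.2|) *
        (Icc (-M - d) M).indicator (fun _ => (1 : ℝ)) p.2)
        (((volume : Measure ℝ).prod (volume : Measure ℝ)).prod (volume : Measure ℝ)) := by
      apply Integrable.mul_prod (f := fun z : ℝ × ℝ => |A z.1| * |B z.2|)
      · exact Integrable.mul_prod hAi.abs hBi.abs
      · rw [integrable_indicator_iff measurableSet_Icc]
        exact integrableOn_const (by simp)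
    refine hbd.mono' ?_ ?_
    · apply Measurable.aestronglyMeasurable
      have e1 : Measurable (fun p : (ℝ × ℝ) × ℝ => A p.1.1) :=
        hA.measurable.comp (measurable_fst.comp measurable_fst)
      have e2 : Measurable (fun p : (ℝ × ℝ) × ℝ => B p.1.2) :=
        hB.measurable.comp (measurable_snd.comp measurable_fst)
      have e3 : Measurable (fun p : (ℝ × ℝ) × ℝ => hh ((p.1.1 - p.2) / d)) :=
        hh_meas.comp (((measurable_fst.comp measurable_fst).sub measurable_snd).div_const d)
      have e4 : Measurable (fun p : (ℝ × ℝ) × ℝ => et ((p.1.2 - p.2) / d)) :=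
        et_meas.comp (((measurable_snd.comp measurable_fst).sub measurable_snd).div_const d)
      exact (e1.mul e2).mul (e3.mul e4)
    · refine Filter.Eventually.of_forall ?_
      rintro ⟨⟨x, y⟩, w⟩
      simp only [Function.uncurry, hF]
      by_cases hx : A x = 0
      · simp [hx]
      · by_cases hw : 0 ≤ (x - w) / d ∧ (x - w) / d < 1
        · have hxM := abs_le.1 (hM x hx)
          have h1 : 0 ≤ x - w := by
            have := mul_nonneg hw.1 hd.le
            rwa [div_mul_cancel₀ _ hd.ne'] at this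
          have h2 : x - w < d := by
            have := hw.2
            rwa [div_lt_one hd] at this
          rw [Set.indicator_of_mem (show w ∈ Icc (-M - d) M from ⟨by linarith, by linarith⟩)]
          rw [norm_mul, norm_mul, norm_mul]
          simp only [Real.norm_eq_abs]
          have h3 : |hh ((x - w) / d)| * |et ((y - w) / d)| ≤ 1 :=
            mul_le_one₀ (hh_abs _) (abs_nonneg _) (et_abs _)
          have h4 : 0 ≤ |A x| * |B y| := by positivity
          exact mul_le_mul_of_nonneg_left h3 h4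
        · rw [hh_supp _ hw]
          simp only [zero_mul, mul_zero, norm_zero]
          apply mul_nonneg (by positivity)
          exact Set.indicator_nonneg (fun _ _ => zero_le_one) _
  have hswap := integral_integral_swap hFi
  have h1 : ∀ w, ∫ z, F z w ∂((volume : Measure ℝ).prod (volume : Measure ℝ)) = gg A B d w := by
    intro w
    have e1 : ∀ z : ℝ × ℝ, F z w =
        (fun x => hh ((x - w) / d) * A x) z.1 * (fun y => et ((y - w) / d) * B y) z.2 := by
      intro z; simp only [hF]; ring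
    simp_rw [e1]
    rw [integral_prod_mul (fun x => hh ((x - w) / d) * A x) (fun y => et ((y - w) / d) * B y)]
    rfl
  have h2 : ∀ z : ℝ × ℝ, ∫ w, F z w = A z.1 * B z.2 * (d * kap ((z.1 - z.2) / d)) := by
    intro z
    simp only [hF]
    rw [integral_const_mul, kap_scale d z.1 z.2 hd]
  simp_rw [h1, h2] at hswap
  rw [← hswap]
  have hint : Integrable (fun z : ℝ × ℝ => A z.1 * B z.2 * (d * kap ((z.1 - z.2) / d)))
      ((volume : Measure ℝ).prod (volume : Measure ℝ)) := by
    have := hFi.integral_prod_left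
    refine this.congr (Filter.Eventually.of_forall ?_)
    intro z
    exact h2 z
  rw [integral_prod _ hint, ← integral_const_mul]
  congr 1
  ext x
  rw [← integral_const_mul]
  congr 1
  ext y
  field_simp


theorem tile (φ : ℝ → ℝ≥0∞) (hφ : Measurable φ) (d : ℝ) (hd : 0 < d) (m : ℕ) :
    (m : ℝ≥0∞) * ∫⁻ w, φ w ≤ ∫⁻ w in Ioc 0 (m * d), ∑' k : ℤ, φ (w + k * d) := by
  classical
  have hm0 : ∀ k : ℤ, AEMeasurable (fun w : ℝ => φ (w + k * d))
      (volume.restrict (Ioc 0 (m * d))) := fun k =>
    (hφ.comp (measurable_id.add_const _)).aemeasurable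
  have hm1 : ∀ k : ℤ, AEMeasurable (fun w : ℝ =>
      (Ioc 0 (m * d)).indicator (fun _ => (1 : ℝ≥0∞)) (w - k * d) * φ w) volume := fun k =>
    (((measurable_const.indicator measurableSet_Ioc).comp
      (measurable_id.sub_const _)).mul hφ).aemeasurable
  rw [lintegral_tsum hm0]
  have h1 : ∀ k : ℤ, ∫⁻ w in Ioc 0 (m * d), φ (w + k * d) =
      ∫⁻ w, (Ioc 0 (m * d)).indicator (fun _ => (1 : ℝ≥0∞)) (w - k * d) * φ w := by
    intro k
    rw [← lintegral_indicator measurableSet_Ioc]
    rw [← lintegral_add_right_eq_self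
      (fun w => (Ioc 0 (m * d)).indicator (fun _ => (1 : ℝ≥0∞)) (w - k * d) * φ w) (k * d)]
    congr 1
    ext w
    rw [add_sub_cancel_right]
    by_cases hw : w ∈ Ioc 0 (m * d)
    · rw [Set.indicator_of_mem hw, Set.indicator_of_mem hw, one_mul]
    · rw [Set.indicator_of_notMem hw, Set.indicator_of_notMem hw, zero_mul]
  simp_rw [h1]
  rw [← lintegral_tsum hm1]
  rw [← lintegral_const_mul _ hφ]
  apply lintegral_mono
  intro w
  simp only
  rw [ENNReal.tsum_mul_right]
  gcongr
  set k0 : ℤ := ⌈w / d⌉ - 1 with hk0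
  have hk1 : (k0 : ℝ) * d < w := by
    have h : (⌈w / d⌉ : ℝ) < w / d + 1 := Int.ceil_lt_add_one _
    have h2 : (k0 : ℝ) < w / d := by rw [hk0]; push_cast; linarith
    rwa [lt_div_iff₀ hd] at h2
  have hk2 : w ≤ (k0 + 1 : ℝ) * d := by
    have h : w / d ≤ (⌈w / d⌉ : ℝ) := Int.le_ceil _
    have h2 : w / d ≤ (k0 + 1 : ℝ) := by rw [hk0]; push_cast; linarith
    rwa [div_le_iff₀ hd] at h2
  have hinj : Set.InjOn (fun i : ℕ => k0 - (i : ℤ)) (Finset.range m : Finset ℕ) := by
    intro i _ j _ hij
    simp only at hij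
    omega
  calc (m : ℝ≥0∞) = ∑ i ∈ Finset.range m, (1 : ℝ≥0∞) := by simp
    _ = ∑ k ∈ (Finset.range m).image (fun i : ℕ => k0 - (i : ℤ)),
        (Ioc 0 (m * d)).indicator (fun _ => (1 : ℝ≥0∞)) (w - k * d) := by
        rw [Finset.sum_image hinj]
        apply Finset.sum_congr rfl
        intro i hi
        rw [Set.indicator_of_mem]
        have hi' : ((i : ℝ) + 1) ≤ m := by
          have := Finset.mem_range.1 hi
          exact_mod_cast this
        have hi0 : (0 : ℝ) ≤ i := Nat.cast_nonneg _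
        constructor
        · push_cast
          nlinarith
        · push_cast
          nlinarith
    _ ≤ _ := ENNReal.sum_le_tsum _

theorem int2 (A B : ℝ → ℝ) (hA : Continuous A) (hAs : HasCompactSupport A)
    (hB : Continuous B) (hBs : HasCompactSupport B) (d : ℝ) :
    Integrable (fun z : ℝ × ℝ => A z.1 * B z.2 * (d⁻¹ * kap ((z.1 - z.2) / d)))
      ((volume : Measure ℝ).prod (volume : Measure ℝ)) := by
  have hAi : Integrable A := hA.integrable_of_hasCompactSupport hAs
  have hBi : Integrable B := hB.integrable_of_hasCompactSupport hBs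
  have hbd : Integrable (fun z : ℝ × ℝ => (|A z.1| * |B z.2|) * |d⁻¹|)
      ((volume : Measure ℝ).prod (volume : Measure ℝ)) :=
    (Integrable.mul_prod hAi.abs hBi.abs).mul_const _
  refine hbd.mono' ?_ (Filter.Eventually.of_forall ?_)
  · apply Measurable.aestronglyMeasurable
    exact ((hA.measurable.comp measurable_fst).mul (hB.measurable.comp measurable_snd)).mul
      ((kap_meas.comp ((measurable_fst.sub measurable_snd).div_const d)).const_mul _)
  · intro z
    rw [norm_mul, norm_mul, norm_mul]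
    simp only [Real.norm_eq_abs]
    have h1 : |d⁻¹| * |kap ((z.1 - z.2) / d)| ≤ |d⁻¹| := by
      have := mul_le_mul_of_nonneg_left (kap_abs ((z.1 - z.2) / d)) (abs_nonneg d⁻¹)
      rwa [mul_one] at this
    exact mul_le_mul_of_nonneg_left h1 (by positivity)

theorem avg33 : StAvg := by
  intro A B hA hAs hB hBs r hr n C hC
  have hdj : ∀ j : ℕ, 0 < (2 : ℝ) ^ j * r := fun j => by positivity
  have hsum : ∫ x, ∫ y, A x * B y *
      ∑ j ∈ Finset.range n, (2 ^ j * r)⁻¹ * kap ((x - y) / (2 ^ j * r)) =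
      ∑ j ∈ Finset.range n, ((2 ^ j * r) ^ 2)⁻¹ * ∫ w, gg A B (2 ^ j * r) w := by
    have hI : ∀ j ∈ Finset.range n, Integrable (fun z : ℝ × ℝ =>
        A z.1 * B z.2 * ((2 ^ j * r)⁻¹ * kap ((z.1 - z.2) / (2 ^ j * r))))
        ((volume : Measure ℝ).prod (volume : Measure ℝ)) := fun j _ =>
      int2 A B hA hAs hB hBs (2 ^ j * r)
    have e1 : ∀ z : ℝ × ℝ, A z.1 * B z.2 *
        ∑ j ∈ Finset.range n, (2 ^ j * r)⁻¹ * kap ((z.1 - z.2) / (2 ^ j * r)) =
        ∑ j ∈ Finset.range n,
          A z.1 * B z.2 * ((2 ^ j * r)⁻¹ * kap ((z.1 - z.2) / (2 ^ j * r))) := by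
      intro z; rw [Finset.mul_sum]
    have hIs : Integrable (fun z : ℝ × ℝ => A z.1 * B z.2 *
        ∑ j ∈ Finset.range n, (2 ^ j * r)⁻¹ * kap ((z.1 - z.2) / (2 ^ j * r)))
        ((volume : Measure ℝ).prod (volume : Measure ℝ)) := by
      simp_rw [e1]
      exact integrable_finsetSum _ hI
    have e2 := integral_prod _ hIs
    simp only at e2
    rw [← e2]
    simp_rw [e1]
    rw [integral_finsetSum _ hI]
    apply Finset.sum_congr rfl
    intro j hj
    rw [integral_prod _ (hI j hj)]
    exact fub A B hA hAs hB hBs (2 ^ j * r) (hdj j)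
  rw [hsum]
  set R : ℝ := 2 ^ n * r with hR
  have hR0 : 0 < R := by positivity
  have h1 : ENNReal.ofReal |∑ j ∈ Finset.range n, ((2 ^ j * r) ^ 2)⁻¹ *
      ∫ w, gg A B (2 ^ j * r) w| ≤ ∑ j ∈ Finset.range n,
        ENNReal.ofReal ((2 ^ j * r) ^ 2)⁻¹ * ∫⁻ w, ‖gg A B (2 ^ j * r) w‖ₑ := by
    calc ENNReal.ofReal |∑ j ∈ Finset.range n, ((2 ^ j * r) ^ 2)⁻¹ *
          ∫ w, gg A B (2 ^ j * r) w|
        ≤ ENNReal.ofReal (∑ j ∈ Finset.range n, ((2 ^ j * r) ^ 2)⁻¹ *
          |∫ w, gg A B (2 ^ j * r) w|) := by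
          apply ENNReal.ofReal_le_ofReal
          refine (Finset.abs_sum_le_sum_abs _ _).trans ?_
          apply Finset.sum_le_sum
          intro j _
          rw [abs_mul, abs_of_nonneg (by positivity : (0 : ℝ) ≤ ((2 ^ j * r) ^ 2)⁻¹)]
      _ = ∑ j ∈ Finset.range n, ENNReal.ofReal (((2 ^ j * r) ^ 2)⁻¹ *
          |∫ w, gg A B (2 ^ j * r) w|) :=
          ENNReal.ofReal_sum_of_nonneg (fun j _ => by positivity)
      _ ≤ _ := by
          apply Finset.sum_le_sum
          intro j _
          rw [ENNReal.ofReal_mul (by positivity), ← Real.enorm_eq_ofReal_abs]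
          gcongr
          exact enorm_integral_le_lintegral_enorm _
  refine h1.trans ?_
  have h2 : ∀ j ∈ Finset.range n,
      ENNReal.ofReal ((2 ^ j * r) ^ 2)⁻¹ * ∫⁻ w, ‖gg A B (2 ^ j * r) w‖ₑ ≤
      ENNReal.ofReal R⁻¹ * ∫⁻ w in Ioc 0 R, ∑' k : ℤ,
        ENNReal.ofReal (term A B (2 ^ j * r) w k) := by
    intro j hj
    have hjn : j < n := Finset.mem_range.1 hj
    have hd := hdj j
    have hRm : R = ((2 ^ (n - j) : ℕ) : ℝ) * (2 ^ j * r) := by
      rw [hR]; push_cast
      rw [← mul_assoc, ← pow_add]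
      congr 2
      omega
    have ht := tile (fun w => ‖gg A B (2 ^ j * r) w‖ₑ)
      (gg_meas A B hA.measurable hB.measurable _).enorm (2 ^ j * r) hd (2 ^ (n - j))
    rw [← hRm] at ht
    have hterm : ∀ w : ℝ, ∑' k : ℤ, ENNReal.ofReal (term A B (2 ^ j * r) w k) =
        ENNReal.ofReal (2 ^ j * r)⁻¹ * ∑' k : ℤ, ‖gg A B (2 ^ j * r) (w + k * (2 ^ j * r))‖ₑ := by
      intro w
      rw [← ENNReal.tsum_mul_left]
      congr 1
      ext k
      rw [term_eq A B _ w hd k, ENNReal.ofReal_mul (by positivity), ← Real.enorm_eq_ofReal_abs]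
    simp_rw [hterm]
    rw [lintegral_const_mul']
    · have hc : ENNReal.ofReal ((2 ^ j * r) ^ 2)⁻¹ =
          ENNReal.ofReal R⁻¹ * (ENNReal.ofReal (2 ^ j * r)⁻¹ * ((2 ^ (n - j) : ℕ) : ℝ≥0∞)) := by
        rw [← ENNReal.ofReal_natCast, ← ENNReal.ofReal_mul (by positivity),
          ← ENNReal.ofReal_mul (by positivity)]
        congr 1
        rw [hRm]
        have : (((2 ^ (n - j) : ℕ) : ℝ)) ≠ 0 := by positivity
        field_simp
      rw [hc, mul_assoc, mul_assoc]
      gcongr
    · exact ENNReal.ofReal_ne_top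
  refine (Finset.sum_le_sum h2).trans ?_
  rw [← Finset.mul_sum, ← lintegral_finsetSum']
  · calc ENNReal.ofReal R⁻¹ * ∫⁻ w in Ioc 0 R, ∑ j ∈ Finset.range n, ∑' k : ℤ,
          ENNReal.ofReal (term A B (2 ^ j * r) w k)
        ≤ ENNReal.ofReal R⁻¹ * ∫⁻ w in Ioc 0 R, C := by
          gcongr
          exact hC _
      _ = C := by
          rw [lintegral_const, Measure.restrict_apply MeasurableSet.univ, Set.univ_inter,
            Real.volume_Ioc, sub_zero, mul_comm C, ← mul_assoc,
            ← ENNReal.ofReal_mul (by positivity), inv_mul_cancel₀ hR0.ne', ENNReal.ofReal_one,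
            one_mul]
  · intro j _
    have hd := hdj j
    apply Measurable.aemeasurable
    apply Measurable.ennreal_tsum
    intro k
    apply Measurable.ennreal_ofReal
    have : (fun w => term A B (2 ^ j * r) w k) =
        fun w => (2 ^ j * r)⁻¹ * |gg A B (2 ^ j * r) (w + k * (2 ^ j * r))| := by
      ext w; exact term_eq A B _ w hd k
    rw [this]
    exact (((gg_meas A B hA.measurable hB.measurable _).comp
      (measurable_id.add_const _)).abs).const_mul _

end Pool.Agent.Lib.SX53.Avg33
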