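import Pool.Agent.Lib.MP_5ef378_an.SX.Defs53

/-!
Row BIG: the sum over the frozen variables (maximal functions, Hoelder on hyperplanes).
-/

set_option autoImplicit false

open MeasureTheory Set
open scoped ENNReal

namespace Pool.Agent.Lib.SX53
namespace Big97

/-- The cube mean maximal function in the first variable. -/
noncomputable def S (f : ℝ × ℝ × ℝ → ℝ) (x y z : ℝ) : ℝ≥0∞ :=
  MM (fun u => ‖f (u, y, z)‖ₑ ^ 3) x ^ (1 / 3 : ℝ)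

theorem meas_S (hM : StMes) {f : ℝ × ℝ × ℝ → ℝ} (hf : Continuous f) :
    Measurable (fun z : ℝ × ℝ × ℝ => S f z.1 z.2.1 z.2.2) := (hM f hf).pow_const _

/-- The cube mean maximal function of a function of one variable. -/
noncomputable def T (f : ℝ → ℝ) (x : ℝ) : ℝ≥0∞ := MM (fun u => ‖f u‖ₑ ^ 3) x ^ (1 / 3 : ℝ)

theorem T_pow (f : ℝ → ℝ) (x : ℝ) :
    T f x ^ 4 = MM (fun u => ‖f u‖ₑ ^ 3) x ^ (4 / 3 : ℝ) := by
  unfold T
  rw [← ENNReal.rpow_natCast, ← ENNReal.rpow_mul]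
  norm_num

theorem cube_pow (a : ℝ≥0∞) : (a ^ 3) ^ (4 / 3 : ℝ) = a ^ 4 := by
  rw [← ENNReal.rpow_natCast, ← ENNReal.rpow_natCast, ← ENNReal.rpow_mul]
  norm_num

theorem T_bound {C : ℝ≥0∞} (hC : ∀ φ : ℝ → ℝ≥0∞, Measurable φ →
    ∫⁻ t, MM φ t ^ (4 / 3 : ℝ) ≤ C * ∫⁻ t, φ t ^ (4 / 3 : ℝ))
    {f : ℝ → ℝ} (hf : Continuous f) :
    ∫⁻ x, T f x ^ 4 ≤ C * ∫⁻ x, ‖f x‖ₑ ^ 4 := by
  have h1 : Measurable (fun u : ℝ => ‖f u‖ₑ ^ 3) := (hf.measurable.enorm).pow_const 3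
  have h2 := hC _ h1
  simp only [T_pow]
  refine h2.trans (le_of_eq ?_)
  simp only [cube_pow]

theorem perm {Φ : ℝ → ℝ → ℝ → ℝ≥0∞} (hΦ : Measurable (fun z : ℝ × ℝ × ℝ => Φ z.1 z.2.1 z.2.2)) :
    ∫⁻ x, ∫⁻ y, ∫⁻ z, Φ x y z = ∫⁻ y, ∫⁻ z, ∫⁻ x, Φ x y z := by
  have h1 : Measurable (Function.uncurry (fun x y : ℝ => ∫⁻ z, Φ x y z)) := by
    have h : Measurable (fun q : (ℝ × ℝ) × ℝ => Φ q.1.1 q.1.2 q.2) :=
      hΦ.comp (by fun_prop : Measurable (fun q : (ℝ × ℝ) × ℝ => (q.1.1, q.1.2, q.2)))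
    exact h.lintegral_prod_right'
  rw [lintegral_lintegral_swap h1.aemeasurable]
  refine lintegral_congr fun y => ?_
  have h2 : Measurable (Function.uncurry (fun x z : ℝ => Φ x y z)) :=
    hΦ.comp (by fun_prop : Measurable (fun q : ℝ × ℝ => (q.1, y, q.2)))
  exact lintegral_lintegral_swap h2.aemeasurable

theorem prod_int {a b : ℝ → ℝ≥0∞} (ha : Measurable a) (hb : Measurable b) :
    ∫⁻ u, ∫⁻ v, (a u * b v) ^ 4 = (∫⁻ u, a u ^ 4) * ∫⁻ v, b v ^ 4 := by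
  have h1 : ∀ u, ∫⁻ v, (a u * b v) ^ 4 = a u ^ 4 * ∫⁻ v, b v ^ 4 := by
    intro u
    simp only [mul_pow]
    exact lintegral_const_mul _ (hb.pow_const 4)
  simp only [h1]
  exact lintegral_mul_const _ (ha.pow_const 4)

/-- pointwise bound -/
theorem ptw (hPt : StPt) (hInv : StInv) (f l p g e r : ℝ → ℝ)
    (hf : Continuous f) (hl : Continuous l) (hp : Continuous p)
    (hg : Continuous g) (he : Continuous e) (hr : Continuous r) (c t : ℝ) :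
    MM (fun x => ‖f x * l x * p x‖ₑ) t *
      MM (fun y => ‖g (c - y) * e (c - y) * r (c - y)‖ₑ) t ≤
      T f t * T g (c - t) * (T e (c - t) * T l t) * (T r (c - t) * T p t) := by
  have h1 := hPt (fun x => ‖f x‖ₑ) (fun x => ‖l x‖ₑ) (fun x => ‖p x‖ₑ)
    hf.measurable.enorm hl.measurable.enorm hp.measurable.enorm t
  have h2 := hPt (fun x => ‖g x‖ₑ) (fun x => ‖e x‖ₑ) (fun x => ‖r x‖ₑ)
    hg.measurable.enorm he.measurable.enorm hr.measurable.enorm (c - t)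
  have h3 := hInv (fun y => ‖g y‖ₑ * ‖e y‖ₑ * ‖r y‖ₑ) c t
  simp only [enorm_mul]
  rw [h3]
  refine (mul_le_mul' h1 h2).trans (le_of_eq ?_)
  simp only [T]
  ring

/-- joint measurability, two variables, maximal function in the second -/
theorem mes3 (hM : StMes) {f : ℝ × ℝ × ℝ → ℝ} (hf : Continuous f) {α : Type*}
    [MeasurableSpace α] {a b c : α → ℝ} (ha : Measurable a) (hb : Measurable b)
    (hc : Measurable c) : Measurable (fun q : α => T (fun u => f (u, b q, c q)) (a q)) := by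
  have h := (meas_S hM hf).comp (ha.prodMk (hb.prodMk hc))
  exact h

theorem mes2a (hM : StMes) {f : ℝ × ℝ → ℝ} (hf : Continuous f) {α : Type*}
    [MeasurableSpace α] {a b : α → ℝ} (ha : Measurable a) (hb : Measurable b) :
    Measurable (fun q : α => T (fun u => f (u, b q)) (a q)) := by
  have h' : Continuous (fun v : ℝ × ℝ × ℝ => f (v.1, v.2.1)) := by fun_prop
  exact mes3 hM h' ha hb (measurable_const (a := (0 : ℝ)))

theorem mes2b (hM : StMes) {f : ℝ × ℝ → ℝ} (hf : Continuous f) {α : Type*}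
    [MeasurableSpace α] {a b : α → ℝ} (ha : Measurable a) (hb : Measurable b) :
    Measurable (fun q : α => T (fun u => f (b q, u)) (a q)) := by
  have h' : Continuous (fun v : ℝ × ℝ × ℝ => f (v.2.1, v.1)) := by fun_prop
  exact mes3 hM h' ha hb (measurable_const (a := (0 : ℝ)))

theorem mes3c (hM : StMes) {f : ℝ × ℝ × ℝ → ℝ} (hf : Continuous f) {α : Type*}
    [MeasurableSpace α] {a b c : α → ℝ} (ha : Measurable a) (hb : Measurable b)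
    (hc : Measurable c) : Measurable (fun q : α => T (fun u => f (b q, c q, u)) (a q)) := by
  have h' : Continuous (fun v : ℝ × ℝ × ℝ => f (v.2.1, v.2.2, v.1)) := by fun_prop
  exact mes3 hM h' ha hb hc

theorem nF (hM : StMes) {C : ℝ≥0∞} (hCt : C ≠ ⊤) (hC : ∀ φ : ℝ → ℝ≥0∞, Measurable φ →
    ∫⁻ t, MM φ t ^ (4 / 3 : ℝ) ≤ C * ∫⁻ t, φ t ^ (4 / 3 : ℝ))
    {f : ℝ × ℝ × ℝ → ℝ} (hf : Continuous f) :
    ∫⁻ x, ∫⁻ y, ∫⁻ z, T (fun u => f (u, y, z)) x ^ 4 ≤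
      C * ∫⁻ x, ∫⁻ y, ∫⁻ z, ‖f (x, y, z)‖ₑ ^ 4 := by
  rw [perm (Φ := fun x y z => T (fun u => f (u, y, z)) x ^ 4)
      ((mes3 hM hf measurable_fst (measurable_fst.comp measurable_snd)
        (measurable_snd.comp measurable_snd)).pow_const 4),
    perm (Φ := fun x y z => ‖f (x, y, z)‖ₑ ^ 4) ((hf.measurable.enorm).pow_const 4),
    ← lintegral_const_mul' _ _ hCt]
  refine lintegral_mono fun y => ?_
  rw [← lintegral_const_mul' _ _ hCt]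
  exact lintegral_mono fun z => T_bound hC (by fun_prop : Continuous (fun u => f (u, y, z)))

theorem nG {C : ℝ≥0∞} (hCt : C ≠ ⊤) (hC : ∀ φ : ℝ → ℝ≥0∞, Measurable φ →
    ∫⁻ t, MM φ t ^ (4 / 3 : ℝ) ≤ C * ∫⁻ t, φ t ^ (4 / 3 : ℝ))
    {g : ℝ × ℝ × ℝ → ℝ} (hg : Continuous g) :
    ∫⁻ x, ∫⁻ y, ∫⁻ z, T (fun u => g (x, y, u)) z ^ 4 ≤
      C * ∫⁻ x, ∫⁻ y, ∫⁻ z, ‖g (x, y, z)‖ₑ ^ 4 := by
  rw [← lintegral_const_mul' _ _ hCt]
  refine lintegral_mono fun y => ?_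
  rw [← lintegral_const_mul' _ _ hCt]
  exact lintegral_mono fun z => T_bound hC (by fun_prop : Continuous (fun u => g (y, z, u)))

theorem cT (hM : StMes) {f : ℝ → ℝ} (hf : Continuous f) : Measurable (fun x => T f x) := by
  have h' : Continuous (fun v : ℝ × ℝ × ℝ => f v.1) := by fun_prop
  exact mes3 hM h' measurable_id (measurable_const (a := (0 : ℝ))) (measurable_const (a := (0 : ℝ)))

theorem pr (hM : StMes) {C : ℝ≥0∞} (hC : ∀ φ : ℝ → ℝ≥0∞, Measurable φ →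
    ∫⁻ t, MM φ t ^ (4 / 3 : ℝ) ≤ C * ∫⁻ t, φ t ^ (4 / 3 : ℝ))
    {a b : ℝ → ℝ} (ha : Continuous a) (hb : Continuous b) :
    ∫⁻ y, ∫⁻ z, (T a y * T b z) ^ 4 ≤ C ^ 2 * ∫⁻ y, ∫⁻ z, ‖a y * b z‖ₑ ^ 4 := by
  simp only [enorm_mul]
  rw [prod_int (cT hM ha) (cT hM hb), prod_int ha.measurable.enorm hb.measurable.enorm]
  refine (mul_le_mul' (T_bound hC ha) (T_bound hC hb)).trans (le_of_eq ?_)
  ring

theorem nH (hM : StMes) {C : ℝ≥0∞} (hCt : C ≠ ⊤) (hC : ∀ φ : ℝ → ℝ≥0∞, Measurable φ →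
    ∫⁻ t, MM φ t ^ (4 / 3 : ℝ) ≤ C * ∫⁻ t, φ t ^ (4 / 3 : ℝ))
    {e l : ℝ × ℝ → ℝ} (he : Continuous e) (hl : Continuous l) :
    ∫⁻ x, ∫⁻ y, ∫⁻ z, (T (fun u => e (x, u)) y * T (fun u => l (x, u)) z) ^ 4 ≤
      C ^ 2 * ∫⁻ x, ∫⁻ y, ∫⁻ z, ‖e (x, y) * l (x, z)‖ₑ ^ 4 := by
  rw [← lintegral_const_mul' _ _ (ENNReal.pow_ne_top hCt)]
  exact lintegral_mono fun x => pr hM hC (by fun_prop : Continuous (fun u => e (x, u)))
    (by fun_prop : Continuous (fun u => l (x, u)))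

theorem nK (hM : StMes) {C : ℝ≥0∞} (hCt : C ≠ ⊤) (hC : ∀ φ : ℝ → ℝ≥0∞, Measurable φ →
    ∫⁻ t, MM φ t ^ (4 / 3 : ℝ) ≤ C * ∫⁻ t, φ t ^ (4 / 3 : ℝ))
    {r p : ℝ × ℝ → ℝ} (hr : Continuous r) (hp : Continuous p) :
    ∫⁻ x, ∫⁻ y, ∫⁻ z, (T (fun u => r (u, z)) x * T (fun u => p (u, z)) y) ^ 4 ≤
      C ^ 2 * ∫⁻ x, ∫⁻ y, ∫⁻ z, ‖r (x, z) * p (y, z)‖ₑ ^ 4 := by
  have c1 : ∫⁻ z, ∫⁻ x, ∫⁻ y, (T (fun u => r (u, z)) x * T (fun u => p (u, z)) y) ^ 4 =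
      ∫⁻ x, ∫⁻ y, ∫⁻ z, (T (fun u => r (u, z)) x * T (fun u => p (u, z)) y) ^ 4 := by
    refine perm (Φ := fun z x y => (T (fun u => r (u, z)) x * T (fun u => p (u, z)) y) ^ 4) ?_
    exact ((mes2a hM hr (measurable_fst.comp measurable_snd) measurable_fst).mul
      (mes2a hM hp (measurable_snd.comp measurable_snd) measurable_fst)).pow_const 4
  have c2 : ∫⁻ z, ∫⁻ x, ∫⁻ y, ‖r (x, z) * p (y, z)‖ₑ ^ 4 =
      ∫⁻ x, ∫⁻ y, ∫⁻ z, ‖r (x, z) * p (y, z)‖ₑ ^ 4 := by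
    refine perm (Φ := fun z x y => ‖r (x, z) * p (y, z)‖ₑ ^ 4) ?_
    have : Continuous (fun z : ℝ × ℝ × ℝ => r (z.2.1, z.1) * p (z.2.2, z.1)) := by fun_prop
    exact (this.measurable.enorm).pow_const 4
  rw [← c1, ← c2, ← lintegral_const_mul' _ _ (ENNReal.pow_ne_top hCt)]
  exact lintegral_mono fun z => pr hM hC (by fun_prop : Continuous (fun u => r (u, z)))
    (by fun_prop : Continuous (fun u => p (u, z)))

theorem mid (hHyp : StHyp) (hM : StMes) {f g : ℝ × ℝ × ℝ → ℝ} {e l p r : ℝ × ℝ → ℝ}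
    (hf : Continuous f) (hg : Continuous g) (he : Continuous e) (hl : Continuous l)
    (hp : Continuous p) (hr : Continuous r) :
    ∫⁻ y, ∫⁻ z, ∫⁻ x, T (fun u => f (u, y, z)) x * T (fun u => g (y, z, u)) (0 - x - y - z) *
        (T (fun u => e (z, u)) (0 - x - y - z) * T (fun u => l (z, u)) x) *
        (T (fun u => r (u, y)) (0 - x - y - z) * T (fun u => p (u, y)) x) ≤
    (∫⁻ x, ∫⁻ y, ∫⁻ z, T (fun u => f (u, y, z)) x ^ 4) ^ (1 / 4 : ℝ) *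
    (∫⁻ x, ∫⁻ y, ∫⁻ z, T (fun u => g (x, y, u)) z ^ 4) ^ (1 / 4 : ℝ) *
    (∫⁻ x, ∫⁻ y, ∫⁻ z, (T (fun u => e (x, u)) y * T (fun u => l (x, u)) z) ^ 4) ^ (1 / 4 : ℝ) *
    (∫⁻ x, ∫⁻ y, ∫⁻ z, (T (fun u => r (u, z)) x * T (fun u => p (u, z)) y) ^ 4)
      ^ (1 / 4 : ℝ) := by
  have m1 : Measurable (fun z : ℝ × ℝ × ℝ => z.1) := measurable_fst
  have m2 : Measurable (fun z : ℝ × ℝ × ℝ => z.2.1) := measurable_fst.comp measurable_snd
  have m3 : Measurable (fun z : ℝ × ℝ × ℝ => z.2.2) := measurable_snd.comp measurable_snd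
  have m4 : Measurable (fun z : ℝ × ℝ × ℝ => 0 - z.1 - z.2.1 - z.2.2) :=
    ((measurable_const.sub m1).sub m2).sub m3
  have h := hHyp (fun x y z => T (fun u => f (u, y, z)) x) (fun y z w => T (fun u => g (y, z, u)) w)
    (fun z w x => T (fun u => e (z, u)) w * T (fun u => l (z, u)) x)
    (fun w x y => T (fun u => r (u, y)) w * T (fun u => p (u, y)) x)
    (mes3 hM hf m1 m2 m3) (mes3c hM hg m3 m1 m2)
    ((mes2b hM he m2 m1).mul (mes2b hM hl m3 m1)) ((mes2a hM hr m1 m3).mul (mes2a hM hp m2 m3)) 0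
  refine le_trans (le_of_eq ?_) h
  symm
  refine perm (Φ := fun x y z =>
    T (fun u => f (u, y, z)) x * T (fun u => g (y, z, u)) (0 - x - y - z) *
        (T (fun u => e (z, u)) (0 - x - y - z) * T (fun u => l (z, u)) x) *
        (T (fun u => r (u, y)) (0 - x - y - z) * T (fun u => p (u, y)) x)) ?_
  exact (((mes3 hM hf m1 m2 m3).mul (mes3c hM hg m4 m2 m3)).mul
    ((mes2b hM he m4 m3).mul (mes2b hM hl m1 m3))).mul
    ((mes2a hM hr m4 m2).mul (mes2a hM hp m1 m2))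

theorem fin (C a b c d : ℝ≥0∞) :
    (C * a) ^ (1 / 4 : ℝ) * (C * b) ^ (1 / 4 : ℝ) * (C ^ 2 * c) ^ (1 / 4 : ℝ)
      * (C ^ 2 * d) ^ (1 / 4 : ℝ) =
    (C ^ (1 / 4 : ℝ) * C ^ (1 / 4 : ℝ) * (C ^ 2) ^ (1 / 4 : ℝ) * (C ^ 2) ^ (1 / 4 : ℝ))
      * a ^ (1 / 4 : ℝ) * b ^ (1 / 4 : ℝ) * c ^ (1 / 4 : ℝ) * d ^ (1 / 4 : ℝ) := by
  have q : (0 : ℝ) ≤ 1 / 4 := by norm_num
  rw [ENNReal.mul_rpow_of_nonneg _ _ q, ENNReal.mul_rpow_of_nonneg _ _ q,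
    ENNReal.mul_rpow_of_nonneg _ _ q, ENNReal.mul_rpow_of_nonneg _ _ q]
  ring

end Big97

open Big97 in
/-- ROW BIG. -/
theorem big97 (hHL : StHL) (hPt : StPt) (hInv : StInv) (hHyp : StHyp) (hMes : StMes) :
    StBig := by
  obtain ⟨C, hCt, hC⟩ := hHL
  refine ⟨C ^ (1 / 4 : ℝ) * C ^ (1 / 4 : ℝ) * (C ^ 2) ^ (1 / 4 : ℝ) * (C ^ 2) ^ (1 / 4 : ℝ),
    ?_, ?_⟩
  · have h1 : C ^ (1 / 4 : ℝ) ≠ ⊤ := ENNReal.rpow_ne_top_of_nonneg (by norm_num) hCt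
    have h2 : (C ^ 2) ^ (1 / 4 : ℝ) ≠ ⊤ :=
      ENNReal.rpow_ne_top_of_nonneg (by norm_num) (ENNReal.pow_ne_top hCt)
    exact ENNReal.mul_ne_top (ENNReal.mul_ne_top (ENNReal.mul_ne_top h1 h1) h2) h2
  intro f g e l p r hf _ hg _ he _ hl _ hp _ hr _
  have q : (0 : ℝ) ≤ 1 / 4 := by norm_num
  rw [← fin]
  refine le_trans (lintegral_mono fun y => lintegral_mono fun z => lintegral_mono fun x => ?_)
    ((mid hHyp hMes hf hg he hl hp hr).trans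
      (mul_le_mul' (mul_le_mul' (mul_le_mul' (ENNReal.rpow_le_rpow (nF hMes hCt hC hf) q)
      (ENNReal.rpow_le_rpow (nG hCt hC hg) q))
      (ENNReal.rpow_le_rpow (nH hMes hCt hC he hl) q))
      (ENNReal.rpow_le_rpow (nK hMes hCt hC hr hp) q)))
  have h := ptw hPt hInv (fun u => f (u, y, z)) (fun u => l (z, u)) (fun u => p (u, y))
    (fun u => g (y, z, u)) (fun u => e (z, u)) (fun u => r (u, y))
    (by fun_prop) (by fun_prop) (by fun_prop) (by fun_prop) (by fun_prop) (by fun_prop)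
    (-y - z) x
  have h4 : (0 : ℝ) - x - y - z = -y - z - x := by ring
  rw [h4]
  exact h

end Pool.Agent.Lib.SX53
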