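import Pool.Agent.Lib.MP_5ef378_an.SX.Defs53

/-!
Row DIL: the integral over the dilations.
-/

set_option autoImplicit false

open MeasureTheory Set
open scoped ENNReal

namespace Pool.Agent.Lib.SX53

namespace D38

/-- the integrand -/
noncomputable def G (A B : ℝ → ℝ) (n : ℕ) (r : ℝ) (z : ℝ × ℝ) : ℝ :=
  A z.1 * B z.2 * ∑ j ∈ Finset.range n, (2 ^ j * r ^ 2)⁻¹ * kap ((z.1 - z.2) / (2 ^ j * r))

theorem G_eq (A B : ℝ → ℝ) (n : ℕ) (r : ℝ) (z : ℝ × ℝ) :
    G A B n r z = r⁻¹ * (A z.1 * B z.2 *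
      ∑ j ∈ Finset.range n, (2 ^ j * r)⁻¹ * kap ((z.1 - z.2) / (2 ^ j * r))) := by
  unfold G
  rw [Finset.mul_sum, Finset.mul_sum, Finset.mul_sum]
  refine Finset.sum_congr rfl fun j _ => ?_
  have : (2 ^ j * r ^ 2)⁻¹ = r⁻¹ * (2 ^ j * r)⁻¹ := by
    rw [← mul_inv]
    congr 1
    ring
  rw [this]
  ring

theorem contOn (hK : Continuous kap) {A B : ℝ → ℝ} (hA : Continuous A) (hB : Continuous B)
    (n : ℕ) : ContinuousOn (fun p : ℝ × (ℝ × ℝ) => G A B n p.1 p.2) (Ioi (0 : ℝ) ×ˢ univ) := by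
  unfold G
  refine ContinuousOn.mul (by fun_prop) ?_
  refine continuousOn_finsetSum _ fun j _ => ?_
  refine ContinuousOn.mul ?_ ?_
  · refine ContinuousOn.inv₀ (by fun_prop) fun p hp => ?_
    have h1 : 0 < p.1 := hp.1
    positivity
  · refine hK.comp_continuousOn ?_
    refine ContinuousOn.div (by fun_prop) (by fun_prop) fun p hp => ?_
    have h1 : 0 < p.1 := hp.1
    positivity

theorem intG (hK : Continuous kap) {A B : ℝ → ℝ} (hA : Continuous A) (hA' : HasCompactSupport A)
    (hB : Continuous B) (hB' : HasCompactSupport B) {a : ℝ} (ha : 0 < a) (n : ℕ) :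
    Integrable (fun p : ℝ × (ℝ × ℝ) => G A B n p.1 p.2)
      ((volume.restrict (Ioc a (2 * a))).prod ((volume : Measure ℝ).prod volume)) := by
  have h1 : IntegrableOn (fun p : ℝ × (ℝ × ℝ) => G A B n p.1 p.2)
      (Icc a (2 * a) ×ˢ (tsupport A ×ˢ tsupport B)) := by
    refine ContinuousOn.integrableOn_compact (isCompact_Icc.prod (hA'.isCompact.prod
      hB'.isCompact)) ((contOn hK hA hB n).mono ?_)
    rintro p ⟨hp, -⟩
    exact ⟨ha.trans_le hp.1, mem_univ _⟩
  have h2 : IntegrableOn (fun p : ℝ × (ℝ × ℝ) => G A B n p.1 p.2)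
      (Icc a (2 * a) ×ˢ (univ : Set (ℝ × ℝ))) := by
    refine h1.of_forall_sdiff_eq_zero (measurableSet_Icc.prod MeasurableSet.univ) ?_
    rintro ⟨r, x, y⟩ ⟨⟨hr, -⟩, h⟩
    show A x * B y * _ = 0
    by_cases hx : x ∈ tsupport A
    · have hy : y ∉ tsupport B := fun hy => h ⟨hr, hx, hy⟩
      rw [image_eq_zero_of_notMem_tsupport hy]
      ring
    · rw [image_eq_zero_of_notMem_tsupport hx]
      ring
  have h3 := h2.mono_set (s := Ioc a (2 * a) ×ˢ (univ : Set (ℝ × ℝ)))
    (prod_mono Ioc_subset_Icc_self subset_rfl)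
  have h4 : (volume.restrict (Ioc a (2 * a))).prod ((volume : Measure ℝ).prod volume) =
      (volume : Measure (ℝ × (ℝ × ℝ))).restrict (Ioc a (2 * a) ×ˢ (univ : Set (ℝ × ℝ))) := by
    have h5 : ((volume : Measure ℝ).prod volume) =
        ((volume : Measure ℝ).prod volume).restrict (univ : Set (ℝ × ℝ)) :=
      Measure.restrict_univ.symm
    rw [h5, Measure.prod_restrict]
    rfl
  rw [h4]
  exact h3

theorem intGr (hK : Continuous kap) {A B : ℝ → ℝ} (hA : Continuous A) (hA' : HasCompactSupport A)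
    (hB : Continuous B) (hB' : HasCompactSupport B) {r : ℝ} (hr : 0 < r) (n : ℕ) :
    Integrable (G A B n r) ((volume : Measure ℝ).prod volume) := by
  have hc : Continuous (G A B n r) := by
    rw [← continuousOn_univ]
    exact (contOn hK hA hB n).comp (f := fun z : ℝ × ℝ => (r, z)) (by fun_prop)
      fun z _ => ⟨hr, mem_univ _⟩
  refine hc.integrable_of_hasCompactSupport ?_
  refine HasCompactSupport.of_support_subset_isCompact (hA'.isCompact.prod hB'.isCompact) ?_
  rintro ⟨x, y⟩ h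
  refine ⟨?_, ?_⟩
  · by_contra hx
    refine h ?_
    show A x * B y * _ = 0
    rw [image_eq_zero_of_notMem_tsupport hx]
    ring
  · by_contra hy
    refine h ?_
    show A x * B y * _ = 0
    rw [image_eq_zero_of_notMem_tsupport hy]
    ring

end D38

open D38 in
theorem dil38 (hK : StKap) : StDil := by
  intro A B hA hA' hB hB' a ha n C hC
  rcases eq_or_ne C ⊤ with rfl | hCt
  · rw [ENNReal.mul_top (by norm_num)]
    exact le_top
  have hI := intG hK.1 hA hA' hB hB' ha n
  have h1 : ∫ x, ∫ y, A x * B y * KK a n (x - y) =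
      8 * ∫ r in Ioc a (2 * a), ∫ x, ∫ y, G A B n r (x, y) := by
    have h2 : ∀ x y, A x * B y * KK a n (x - y) =
        8 * ∫ r in Ioc a (2 * a), G A B n r (x, y) := by
      intro x y
      unfold KK
      rw [intervalIntegral.integral_of_le (by linarith), ← mul_assoc, mul_comm (A x * B y) 8,
        mul_assoc, ← integral_const_mul]
      rfl
    simp only [h2, integral_const_mul]
    congr 1
    have h3 := hI.swap
    have h4 : Integrable (fun z : ℝ × ℝ => ∫ r in Ioc a (2 * a), G A B n r z)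
        ((volume : Measure ℝ).prod volume) := h3.integral_prod_left
    rw [← integral_prod _ h4]
    rw [integral_integral_swap (f := fun z r => G A B n r z) h3]
    refine setIntegral_congr_fun measurableSet_Ioc fun r hr => ?_
    exact integral_prod _ (intGr hK.1 hA hA' hB hB' (ha.trans hr.1) n)
  rw [h1]
  have h5 : ∀ r ∈ Ioc a (2 * a), ‖∫ x, ∫ y, G A B n r (x, y)‖ ≤ C.toReal * r⁻¹ := by
    intro r hr
    have h6 := (ENNReal.ofReal_le_iff_le_toReal hCt).1 (hC r hr.1.le hr.2)
    have h7 : ∫ x, ∫ y, G A B n r (x, y) = r⁻¹ * ∫ x, ∫ y, A x * B y *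
        ∑ j ∈ Finset.range n, (2 ^ j * r)⁻¹ * kap ((x - y) / (2 ^ j * r)) := by
      simp only [G_eq, integral_const_mul]
    have hr0 : 0 < r := ha.trans hr.1
    rw [h7, norm_mul, Real.norm_eq_abs, abs_of_pos (inv_pos.2 hr0), mul_comm, Real.norm_eq_abs]
    exact mul_le_mul_of_nonneg_right h6 (inv_pos.2 hr0).le
  have h8 : ∫ r in Ioc a (2 * a), C.toReal * r⁻¹ = C.toReal * Real.log 2 := by
    rw [integral_const_mul, ← intervalIntegral.integral_of_le (by linarith),
      integral_inv_of_pos ha (by linarith)]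
    congr 2
    field_simp
  have h9 : IntegrableOn (fun r : ℝ => C.toReal * r⁻¹) (Ioc a (2 * a)) := by
    refine Integrable.const_mul ?_ _
    have : IntegrableOn (fun r : ℝ => r⁻¹) (Icc a (2 * a)) :=
      ContinuousOn.integrableOn_compact isCompact_Icc
        (continuousOn_inv₀.mono fun r hr => (ha.trans_le hr.1).ne')
    exact this.mono_set Ioc_subset_Icc_self
  have h10 : ‖∫ r in Ioc a (2 * a), ∫ x, ∫ y, G A B n r (x, y)‖ ≤ C.toReal * Real.log 2 := by
    rw [← h8]
    refine norm_integral_le_of_norm_le h9 ?_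
    filter_upwards [ae_restrict_mem measurableSet_Ioc] with r hr
    exact h5 r hr
  rw [ENNReal.ofReal_le_iff_le_toReal (ENNReal.mul_ne_top (by norm_num) hCt), abs_mul,
    ENNReal.toReal_mul]
  rw [Real.norm_eq_abs] at h10
  have h11 := Real.log_two_lt_d9
  have h12 : 0 ≤ C.toReal := ENNReal.toReal_nonneg
  have h13 : (6 : ℝ≥0∞).toReal = 6 := by norm_num
  rw [h13, abs_of_pos (by norm_num : (0 : ℝ) < 8)]
  nlinarith

end Pool.Agent.Lib.SX53
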