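import Pool.Agent.Lib.MP_5ef378_an.SX.Defs53

/-!
Row DIL: the smooth kernel is an average of the dyadic kernels over the dilations `[a, 2a]`.
-/

set_option autoImplicit false

open MeasureTheory Set
open scoped ENNReal

namespace Pool.Agent.Lib.SX53

/-- the dyadic kernel with dilation `r` -/
private noncomputable def JJ (n : ℕ) (r s : ℝ) : ℝ :=
  ∑ j ∈ Finset.range n, (2 ^ j * r)⁻¹ * kap (s / (2 ^ j * r))

private lemma kap_le4 (hK : StKap) (s : ℝ) : |kap s| ≤ 4 := by
  obtain ⟨-, -, hk0, hk4, -⟩ := hK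
  rcases le_total 1 |s| with h | h
  · rw [hk0 s h]; norm_num
  · linarith [hk4 s]

private lemma JJ_cont (hK : StKap) (n : ℕ) {a : ℝ} (ha : 0 < a) :
    Continuous (fun p : (ℝ × ℝ) × ℝ => JJ n (max p.2 a) (p.1.1 - p.1.2)) := by
  have hkc := hK.1
  unfold JJ
  refine continuous_finsetSum _ fun j _ => ?_
  have hne : ∀ p : (ℝ × ℝ) × ℝ, (2 : ℝ) ^ j * max p.2 a ≠ 0 := fun p =>
    mul_ne_zero (by positivity) (lt_of_lt_of_le ha (le_max_right _ _)).ne'
  have hc : Continuous (fun p : (ℝ × ℝ) × ℝ => (2 : ℝ) ^ j * max p.2 a) := by fun_prop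
  refine (hc.inv₀ hne).mul (hkc.comp ?_)
  exact (by fun_prop : Continuous fun p : (ℝ × ℝ) × ℝ => p.1.1 - p.1.2).div hc hne

private lemma JJ_bd (hK : StKap) (n : ℕ) {a r : ℝ} (ha : 0 < a) (hr : a ≤ r) (s : ℝ) :
    |JJ n r s| ≤ n * (a⁻¹ * 4) := by
  unfold JJ
  have hr0 : 0 < r := lt_of_lt_of_le ha hr
  refine (Finset.abs_sum_le_sum_abs _ _).trans ?_
  have : ∀ j ∈ Finset.range n, |(2 ^ j * r)⁻¹ * kap (s / (2 ^ j * r))| ≤ a⁻¹ * 4 := by
    intro j _
    rw [abs_mul]
    have h1 : a ≤ 2 ^ j * r := by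
      have h2 : (1 : ℝ) ≤ 2 ^ j := one_le_pow₀ (by norm_num)
      nlinarith
    have h3 : |(2 ^ j * r)⁻¹| ≤ a⁻¹ := by
      rw [abs_of_pos (by positivity)]
      exact inv_anti₀ ha h1
    exact mul_le_mul h3 (kap_le4 hK _) (abs_nonneg _) (by positivity)
  refine (Finset.sum_le_sum this).trans ?_
  simp

/-- ROW DIL. -/
theorem dil65 (hK : StKap) : StDil := by
  intro A B hA hAc hB hBc a ha n C h
  rcases eq_or_ne C ⊤ with rfl | hC
  · rw [ENNReal.mul_top (by norm_num)]
    exact le_top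
  have ha2 : a ≤ 2 * a := by linarith
  set c : ℝ := C.toReal with hc
  have hc0 : 0 ≤ c := ENNReal.toReal_nonneg
  have hCc : C = ENNReal.ofReal c := (ENNReal.ofReal_toReal hC).symm
  have hG : ∀ r : ℝ, a ≤ r → r ≤ 2 * a → |∫ x, ∫ y, A x * B y * JJ n r (x - y)| ≤ c := by
    intro r h1 h2
    have h3 := h r h1 h2
    rw [hCc] at h3
    exact (ENNReal.ofReal_le_ofReal_iff hc0).1 h3
  -- the two variable functions are integrable
  have hAB : Integrable (fun z : ℝ × ℝ => A z.1 * B z.2) (volume.prod volume) :=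
    (hA.integrable_of_hasCompactSupport hAc).mul_prod (hB.integrable_of_hasCompactSupport hBc)
  have hI1 : ∀ r : ℝ, a ≤ r → Integrable (fun z : ℝ × ℝ => A z.1 * B z.2 * JJ n r (z.1 - z.2))
      (volume.prod volume) := by
    intro r hr
    refine hAB.mul_bdd (c := n * (a⁻¹ * 4)) ?_ ?_
    · have h1 := (JJ_cont hK n ha).comp
        (by fun_prop : Continuous fun z : ℝ × ℝ => ((z, r) : (ℝ × ℝ) × ℝ))
      have h2 : (fun z : ℝ × ℝ => JJ n r (z.1 - z.2)) =
          ((fun p : (ℝ × ℝ) × ℝ => JJ n (max p.2 a) (p.1.1 - p.1.2)) ∘ fun z : ℝ × ℝ => (z, r)) := by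
        funext z
        simp only [Function.comp, max_eq_left hr]
      rw [h2]
      exact h1.aestronglyMeasurable
    · exact Filter.Eventually.of_forall fun z => by
        rw [Real.norm_eq_abs]; exact JJ_bd hK n ha hr _
  set μ : Measure ℝ := volume.restrict (Ioc a (2 * a)) with hμ
  have hI2 : Integrable (fun p : (ℝ × ℝ) × ℝ =>
      A p.1.1 * B p.1.2 * (8 * (max p.2 a)⁻¹ * JJ n (max p.2 a) (p.1.1 - p.1.2)))
      ((volume.prod volume).prod μ) := by
    have h1 : Integrable (fun p : (ℝ × ℝ) × ℝ => A p.1.1 * B p.1.2)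
        ((volume.prod volume).prod μ) := hAB.comp_fst μ
    refine h1.mul_bdd (c := 8 * a⁻¹ * (n * (a⁻¹ * 4))) ?_ ?_
    · refine Continuous.aestronglyMeasurable ?_
      refine Continuous.mul (continuous_const.mul ?_) (JJ_cont hK n ha)
      refine Continuous.inv₀ (by fun_prop) fun p => (lt_of_lt_of_le ha (le_max_right _ _)).ne'
    · refine Filter.Eventually.of_forall fun p => ?_
      have h2 : a ≤ max p.2 a := le_max_right _ _
      have h3 : |(max p.2 a)⁻¹| ≤ a⁻¹ := by
        rw [abs_of_pos (by positivity)]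
        exact inv_anti₀ ha h2
      rw [Real.norm_eq_abs, abs_mul, abs_mul, abs_of_pos (by norm_num : (0:ℝ) < 8)]
      exact mul_le_mul (mul_le_mul_of_nonneg_left h3 (by norm_num)) (JJ_bd hK n ha h2 _)
        (abs_nonneg _) (by positivity)
  -- the kernel
  have hKK : ∀ s, KK a n s = ∫ r in Ioc a (2 * a), 8 * (max r a)⁻¹ * JJ n (max r a) s := by
    intro s
    unfold KK
    rw [intervalIntegral.integral_of_le ha2, ← integral_const_mul]
    refine setIntegral_congr_fun measurableSet_Ioc fun r hr => ?_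
    have h1 : max r a = r := max_eq_left hr.1.le
    simp only [h1, JJ]
    rw [Finset.mul_sum, Finset.mul_sum]
    refine Finset.sum_congr rfl fun j _ => ?_
    have h0 : r ≠ 0 := (ha.trans hr.1).ne'
    field_simp
  have hKKc : ∀ s, |KK a n s| ≤ 8 * a⁻¹ * (n * (a⁻¹ * 4)) * a := by
    intro s
    rw [hKK, ← Real.norm_eq_abs]
    have := norm_setIntegral_le_of_norm_le_const (μ := volume) (s := Ioc a (2 * a))
      (f := fun r => 8 * (max r a)⁻¹ * JJ n (max r a) s) (C := 8 * a⁻¹ * (n * (a⁻¹ * 4)))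
      (by simp) ?_
    · refine this.trans (le_of_eq ?_)
      rw [Measure.real, Real.volume_Ioc, ENNReal.toReal_ofReal (by linarith)]
      ring
    · intro r _
      have h2 : a ≤ max r a := le_max_right _ _
      have h3 : |(max r a)⁻¹| ≤ a⁻¹ := by
        rw [abs_of_pos (by positivity)]
        exact inv_anti₀ ha h2
      rw [Real.norm_eq_abs, abs_mul, abs_mul, abs_of_pos (by norm_num : (0:ℝ) < 8)]
      exact mul_le_mul (mul_le_mul_of_nonneg_left h3 (by norm_num)) (JJ_bd hK n ha h2 _)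
        (abs_nonneg _) (by positivity)
  have hmain : ∫ x, ∫ y, A x * B y * KK a n (x - y)
      = ∫ r in a..(2 * a), 8 * r⁻¹ * ∫ x, ∫ y, A x * B y * JJ n r (x - y) := by
    have e1 : ∀ z : ℝ × ℝ, A z.1 * B z.2 * KK a n (z.1 - z.2) =
        ∫ r, A z.1 * B z.2 * (8 * (max r a)⁻¹ * JJ n (max r a) (z.1 - z.2)) ∂μ := by
      intro z
      rw [hKK, integral_const_mul]
    have hI3 : Integrable (fun z : ℝ × ℝ => A z.1 * B z.2 * KK a n (z.1 - z.2))
        (volume.prod volume) := by
      have := hI2.integral_prod_left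
      refine this.congr (Filter.Eventually.of_forall fun z => ?_)
      exact (e1 z).symm
    have e2 : ∫ x, ∫ y, A x * B y * KK a n (x - y)
        = ∫ z : ℝ × ℝ, A z.1 * B z.2 * KK a n (z.1 - z.2) ∂(volume.prod volume) :=
      (integral_prod _ hI3).symm
    rw [e2]
    simp_rw [e1]
    rw [integral_integral_swap hI2, intervalIntegral.integral_of_le ha2]
    refine setIntegral_congr_fun measurableSet_Ioc fun r hr => ?_
    have h1 : max r a = r := max_eq_left hr.1.le
    simp only [h1]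
    rw [← integral_const_mul]
    have e3 : ∀ x, 8 * r⁻¹ * ∫ y, A x * B y * JJ n r (x - y) =
        ∫ y, A x * B y * (8 * r⁻¹ * JJ n r (x - y)) := by
      intro x
      rw [← integral_const_mul]
      refine integral_congr_ae (Filter.Eventually.of_forall fun y => ?_)
      ring
    simp_rw [e3]
    have hI4 : Integrable (fun z : ℝ × ℝ => A z.1 * B z.2 * (8 * r⁻¹ * JJ n r (z.1 - z.2)))
        (volume.prod volume) := by
      refine ((hI1 r hr.1.le).const_mul (8 * r⁻¹)).congr (Filter.Eventually.of_forall fun z => ?_)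
      ring
    exact integral_prod _ hI4
  have hfin : |∫ x, ∫ y, A x * B y * KK a n (x - y)| ≤ 6 * c := by
    rw [hmain, ← Real.norm_eq_abs]
    have h1 : IntervalIntegrable (fun r : ℝ => 8 * c * r⁻¹) volume a (2 * a) := by
      refine ContinuousOn.intervalIntegrable ?_
      rw [uIcc_of_le ha2]
      refine continuousOn_const.mul (ContinuousOn.inv₀ continuousOn_id fun r hr => ?_)
      exact (lt_of_lt_of_le ha hr.1).ne'
    have h2 := intervalIntegral.norm_integral_le_of_norm_le (μ := volume)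
      (f := fun r => 8 * r⁻¹ * ∫ x, ∫ y, A x * B y * JJ n r (x - y))
      (g := fun r => 8 * c * r⁻¹) ha2 ?_ h1
    · refine h2.trans ?_
      rw [intervalIntegral.integral_const_mul, integral_inv_of_pos ha (by linarith)]
      have h3 : 2 * a / a = 2 := by field_simp
      rw [h3]
      nlinarith [Real.log_two_lt_d9]
    · refine Filter.Eventually.of_forall fun r hr => ?_
      have h4 := hG r hr.1.le hr.2
      have h5 : 0 < r := ha.trans hr.1
      rw [Real.norm_eq_abs, abs_mul, abs_mul, abs_of_pos (by norm_num : (0:ℝ) < 8),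
        abs_of_pos (inv_pos.2 h5)]
      have h6 : 0 < 8 * r⁻¹ := by positivity
      nlinarith
  calc ENNReal.ofReal |∫ x, ∫ y, A x * B y * KK a n (x - y)| ≤ ENNReal.ofReal (6 * c) :=
        ENNReal.ofReal_le_ofReal hfin
    _ = 6 * C := by
        rw [ENNReal.ofReal_mul (by norm_num), hCc]
        norm_num

end Pool.Agent.Lib.SX53
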