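import Pool.Agent.Lib.MP_5ef378_an.SX.Defs53

/-!
# Rows ERR and KKC (from KAP)
-/

set_option autoImplicit false

open MeasureTheory Set Filter Topology

namespace Pool.Agent.Lib.SX53

namespace E11

/-- The primitive of `kap`. -/
noncomputable def Phi (x : ℝ) : ℝ := ∫ u in (0 : ℝ)..x, kap u

theorem kap_int (hK : StKap) (a b : ℝ) : IntervalIntegrable kap volume a b :=
  hK.1.intervalIntegrable a b

theorem Phi_sub (hK : StKap) (a b : ℝ) : Phi b - Phi a = ∫ u in a..b, kap u := by
  unfold Phi
  exact intervalIntegral.integral_interval_sub_left (kap_int hK _ _) (kap_int hK _ _)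

theorem Phi_neg (hK : StKap) (x : ℝ) : Phi (-x) = Phi x := by
  unfold Phi
  have h1 : ∫ u in (0 : ℝ)..(-x), kap u = ∫ u in (-(-x))..(-0), kap (-u) := by
    rw [intervalIntegral.integral_comp_neg]
    simp
  rw [h1, neg_neg, neg_zero, intervalIntegral.integral_symm]
  simp only [hK.2.1, intervalIntegral.integral_neg, neg_neg]

theorem Phi_abs (hK : StKap) (x : ℝ) : Phi |x| = Phi x := by
  rcases abs_choice x with h | h
  · rw [h]
  · rw [h, Phi_neg hK]

theorem Phi_big (hK : StKap) {x : ℝ} (hx : 1 ≤ |x|) : Phi x = 1 / 8 := by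
  rw [← Phi_abs hK]
  have h1 := Phi_sub hK 1 |x|
  have h2 : ∫ u in (1 : ℝ)..|x|, kap u = 0 := by
    refine intervalIntegral.integral_zero_ae ?_ 
    refine Eventually.of_forall fun u hu => ?_
    rw [uIoc_of_le hx] at hu
    exact hK.2.2.1 u (hu.1.le.trans (le_abs_self u))
  have h3 : Phi 1 = 1 / 8 := hK.2.2.2.2
  rw [h2, h3] at h1
  linarith

theorem Phi_small (hK : StKap) (x : ℝ) : |Phi x| ≤ 2 * x ^ 2 := by
  rw [← Phi_abs hK, ← sq_abs x]
  have hx := abs_nonneg x
  unfold Phi
  have h1 : ‖∫ u in (0 : ℝ)..|x|, kap u‖ ≤ ∫ u in (0 : ℝ)..|x|, 4 * u := by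
    refine intervalIntegral.norm_integral_le_of_norm_le hx ?_
      ((continuous_const.mul continuous_id).intervalIntegrable _ _)
    refine Eventually.of_forall fun u hu => ?_
    have h2 := hK.2.2.2.1 u
    rw [abs_of_pos hu.1] at h2
    exact h2
  rw [intervalIntegral.integral_const_mul, integral_id] at h1
  rw [Real.norm_eq_abs] at h1
  linarith

/-- The formula for the truncated kernel. -/
theorem KK_eq (hK : StKap) {a : ℝ} (ha : 0 < a) (n : ℕ) {s : ℝ} (hs : s ≠ 0) :
    KK a n s = 8 / s * (Phi (s / a) - Phi (s / (2 ^ n * a))) := by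
  have hcont : ∀ j : ℕ, ContinuousOn (fun r : ℝ => (2 ^ j * r ^ 2)⁻¹ * kap (s / (2 ^ j * r)))
      (uIcc a (2 * a)) := by
    intro j
    have hr : ∀ r ∈ uIcc a (2 * a), r ≠ 0 := by
      intro r hr
      rw [uIcc_of_le (by linarith)] at hr
      exact (ha.trans_le hr.1).ne'
    refine ContinuousOn.mul ?_ ?_
    · refine ContinuousOn.inv₀ (by fun_prop) fun r h => ?_
      have := hr r h
      positivity
    · refine hK.1.comp_continuousOn (ContinuousOn.div (by fun_prop) (by fun_prop) fun r h => ?_)
      have := hr r h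
      positivity
  have hone : ∀ j : ℕ, ∫ r in a..(2 * a), (2 ^ j * r ^ 2)⁻¹ * kap (s / (2 ^ j * r)) =
      1 / s * (Phi (s / (2 ^ j * a)) - Phi (s / (2 ^ (j + 1) * a))) := by
    intro j
    have hr : ∀ r ∈ uIcc a (2 * a), r ≠ 0 := by
      intro r hr
      rw [uIcc_of_le (by linarith)] at hr
      exact (ha.trans_le hr.1).ne'
    have h1 := intervalIntegral.integral_comp_mul_deriv (a := a) (b := 2 * a)
      (f := fun r : ℝ => s / (2 ^ j * r)) (f' := fun r : ℝ => -(s / (2 ^ j * r ^ 2))) (g := kap)
      (fun r h => by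
        have h0 := hr r h
        have h2 : HasDerivAt (fun r : ℝ => (2 : ℝ) ^ j * r) (2 ^ j * 1) r :=
          (hasDerivAt_id r).const_mul _
        have h3 := (hasDerivAt_const r s).div h2 (by positivity)
        refine h3.congr_deriv ?_
        field_simp
        ring)
      (by
        refine (ContinuousOn.div (by fun_prop) (by fun_prop) fun r h => ?_).neg
        have := hr r h
        positivity) hK.1
    have h2 : ∫ r in a..(2 * a), (2 ^ j * r ^ 2)⁻¹ * kap (s / (2 ^ j * r)) =
        ∫ r in a..(2 * a), (-(1 / s)) *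
          ((kap ∘ fun r : ℝ => s / (2 ^ j * r)) r * -(s / (2 ^ j * r ^ 2))) := by
      refine intervalIntegral.integral_congr fun r h => ?_
      have h0 := hr r h
      simp only [Function.comp]
      field_simp
    rw [h2, intervalIntegral.integral_const_mul, h1, ← Phi_sub hK]
    have h3 : s / (2 ^ j * (2 * a)) = s / (2 ^ (j + 1) * a) := by
      rw [pow_succ]
      ring_nf
    simp only [h3]
    ring
  unfold KK
  rw [intervalIntegral.integral_finsetSum fun j _ => (hcont j).intervalIntegrable]
  simp only [hone]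
  rw [← Finset.mul_sum, Finset.sum_range_sub' (fun j => Phi (s / (2 ^ j * a)))]
  simp only [pow_zero, one_mul]
  ring

theorem kap_zero (hK : StKap) : kap 0 = 0 := by
  have h := hK.2.1 0
  rw [neg_zero] at h
  linarith

theorem KK_zero (hK : StKap) (a : ℝ) (n : ℕ) : KK a n 0 = 0 := by
  unfold KK
  simp only [zero_div, kap_zero hK, mul_zero, Finset.sum_const_zero,
    intervalIntegral.integral_zero]

/-- The small values. -/
theorem KK_small (hK : StKap) {a : ℝ} (ha : 0 < a) (n : ℕ) (s : ℝ) :
    |KK a n s| ≤ 32 * |s| / a ^ 2 := by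
  rcases eq_or_ne s 0 with rfl | hs
  · rw [KK_zero hK, abs_zero, mul_zero, zero_div]
  · rw [KK_eq hK ha n hs, abs_mul, abs_div]
    have h1 := Phi_small hK (s / a)
    have h2 := Phi_small hK (s / (2 ^ n * a))
    have hs' : 0 < |s| := abs_pos.2 hs
    have h3 : (s / (2 ^ n * a)) ^ 2 ≤ (s / a) ^ 2 := by
      rw [div_pow, div_pow]
      refine div_le_div_of_nonneg_left (sq_nonneg s) (by positivity) ?_
      refine pow_le_pow_left₀ ha.le ?_ 2
      have : (1 : ℝ) ≤ 2 ^ n := one_le_pow₀ (by norm_num)
      nlinarith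
    have h4 : |Phi (s / a) - Phi (s / (2 ^ n * a))| ≤ 4 * (s / a) ^ 2 := by
      have := abs_sub (Phi (s / a)) (Phi (s / (2 ^ n * a)))
      linarith
    calc |(8 : ℝ)| / |s| * |Phi (s / a) - Phi (s / (2 ^ n * a))|
        ≤ |(8 : ℝ)| / |s| * (4 * (s / a) ^ 2) :=
          mul_le_mul_of_nonneg_left h4 (by positivity)
      _ = 32 * |s| / a ^ 2 := by
          rw [abs_of_pos (by norm_num : (0 : ℝ) < 8), div_pow, ← sq_abs s]
          field_simp
          ring

end E11

open E11 in
/-- **Row KKC.** -/
theorem kkc11 (hK : StKap) : StKKc := by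
  intro a ha n
  refine continuous_iff_continuousAt.2 fun s => ?_
  rcases eq_or_ne s 0 with rfl | hs
  · have h1 : Tendsto (fun s : ℝ => 32 * |s| / a ^ 2) (𝓝 0) (𝓝 0) := by
      have h2 : Continuous fun s : ℝ => 32 * |s| / a ^ 2 := by fun_prop
      have h3 := h2.tendsto 0
      simpa using h3
    unfold ContinuousAt
    rw [KK_zero hK]
    exact squeeze_zero_norm (fun t => KK_small hK ha n t) h1
  · have hPhi : Continuous Phi := by
      unfold Phi
      exact intervalIntegral.continuous_primitive (fun a b => kap_int hK a b) 0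
    have h1 : ContinuousAt (fun s : ℝ => 8 / s * (Phi (s / a) - Phi (s / (2 ^ n * a)))) s := by
      refine ContinuousAt.mul (continuousAt_const.div continuousAt_id hs) ?_
      exact ((hPhi.comp (continuous_id.div_const _)).sub
        (hPhi.comp (continuous_id.div_const _))).continuousAt
    refine h1.congr ?_
    filter_upwards [isOpen_ne.mem_nhds hs] with t ht
    exact (KK_eq hK ha n ht).symm

open E11 in
/-- **Row ERR.** -/
theorem err11 (hK : StKap) : StErr := by
  intro e N he heN
  classical
  have hex : ∃ n : ℕ, N ≤ 2 ^ n * e := by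
    obtain ⟨n, hn⟩ := pow_unbounded_of_one_lt (N / e) (by norm_num : (1 : ℝ) < 2)
    refine ⟨n, ?_⟩
    rw [div_lt_iff₀ he] at hn
    exact hn.le
  obtain ⟨n, hn, hmin⟩ : ∃ n : ℕ, N ≤ 2 ^ n * e ∧ 2 ^ n * e < 2 * N := by
    refine ⟨Nat.find hex, Nat.find_spec hex, ?_⟩
    rcases Nat.eq_zero_or_pos (Nat.find hex) with h0 | h0
    · rw [h0]
      linarith
    · have h1 := Nat.find_min hex (m := Nat.find hex - 1) (by omega)
      have h2 : (2 : ℝ) ^ (Nat.find hex) = 2 ^ (Nat.find hex - 1) * 2 := by
        rw [← pow_succ]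
        congr 1
        omega
      rw [h2]
      linarith [not_le.1 h1]
  set b : ℝ := 2 ^ n * e with hb
  have hb0 : 0 < b := by positivity
  have heb : e ≤ b := heN.le.trans hn
  refine ⟨n, b, hb0, fun s => ?_⟩
  have hbi : 0 < b⁻¹ := inv_pos.2 hb0
  have hei : 0 < e⁻¹ := inv_pos.2 he
  rcases le_or_gt |s| e with h1 | h1
  · have h2 : trK e N s = 0 := if_neg fun h => absurd h.1 (not_lt.2 h1)
    rw [h2, zero_sub, abs_neg, if_pos h1, if_pos (by linarith : |s| ≤ 2 * b)]
    have h3 := KK_small hK he n s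
    have h4 : 32 * |s| / e ^ 2 ≤ 32 * e⁻¹ := by
      rw [div_le_iff₀ (by positivity)]
      have : 32 * e⁻¹ * e ^ 2 = 32 * e := by field_simp
      rw [this]
      linarith
    linarith
  · have hs : s ≠ 0 := fun h => by
      rw [h, abs_zero] at h1
      linarith
    have hs' : 0 < |s| := abs_pos.2 hs
    have h2 : Phi (s / e) = 1 / 8 := Phi_big hK (by
      rw [abs_div, abs_of_pos he, le_div_iff₀ he]
      linarith)
    have h3 := KK_eq hK he n hs
    rw [h2] at h3
    rcases le_or_gt b |s| with h4 | h4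
    · have h5 : Phi (s / b) = 1 / 8 := Phi_big hK (by
        rw [abs_div, abs_of_pos hb0, le_div_iff₀ hb0]
        linarith)
      rw [← hb, h5, sub_self, mul_zero] at h3
      have h6 : trK e N s = 0 := if_neg fun h => absurd h.2 (not_lt.2 (hn.trans h4))
      rw [h3, h6, sub_zero, abs_zero]
      have h7 : (0 : ℝ) ≤ if |s| ≤ e then e⁻¹ else 0 := by
        split_ifs
        · exact hei.le
        · exact le_rfl
      have h8 : (0 : ℝ) ≤ if |s| ≤ 2 * b then b⁻¹ else 0 := by
        split_ifs
        · exact hbi.le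
        · exact le_rfl
      linarith
    · rw [if_neg (not_le.2 h1), if_pos (by linarith : |s| ≤ 2 * b), zero_add]
      have h5 : |1 / s - KK e n s| ≤ 16 * b⁻¹ := by
        have h6 : 1 / s - KK e n s = 8 / s * Phi (s / b) := by
          rw [h3, ← hb]
          ring
        rw [h6, abs_mul, abs_div, abs_of_pos (by norm_num : (0 : ℝ) < 8)]
        have h7 := Phi_small hK (s / b)
        calc 8 / |s| * |Phi (s / b)| ≤ 8 / |s| * (2 * (s / b) ^ 2) :=
              mul_le_mul_of_nonneg_left h7 (by positivity)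
          _ = 16 * |s| / b ^ 2 := by
              rw [div_pow, ← sq_abs s]
              field_simp
              ring
          _ ≤ 16 * b⁻¹ := by
              rw [div_le_iff₀ (by positivity)]
              have : 16 * b⁻¹ * b ^ 2 = 16 * b := by field_simp
              rw [this]
              linarith
      have h6 : |trK e N s - 1 / s| ≤ 2 * b⁻¹ := by
        unfold trK
        by_cases h7 : e < |s| ∧ |s| < N
        · rw [if_pos h7, sub_self, abs_zero]
          positivity
        · rw [if_neg h7, zero_sub, abs_neg, abs_div, abs_one]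
          have h8 : N ≤ |s| := not_lt.1 fun h => h7 ⟨h1, h⟩
          rw [div_le_iff₀ hs']
          have h9 : b ≤ 2 * |s| := by linarith
          have h10 : 1 ≤ b⁻¹ * (2 * |s|) := by
            rw [← inv_mul_cancel₀ hb0.ne']
            exact mul_le_mul_of_nonneg_left h9 hbi.le
          linarith
      have h7 : trK e N s - KK e n s = (trK e N s - 1 / s) + (1 / s - KK e n s) := by ring
      rw [h7]
      have h8 := abs_add_le (trK e N s - 1 / s) (1 / s - KK e n s)
      linarith

end Pool.Agent.Lib.SX53
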