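import Pool.Agent.Lib.MP_5ef378_an.SX.Defs53

/-!
# The truncated kernel `1 / s` and its smooth truncation
-/

set_option autoImplicit false

open MeasureTheory Set intervalIntegral

namespace Pool.Agent.Lib.SX53

namespace Err55

/-- The primitive of `kap`. -/
noncomputable def Ph (x : ℝ) : ℝ := ∫ u in (0 : ℝ)..x, kap u

theorem hasDerivAt_Ph (h : StKap) (x : ℝ) : HasDerivAt Ph (kap x) x :=
  integral_hasDerivAt_right (h.1.intervalIntegrable _ _)
    h.1.aestronglyMeasurable.stronglyMeasurableAtFilter h.1.continuousAt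

theorem Ph_neg (h : StKap) (x : ℝ) : Ph (-x) = Ph x := by
  have h1 : ∫ u in (0 : ℝ)..(-x), kap u = ∫ u in (0 : ℝ)..x, kap u := by
    have h2 := intervalIntegral.integral_comp_neg (a := 0) (b := x) (fun u => kap u)
    rw [neg_zero] at h2
    rw [intervalIntegral.integral_symm, ← h2, ← intervalIntegral.integral_neg]
    refine intervalIntegral.integral_congr fun u _ => ?_
    rw [h.2.1, neg_neg]
  exact h1

theorem Ph_abs (h : StKap) (x : ℝ) : Ph |x| = Ph x := by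
  rcases abs_cases x with ⟨h1, -⟩ | ⟨h1, -⟩
  · rw [h1]
  · rw [h1, Ph_neg h]

theorem Ph_one (h : StKap) {x : ℝ} (hx : 1 ≤ |x|) : Ph x = 1 / 8 := by
  rw [← Ph_abs h, Ph, ← intervalIntegral.integral_add_adjacent_intervals
    (h.1.intervalIntegrable 0 1) (h.1.intervalIntegrable 1 |x|), h.2.2.2.2]
  have h1 : ∫ u in (1 : ℝ)..|x|, kap u = 0 := by
    have h2 : ∫ u in (1 : ℝ)..|x|, kap u = ∫ u in (1 : ℝ)..|x|, (0 : ℝ) := by
      refine intervalIntegral.integral_congr fun u hu => ?_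
      rw [uIcc_of_le hx] at hu
      exact h.2.2.1 u (hu.1.trans (le_abs_self u))
    rw [h2]
    simp
  rw [h1, add_zero]

theorem Ph_le (h : StKap) (x : ℝ) : |Ph x| ≤ 2 * x ^ 2 := by
  rw [← Ph_abs h, Ph]
  have h0 : (0 : ℝ) ≤ |x| := abs_nonneg x
  have h1 : |∫ u in (0 : ℝ)..|x|, kap u| ≤ ∫ u in (0 : ℝ)..|x|, 4 * u := by
    refine (intervalIntegral.abs_integral_le_integral_abs h0).trans ?_
    refine intervalIntegral.integral_mono_on h0 (h.1.abs.intervalIntegrable _ _)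
      ((continuous_const.mul continuous_id).intervalIntegrable _ _) fun u hu => ?_
    have h2 := h.2.2.2.1 u
    rwa [abs_of_nonneg hu.1] at h2
  refine h1.trans (le_of_eq ?_)
  rw [intervalIntegral.integral_const_mul, integral_id, ← sq_abs x]
  ring

theorem piece (h : StKap) {a s : ℝ} (ha : 0 < a) (hs : s ≠ 0) (j : ℕ) :
    ∫ r in a..(2 * a), (2 ^ j * r ^ 2)⁻¹ * kap (s / (2 ^ j * r)) =
      s⁻¹ * Ph (s / (2 ^ j * a)) - s⁻¹ * Ph (s / (2 ^ (j + 1) * a)) := by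
  have hd : ∀ r ∈ uIcc a (2 * a), HasDerivAt (fun r => -(s⁻¹ * Ph (s / (2 ^ j * r))))
      ((2 ^ j * r ^ 2)⁻¹ * kap (s / (2 ^ j * r))) r := by
    intro r hr
    rw [uIcc_of_le (by linarith)] at hr
    have hr0 : 0 < r := ha.trans_le hr.1
    have h1 : HasDerivAt (fun r : ℝ => s / (2 ^ j * r)) (-(s * 2 ^ j) / (2 ^ j * r) ^ 2) r := by
      have h2 : HasDerivAt (fun r : ℝ => 2 ^ j * r) (2 ^ j * 1) r :=
        (hasDerivAt_id r).const_mul (2 ^ j)
      have h3 : HasDerivAt (fun r : ℝ => s / (2 ^ j * r))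
          ((0 * (2 ^ j * r) - s * (2 ^ j * 1)) / (2 ^ j * r) ^ 2) r :=
        (hasDerivAt_const r s).div h2 (by positivity)
      rwa [zero_mul, zero_sub, mul_one] at h3
    have h4' := (hasDerivAt_Ph h (s / (2 ^ j * r))).comp r h1
    have h4 : HasDerivAt (fun r : ℝ => Ph (s / (2 ^ j * r)))
        (kap (s / (2 ^ j * r)) * (-(s * 2 ^ j) / (2 ^ j * r) ^ 2)) r := h4'
    have h5 : HasDerivAt (fun r : ℝ => -(s⁻¹ * Ph (s / (2 ^ j * r))))
        (-(s⁻¹ * (kap (s / (2 ^ j * r)) * (-(s * 2 ^ j) / (2 ^ j * r) ^ 2)))) r :=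
      (h4.const_mul s⁻¹).neg
    have e5 : -(s⁻¹ * (kap (s / (2 ^ j * r)) * (-(s * 2 ^ j) / (2 ^ j * r) ^ 2))) =
        (2 ^ j * r ^ 2)⁻¹ * kap (s / (2 ^ j * r)) := by
      have e6 : s⁻¹ * s = 1 := inv_mul_cancel₀ hs
      have e7 : ((2 : ℝ) ^ j) / (2 ^ j * r) ^ 2 = (2 ^ j * r ^ 2)⁻¹ := by
        field_simp
      calc -(s⁻¹ * (kap (s / (2 ^ j * r)) * (-(s * 2 ^ j) / (2 ^ j * r) ^ 2)))
          = (s⁻¹ * s) * (2 ^ j / (2 ^ j * r) ^ 2) * kap (s / (2 ^ j * r)) := by ring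
        _ = (2 ^ j * r ^ 2)⁻¹ * kap (s / (2 ^ j * r)) := by rw [e6, one_mul, e7]
    rwa [e5] at h5
  have hi : IntervalIntegrable (fun r => (2 ^ j * r ^ 2)⁻¹ * kap (s / (2 ^ j * r)))
      volume a (2 * a) := by
    refine ContinuousOn.intervalIntegrable fun r hr => ContinuousAt.continuousWithinAt ?_
    rw [uIcc_of_le (by linarith)] at hr
    have hr0 : 0 < r := ha.trans_le hr.1
    refine ContinuousAt.mul (ContinuousAt.inv₀ (by fun_prop) (by positivity)) ?_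
    refine h.1.continuousAt.comp ?_
    exact continuousAt_const.div (by fun_prop) (by positivity)
  rw [intervalIntegral.integral_eq_sub_of_hasDerivAt hd hi]
  have e1 : (2 : ℝ) ^ j * (2 * a) = 2 ^ (j + 1) * a := by ring
  rw [e1]
  ring

theorem piece_int (h : StKap) {a : ℝ} (ha : 0 < a) (s : ℝ) (j : ℕ) :
    IntervalIntegrable (fun r => (2 ^ j * r ^ 2)⁻¹ * kap (s / (2 ^ j * r)))
      volume a (2 * a) := by
  refine ContinuousOn.intervalIntegrable fun r hr => ContinuousAt.continuousWithinAt ?_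
  rw [uIcc_of_le (by linarith)] at hr
  have hr0 : 0 < r := ha.trans_le hr.1
  refine ContinuousAt.mul (ContinuousAt.inv₀ (by fun_prop) (by positivity)) ?_
  refine h.1.continuousAt.comp ?_
  exact continuousAt_const.div (by fun_prop) (by positivity)

/-- The formula for the smooth truncation. -/
theorem KK_eq (h : StKap) {a s : ℝ} (ha : 0 < a) (hs : s ≠ 0) (n : ℕ) :
    KK a n s = 8 * (s⁻¹ * Ph (s / a) - s⁻¹ * Ph (s / (2 ^ n * a))) := by
  rw [KK, intervalIntegral.integral_finsetSum fun j _ => piece_int h ha s j,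
    Finset.sum_congr rfl fun j _ => piece h ha hs j,
    Finset.sum_range_sub' (fun j => s⁻¹ * Ph (s / (2 ^ j * a))), pow_zero, one_mul]

theorem KK_zero (h : StKap) (a : ℝ) (n : ℕ) : KK a n 0 = 0 := by
  have h0 : kap 0 = 0 := by
    have h1 := h.2.1 0
    rw [neg_zero] at h1
    linarith
  simp [KK, h0]

theorem kkc55 (h : StKap) : StKKc := by
  intro a ha n
  have e1 : KK a n = fun s => 8 * ∫ r in a..(2 * a), ∑ j ∈ Finset.range n,
      (2 ^ j * (max r a) ^ 2)⁻¹ * kap (s / (2 ^ j * max r a)) := by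
    funext s
    rw [KK]
    congr 1
    refine intervalIntegral.integral_congr fun r hr => ?_
    rw [uIcc_of_le (by linarith)] at hr
    rw [max_eq_left hr.1]
  rw [e1]
  refine continuous_const.mul ?_
  refine intervalIntegral.continuous_parametric_intervalIntegral_of_continuous' ?_ _ _
  refine continuous_finsetSum _ fun j _ => ?_
  have hm : ∀ p : ℝ × ℝ, (0 : ℝ) < max p.2 a := fun p => ha.trans_le (le_max_right _ _)
  refine Continuous.mul (Continuous.inv₀ (by fun_prop) fun p => ?_) (h.1.comp ?_)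
  · have := hm p
    positivity
  · refine Continuous.div (by fun_prop) (by fun_prop) fun p => ?_
    have := hm p
    positivity

theorem err55 (h : StKap) : StErr := by
  intro e N he heN
  have hN : 0 < N := he.trans heN
  obtain ⟨m, hm1, hm2⟩ := exists_nat_pow_near (x := N / e) (y := (2 : ℝ))
    ((one_le_div he).2 heN.le) one_lt_two
  have hb0 : (0 : ℝ) < 2 ^ (m + 1) * e := by positivity
  have hbN : N < 2 ^ (m + 1) * e := (div_lt_iff₀ he).1 hm2
  have hbN' : 2 ^ (m + 1) * e ≤ 2 * N := by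
    have := (le_div_iff₀ he).1 hm1
    rw [pow_succ]
    linarith
  refine ⟨m + 1, 2 ^ (m + 1) * e, hb0, fun s => ?_⟩
  set b : ℝ := 2 ^ (m + 1) * e with hb
  have hbi : 0 < b⁻¹ := inv_pos.2 hb0
  have hei : 0 < e⁻¹ := inv_pos.2 he
  have hI1 : (0 : ℝ) ≤ if |s| ≤ e then e⁻¹ else 0 := by split_ifs <;> positivity
  have hI2 : (0 : ℝ) ≤ if |s| ≤ 2 * b then b⁻¹ else 0 := by split_ifs <;> positivity
  by_cases hs : s = 0
  · subst hs
    rw [KK_zero h, trK, if_neg (by rw [abs_zero]; exact fun h => (he.trans h.1).false), sub_self,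
      abs_zero]
    positivity
  have hs0 : 0 < |s| := abs_pos.2 hs
  have hK := KK_eq h he hs (m + 1)
  rw [← hb] at hK
  have hPb : |s⁻¹ * Ph (s / b)| ≤ 2 * |s| * (b⁻¹ * b⁻¹) := by
    rw [abs_mul, abs_inv]
    calc |s|⁻¹ * |Ph (s / b)| ≤ |s|⁻¹ * (2 * (s / b) ^ 2) :=
          mul_le_mul_of_nonneg_left (Ph_le h _) (by positivity)
      _ = 2 * |s| * (b⁻¹ * b⁻¹) := by
          rw [← sq_abs (s / b), abs_div, abs_of_pos hb0]
          field_simp
  have hPe : |s⁻¹ * Ph (s / e)| ≤ 2 * |s| * (e⁻¹ * e⁻¹) := by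
    rw [abs_mul, abs_inv]
    calc |s|⁻¹ * |Ph (s / e)| ≤ |s|⁻¹ * (2 * (s / e) ^ 2) :=
          mul_le_mul_of_nonneg_left (Ph_le h _) (by positivity)
      _ = 2 * |s| * (e⁻¹ * e⁻¹) := by
          rw [← sq_abs (s / e), abs_div, abs_of_pos he]
          field_simp
  have hbe : b⁻¹ ≤ e⁻¹ := inv_anti₀ he (heN.le.trans hbN.le)
  by_cases h1 : |s| ≤ e
  · rw [trK, if_neg (fun h => (not_lt.2 h1) h.1), if_pos h1, zero_sub, abs_neg, hK]
    have h2 : |s| * e⁻¹ ≤ 1 := by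
      rw [← div_eq_mul_inv]
      exact (div_le_one he).2 h1
    have h3 : 2 * |s| * (b⁻¹ * b⁻¹) ≤ 2 * e⁻¹ := by
      calc 2 * |s| * (b⁻¹ * b⁻¹) ≤ 2 * |s| * (e⁻¹ * e⁻¹) :=
            mul_le_mul_of_nonneg_left (mul_le_mul hbe hbe hbi.le hei.le) (by positivity)
        _ = 2 * (|s| * e⁻¹) * e⁻¹ := by ring
        _ ≤ 2 * 1 * e⁻¹ := by gcongr
        _ = 2 * e⁻¹ := by ring
    have h4 : 2 * |s| * (e⁻¹ * e⁻¹) ≤ 2 * e⁻¹ := by
      calc 2 * |s| * (e⁻¹ * e⁻¹) = 2 * (|s| * e⁻¹) * e⁻¹ := by ring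
        _ ≤ 2 * 1 * e⁻¹ := by gcongr
        _ = 2 * e⁻¹ := by ring
    calc |8 * (s⁻¹ * Ph (s / e) - s⁻¹ * Ph (s / b))|
        = 8 * |s⁻¹ * Ph (s / e) - s⁻¹ * Ph (s / b)| := by
          rw [abs_mul]; norm_num
      _ ≤ 8 * (|s⁻¹ * Ph (s / e)| + |s⁻¹ * Ph (s / b)|) :=
          mul_le_mul_of_nonneg_left (abs_sub _ _) (by norm_num)
      _ ≤ 40 * (e⁻¹ + if |s| ≤ 2 * b then b⁻¹ else 0) := by linarith
  · rw [not_le] at h1
    have hPe1 : Ph (s / e) = 1 / 8 := Ph_one h (by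
      rw [abs_div, abs_of_pos he]
      exact (one_le_div he).2 h1.le)
    rw [hPe1] at hK
    by_cases h2 : |s| < b
    · rw [if_pos (show |s| ≤ 2 * b by linarith)]
      have h3 : |s| * b⁻¹ ≤ 1 := by
        rw [← div_eq_mul_inv]
        exact (div_le_one hb0).2 h2.le
      have h4 : 2 * |s| * (b⁻¹ * b⁻¹) ≤ 2 * b⁻¹ := by
        calc 2 * |s| * (b⁻¹ * b⁻¹) = 2 * (|s| * b⁻¹) * b⁻¹ := by ring
          _ ≤ 2 * 1 * b⁻¹ := by gcongr
          _ = 2 * b⁻¹ := by ring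
      by_cases h5 : |s| < N
      · rw [trK, if_pos ⟨h1, h5⟩, hK]
        have e1 : 1 / s - 8 * (s⁻¹ * (1 / 8) - s⁻¹ * Ph (s / b)) = 8 * (s⁻¹ * Ph (s / b)) := by
          ring
        rw [e1, abs_mul, abs_of_pos (by norm_num : (0 : ℝ) < 8)]
        linarith
      · rw [trK, if_neg (fun h => h5 h.2), zero_sub, abs_neg, hK]
        have h6 : |s|⁻¹ ≤ 2 * b⁻¹ := by
          have h7 : |s|⁻¹ ≤ (b / 2)⁻¹ := inv_anti₀ (by positivity) (by linarith [not_lt.1 h5])
          rwa [inv_div, div_eq_mul_inv] at h7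
        have e1 : 8 * (s⁻¹ * (1 / 8) - s⁻¹ * Ph (s / b)) = s⁻¹ - 8 * (s⁻¹ * Ph (s / b)) := by
          ring
        rw [e1]
        refine (abs_sub _ _).trans ?_
        rw [abs_inv, abs_mul, abs_of_pos (by norm_num : (0 : ℝ) < 8)]
        linarith
    · rw [not_lt] at h2
      have hPb1 : Ph (s / b) = 1 / 8 := Ph_one h (by
        rw [abs_div, abs_of_pos hb0]
        exact (one_le_div hb0).2 h2)
      rw [trK, if_neg (fun h => (not_lt.2 (hbN.le.trans h2)) h.2), zero_sub, abs_neg, hK, hPb1,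
        sub_self, mul_zero, abs_zero]
      positivity

end Err55

end Pool.Agent.Lib.SX53
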