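import Pool.Agent.Lib.MP_5ef378_an.SX.Defs53

set_option autoImplicit false

open MeasureTheory Set
open scoped ENNReal

namespace Pool.Agent.Lib.SX53

theorem lint_succ {n : ℕ} {G : (Fin (n + 1) → ℝ) → ℝ≥0∞} (hG : Measurable G) :
    ∫⁻ x : Fin (n + 1) → ℝ, G x = ∫⁻ a : ℝ, ∫⁻ w : Fin n → ℝ, G (Matrix.vecCons a w) := by
  have h1 := volume_preserving_piFinSuccAbove (fun _ : Fin (n + 1) => ℝ) 0
  rw [← h1.symm.lintegral_comp hG]
  rw [Measure.volume_eq_prod, lintegral_prod (fun z : ℝ × (Fin n → ℝ) =>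
    G ((MeasurableEquiv.piFinSuccAbove (fun _ => ℝ) 0).symm z))
    (hG.comp (MeasurableEquiv.measurable _)).aemeasurable]
  refine lintegral_congr fun a => lintegral_congr fun w => ?_
  have h2 : (MeasurableEquiv.piFinSuccAbove (fun _ : Fin (n + 1) => ℝ) 0).symm (a, w) =
      (Matrix.vecCons a w : Fin (n + 1) → ℝ) := by
    show Fin.insertNth (α := fun _ => ℝ) 0 a w = _
    rw [Fin.insertNth_zero]
    rfl
  rw [h2]

theorem lint_zero (G : (Fin 0 → ℝ) → ℝ≥0∞) : ∫⁻ x : Fin 0 → ℝ, G x = G ![] := by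
  rw [volume_pi, Measure.pi_of_empty _ ![], lintegral_dirac]

theorem meas_vecCons {n : ℕ} : Measurable fun z : ℝ × (Fin n → ℝ) =>
    (Matrix.vecCons z.1 z.2 : Fin (n + 1) → ℝ) := by
  refine measurable_pi_lambda _ fun i => ?_
  refine Fin.cases ?_ (fun j => ?_) i
  · exact measurable_fst
  · exact (measurable_pi_apply j).comp measurable_snd

theorem meas_vecCons' {n : ℕ} (a : ℝ) : Measurable fun w : Fin n → ℝ =>
    (Matrix.vecCons a w : Fin (n + 1) → ℝ) :=
  meas_vecCons.comp (measurable_const.prodMk measurable_id)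

theorem lint3 {G : (Fin 3 → ℝ) → ℝ≥0∞} (hG : Measurable G) :
    ∫⁻ x : Fin 3 → ℝ, G x = ∫⁻ x : ℝ, ∫⁻ y : ℝ, ∫⁻ z : ℝ, G ![x, y, z] := by
  rw [lint_succ hG]
  refine lintegral_congr fun x => ?_
  rw [lint_succ (G := fun w => G (Matrix.vecCons x w)) (hG.comp (meas_vecCons' x))]
  refine lintegral_congr fun y => ?_
  rw [lint_succ (G := fun w => G (Matrix.vecCons x (Matrix.vecCons y w)))
    ((hG.comp (meas_vecCons' x)).comp (meas_vecCons' y))]
  refine lintegral_congr fun z => ?_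
  rw [lint_zero]

theorem lint4 {G : (Fin 4 → ℝ) → ℝ≥0∞} (hG : Measurable G) :
    ∫⁻ x : Fin 4 → ℝ, G x = ∫⁻ x : ℝ, ∫⁻ y : ℝ, ∫⁻ z : ℝ, ∫⁻ w : ℝ, G ![x, y, z, w] := by
  rw [lint_succ hG]
  refine lintegral_congr fun x => ?_
  rw [lint_succ (G := fun w => G (Matrix.vecCons x w)) (hG.comp (meas_vecCons' x))]
  refine lintegral_congr fun y => ?_
  rw [lint_succ (G := fun w => G (Matrix.vecCons x (Matrix.vecCons y w)))
    ((hG.comp (meas_vecCons' x)).comp (meas_vecCons' y))]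
  refine lintegral_congr fun z => ?_
  rw [lint_succ (G := fun w => G (Matrix.vecCons x (Matrix.vecCons y (Matrix.vecCons z w))))
    (((hG.comp (meas_vecCons' x)).comp (meas_vecCons' y)).comp (meas_vecCons' z))]
  refine lintegral_congr fun w => ?_
  rw [lint_zero]

theorem eL4 {f : (Fin 3 → ℝ) → ℝ} (hf : Measurable f) :
    eLpNorm f 4 volume = (∫⁻ x : ℝ, ∫⁻ y : ℝ, ∫⁻ z : ℝ, ‖f ![x, y, z]‖ₑ ^ 4) ^ (1 / 4 : ℝ) := by
  rw [eLpNorm_eq_lintegral_rpow_enorm_toReal (by norm_num) (by norm_num)]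
  have h4 : (4 : ℝ≥0∞).toReal = ((4 : ℕ) : ℝ) := by norm_num
  rw [h4]
  simp only [ENNReal.rpow_natCast]
  rw [← lint3 (G := fun x => ‖f x‖ₑ ^ 4) (hf.enorm.pow_const 4)]
  norm_num

theorem lint4s {G : (Fin 4 → ℝ) → ℝ≥0∞} (hG : Measurable G) :
    ∫⁻ x : Fin 4 → ℝ, G x =
      ∫⁻ s : ℝ, ∫⁻ x : ℝ, ∫⁻ y : ℝ, ∫⁻ z : ℝ, G ![x, y, z, s - x - y - z] := by
  have hm : Measurable fun q : ℝ × ℝ × ℝ × ℝ =>
      G ![q.1, q.2.1, q.2.2.1, q.2.2.2 - q.1 - q.2.1 - q.2.2.1] := by
    refine hG.comp (measurable_pi_lambda _ fun i => ?_)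
    fin_cases i
    · exact measurable_fst
    · exact measurable_fst.comp measurable_snd
    · exact measurable_fst.comp (measurable_snd.comp measurable_snd)
    · exact (((measurable_snd.comp (measurable_snd.comp measurable_snd)).sub measurable_fst).sub
        (measurable_fst.comp measurable_snd)).sub
          (measurable_fst.comp (measurable_snd.comp measurable_snd))
  rw [lint4 hG]
  have e1 : ∀ x y z : ℝ, ∫⁻ w : ℝ, G ![x, y, z, w] = ∫⁻ s : ℝ, G ![x, y, z, s - x - y - z] := by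
    intro x y z
    have := lintegral_sub_right_eq_self (μ := (volume : Measure ℝ)) (fun w => G ![x, y, z, w])
      (x + y + z)
    rw [← this]
    refine lintegral_congr fun s => ?_
    congr 2
    funext i
    fin_cases i <;> simp
    ring
  simp only [e1]
  have e2 : ∀ x y : ℝ, ∫⁻ z : ℝ, ∫⁻ s : ℝ, G ![x, y, z, s - x - y - z] =
      ∫⁻ s : ℝ, ∫⁻ z : ℝ, G ![x, y, z, s - x - y - z] := by
    intro x y
    refine lintegral_lintegral_swap ?_
    exact (hm.comp (measurable_const.prodMk (measurable_const.prodMk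
      (measurable_fst.prodMk measurable_snd)))).aemeasurable
  simp only [e2]
  have m3 : Measurable fun q : ℝ × ℝ × ℝ => ∫⁻ z : ℝ, G ![q.1, q.2.1, z, q.2.2 - q.1 - q.2.1 - z] := by
    refine Measurable.lintegral_prod_right' (f := fun p : (ℝ × ℝ × ℝ) × ℝ =>
      G ![p.1.1, p.1.2.1, p.2, p.1.2.2 - p.1.1 - p.1.2.1 - p.2]) ?_
    exact hm.comp ((measurable_fst.comp measurable_fst).prodMk
      ((measurable_fst.comp (measurable_snd.comp measurable_fst)).prodMk
        (measurable_snd.prodMk (measurable_snd.comp (measurable_snd.comp measurable_fst)))))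
  have e3 : ∀ x : ℝ, ∫⁻ y : ℝ, ∫⁻ s : ℝ, ∫⁻ z : ℝ, G ![x, y, z, s - x - y - z] =
      ∫⁻ s : ℝ, ∫⁻ y : ℝ, ∫⁻ z : ℝ, G ![x, y, z, s - x - y - z] := by
    intro x
    refine lintegral_lintegral_swap (f := fun y s => ∫⁻ z : ℝ, G ![x, y, z, s - x - y - z]) ?_
    exact (m3.comp (measurable_const.prodMk (measurable_fst.prodMk measurable_snd))).aemeasurable
  simp only [e3]
  have m4 : Measurable fun q : ℝ × ℝ => ∫⁻ y : ℝ, ∫⁻ z : ℝ, G ![q.1, y, z, q.2 - q.1 - y - z] := by
    refine Measurable.lintegral_prod_right' (f := fun p : (ℝ × ℝ) × ℝ =>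
      ∫⁻ z : ℝ, G ![p.1.1, p.2, z, p.1.2 - p.1.1 - p.2 - z]) ?_
    exact m3.comp ((measurable_fst.comp measurable_fst).prodMk
      (measurable_snd.prodMk (measurable_snd.comp measurable_fst)))
  exact lintegral_lintegral_swap (f := fun x s => ∫⁻ y : ℝ, ∫⁻ z : ℝ, G ![x, y, z, s - x - y - z])
    m4.aemeasurable

/-- The four-fold product. -/
def Phi4 (f g h k : (Fin 3 → ℝ) → ℝ) (x : Fin 4 → ℝ) : ℝ :=
  f ![x 0, x 1, x 2] * g ![x 1, x 2, x 3] * h ![x 2, x 3, x 0] * k ![x 3, x 0, x 1]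

theorem phi4_cont {f g h k : (Fin 3 → ℝ) → ℝ} (hf : Continuous f) (hg : Continuous g)
    (hh : Continuous h) (hk : Continuous k) : Continuous (Phi4 f g h k) := by
  have hv : ∀ i j l : Fin 4, Continuous fun x : Fin 4 → ℝ => (![x i, x j, x l] : Fin 3 → ℝ) := by
    intro i j l
    refine continuous_pi fun m => ?_
    fin_cases m
    · exact continuous_apply i
    · exact continuous_apply j
    · exact continuous_apply l
  unfold Phi4
  exact (((hf.comp (hv 0 1 2)).mul (hg.comp (hv 1 2 3))).mul (hh.comp (hv 2 3 0))).mul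
    (hk.comp (hv 3 0 1))

theorem phi4_supp {f g : (Fin 3 → ℝ) → ℝ} (hf : HasCompactSupport f)
    (hg : HasCompactSupport g) : ∃ R : ℝ, 0 ≤ R ∧ ∀ x : Fin 4 → ℝ, (∃ i, R < |x i|) →
      f ![x 0, x 1, x 2] * g ![x 1, x 2, x 3] = 0 := by
  obtain ⟨R1, h1⟩ := hf.isCompact.isBounded.subset_closedBall (0 : Fin 3 → ℝ)
  obtain ⟨R2, h2⟩ := hg.isCompact.isBounded.subset_closedBall (0 : Fin 3 → ℝ)
  refine ⟨max 0 (max R1 R2), le_max_left _ _, fun x hx => ?_⟩
  by_contra hne
  obtain ⟨hf0, hg0⟩ := mul_ne_zero_iff.1 hne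
  have hf1 := h1 (subset_tsupport f hf0)
  have hg1 := h2 (subset_tsupport g hg0)
  rw [mem_closedBall_zero_iff] at hf1 hg1
  have a0 : |x 0| ≤ R1 := (norm_le_pi_norm (![x 0, x 1, x 2] : Fin 3 → ℝ) 0).trans hf1
  have a1 : |x 1| ≤ R1 := (norm_le_pi_norm (![x 0, x 1, x 2] : Fin 3 → ℝ) 1).trans hf1
  have a2 : |x 2| ≤ R1 := (norm_le_pi_norm (![x 0, x 1, x 2] : Fin 3 → ℝ) 2).trans hf1
  have a3 : |x 3| ≤ R2 := (norm_le_pi_norm (![x 1, x 2, x 3] : Fin 3 → ℝ) 2).trans hg1
  obtain ⟨i, hi⟩ := hx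
  have m1 : R1 ≤ max 0 (max R1 R2) := (le_max_left _ _).trans (le_max_right _ _)
  have m2 : R2 ≤ max 0 (max R1 R2) := (le_max_right _ _).trans (le_max_right _ _)
  fin_cases i
  · exact absurd (a0.trans m1) (not_le.2 hi)
  · exact absurd (a1.trans m1) (not_le.2 hi)
  · exact absurd (a2.trans m1) (not_le.2 hi)
  · exact absurd (a3.trans m2) (not_le.2 hi)

theorem phi4_compact {f g h k : (Fin 3 → ℝ) → ℝ} (hf : HasCompactSupport f)
    (hg : HasCompactSupport g) : HasCompactSupport (Phi4 f g h k) := by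
  obtain ⟨R, hR, hz⟩ := phi4_supp hf hg
  refine HasCompactSupport.of_support_subset_isCompact
    (K := Set.pi univ fun _ : Fin 4 => Icc (-R) R) (isCompact_univ_pi fun _ => isCompact_Icc) ?_
  intro x hx
  rw [Set.mem_univ_pi]
  intro i
  by_contra hi
  apply hx
  have : R < |x i| := by
    rw [Set.mem_Icc, ← abs_le] at hi
    exact not_le.1 hi
  unfold Phi4
  rw [hz x ⟨i, this⟩]
  ring

theorem cont_sum : Continuous fun x : Fin 4 → ℝ => ∑ i, x i :=
  continuous_finsetSum _ fun i _ => continuous_apply i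

theorem trK_meas (e N : ℝ) : Measurable (trK e N) := by
  unfold trK
  refine Measurable.ite ?_ (measurable_const.div measurable_id) measurable_const
  exact (measurableSet_lt measurable_const continuous_abs.measurable).inter
    (measurableSet_lt continuous_abs.measurable measurable_const)

theorem trK_bound {e N : ℝ} (he : 0 < e) (t : ℝ) : |trK e N t| ≤ e⁻¹ := by
  unfold trK
  split_ifs with h
  · rw [abs_div, abs_one, one_div]
    exact inv_anti₀ he h.1.le
  · simp [he.le]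

theorem integrable_trK {f g h k : (Fin 3 → ℝ) → ℝ} (hf : Continuous f) (hg : Continuous g)
    (hh : Continuous h) (hk : Continuous k) (hfc : HasCompactSupport f)
    (hgc : HasCompactSupport g) {e N : ℝ} (he : 0 < e) :
    Integrable fun x : Fin 4 → ℝ => Phi4 f g h k x * trK e N (∑ i, x i) := by
  have h1 : Integrable (Phi4 f g h k) :=
    (phi4_cont hf hg hh hk).integrable_of_hasCompactSupport (phi4_compact hfc hgc)
  refine h1.mul_bdd (c := e⁻¹) ((trK_meas e N).comp cont_sum.measurable).aestronglyMeasurable ?_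
  exact Filter.Eventually.of_forall fun x => trK_bound he _

theorem integrable_KK (hK : StKKc) {f g h k : (Fin 3 → ℝ) → ℝ} (hf : Continuous f)
    (hg : Continuous g) (hh : Continuous h) (hk : Continuous k) (hfc : HasCompactSupport f)
    (hgc : HasCompactSupport g) {a : ℝ} (ha : 0 < a) (n : ℕ) :
    Integrable fun x : Fin 4 → ℝ => Phi4 f g h k x * KK a n (∑ i, x i) :=
  ((phi4_cont hf hg hh hk).mul ((hK a ha n).comp cont_sum)).integrable_of_hasCompactSupport
    (phi4_compact hfc hgc).mul_right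

end Pool.Agent.Lib.SX53
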