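import Pool.Agent.Lib.MP_5ef378_an.SX.Fin2a

set_option autoImplicit false

open MeasureTheory Set
open scoped ENNReal

namespace Pool.Agent.Lib.SX53

/-- The weight of the error. -/
noncomputable def wt (e b s : ℝ) : ℝ≥0∞ :=
  ENNReal.ofReal (40 * ((if |s| ≤ e then e⁻¹ else 0) + (if |s| ≤ 2 * b then b⁻¹ else 0)))

theorem wt_meas (e b : ℝ) : Measurable (wt e b) := by
  unfold wt
  refine ENNReal.measurable_ofReal.comp (measurable_const.mul (Measurable.add ?_ ?_))
  · exact Measurable.ite (measurableSet_le continuous_abs.measurable measurable_const)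
      measurable_const measurable_const
  · exact Measurable.ite (measurableSet_le continuous_abs.measurable measurable_const)
      measurable_const measurable_const

theorem wt_le {e b : ℝ} (s : ℝ) : wt e b s ≤
    (Icc (-e) e).indicator (fun _ => ENNReal.ofReal (40 * e⁻¹)) s +
    (Icc (-(2 * b)) (2 * b)).indicator (fun _ => ENNReal.ofReal (40 * b⁻¹)) s := by
  unfold wt
  rw [mul_add]
  refine ENNReal.ofReal_add_le.trans (add_le_add ?_ ?_)
  · by_cases h : |s| ≤ e
    · rw [if_pos h, indicator_of_mem (show s ∈ Icc (-e) e from abs_le.1 h)]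
    · rw [if_neg h]; simp
  · by_cases h : |s| ≤ 2 * b
    · rw [if_pos h, indicator_of_mem (show s ∈ Icc (-(2 * b)) (2 * b) from abs_le.1 h)]
    · rw [if_neg h]; simp

theorem wt_int {e b : ℝ} (he : 0 < e) (hb : 0 < b) : ∫⁻ s, wt e b s ≤ 240 := by
  refine (lintegral_mono fun s => wt_le s).trans ?_
  rw [lintegral_add_left (measurable_const.indicator measurableSet_Icc),
    lintegral_indicator measurableSet_Icc, lintegral_indicator measurableSet_Icc,
    setLIntegral_const, setLIntegral_const, Real.volume_Icc, Real.volume_Icc,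
    ← ENNReal.ofReal_mul (by positivity), ← ENNReal.ofReal_mul (by positivity),
    ← ENNReal.ofReal_add (mul_nonneg (by positivity) (by linarith))
      (mul_nonneg (by positivity) (by linarith))]
  have : 40 * e⁻¹ * (e - -e) + 40 * b⁻¹ * (2 * b - -(2 * b)) = 240 := by
    field_simp
    ring
  rw [this]
  norm_num

theorem hyp4 (hH : StHyp) {f g h k : (Fin 3 → ℝ) → ℝ} (hf : Continuous f) (hg : Continuous g)
    (hh : Continuous h) (hk : Continuous k) (s : ℝ) :
    ∫⁻ x : ℝ, ∫⁻ y : ℝ, ∫⁻ z : ℝ, ‖Phi4 f g h k ![x, y, z, s - x - y - z]‖ₑ ≤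
      eLpNorm f 4 volume * eLpNorm g 4 volume * eLpNorm h 4 volume * eLpNorm k 4 volume := by
  have hv : Measurable fun z : ℝ × ℝ × ℝ => (![z.1, z.2.1, z.2.2] : Fin 3 → ℝ) := by
    refine measurable_pi_lambda _ fun i => ?_
    fin_cases i
    · exact measurable_fst
    · exact measurable_fst.comp measurable_snd
    · exact measurable_snd.comp measurable_snd
  rw [eL4 hf.measurable, eL4 hg.measurable, eL4 hh.measurable, eL4 hk.measurable]
  refine le_trans (le_of_eq ?_) (hH (fun x y z => ‖f ![x, y, z]‖ₑ) (fun x y z => ‖g ![x, y, z]‖ₑ)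
    (fun x y z => ‖h ![x, y, z]‖ₑ) (fun x y z => ‖k ![x, y, z]‖ₑ)
    (hf.measurable.comp hv).enorm (hg.measurable.comp hv).enorm
    (hh.measurable.comp hv).enorm (hk.measurable.comp hv).enorm s)
  refine lintegral_congr fun x => lintegral_congr fun y => lintegral_congr fun z => ?_
  unfold Phi4
  rw [enorm_mul, enorm_mul, enorm_mul]
  rfl

theorem err2 (hE : StErr) (hH : StHyp) (hK : StKKc) {f g h k : (Fin 3 → ℝ) → ℝ}
    (hf : Continuous f) (hg : Continuous g) (hh : Continuous h) (hk : Continuous k)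
    (hfc : HasCompactSupport f) (hgc : HasCompactSupport g) {e N : ℝ} (he : 0 < e) (hN : e < N) :
    ∃ n : ℕ, ENNReal.ofReal |form (trK e N) f g h k - form (KK e n) f g h k| ≤
      240 * (eLpNorm f 4 volume * eLpNorm g 4 volume * eLpNorm h 4 volume *
        eLpNorm k 4 volume) := by
  obtain ⟨n, b, hb, hbd⟩ := hE e N he hN
  refine ⟨n, ?_⟩
  have h1 : form (trK e N) f g h k - form (KK e n) f g h k =
      ∫ x : Fin 4 → ℝ, (Phi4 f g h k x * trK e N (∑ i, x i) -
        Phi4 f g h k x * KK e n (∑ i, x i)) := by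
    rw [integral_sub (integrable_trK hf hg hh hk hfc hgc he)
      (integrable_KK hK hf hg hh hk hfc hgc he n)]
    rfl
  rw [h1, ← Real.enorm_eq_ofReal_abs]
  refine (enorm_integral_le_lintegral_enorm _).trans ?_
  have h2 : ∀ x : Fin 4 → ℝ, ‖Phi4 f g h k x * trK e N (∑ i, x i) -
      Phi4 f g h k x * KK e n (∑ i, x i)‖ₑ ≤ ‖Phi4 f g h k x‖ₑ * wt e b (∑ i, x i) := by
    intro x
    rw [← mul_sub, enorm_mul]
    refine mul_le_mul_right ?_ _
    rw [Real.enorm_eq_ofReal_abs]
    exact ENNReal.ofReal_le_ofReal (hbd _)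
  refine (lintegral_mono h2).trans ?_
  have hm : Measurable fun x : Fin 4 → ℝ => ‖Phi4 f g h k x‖ₑ * wt e b (∑ i, x i) :=
    (phi4_cont hf hg hh hk).measurable.enorm.mul ((wt_meas e b).comp cont_sum.measurable)
  rw [lint4s hm]
  have h3 : ∀ s : ℝ, ∫⁻ x : ℝ, ∫⁻ y : ℝ, ∫⁻ z : ℝ, ‖Phi4 f g h k ![x, y, z, s - x - y - z]‖ₑ *
      wt e b (∑ i, (![x, y, z, s - x - y - z] : Fin 4 → ℝ) i) ≤
      (eLpNorm f 4 volume * eLpNorm g 4 volume * eLpNorm h 4 volume * eLpNorm k 4 volume) *
        wt e b s := by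
    intro s
    have hs : ∀ x y z : ℝ, ∑ i, (![x, y, z, s - x - y - z] : Fin 4 → ℝ) i = s := by
      intro x y z
      simp [Fin.sum_univ_four]
    have hwt : wt e b s ≠ ⊤ := ENNReal.ofReal_ne_top
    simp only [hs, lintegral_mul_const' _ _ hwt]
    exact mul_le_mul_left (hyp4 hH hf hg hh hk s) _
  refine (lintegral_mono h3).trans ?_
  rw [lintegral_const_mul _ (wt_meas e b), mul_comm (240 : ℝ≥0∞)]
  exact mul_le_mul_right (wt_int he hb) _

end Pool.Agent.Lib.SX53
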