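import Mathlib
import Pool.Agent.Lib.MP_5ef378_an.Main_31
import Pool.Agent.Lib.MP_5ef378_an.SX.Defs53

/-!
From the canonical pair of variables to every pair, and from compactly supported factors to
continuous factors.
-/

set_option autoImplicit false

namespace Pool.Agent.Lib.MP_5ef378_an.SH31

open MeasureTheory Filter Topology Real

/-- `F` is the product of a continuous function without the coordinate `i` and a continuous
function without the coordinate `j` -/
def SplitsPair (i j : Fin 4) (F : R4 → ℝ) : Prop :=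
  ∃ a b : R4 → ℝ, Continuous a ∧ Continuous b ∧ Ind i a ∧ Ind j b ∧ ∀ x, F x = a x * b x

/-- cut-off -/
noncomputable def cut (R t : ℝ) : ℝ := max 0 (min 1 (R + 1 - |t|))

theorem cut_cont (R : ℝ) : Continuous (cut R) := by
  unfold cut
  fun_prop

theorem cut_one {R t : ℝ} (h : |t| ≤ R) : cut R t = 1 := by
  unfold cut
  rw [min_eq_left (by linarith), max_eq_right (by norm_num)]

theorem cut_zero {R t : ℝ} (h : R + 1 ≤ |t|) : cut R t = 0 := by
  unfold cut
  rw [max_eq_left]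
  exact (min_le_right _ _).trans (by linarith)

/-- the cut-off of a function of two variables -/
noncomputable def cut2 (R : ℝ) (e : (Fin 2 → ℝ) → ℝ) (u : Fin 2 → ℝ) : ℝ :=
  e u * (cut R (u 0) * cut R (u 1))

theorem cut2_cont (R : ℝ) {e : (Fin 2 → ℝ) → ℝ} (he : Continuous e) : Continuous (cut2 R e) := by
  unfold cut2
  have := cut_cont R
  fun_prop

theorem cut2_supp (R : ℝ) (e : (Fin 2 → ℝ) → ℝ) : HasCompactSupport (cut2 R e) := by
  refine HasCompactSupport.intro (isCompact_univ_pi fun _ : Fin 2 =>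
    isCompact_Icc (a := -(R + 1)) (b := R + 1)) fun u hu => ?_
  unfold cut2
  simp only [Set.mem_univ_pi, not_forall] at hu
  obtain ⟨i, hi⟩ := hu
  have h1 : R + 1 ≤ |u i| := by
    by_contra h0
    exact hi (abs_le.1 (not_le.1 h0).le)
  fin_cases i
  · simp [cut_zero (show R + 1 ≤ |u 0| from h1)]
  · simp [cut_zero (show R + 1 ≤ |u 1| from h1)]

theorem bd3 {h : (Fin 3 → ℝ) → ℝ} (hh : HasCompactSupport h) :
    ∃ R : ℝ, ∀ y, h y ≠ 0 → ∀ i, |y i| ≤ R := by
  obtain ⟨c, hc⟩ := hh.isCompact.isBounded.subset_closedBall (0 : Fin 3 → ℝ)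
  refine ⟨c, fun y hy i => ?_⟩
  have h3 := hc (subset_tsupport _ hy)
  rw [mem_closedBall_zero_iff] at h3
  exact (norm_le_pi_norm y i).trans h3

theorem vec3' (y : Fin 3 → ℝ) : (![y 0, y 1, y 2] : Fin 3 → ℝ) = y := by
  ext l
  fin_cases l <;> rfl

/-- from continuous factors to compactly supported factors -/
theorem final_cont {C : ℝ} (H : ∀ (f g : (Fin 3 → ℝ) → ℝ) (e l p r : (Fin 2 → ℝ) → ℝ),
  Continuous f → HasCompactSupport f → Continuous g → HasCompactSupport g →
  Continuous e → HasCompactSupport e → Continuous l → HasCompactSupport l →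
  Continuous p → HasCompactSupport p → Continuous r → HasCompactSupport r →
  ∀ h k : (Fin 3 → ℝ) → ℝ,
  (h = fun x => e ![x 0, x 1] * l ![x 0, x 2]) → (k = fun x => r ![x 0, x 2] * p ![x 1, x 2]) →
  ∀ ε N : ℝ, 0 < ε → ε < N →
  |SX53.form (SX53.trK ε N) f g h k| ≤
    C * (eLpNorm f 4 volume).toReal * (eLpNorm g 4 volume).toReal *
      (eLpNorm h 4 volume).toReal * (eLpNorm k 4 volume).toReal)
    {f g : (Fin 3 → ℝ) → ℝ} {e l p r : (Fin 2 → ℝ) → ℝ}
    (hf : Continuous f) (hf' : HasCompactSupport f) (hg : Continuous g) (hg' : HasCompactSupport g)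
    (he : Continuous e) (hl : Continuous l) (hp : Continuous p) (hr : Continuous r)
    {h k : (Fin 3 → ℝ) → ℝ} (hh' : HasCompactSupport h) (hk' : HasCompactSupport k)
    (hh : h = fun x => e ![x 0, x 1] * l ![x 0, x 2])
    (hk : k = fun x => r ![x 0, x 2] * p ![x 1, x 2]) {ε N : ℝ} (hε : 0 < ε) (hN : ε < N) :
    |SX53.form (SX53.trK ε N) f g h k| ≤ C * N4 f * N4 g * N4 h * N4 k := by
  obtain ⟨R, hR⟩ := bd3 hh'
  obtain ⟨T, hT⟩ := bd3 hk'
  refine H f g (cut2 R e) (cut2 R l) (cut2 T p) (cut2 T r) hf hf' hg hg' (cut2_cont R he)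
    (cut2_supp R e) (cut2_cont R hl) (cut2_supp R l) (cut2_cont T hp) (cut2_supp T p)
    (cut2_cont T hr) (cut2_supp T r) h k ?_ ?_ ε N hε hN
  · ext y
    by_cases hy : h y = 0
    · rw [hy]
      rw [hh] at hy
      unfold cut2
      have : e ![y 0, y 1] * l ![y 0, y 2] = 0 := hy
      linear_combination (-(cut R (![y 0, y 1] 0) * cut R (![y 0, y 1] 1) *
        (cut R (![y 0, y 2] 0) * cut R (![y 0, y 2] 1)))) * this
    · have h1 := hR y hy
      unfold cut2
      simp only [Matrix.cons_val_zero, Matrix.cons_val_one, Matrix.cons_val_fin_one]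
      rw [cut_one (h1 0), cut_one (h1 1), cut_one (h1 2), hh]
      ring
  · ext y
    by_cases hy : k y = 0
    · rw [hy]
      rw [hk] at hy
      unfold cut2
      have : r ![y 0, y 2] * p ![y 1, y 2] = 0 := hy
      linear_combination (-(cut T (![y 0, y 2] 0) * cut T (![y 0, y 2] 1) *
        (cut T (![y 1, y 2] 0) * cut T (![y 1, y 2] 1)))) * this
    · have h1 := hT y hy
      unfold cut2
      simp only [Matrix.cons_val_zero, Matrix.cons_val_one, Matrix.cons_val_fin_one]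
      rw [cut_one (h1 0), cut_one (h1 1), cut_one (h1 2), hk]
      ring

/-- the bound for a family of four functions, canonical pair `(0, 3)` -/
theorem fin_fam {C : ℝ} (H : ∀ (f g : (Fin 3 → ℝ) → ℝ) (e l p r : (Fin 2 → ℝ) → ℝ),
  Continuous f → HasCompactSupport f → Continuous g → HasCompactSupport g →
  Continuous e → HasCompactSupport e → Continuous l → HasCompactSupport l →
  Continuous p → HasCompactSupport p → Continuous r → HasCompactSupport r →
  ∀ h k : (Fin 3 → ℝ) → ℝ,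
  (h = fun x => e ![x 0, x 1] * l ![x 0, x 2]) → (k = fun x => r ![x 0, x 2] * p ![x 1, x 2]) →
  ∀ ε N : ℝ, 0 < ε → ε < N →
  |SX53.form (SX53.trK ε N) f g h k| ≤
    C * (eLpNorm f 4 volume).toReal * (eLpNorm g 4 volume).toReal *
      (eLpNorm h 4 volume).toReal * (eLpNorm k 4 volume).toReal)
    {G : Fin 4 → R4 → ℝ} (hG : ∀ i, Tst i (G i)) (s1 : SplitsPair 0 3 (G 1))
    (s2 : SplitsPair 0 3 (G 2)) {ε N : ℝ} (hε : 0 < ε) (hN : ε < N) :
    |∫ x : R4, trK ε N (∑ i, x i) * ∏ i, G i x| ≤ C * √(√(∏ i, n4 i (G i))) := by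
  obtain ⟨a1, b1, ca1, cb1, ia1, ib1, e1⟩ := s1
  obtain ⟨a2, b2, ca2, cb2, ia2, ib2, e2⟩ := s2
  set f : (Fin 3 → ℝ) → ℝ := fun y => G 3 ![y 0, y 1, y 2, 0] with hfd
  set g : (Fin 3 → ℝ) → ℝ := fun y => G 0 ![0, y 0, y 1, y 2] with hgd
  set h : (Fin 3 → ℝ) → ℝ := fun y => G 1 ![y 2, 0, y 0, y 1] with hhd
  set k : (Fin 3 → ℝ) → ℝ := fun y => G 2 ![y 1, y 2, 0, y 0] with hkd
  have c3 : ∀ (F : R4 → ℝ) (hF : Continuous F) (v : (Fin 3 → ℝ) → R4) (_ : ∀ i, Continuous
      (fun y => v y i)), Continuous (fun y => F (v y)) := by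
    intro F hF v hv
    exact hF.comp (continuous_pi hv)
  have hf : Continuous f := c3 _ (hG 3).cont _ (by intro i; fin_cases i <;> simp <;> fun_prop)
  have hg : Continuous g := c3 _ (hG 0).cont _ (by intro i; fin_cases i <;> simp <;> fun_prop)
  have hh : Continuous h := c3 _ (hG 1).cont _ (by intro i; fin_cases i <;> simp <;> fun_prop)
  have hk : Continuous k := c3 _ (hG 2).cont _ (by intro i; fin_cases i <;> simp <;> fun_prop)
  have supp : ∀ (q : (Fin 3 → ℝ) → ℝ) (c : ℝ), (∀ y, q y ≠ 0 → ∀ i, |y i| ≤ c) →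
      HasCompactSupport q := by
    intro q c hq
    refine HasCompactSupport.intro (isCompact_univ_pi fun _ : Fin 3 =>
      isCompact_Icc (a := -c) (b := c)) fun y hy => ?_
    by_contra h0
    exact hy fun i _ => abs_le.1 (hq y h0 i)
  have hf' : HasCompactSupport f := by
    obtain ⟨c, hc⟩ := (hG 3).bdd
    refine supp f c fun y hy i => ?_
    fin_cases i
    · exact hc _ hy 0 (by decide)
    · exact hc _ hy 1 (by decide)
    · exact hc _ hy 2 (by decide)
  have hg' : HasCompactSupport g := by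
    obtain ⟨c, hc⟩ := (hG 0).bdd
    refine supp g c fun y hy i => ?_
    fin_cases i
    · exact hc _ hy 1 (by decide)
    · exact hc _ hy 2 (by decide)
    · exact hc _ hy 3 (by decide)
  have hh' : HasCompactSupport h := by
    obtain ⟨c, hc⟩ := (hG 1).bdd
    refine supp h c fun y hy i => ?_
    fin_cases i
    · exact hc _ hy 2 (by decide)
    · exact hc _ hy 3 (by decide)
    · exact hc _ hy 0 (by decide)
  have hk' : HasCompactSupport k := by
    obtain ⟨c, hc⟩ := (hG 2).bdd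
    refine supp k c fun y hy i => ?_
    fin_cases i
    · exact hc _ hy 3 (by decide)
    · exact hc _ hy 0 (by decide)
    · exact hc _ hy 1 (by decide)
  have c2 : ∀ (F : R4 → ℝ) (hF : Continuous F) (v : (Fin 2 → ℝ) → R4) (_ : ∀ i, Continuous
      (fun y => v y i)), Continuous (fun y => F (v y)) := by
    intro F hF v hv
    exact hF.comp (continuous_pi hv)
  have key := final_cont H (f := f) (g := g)
    (e := fun u => a1 ![0, 0, u 0, u 1]) (l := fun u => b1 ![u 1, 0, u 0, 0])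
    (r := fun u => a2 ![0, u 1, 0, u 0]) (p := fun u => b2 ![u 0, u 1, 0, 0])
    hf hf' hg hg'
    (c2 _ ca1 _ (by intro i; fin_cases i <;> simp <;> fun_prop))
    (c2 _ cb1 _ (by intro i; fin_cases i <;> simp <;> fun_prop))
    (c2 _ cb2 _ (by intro i; fin_cases i <;> simp <;> fun_prop))
    (c2 _ ca2 _ (by intro i; fin_cases i <;> simp <;> fun_prop))
    (h := h) (k := k) hh' hk'
    (by
      ext y
      change G 1 ![y 2, 0, y 0, y 1] = a1 ![0, 0, y 0, y 1] * b1 ![y 2, 0, y 0, 0]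
      rw [e1]
      congr 1
      · refine ia1 _ _ fun j hj => ?_
        fin_cases j <;> simp at hj ⊢
      · refine ib1 _ _ fun j hj => ?_
        fin_cases j <;> simp at hj ⊢)
    (by
      ext y
      change G 2 ![y 1, y 2, 0, y 0] = a2 ![0, y 2, 0, y 0] * b2 ![y 1, y 2, 0, 0]
      rw [e2]
      congr 1
      · refine ia2 _ _ fun j hj => ?_
        fin_cases j <;> simp at hj ⊢
      · refine ib2 _ _ fun j hj => ?_
        fin_cases j <;> simp at hj ⊢) hε hN
  have hfam : ∀ i, fam f g h k i = G i := by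
    intro i
    fin_cases i
    · ext x
      refine (hG 0).ind _ _ fun j hj => ?_
      fin_cases j <;> simp at hj ⊢
    · ext x
      refine (hG 1).ind _ _ fun j hj => ?_
      fin_cases j <;> simp at hj ⊢
    · ext x
      refine (hG 2).ind _ _ fun j hj => ?_
      fin_cases j <;> simp at hj ⊢
    · ext x
      refine (hG 3).ind _ _ fun j hj => ?_
      fin_cases j <;> simp at hj ⊢
  have hform : SX53.form (SX53.trK ε N) f g h k = ∫ x : R4, trK ε N (∑ i, x i) * ∏ i, G i x := by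
    unfold SX53.form
    refine integral_congr_ae (Eventually.of_forall fun x => ?_)
    simp only [← hfam]
    rw [Fin.prod_univ_four]
    change f ![x 0, x 1, x 2] * g ![x 1, x 2, x 3] * h ![x 2, x 3, x 0] * k ![x 3, x 0, x 1] *
      trK ε N (∑ i, x i) = trK ε N (∑ i, x i) * (g ![x 1, x 2, x 3] * h ![x 2, x 3, x 0] *
        k ![x 3, x 0, x 1] * f ![x 0, x 1, x 2])
    ring
  have e0' : n4 0 (G 0) = N4 g ^ 4 := by rw [N4_pow hg hg', ← n4_g, ← hfam]; rfl
  have e1' : n4 1 (G 1) = N4 h ^ 4 := by rw [N4_pow hh hh', ← n4_h, ← hfam]; rfl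
  have e2' : n4 2 (G 2) = N4 k ^ 4 := by rw [N4_pow hk hk', ← n4_k, ← hfam]; rfl
  have e3' : n4 3 (G 3) = N4 f ^ 4 := by rw [N4_pow hf hf', ← n4_f, ← hfam]; rfl
  rw [← hform]
  refine key.trans (le_of_eq ?_)
  rw [Fin.prod_univ_four, e0', e1', e2', e3', sqrt_prod (N4_nonneg f) (N4_nonneg g) (N4_nonneg h)
    (N4_nonneg k)]
  ring

theorem perm_pair : ∀ i j : Fin 4, i ≠ j → ∃ a b c d : Fin 4,
    (Equiv.swap a b * Equiv.swap c d) 0 = i ∧ (Equiv.swap a b * Equiv.swap c d) 3 = j := by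
  decide

theorem rel_pair (σ : Equiv.Perm (Fin 4)) {F : Fin 4 → R4 → ℝ} {i j m : Fin 4}
    (h : SplitsPair (σ i) (σ j) (F (σ m))) : SplitsPair i j (rel σ F m) := by
  obtain ⟨a, b, ca, cb, ia, ib, e⟩ := h
  refine ⟨fun x => a (fun l => x (σ.symm l)), fun x => b (fun l => x (σ.symm l)),
    by fun_prop, by fun_prop, fun x y hxy => ia _ _ fun l hl => hxy _ fun h0 => hl ?_,
    fun x y hxy => ib _ _ fun l hl => hxy _ fun h0 => hl ?_, fun x => e _⟩
  · rw [← h0]; simp
  · rw [← h0]; simp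

/-- every pair of variables -/
theorem fin_pair {C : ℝ} (H : ∀ (f g : (Fin 3 → ℝ) → ℝ) (e l p r : (Fin 2 → ℝ) → ℝ),
  Continuous f → HasCompactSupport f → Continuous g → HasCompactSupport g →
  Continuous e → HasCompactSupport e → Continuous l → HasCompactSupport l →
  Continuous p → HasCompactSupport p → Continuous r → HasCompactSupport r →
  ∀ h k : (Fin 3 → ℝ) → ℝ,
  (h = fun x => e ![x 0, x 1] * l ![x 0, x 2]) → (k = fun x => r ![x 0, x 2] * p ![x 1, x 2]) →
  ∀ ε N : ℝ, 0 < ε → ε < N →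
  |SX53.form (SX53.trK ε N) f g h k| ≤
    C * (eLpNorm f 4 volume).toReal * (eLpNorm g 4 volume).toReal *
      (eLpNorm h 4 volume).toReal * (eLpNorm k 4 volume).toReal)
    {G : Fin 4 → R4 → ℝ} (hG : ∀ i, Tst i (G i)) {i j : Fin 4} (hij : i ≠ j)
    (hs : ∀ m, m ≠ i → m ≠ j → SplitsPair i j (G m)) {ε N : ℝ} (hε : 0 < ε) (hN : ε < N) :
    |∫ x : R4, trK ε N (∑ i, x i) * ∏ i, G i x| ≤ C * √(√(∏ i, n4 i (G i))) := by
  obtain ⟨a, b, c, d, hi, hj⟩ := perm_pair i j hij
  set σ := Equiv.swap a b * Equiv.swap c d with hσ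
  rw [← rel_form σ G (trK ε N)]
  have hn : ∏ i, n4 i (G i) = ∏ i, n4 i (rel σ G i) := by
    rw [← Equiv.prod_comp σ]
    refine Finset.prod_congr rfl fun i _ => ?_
    rw [rel_n4]
  rw [hn]
  have hm : ∀ m : Fin 4, m ≠ 0 → m ≠ 3 → SplitsPair 0 3 (rel σ G m) := by
    intro m m0 m3
    refine rel_pair σ ?_
    rw [hi, hj]
    exact hs _ (fun h => m0 (σ.injective (by rw [h, hi]))) (fun h => m3 (σ.injective (by rw [h, hj])))
  exact fin_fam H (rel_tst σ hG) (hm 1 (by decide) (by decide)) (hm 2 (by decide) (by decide)) hε hN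

/-- the bound for `f, g, h, k`, every pair of variables -/
theorem main2 (HF : SX53.StFinal) : ∃ C : ℝ, ∀ (f g h k : (Fin 3 → ℝ) → ℝ),
    Continuous f → HasCompactSupport f → Continuous g → HasCompactSupport g →
    Continuous h → HasCompactSupport h → Continuous k → HasCompactSupport k →
    ∀ i j : Fin 4, i ≠ j → (∀ m, m ≠ i → m ≠ j → SplitsPair i j (fam f g h k m)) →
    ∀ ε N : ℝ, 0 < ε → ε < N →
    |form f g h k ε N| ≤ C * N4 f * N4 g * N4 h * N4 k := by
  obtain ⟨C, H⟩ := HF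
  refine ⟨C, fun f g h k hf hf' hg hg' hh hh' hk hk' i j hij hs ε N hε hN => ?_⟩
  rw [form_eq]
  have h3 := fin_pair H (fam_tst hf hf' hg hg' hh hh' hk hk') hij hs hε hN
  refine h3.trans (le_of_eq ?_)
  have e0 : n4 0 (fam f g h k 0) = N4 g ^ 4 := by rw [N4_pow hg hg', ← n4_g]; rfl
  have e1 : n4 1 (fam f g h k 1) = N4 h ^ 4 := by rw [N4_pow hh hh', ← n4_h]; rfl
  have e2 : n4 2 (fam f g h k 2) = N4 k ^ 4 := by rw [N4_pow hk hk', ← n4_k]; rfl
  have e3 : n4 3 (fam f g h k 3) = N4 f ^ 4 := by rw [N4_pow hf hf', ← n4_f]; rfl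
  rw [Fin.prod_univ_four, e0, e1, e2, e3, sqrt_prod (N4_nonneg f) (N4_nonneg g) (N4_nonneg h)
    (N4_nonneg k)]
  ring

end Pool.Agent.Lib.MP_5ef378_an.SH31
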