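import Pool.Agent.Lib.MP_5ef378_an.SX.Defs53

/-!
The Hardy-Littlewood maximal theorem on the line for the uncentered averages, exponent `4/3`.
-/

set_option autoImplicit false

open MeasureTheory Set Metric Filter Topology
open scoped ENNReal NNReal

namespace Pool.Agent.Lib.SX53.HL47

/-- powers of two -/
noncomputable def b (s : ℝ) : ℝ≥0∞ := (2 : ℝ≥0∞) ^ s

theorem b_ne_zero (s : ℝ) : b s ≠ 0 := by
  unfold b; exact (ENNReal.rpow_pos (by norm_num) (by norm_num)).ne'

theorem b_ne_top (s : ℝ) : b s ≠ ⊤ := by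
  unfold b; exact ENNReal.rpow_ne_top_of_ne_zero (by norm_num) (by norm_num)

theorem b_add (s t : ℝ) : b (s + t) = b s * b t := by
  unfold b; exact ENNReal.rpow_add _ _ (by norm_num) (by norm_num)

theorem b_zpow (n : ℤ) : b n = (2 : ℝ≥0∞) ^ n := by
  unfold b; exact ENNReal.rpow_intCast _ _

theorem b_mul (s t : ℝ) : b (s * t) = b s ^ t := by
  unfold b; exact ENNReal.rpow_mul _ _ _

theorem b_mono {s t : ℝ} (h : s ≤ t) : b s ≤ b t := by
  unfold b; exact ENNReal.rpow_le_rpow_of_exponent_le (by norm_num) h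

theorem b_lt {s t : ℝ} (h : b s < b t) : s < t := by
  by_contra hc
  push Not at hc
  exact absurd (b_mono hc) (not_le.mpr h)

open Classical in
/-- discrete layers, upper bound of a power -/
theorem layer_le (F : ℝ≥0∞) {p : ℝ} (hp : 1 < p) :
    F ^ p ≤ ∑' k : ℤ, if b k < F then b ((k + 1) * p) else 0 := by
  have hp0 : 0 < p := by linarith
  rcases eq_or_ne F 0 with rfl | h0
  · rw [ENNReal.zero_rpow_of_pos hp0]; exact zero_le
  rcases eq_or_ne F ⊤ with rfl | h1
  · have hle : ∀ n : ℕ, (n : ℝ≥0∞) ≤ ∑' k : ℤ, if b k < (⊤ : ℝ≥0∞) then b ((k + 1) * p) else 0 := by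
      intro n
      refine le_trans ?_ (ENNReal.le_tsum (n : ℤ))
      rw [if_pos (lt_top_iff_ne_top.mpr (b_ne_top _))]
      have h2 : b (n : ℝ) ≤ b ((((n : ℤ) : ℝ) + 1) * p) := by
        refine b_mono ?_
        push_cast
        have : (0 : ℝ) ≤ n := Nat.cast_nonneg n
        nlinarith
      refine le_trans ?_ h2
      have h3 : b (n : ℝ) = (2 : ℝ≥0∞) ^ n := by unfold b; exact ENNReal.rpow_natCast _ _
      rw [h3]
      exact_mod_cast (Nat.lt_two_pow_self (n := n)).le
    have : (∑' k : ℤ, if b k < (⊤ : ℝ≥0∞) then b ((k + 1) * p) else 0) = ⊤ := by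
      by_contra hc
      obtain ⟨n, hn⟩ := ENNReal.exists_nat_gt hc
      exact absurd (hle n) (not_le.mpr hn)
    rw [this]; exact le_top
  · obtain ⟨n, hn1, hn2⟩ := ENNReal.exists_mem_Ioc_zpow h0 h1 (y := 2) (by norm_num) (by norm_num)
    refine le_trans ?_ (ENNReal.le_tsum n)
    rw [if_pos (by rw [b_zpow]; exact hn1), b_mul]
    refine ENNReal.rpow_le_rpow ?_ hp0.le
    have : b ((n : ℝ) + 1) = b ((n + 1 : ℤ) : ℝ) := by push_cast; rfl
    rw [this, b_zpow]
    exact hn2

open Classical in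
/-- discrete layers, sum of the lower layers -/
theorem layer_sum {q : ℝ} (hq : 0 < q) : ∃ C : ℝ≥0, ∀ t : ℝ≥0∞,
    (∑' k : ℤ, if b ((k : ℝ) - 8) < t then b (k * q) else 0) ≤ C * t ^ q := by
  -- the geometric series
  have hr : b (-q) < 1 := by
    have h1 : b (-q) = (2 : ℝ≥0∞) ^ (-q) := rfl
    rw [h1]
    exact ENNReal.rpow_lt_one_of_one_lt_of_neg (by norm_num) (by linarith)
  have hgeo : (1 - b (-q))⁻¹ ≠ ⊤ := by
    rw [ENNReal.inv_ne_top]
    exact (tsub_pos_of_lt hr).ne'
  have hCne : b (8 * q) * (1 - b (-q))⁻¹ ≠ ⊤ := ENNReal.mul_ne_top (b_ne_top _) hgeo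
  refine ⟨(b (8 * q) * (1 - b (-q))⁻¹).toNNReal, fun t => ?_⟩
  rw [ENNReal.coe_toNNReal hCne]
  have hC0 : b (8 * q) * (1 - b (-q))⁻¹ ≠ 0 := by
    refine mul_ne_zero (b_ne_zero _) ?_
    rw [ENNReal.inv_ne_zero]
    exact ne_top_of_le_ne_top ENNReal.one_ne_top tsub_le_self
  rcases eq_or_ne t 0 with rfl | h0
  · simp
  rcases eq_or_ne t ⊤ with rfl | h1
  · rw [ENNReal.top_rpow_of_pos hq, ENNReal.mul_top hC0]; exact le_top
  obtain ⟨K, hK1, hK2⟩ := ENNReal.exists_mem_Ioc_zpow h0 h1 (y := 2) (by norm_num) (by norm_num)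
  have hsupp : ∀ k : ℤ, b ((k : ℝ) - 8) < t → k ≤ K + 8 := by
    intro k hk
    have h2 := hk.trans_le hK2
    rw [← b_zpow] at h2
    have h3 := b_lt h2
    push_cast at h3
    have h4 : (k : ℝ) < ((K + 9 : ℤ) : ℝ) := by push_cast; linarith
    have h5 : k < K + 9 := by exact_mod_cast h4
    omega
  have hinj : Function.Injective (fun j : ℕ => K + 8 - (j : ℤ)) := by
    intro i j hij
    simp only at hij
    omega
  have hts := hinj.tsum_eq (f := fun k : ℤ => if b ((k : ℝ) - 8) < t then b (k * q) else 0) (by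
    intro k hk
    rw [Function.mem_support] at hk
    have h2 : b ((k : ℝ) - 8) < t := by
      by_contra hc
      exact hk (if_neg hc)
    have h3 := hsupp k h2
    exact ⟨(K + 8 - k).toNat, by simp only; rw [Int.toNat_of_nonneg (by omega)]; ring⟩)
  rw [← hts]
  calc (∑' j : ℕ, if b (((K + 8 - (j : ℤ) : ℤ) : ℝ) - 8) < t then b (((K + 8 - (j : ℤ) : ℤ) : ℝ) * q) else 0)
      ≤ ∑' j : ℕ, b (8 * q) * (b K) ^ q * (b (-q)) ^ j := by
        refine ENNReal.tsum_le_tsum fun j => ?_
        split_ifs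
        · have e : (((K + 8 - (j : ℤ) : ℤ) : ℝ)) * q = 8 * q + (K * q + (-q) * j) := by
            push_cast; ring
          rw [e, b_add, b_add, b_mul (K : ℝ) q, b_mul (-q) j, ENNReal.rpow_natCast, mul_assoc]
        · exact zero_le
    _ = b (8 * q) * (b K) ^ q * (1 - b (-q))⁻¹ := by
        rw [ENNReal.tsum_mul_left, ENNReal.tsum_geometric]
    _ ≤ b (8 * q) * t ^ q * (1 - b (-q))⁻¹ := by
        refine mul_le_mul_left (mul_le_mul_right (ENNReal.rpow_le_rpow ?_ hq.le) _) _
        rw [b_zpow]; exact hK1.le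
    _ = b (8 * q) * (1 - b (-q))⁻¹ * t ^ q := by ring


theorem isOpen_MM (φ : ℝ → ℝ≥0∞) (c : ℝ≥0∞) : IsOpen {t | c < MM φ t} := by
  have h : {t | c < MM φ t} = ⋃ p ∈ {p : ℝ × ℝ | c < (ENNReal.ofReal (p.2 - p.1))⁻¹ *
      ∫⁻ x in Ioo p.1 p.2, φ x}, Ioo p.1 p.2 := by
    ext t
    simp only [mem_ofPred_eq, mem_iUnion, mem_Ioo, exists_prop, MM, lt_iSup_iff, Prod.exists]
    constructor
    · rintro ⟨u, v, h1, h2⟩
      exact ⟨u, v, h2, h1⟩
    · rintro ⟨u, v, h1, h2⟩
      exact ⟨u, v, h2, h1⟩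
  rw [h]
  exact isOpen_biUnion fun p _ => isOpen_Ioo

/-- weak type (1,1) -/
theorem weak {ψ : ℝ → ℝ≥0∞} {lam : ℝ≥0∞} (hl0 : lam ≠ 0) (hl1 : lam ≠ ⊤) :
    volume {t : ℝ | lam < MM ψ t} * lam ≤ 5 * ∫⁻ y, ψ y := by
  rcases eq_or_ne (∫⁻ y, ψ y) ⊤ with hI | hI
  · rw [hI, ENNReal.mul_top (by norm_num)]; exact le_top
  set T : Set (ℝ × ℝ) := {p | p.1 < p.2 ∧ lam * ENNReal.ofReal (p.2 - p.1) <
    ∫⁻ x in Ioo p.1 p.2, ψ x} with hT
  set R : ℝ := ((∫⁻ y, ψ y) / lam).toReal with hR
  have hfin : (∫⁻ y, ψ y) / lam ≠ ⊤ := ENNReal.div_ne_top hI hl0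
  have hr : ∀ p ∈ T, (p.2 - p.1) / 2 ≤ R := by
    intro p hp
    have h1 : ENNReal.ofReal (p.2 - p.1) < (∫⁻ y, ψ y) / lam := by
      rw [ENNReal.lt_div_iff_mul_lt (Or.inl hl0) (Or.inl hl1), mul_comm]
      exact hp.2.trans_le (setLIntegral_le_lintegral _ _)
    rw [ENNReal.ofReal_lt_iff_lt_toReal (by linarith [hp.1]) hfin] at h1
    have := hp.1
    linarith
  obtain ⟨u, hu, hdisj, hcov⟩ := Vitali.exists_disjoint_subfamily_covering_enlargement_closedBall
    T (fun p => (p.1 + p.2) / 2) (fun p => (p.2 - p.1) / 2) R hr 5 (by norm_num)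
  have hcount : u.Countable := by
    refine hdisj.countable_of_nonempty_interior fun p hp => ?_
    refine ⟨(p.1 + p.2) / 2, ?_⟩
    refine ball_subset_interior_closedBall (mem_ball_self ?_)
    have := (hu hp).1
    linarith
  have hball : ∀ p : ℝ × ℝ, closedBall ((p.1 + p.2) / 2) ((p.2 - p.1) / 2) = Icc p.1 p.2 := by
    intro p
    rw [Real.closedBall_eq_Icc]
    congr 1 <;> ring
  have hsub : {t : ℝ | lam < MM ψ t} ⊆
      ⋃ p ∈ u, closedBall ((p.1 + p.2) / 2) (5 * ((p.2 - p.1) / 2)) := by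
    intro t ht
    simp only [mem_ofPred_eq, MM, lt_iSup_iff] at ht
    obtain ⟨a, c, h1, h2⟩ := ht
    have hac : a < c := h1.1.trans h1.2
    have hpos : ENNReal.ofReal (c - a) ≠ 0 := by
      rw [Ne, ENNReal.ofReal_eq_zero]
      linarith
    have h3 : (a, c) ∈ T := by
      refine ⟨hac, ?_⟩
      show lam * ENNReal.ofReal (c - a) < ∫⁻ x in Ioo a c, ψ x
      rw [mul_comm (ENNReal.ofReal (c - a))⁻¹, ← div_eq_mul_inv] at h2
      exact (ENNReal.lt_div_iff_mul_lt (Or.inl hpos) (Or.inl ENNReal.ofReal_ne_top)).1 h2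
    obtain ⟨q, hq, hq2⟩ := hcov _ h3
    refine mem_biUnion hq (hq2 ?_)
    have := hball (a, c)
    rw [this]
    exact ⟨h1.1.le, h1.2.le⟩
  have h1 : volume {t : ℝ | lam < MM ψ t} ≤
      ∑' p : u, 5 * ENNReal.ofReal ((p : ℝ × ℝ).2 - (p : ℝ × ℝ).1) := by
    refine (measure_mono hsub).trans ((measure_biUnion_le _ hcount _).trans ?_)
    refine ENNReal.tsum_le_tsum fun p => ?_
    rw [Real.volume_closedBall, ← ENNReal.ofReal_ofNat, ← ENNReal.ofReal_mul (by norm_num)]
    refine ENNReal.ofReal_le_ofReal (le_of_eq ?_)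
    ring
  calc volume {t : ℝ | lam < MM ψ t} * lam
      ≤ (∑' p : u, 5 * ENNReal.ofReal ((p : ℝ × ℝ).2 - (p : ℝ × ℝ).1)) * lam :=
        mul_le_mul_left h1 _
    _ = ∑' p : u, 5 * (lam * ENNReal.ofReal ((p : ℝ × ℝ).2 - (p : ℝ × ℝ).1)) := by
        rw [← ENNReal.tsum_mul_right]
        exact tsum_congr fun y => by ring
    _ ≤ ∑' p : u, 5 * ∫⁻ z in closedBall (((p : ℝ × ℝ).1 + (p : ℝ × ℝ).2) / 2)
          (((p : ℝ × ℝ).2 - (p : ℝ × ℝ).1) / 2), ψ z := by
        refine ENNReal.tsum_le_tsum fun p => mul_le_mul_right ((hu p.2).2.le.trans ?_) _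
        rw [hball]
        exact lintegral_mono_set Ioo_subset_Icc_self
    _ = 5 * ∫⁻ z in ⋃ p ∈ u, closedBall ((p.1 + p.2) / 2) ((p.2 - p.1) / 2), ψ z := by
        rw [ENNReal.tsum_mul_left, lintegral_biUnion hcount (fun y _ => measurableSet_closedBall) hdisj]
    _ ≤ 5 * ∫⁻ z, ψ z := mul_le_mul_right (setLIntegral_le_lintegral _ _) _


open Classical in
theorem hl_gen {p : ℝ} (hp : 1 < p) : ∃ C : ℝ≥0∞, C ≠ ⊤ ∧ ∀ φ : ℝ → ℝ≥0∞, Measurable φ →
    ∫⁻ t, MM φ t ^ p ≤ C * ∫⁻ t, φ t ^ p := by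
  have hp0 : 0 < p := by linarith
  have hq : 0 < p - 1 := by linarith
  obtain ⟨C0, hC0⟩ := layer_sum hq
  refine ⟨10 * b p * C0, ENNReal.mul_ne_top (ENNReal.mul_ne_top (by norm_num) (b_ne_top _))
    ENNReal.coe_ne_top, fun φ hφ => ?_⟩
  set φk : ℤ → ℝ → ℝ≥0∞ := fun k y => if b ((k : ℝ) - 8) < φ y then φ y else 0 with hφk
  have hφkm : ∀ k, Measurable (φk k) := fun k =>
    Measurable.ite (measurableSet_lt measurable_const hφ) hφ measurable_const
  have hb1 : ∀ s : ℝ, b (s + 1) = 2 * b s := fun s => by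
    rw [b_add, mul_comm]
    congr 1
    unfold b
    exact ENNReal.rpow_one _
  have hms : ∀ k : ℤ, MeasurableSet {x | b k < MM φ x} := fun k =>
    (isOpen_MM φ (b k)).measurableSet
  have hSk : ∀ k : ℤ, volume {x | b k < MM φ x} * b ((k : ℝ) - 1) ≤ 5 * ∫⁻ y, φk k y := by
    intro k
    refine le_trans (mul_le_mul_left (measure_mono ?_) _)
      (weak (ψ := φk k) (b_ne_zero _) (b_ne_top _))
    intro x hx
    by_contra hc
    simp only [mem_ofPred_eq, not_lt] at hc
    have hle : MM φ x ≤ b k := by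
      unfold MM
      refine iSup_le fun u => iSup_le fun v => iSup_le fun huv => ?_
      have huv' : u < v := huv.1.trans huv.2
      have hpos : ENNReal.ofReal (v - u) ≠ 0 := by
        rw [Ne, ENNReal.ofReal_eq_zero]
        linarith
      have h1 : ∀ y, φ y ≤ φk k y + b ((k : ℝ) - 8) := by
        intro y
        simp only [hφk]
        split_ifs with h
        · exact le_self_add
        · rw [zero_add]; exact not_lt.mp h
      have h2 : (ENNReal.ofReal (v - u))⁻¹ * ∫⁻ x in Ioo u v, φk k x ≤ b ((k : ℝ) - 1) := by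
        refine le_trans ?_ hc
        unfold MM
        exact le_iSup_of_le u (le_iSup_of_le v (le_iSup_of_le huv le_rfl))
      calc (ENNReal.ofReal (v - u))⁻¹ * ∫⁻ y in Ioo u v, φ y
          ≤ (ENNReal.ofReal (v - u))⁻¹ * ∫⁻ y in Ioo u v, (φk k y + b ((k : ℝ) - 8)) :=
            mul_le_mul_right (lintegral_mono h1) _
        _ = (ENNReal.ofReal (v - u))⁻¹ * (∫⁻ y in Ioo u v, φk k y) + b ((k : ℝ) - 8) := by
            rw [lintegral_add_left (hφkm k), setLIntegral_const, Real.volume_Ioo, mul_add,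
              mul_comm (b ((k : ℝ) - 8)), ← mul_assoc, ENNReal.inv_mul_cancel hpos
                ENNReal.ofReal_ne_top, one_mul]
        _ ≤ b ((k : ℝ) - 1) + b ((k : ℝ) - 1) :=
            add_le_add h2 (b_mono (by linarith))
        _ = b k := by
            rw [← two_mul, ← hb1]
            congr 1
            ring
    exact absurd hx (not_lt.mpr hle)
  calc ∫⁻ x, MM φ x ^ p
      ≤ ∫⁻ x, ∑' k : ℤ, {x | b k < MM φ x}.indicator (fun _ => b ((k + 1) * p)) x := by
        refine lintegral_mono fun x => ?_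
        refine (layer_le (MM φ x) hp).trans (le_of_eq (tsum_congr fun k => ?_))
        rw [indicator_apply]
        rfl
    _ = ∑' k : ℤ, b ((k + 1) * p) * volume {x | b k < MM φ x} := by
        rw [lintegral_tsum]
        · refine tsum_congr fun k => ?_
          rw [lintegral_indicator (hms k), setLIntegral_const]
        · exact fun k => (measurable_const.indicator (hms k)).aemeasurable
    _ ≤ ∑' k : ℤ, 10 * b p * (b (k * (p - 1)) * ∫⁻ y, φk k y) := by
        refine ENNReal.tsum_le_tsum fun k => ?_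
        have h1 : volume {x | b k < MM φ x} ≤ b (1 - k) * (5 * ∫⁻ y, φk k y) := by
          have h2 : volume {x | b k < MM φ x} =
              b (1 - k) * (volume {x | b k < MM φ x} * b ((k : ℝ) - 1)) := by
            rw [mul_comm (volume _), ← mul_assoc, ← b_add]
            have : (1 : ℝ) - k + (k - 1) = 0 := by ring
            rw [this]
            unfold b; simp
          rw [h2]
          exact mul_le_mul_right (hSk k) _
        refine (mul_le_mul_right h1 _).trans (le_of_eq ?_)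
        have e : b (((k : ℝ) + 1) * p) * b (1 - k) = 2 * b p * b (k * (p - 1)) := by
          rw [← b_add]
          have : ((k : ℝ) + 1) * p + (1 - k) = (p + k * (p - 1)) + 1 := by ring
          rw [this, hb1, b_add]
          ring
        rw [← mul_assoc, e]
        ring
    _ = 10 * b p * ∫⁻ y, φ y * ∑' k : ℤ,
          (if b ((k : ℝ) - 8) < φ y then b (k * (p - 1)) else 0) := by
        rw [ENNReal.tsum_mul_left]
        congr 1
        rw [← funext_iff.mpr fun (y : ℝ) => ENNReal.tsum_mul_left (a := φ y)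
          (f := fun k : ℤ => if b ((k : ℝ) - 8) < φ y then b (k * (p - 1)) else 0)]
        rw [lintegral_tsum]
        · refine tsum_congr fun k => ?_
          rw [← lintegral_const_mul _ (hφkm k)]
          refine lintegral_congr fun y => ?_
          simp only [hφk]
          split_ifs
          · ring
          · simp
        · refine fun k => (hφ.mul (Measurable.ite (measurableSet_lt measurable_const hφ)
            measurable_const measurable_const)).aemeasurable
    _ ≤ 10 * b p * ∫⁻ y, φ y * (C0 * φ y ^ (p - 1)) := by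
        refine mul_le_mul_right (lintegral_mono fun y => mul_le_mul_right (hC0 (φ y)) _) _
    _ = 10 * b p * C0 * ∫⁻ y, φ y ^ p := by
        have e1 : ∀ y, φ y * (C0 * φ y ^ (p - 1)) = C0 * φ y ^ p := by
          intro y
          have : φ y ^ p = φ y * φ y ^ (p - 1) := by
            have h2 : p = 1 + (p - 1) := by ring
            conv_lhs => rw [h2]
            rw [ENNReal.rpow_add_of_nonneg _ _ zero_le_one hq.le, ENNReal.rpow_one]
          rw [this]; ring
        simp only [e1]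
        rw [lintegral_const_mul _ (hφ.pow_const _)]
        rw [← mul_assoc]

theorem hl47 : StHL := hl_gen (by norm_num)

end Pool.Agent.Lib.SX53.HL47
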