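import Pool.Agent.Lib.MP_5ef378_an.SX.Defs53

/-! The single node inequality. -/

set_option autoImplicit false

namespace Pool.Agent.Lib.SX53

theorem half53 {a M m n : ℝ} (hm : 0 < m) (hn : 0 < n) (hmM : m ≤ M) (hM2 : M ≤ 2 * m)
    (ha : |a| ≤ M) : a ^ 2 * n / m ≤ a ^ 2 * n / M + 2 * (n * (M - m)) := by
  have hM : 0 < M := lt_of_lt_of_le hm hmM
  have h1 : a ^ 2 ≤ M ^ 2 := by
    have := sq_le_sq' (by linarith [neg_abs_le a]) (le_trans (le_abs_self a) ha)
    exact this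
  have h2 : a ^ 2 * n / m - a ^ 2 * n / M = a ^ 2 * n * (M - m) / (m * M) := by
    field_simp
  have h3 : a ^ 2 * n * (M - m) / (m * M) ≤ 2 * (n * (M - m)) := by
    rw [div_le_iff₀ (by positivity)]
    have h4 : 0 ≤ n * (M - m) := mul_nonneg hn.le (by linarith)
    have h5 : a ^ 2 ≤ 2 * (m * M) := by nlinarith
    nlinarith
  linarith

theorem child53 {a b M N m n : ℝ} (hm : 0 < m) (hn : 0 < n) (hmM : m ≤ M) (hM2 : M ≤ 2 * m)
    (hnN : n ≤ N) (hN2 : N ≤ 2 * n) (ha : |a| ≤ M) (hb : |b| ≤ N) :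
    (a ^ 2 * n / m + b ^ 2 * m / n) / 2 + m * n ≤ th a b M N := by
  have hM : 0 < M := lt_of_lt_of_le hm hmM
  have hN : 0 < N := lt_of_lt_of_le hn hnN
  have e1 := half53 hm hn hmM hM2 ha
  have e2 := half53 hn hm hnN hN2 hb
  have e3 : a ^ 2 * n / M ≤ a ^ 2 * N / M := by gcongr
  have e4 : b ^ 2 * m / N ≤ b ^ 2 * M / N := by gcongr
  have e5 : m * n + n * (M - m) + m * (N - n) ≤ M * N := by nlinarith [mul_nonneg (sub_nonneg.2 hmM) (sub_nonneg.2 hnN)]
  unfold th
  linarith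

theorem node53 : StNode := by
  intro a1 a2 A1 A2 b1 b2 B1 B2 m n ha1 ha2 hb1 hb2 hm hn
  have hA1 : 0 ≤ A1 := le_trans (abs_nonneg _) ha1
  have hA2 : 0 ≤ A2 := le_trans (abs_nonneg _) ha2
  have hB1 : 0 ≤ B1 := le_trans (abs_nonneg _) hb1
  have hB2 : 0 ≤ B2 := le_trans (abs_nonneg _) hb2
  have hm0 : 0 ≤ m := by linarith
  have hn0 : 0 ≤ n := by linarith
  rcases hm0.eq_or_lt with h | hmp
  · have h1 : A1 = 0 := by linarith
    have h2 : A2 = 0 := by linarith
    have h3 : a1 = 0 := by rw [h1] at ha1; exact abs_nonpos_iff.1 ha1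
    have h4 : a2 = 0 := by rw [h2] at ha2; exact abs_nonpos_iff.1 ha2
    subst h
    simp [th, h1, h2, h3, h4]
  rcases hn0.eq_or_lt with h | hnp
  · have h1 : B1 = 0 := by linarith
    have h2 : B2 = 0 := by linarith
    have h3 : b1 = 0 := by rw [h1] at hb1; exact abs_nonpos_iff.1 hb1
    have h4 : b2 = 0 := by rw [h2] at hb2; exact abs_nonpos_iff.1 hb2
    subst h
    simp [th, h1, h2, h3, h4]
  have c1 := child53 (a := a1) (b := b1) hmp hnp (le_max_left m A1)
    (max_le (by linarith) (by linarith)) (le_max_left n B1) (max_le (by linarith) (by linarith))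
    (le_trans ha1 (le_max_right _ _)) (le_trans hb1 (le_max_right _ _))
  have c2 := child53 (a := a2) (b := b2) hmp hnp (le_max_left m A2)
    (max_le (by linarith) (by linarith)) (le_max_left n B2) (max_le (by linarith) (by linarith))
    (le_trans ha2 (le_max_right _ _)) (le_trans hb2 (le_max_right _ _))
  have i1 : ((a1 + a2) / 2) ^ 2 * n / m + ((a1 - a2) / 2) ^ 2 * n / m
      = (a1 ^ 2 * n / m + a2 ^ 2 * n / m) / 2 := by field_simp; ring
  have i2 : ((b1 + b2) / 2) ^ 2 * m / n + ((b1 - b2) / 2) ^ 2 * m / n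
      = (b1 ^ 2 * m / n + b2 ^ 2 * m / n) / 2 := by field_simp; ring
  unfold th at *
  linarith

end Pool.Agent.Lib.SX53
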