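import Pool.Agent.Lib.MP_5ef378_an.SX.Defs53
import Pool.Agent.Lib.MP_5ef378_an.SX.Node53

/-! The dyadic form is bounded by the product of the maximal functions. -/

set_option autoImplicit false

open MeasureTheory Set
open scoped ENNReal

namespace Pool.Agent.Lib.SX53.H53

noncomputable section

def sc (D : ℝ) (i : ℕ) : ℝ := D / 2 ^ i

theorem sc_pos {D : ℝ} (hD : 0 < D) (i : ℕ) : 0 < sc D i := by unfold sc; positivity

theorem sc_succ (D : ℝ) (i : ℕ) : sc D (i + 1) = sc D i / 2 := by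
  unfold sc; rw [pow_succ]; field_simp

def av (A : ℝ → ℝ) (D ω : ℝ) (i : ℕ) (k : ℤ) : ℝ :=
  (sc D i)⁻¹ * ∫ x in (ω + k * sc D i)..(ω + (k + 1) * sc D i), A x

theorem av_split {A : ℝ → ℝ} (hA : Continuous A) {D : ℝ} (hD : 0 < D) (ω : ℝ) (i : ℕ) (k : ℤ) :
    av A D ω i k = (av A D ω (i + 1) (2 * k) + av A D ω (i + 1) (2 * k + 1)) / 2 := by
  have hs := sc_pos hD i
  have hint : ∀ a b : ℝ, IntervalIntegrable A volume a b := fun a b => hA.intervalIntegrable a b
  unfold av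
  rw [sc_succ]
  have e1 : ω + ((2 * k : ℤ) : ℝ) * (sc D i / 2) = ω + k * sc D i := by push_cast; ring
  have e2 : ω + (((2 * k : ℤ) : ℝ) + 1) * (sc D i / 2) = ω + (((2 * k + 1 : ℤ) : ℝ)) * (sc D i / 2) := by
    push_cast; ring
  have e3 : ω + (((2 * k + 1 : ℤ) : ℝ) + 1) * (sc D i / 2) = ω + (k + 1) * sc D i := by
    push_cast; ring
  rw [e1, e2, e3, ← intervalIntegral.integral_add_adjacent_intervals (hint _ (ω + (((2 * k + 1 : ℤ) : ℝ)) * (sc D i / 2))) (hint _ _)]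
  field_simp

theorem av_nonneg {A : ℝ → ℝ} (h : ∀ x, 0 ≤ A x) {D : ℝ} (hD : 0 < D) (ω : ℝ) (i : ℕ) (k : ℤ) :
    0 ≤ av A D ω i k := by
  unfold av
  have hs := sc_pos hD i
  refine mul_nonneg (inv_nonneg.2 hs.le) (intervalIntegral.integral_nonneg (by nlinarith) (fun u _ => h u))

theorem abs_av_le {A : ℝ → ℝ} (_hA : Continuous A) {D : ℝ} (hD : 0 < D) (ω : ℝ) (i : ℕ) (k : ℤ) :
    |av A D ω i k| ≤ av (fun x => |A x|) D ω i k := by
  unfold av
  have hs := sc_pos hD i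
  rw [abs_mul, abs_of_pos (inv_pos.2 hs)]
  refine mul_le_mul_of_nonneg_left ?_ (inv_nonneg.2 hs.le)
  exact intervalIntegral.abs_integral_le_integral_abs (by nlinarith)

def mx (A : ℝ → ℝ) (D ω : ℝ) : ℕ → ℤ → ℝ
  | 0, k => av (fun x => |A x|) D ω 0 k
  | (i + 1), k => max (mx A D ω i (k / 2)) (av (fun x => |A x|) D ω (i + 1) k)

theorem av_le_mx (A : ℝ → ℝ) (D ω : ℝ) (i : ℕ) (k : ℤ) :
    av (fun x => |A x|) D ω i k ≤ mx A D ω i k := by
  cases i with
  | zero => exact le_rfl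
  | succ i => exact le_max_right _ _

theorem mx_even (A : ℝ → ℝ) (D ω : ℝ) (i : ℕ) (k : ℤ) :
    mx A D ω (i + 1) (2 * k) = max (mx A D ω i k) (av (fun x => |A x|) D ω (i + 1) (2 * k)) := by
  have : (2 * k) / 2 = k := by omega
  simp [mx, this]

theorem mx_odd (A : ℝ → ℝ) (D ω : ℝ) (i : ℕ) (k : ℤ) :
    mx A D ω (i + 1) (2 * k + 1)
      = max (mx A D ω i k) (av (fun x => |A x|) D ω (i + 1) (2 * k + 1)) := by
  have : (2 * k + 1) / 2 = k := by omega
  simp [mx, this]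

theorem mx_nonneg (A : ℝ → ℝ) {D : ℝ} (hD : 0 < D) (ω : ℝ) (i : ℕ) (k : ℤ) :
    0 ≤ mx A D ω i k :=
  le_trans (av_nonneg (fun _ => abs_nonneg _) hD ω i k) (av_le_mx A D ω i k)

def dl (A : ℝ → ℝ) (D ω : ℝ) (i : ℕ) (k : ℤ) : ℝ :=
  (av A D ω (i + 1) (2 * k) - av A D ω (i + 1) (2 * k + 1)) / 2

def gn (A B : ℝ → ℝ) (D ω : ℝ) (i : ℕ) (k : ℤ) : ℝ :=
  (dl A D ω i k ^ 2 * mx B D ω i k / mx A D ω i k
    + dl B D ω i k ^ 2 * mx A D ω i k / mx B D ω i k) / 2

def tt (A B : ℝ → ℝ) (D ω : ℝ) (i : ℕ) (k : ℤ) : ℝ :=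
  th (av A D ω i k) (av B D ω i k) (mx A D ω i k) (mx B D ω i k)

theorem tt_step {A B : ℝ → ℝ} (hA : Continuous A) (hB : Continuous B) {D : ℝ} (hD : 0 < D)
    (ω : ℝ) (i : ℕ) (k : ℤ) :
    tt A B D ω i k + gn A B D ω i k
      ≤ (tt A B D ω (i + 1) (2 * k) + tt A B D ω (i + 1) (2 * k + 1)) / 2 := by
  have hAa : Continuous fun x => |A x| := hA.abs
  have hBa : Continuous fun x => |B x| := hB.abs
  have h := node53 (av A D ω (i + 1) (2 * k)) (av A D ω (i + 1) (2 * k + 1))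
    (av (fun x => |A x|) D ω (i + 1) (2 * k)) (av (fun x => |A x|) D ω (i + 1) (2 * k + 1))
    (av B D ω (i + 1) (2 * k)) (av B D ω (i + 1) (2 * k + 1))
    (av (fun x => |B x|) D ω (i + 1) (2 * k)) (av (fun x => |B x|) D ω (i + 1) (2 * k + 1))
    (mx A D ω i k) (mx B D ω i k)
    (abs_av_le hA hD _ _ _) (abs_av_le hA hD _ _ _) (abs_av_le hB hD _ _ _)
    (abs_av_le hB hD _ _ _)
    (by rw [← av_split hAa hD]; exact av_le_mx _ _ _ _ _)
    (by rw [← av_split hBa hD]; exact av_le_mx _ _ _ _ _)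
  rw [← av_split hA hD, ← av_split hB hD, ← mx_even, ← mx_odd, ← mx_even, ← mx_odd] at h
  exact h

theorem th_nonneg {a b m n : ℝ} (hm : 0 ≤ m) (hn : 0 ≤ n) : 0 ≤ th a b m n := by
  unfold th; positivity

theorem tt_nonneg (A B : ℝ → ℝ) {D : ℝ} (hD : 0 < D) (ω : ℝ) (i : ℕ) (k : ℤ) :
    0 ≤ tt A B D ω i k := th_nonneg (mx_nonneg _ hD _ _ _) (mx_nonneg _ hD _ _ _)

theorem gn_nonneg (A B : ℝ → ℝ) {D : ℝ} (hD : 0 < D) (ω : ℝ) (i : ℕ) (k : ℤ) :
    0 ≤ gn A B D ω i k := by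
  have h1 := mx_nonneg A hD ω i k
  have h2 := mx_nonneg B hD ω i k
  unfold gn; positivity

theorem tsum_two (F : ℤ → ℝ≥0∞) : ∑' k : ℤ, (F (2 * k) + F (2 * k + 1)) = ∑' k : ℤ, F k := by
  rw [← (Int.divModEquiv 2).symm.tsum_eq F, ENNReal.tsum_prod']
  refine tsum_congr fun k => ?_
  rw [tsum_fintype, Fin.sum_univ_two]
  congr 2
  · simp [Int.divModEquiv]
    ring
  · simp [Int.divModEquiv]
    ring

def SS (A B : ℝ → ℝ) (D ω : ℝ) (i : ℕ) : ℝ≥0∞ :=
  ∑' k : ℤ, ENNReal.ofReal (sc D i * tt A B D ω i k)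

def GG (A B : ℝ → ℝ) (D ω : ℝ) (i : ℕ) : ℝ≥0∞ :=
  ∑' k : ℤ, ENNReal.ofReal (sc D i * gn A B D ω i k)

theorem SS_step {A B : ℝ → ℝ} (hA : Continuous A) (hB : Continuous B) {D : ℝ} (hD : 0 < D)
    (ω : ℝ) (i : ℕ) : SS A B D ω i + GG A B D ω i ≤ SS A B D ω (i + 1) := by
  unfold SS GG
  rw [← ENNReal.tsum_add, ← tsum_two (fun k => ENNReal.ofReal (sc D (i + 1) * tt A B D ω (i + 1) k))]
  refine ENNReal.tsum_le_tsum fun k => ?_
  have hs := sc_pos hD i
  have hs' := sc_pos hD (i + 1)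
  rw [← ENNReal.ofReal_add (mul_nonneg hs.le (tt_nonneg _ _ hD _ _ _))
    (mul_nonneg hs.le (gn_nonneg _ _ hD _ _ _)),
    ← ENNReal.ofReal_add (mul_nonneg hs'.le (tt_nonneg _ _ hD _ _ _))
    (mul_nonneg hs'.le (tt_nonneg _ _ hD _ _ _))]
  refine ENNReal.ofReal_le_ofReal ?_
  have h := mul_le_mul_of_nonneg_left (tt_step hA hB hD ω i k) hs.le
  rw [sc_succ]
  nlinarith [h]

theorem GG_sum {A B : ℝ → ℝ} (hA : Continuous A) (hB : Continuous B) {D : ℝ} (hD : 0 < D)
    (ω : ℝ) (t : ℕ) : ∑ i ∈ Finset.range t, GG A B D ω i ≤ SS A B D ω t := by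
  induction t with
  | zero => simp
  | succ t ih =>
    rw [Finset.sum_range_succ]
    exact le_trans (add_le_add_left ih _) (SS_step hA hB hD ω t)

theorem tt_le (A B : ℝ → ℝ) (hA : Continuous A) (hB : Continuous B) {D : ℝ} (hD : 0 < D)
    (ω : ℝ) (i : ℕ) (k : ℤ) : tt A B D ω i k ≤ 2 * (mx A D ω i k * mx B D ω i k) := by
  have hm := mx_nonneg A hD ω i k
  have hn := mx_nonneg B hD ω i k
  have ha : |av A D ω i k| ≤ mx A D ω i k := le_trans (abs_av_le hA hD _ _ _) (av_le_mx _ _ _ _ _)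
  have hb : |av B D ω i k| ≤ mx B D ω i k := le_trans (abs_av_le hB hD _ _ _) (av_le_mx _ _ _ _ _)
  have key : ∀ a m n : ℝ, 0 ≤ m → 0 ≤ n → |a| ≤ m → a ^ 2 * n / m ≤ m * n := by
    intro a m n hm hn ha
    rcases hm.eq_or_lt with h | h
    · subst h; simp
    · rw [div_le_iff₀ h]
      have : a ^ 2 ≤ m ^ 2 := sq_le_sq' (by linarith [neg_abs_le a]) (le_trans (le_abs_self a) ha)
      nlinarith
  have k1 := key _ _ _ hm hn ha
  have k2 := key _ _ _ hn hm hb
  unfold tt th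
  nlinarith

theorem av_le_MM {A : ℝ → ℝ} (hA : Continuous A) {D : ℝ} (hD : 0 < D) (ω : ℝ) (i : ℕ) (k : ℤ)
    {t : ℝ} (ht : t ∈ Ioo (ω + k * sc D i) (ω + (k + 1) * sc D i)) :
    ENNReal.ofReal (av (fun x => |A x|) D ω i k) ≤ MM (fun x => ‖A x‖ₑ) t := by
  have hs := sc_pos hD i
  have hle : ω + k * sc D i ≤ ω + (k + 1) * sc D i := by nlinarith
  have h1 : ENNReal.ofReal (av (fun x => |A x|) D ω i k)
      = (ENNReal.ofReal ((ω + (k + 1) * sc D i) - (ω + k * sc D i)))⁻¹ *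
        ∫⁻ x in Ioo (ω + k * sc D i) (ω + (k + 1) * sc D i), ‖A x‖ₑ := by
    have e : (ω + (k + 1) * sc D i) - (ω + k * sc D i) = sc D i := by ring
    rw [e]
    unfold av
    rw [ENNReal.ofReal_mul (inv_nonneg.2 hs.le), ENNReal.ofReal_inv_of_pos hs,
      intervalIntegral.integral_of_le hle, setLIntegral_congr Ioo_ae_eq_Ioc,
      ofReal_integral_eq_lintegral_ofReal]
    · congr 1
      refine lintegral_congr fun x => ?_
      rw [Real.enorm_eq_ofReal_abs]
    · exact (hA.abs.integrableOn_Icc).mono_set Ioc_subset_Icc_self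
    · exact Filter.Eventually.of_forall fun x => abs_nonneg _
  rw [h1]
  unfold MM
  refine le_iSup_of_le (ω + k * sc D i) (le_iSup_of_le (ω + (k + 1) * sc D i) (le_iSup_of_le ⟨ht.1, ht.2⟩ le_rfl))

theorem mx_le_MM {A : ℝ → ℝ} (hA : Continuous A) {D : ℝ} (hD : 0 < D) (ω : ℝ) (i : ℕ) :
    ∀ (k : ℤ) {t : ℝ}, t ∈ Ioo (ω + k * sc D i) (ω + (k + 1) * sc D i) →
    ENNReal.ofReal (mx A D ω i k) ≤ MM (fun x => ‖A x‖ₑ) t := by
  induction i with
  | zero => intro k t ht; exact av_le_MM hA hD ω 0 k ht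
  | succ i ih =>
    intro k t ht
    have hs := sc_pos hD i
    have e := sc_succ D i
    have ht' : t ∈ Ioo (ω + ((k / 2 : ℤ) : ℝ) * sc D i) (ω + (((k / 2 : ℤ) : ℝ) + 1) * sc D i) := by
      have h1 : (2 * (k / 2) : ℤ) ≤ k := by omega
      have h2 : k ≤ 2 * (k / 2) + 1 := by omega
      have h1' : 2 * (((k / 2 : ℤ) : ℝ)) ≤ (k : ℝ) := by exact_mod_cast h1
      have h2' : (k : ℝ) ≤ 2 * (((k / 2 : ℤ) : ℝ)) + 1 := by exact_mod_cast h2
      rw [e] at ht
      constructor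
      · have := ht.1; nlinarith
      · have := ht.2; nlinarith
    have a1 := ih (k / 2) ht'
    have a2 := av_le_MM hA hD ω (i + 1) k ht
    simp only [mx]
    rw [ENNReal.ofReal_max]
    exact max_le a1 a2

theorem leaf {A B : ℝ → ℝ} (hA : Continuous A) (hB : Continuous B) {D : ℝ} (hD : 0 < D)
    (ω : ℝ) (i : ℕ) :
    ∑' k : ℤ, ENNReal.ofReal (sc D i * (mx A D ω i k * mx B D ω i k))
      ≤ ∫⁻ t, MM (fun x => ‖A x‖ₑ) t * MM (fun x => ‖B x‖ₑ) t := by
  have hs := sc_pos hD i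
  have hdis : Pairwise (Function.onFun Disjoint
      fun k : ℤ => Ioo (ω + (k : ℝ) * sc D i) (ω + ((k : ℝ) + 1) * sc D i)) := by
    intro k k' hkk
    refine Set.disjoint_left.2 fun x hx hx' => ?_
    rcases lt_or_gt_of_ne hkk with h | h
    · have : (k : ℝ) + 1 ≤ k' := by exact_mod_cast h
      have h1 := hx.2
      have h2 := hx'.1
      nlinarith
    · have : (k' : ℝ) + 1 ≤ k := by exact_mod_cast h
      have h1 := hx.1
      have h2 := hx'.2
      nlinarith
  calc ∑' k : ℤ, ENNReal.ofReal (sc D i * (mx A D ω i k * mx B D ω i k))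
      ≤ ∑' k : ℤ, ∫⁻ t in Ioo (ω + (k : ℝ) * sc D i) (ω + ((k : ℝ) + 1) * sc D i),
          MM (fun x => ‖A x‖ₑ) t * MM (fun x => ‖B x‖ₑ) t := by
        refine ENNReal.tsum_le_tsum fun k => ?_
        have hvol : volume (Ioo (ω + (k : ℝ) * sc D i) (ω + ((k : ℝ) + 1) * sc D i))
            = ENNReal.ofReal (sc D i) := by
          rw [Real.volume_Ioo]; congr 1; ring
        calc ENNReal.ofReal (sc D i * (mx A D ω i k * mx B D ω i k))
            = ∫⁻ t in Ioo (ω + (k : ℝ) * sc D i) (ω + ((k : ℝ) + 1) * sc D i),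
                ENNReal.ofReal (mx A D ω i k) * ENNReal.ofReal (mx B D ω i k) := by
              rw [setLIntegral_const, hvol, ENNReal.ofReal_mul hs.le,
                ENNReal.ofReal_mul (mx_nonneg A hD ω i k), mul_comm]
          _ ≤ _ := by
              refine setLIntegral_mono' measurableSet_Ioo fun t ht => ?_
              exact mul_le_mul' (mx_le_MM hA hD ω i k ht) (mx_le_MM hB hD ω i k ht)
    _ = ∫⁻ t in ⋃ k : ℤ, Ioo (ω + (k : ℝ) * sc D i) (ω + ((k : ℝ) + 1) * sc D i),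
          MM (fun x => ‖A x‖ₑ) t * MM (fun x => ‖B x‖ₑ) t :=
        (lintegral_iUnion (fun k => measurableSet_Ioo) hdis _).symm
    _ ≤ _ := setLIntegral_le_lintegral _ _

theorem SS_le {A B : ℝ → ℝ} (hA : Continuous A) (hB : Continuous B) {D : ℝ} (hD : 0 < D)
    (ω : ℝ) (i : ℕ) :
    SS A B D ω i ≤ 2 * ∫⁻ t, MM (fun x => ‖A x‖ₑ) t * MM (fun x => ‖B x‖ₑ) t := by
  refine le_trans ?_ (mul_le_mul_right (leaf hA hB hD ω i) 2)
  unfold SS
  rw [← ENNReal.tsum_mul_left]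
  refine ENNReal.tsum_le_tsum fun k => ?_
  have hs := sc_pos hD i
  rw [show (2 : ℝ≥0∞) = ENNReal.ofReal 2 by simp, ← ENNReal.ofReal_mul (by norm_num)]
  refine ENNReal.ofReal_le_ofReal ?_
  have := mul_le_mul_of_nonneg_left (tt_le A B hA hB hD ω i k) hs.le
  nlinarith

theorem hh_int {A : ℝ → ℝ} (hA : Continuous A) {D : ℝ} (hD : 0 < D) (ω : ℝ) (i : ℕ) (k : ℤ) :
    ∫ x, hh ((x - ω) / sc D i - k) * A x = sc D i * dl A D ω i k := by
  have hs := sc_pos hD i
  have hs2 := sc_pos hD (i + 1)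
  have e0 := sc_succ D i
  set s := sc D i with hsdef
  have e1 : ∀ x, hh ((x - ω) / s - k) * A x
      = (Ico (ω + k * s) (ω + k * s + s / 2)).indicator A x
        - (Ico (ω + k * s + s / 2) (ω + (k + 1) * s)).indicator A x := by
    intro x
    have c1 : (0 ≤ (x - ω) / s - k) ↔ ω + k * s ≤ x := by
      rw [sub_nonneg, le_div_iff₀ hs]; constructor <;> intro h <;> linarith
    have c2 : ((x - ω) / s - k < 1 / 2) ↔ x < ω + k * s + s / 2 := by
      rw [sub_lt_iff_lt_add, div_lt_iff₀ hs]; constructor <;> intro h <;> nlinarith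
    have c2' : (1 / 2 ≤ (x - ω) / s - k) ↔ ω + k * s + s / 2 ≤ x := by
      rw [← not_lt, c2, not_lt]
    have c3 : ((x - ω) / s - k < 1) ↔ x < ω + (k + 1) * s := by
      rw [sub_lt_iff_lt_add, div_lt_iff₀ hs]; constructor <;> intro h <;> nlinarith
    unfold hh
    simp only [c1, c2, c2', c3, indicator, mem_Ico]
    by_cases h1 : ω + k * s ≤ x ∧ x < ω + k * s + s / 2
    · have h2 : ¬ (ω + k * s + s / 2 ≤ x ∧ x < ω + (k + 1) * s) := fun h => by linarith [h1.2, h.1]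
      simp [h1, h2]
    · by_cases h2 : ω + k * s + s / 2 ≤ x ∧ x < ω + (k + 1) * s
      · simp [h1, h2]
      · simp [h1, h2]
  simp_rw [e1]
  have i1 : Integrable ((Ico (ω + k * s) (ω + k * s + s / 2)).indicator A) := by
    rw [integrable_indicator_iff measurableSet_Ico]
    exact (hA.integrableOn_Icc).mono_set Ico_subset_Icc_self
  have i2 : Integrable ((Ico (ω + k * s + s / 2) (ω + (k + 1) * s)).indicator A) := by
    rw [integrable_indicator_iff measurableSet_Ico]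
    exact (hA.integrableOn_Icc).mono_set Ico_subset_Icc_self
  rw [integral_sub i1 i2, integral_indicator measurableSet_Ico, integral_indicator measurableSet_Ico,
    integral_Ico_eq_integral_Ioc, integral_Ico_eq_integral_Ioc,
    ← intervalIntegral.integral_of_le (by linarith), ← intervalIntegral.integral_of_le (by nlinarith)]
  unfold dl av
  rw [e0]
  have f1 : ω + ((2 * k : ℤ) : ℝ) * (s / 2) = ω + k * s := by push_cast; ring
  have f2 : ω + (((2 * k : ℤ) : ℝ) + 1) * (s / 2) = ω + k * s + s / 2 := by push_cast; ring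
  have f3 : ω + ((2 * k + 1 : ℤ) : ℝ) * (s / 2) = ω + k * s + s / 2 := by push_cast; ring
  have f4 : ω + (((2 * k + 1 : ℤ) : ℝ) + 1) * (s / 2) = ω + (k + 1) * s := by push_cast; ring
  rw [f1, f2, f3, f4]
  field_simp

theorem et_eq (u : ℝ) : et u = hh (2 * u) - hh (2 * u - 1) := by
  unfold et hh
  by_cases h0 : 0 ≤ u
  · by_cases h1 : u < 1 / 4
    · rw [if_pos ⟨h0, h1⟩, if_pos ⟨by linarith, by linarith⟩, if_neg (by rintro ⟨h, _⟩; linarith),
        if_neg (by rintro ⟨h, _⟩; linarith)]; norm_num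
    · by_cases h2 : u < 1 / 2
      · rw [if_neg (by rintro ⟨_, h⟩; linarith), if_pos ⟨by linarith, by linarith⟩,
          if_neg (by rintro ⟨_, h⟩; linarith), if_pos ⟨by linarith, by linarith⟩,
          if_neg (by rintro ⟨h, _⟩; linarith), if_neg (by rintro ⟨h, _⟩; linarith)]; norm_num
      · by_cases h3 : u < 3 / 4
        · rw [if_neg (by rintro ⟨_, h⟩; linarith), if_pos ⟨by linarith, by linarith⟩,
            if_neg (by rintro ⟨_, h⟩; linarith), if_neg (by rintro ⟨_, h⟩; linarith),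
            if_pos ⟨by linarith, by linarith⟩]; norm_num
        · by_cases h4 : u < 1
          · rw [if_neg (by rintro ⟨_, h⟩; linarith), if_neg (by rintro ⟨_, h⟩; linarith),
              if_pos ⟨by linarith, by linarith⟩,
              if_neg (by rintro ⟨_, h⟩; linarith), if_neg (by rintro ⟨_, h⟩; linarith),
              if_neg (by rintro ⟨_, h⟩; linarith), if_pos ⟨by linarith, by linarith⟩]; norm_num
          · rw [if_neg (by rintro ⟨_, h⟩; linarith), if_neg (by rintro ⟨_, h⟩; linarith),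
              if_neg (by rintro ⟨_, h⟩; linarith),
              if_neg (by rintro ⟨_, h⟩; linarith), if_neg (by rintro ⟨_, h⟩; linarith),
              if_neg (by rintro ⟨_, h⟩; linarith), if_neg (by rintro ⟨_, h⟩; linarith)]; norm_num
  · rw [if_neg (by rintro ⟨h, _⟩; linarith), if_neg (by rintro ⟨h, _⟩; linarith),
      if_neg (by rintro ⟨h, _⟩; linarith), if_neg (by rintro ⟨h, _⟩; linarith),
      if_neg (by rintro ⟨h, _⟩; linarith), if_neg (by rintro ⟨h, _⟩; linarith),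
      if_neg (by rintro ⟨h, _⟩; linarith)]; norm_num

theorem hh_integrable {A : ℝ → ℝ} (hA : Continuous A) {D : ℝ} (hD : 0 < D) (ω : ℝ) (i : ℕ)
    (k : ℤ) : Integrable fun x => hh ((x - ω) / sc D i - k) * A x := by
  have hs := sc_pos hD i
  set s := sc D i with hsdef
  have hmeas : Measurable hh := by
    unfold hh
    exact Measurable.ite (measurableSet_Ico (a := (0 : ℝ)) (b := 1 / 2)) measurable_const
      (Measurable.ite (measurableSet_Ico (a := (1 / 2 : ℝ)) (b := 1)) measurable_const measurable_const)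
  have hsupp : (fun x => hh ((x - ω) / s - k) * A x)
      = (Ico (ω + k * s) (ω + (k + 1) * s)).indicator (fun x => hh ((x - ω) / s - k) * A x) := by
    funext x
    by_cases hx : x ∈ Ico (ω + k * s) (ω + (k + 1) * s)
    · rw [indicator_of_mem hx]
    · rw [indicator_of_notMem hx]
      have : hh ((x - ω) / s - k) = 0 := by
        unfold hh
        rw [if_neg, if_neg]
        · rintro ⟨h1, h2⟩
          apply hx
          constructor
          · have : 0 ≤ (x - ω) / s - k := by linarith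
            rw [sub_nonneg, le_div_iff₀ hs] at this; linarith
          · rw [sub_lt_iff_lt_add, div_lt_iff₀ hs] at h2; nlinarith
        · rintro ⟨h1, h2⟩
          apply hx
          constructor
          · rw [sub_nonneg, le_div_iff₀ hs] at h1; linarith
          · have : (x - ω) / s - k < 1 := by linarith
            rw [sub_lt_iff_lt_add, div_lt_iff₀ hs] at this; nlinarith
      rw [this, zero_mul]
  rw [hsupp, integrable_indicator_iff measurableSet_Ico]
  refine Integrable.bdd_mul (c := 1) ((hA.integrableOn_Icc).mono_set Ico_subset_Icc_self) ?_ ?_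
  · exact (hmeas.comp (by fun_prop)).aestronglyMeasurable
  · refine Filter.Eventually.of_forall fun x => ?_
    unfold hh; split_ifs <;> simp

theorem et_int {A : ℝ → ℝ} (hA : Continuous A) {D : ℝ} (hD : 0 < D) (ω : ℝ) (i : ℕ) (k : ℤ) :
    ∫ x, et ((x - ω) / sc D i - k) * A x
      = sc D i / 2 * (dl A D ω (i + 1) (2 * k) - dl A D ω (i + 1) (2 * k + 1)) := by
  have hs := sc_pos hD i
  have e0 := sc_succ D i
  have e1 : ∀ x, et ((x - ω) / sc D i - k) * A x
      = hh ((x - ω) / sc D (i + 1) - ((2 * k : ℤ) : ℝ)) * A x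
        - hh ((x - ω) / sc D (i + 1) - ((2 * k + 1 : ℤ) : ℝ)) * A x := by
    intro x
    rw [et_eq, e0]
    have g1 : 2 * ((x - ω) / sc D i - k) = (x - ω) / (sc D i / 2) - ((2 * k : ℤ) : ℝ) := by
      push_cast; field_simp
    have g2 : 2 * ((x - ω) / sc D i - k) - 1 = (x - ω) / (sc D i / 2) - ((2 * k + 1 : ℤ) : ℝ) := by
      push_cast; field_simp; ring
    rw [g1] at *
    rw [← g2, ← g1]
    ring
  simp_rw [e1]
  rw [integral_sub (hh_integrable hA hD ω (i + 1) _) (hh_integrable hA hD ω (i + 1) _),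
    hh_int hA hD, hh_int hA hD, e0]
  ring

theorem dl_le {A : ℝ → ℝ} (hA : Continuous A) {D : ℝ} (hD : 0 < D) (ω : ℝ) (i : ℕ) (k : ℤ) :
    |dl A D ω i k| ≤ mx A D ω i k := by
  refine le_trans ?_ (av_le_mx _ _ _ _ _)
  rw [av_split hA.abs hD]
  unfold dl
  rw [abs_div, abs_of_pos (two_pos : (0 : ℝ) < 2)]
  refine div_le_div_of_nonneg_right ?_ two_pos.le
  exact le_trans (abs_sub _ _) (add_le_add (abs_av_le hA hD _ _ _) (abs_av_le hA hD _ _ _))

theorem cross {x y gx gy m n m' n' X Y : ℝ} (hm : 0 ≤ m) (hn : 0 ≤ n) (hm' : m ≤ m') (hn' : n ≤ n')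
    (hn2 : n' ≤ 2 * n) (hx : |x| ≤ m) (hy : |y| ≤ n')
    (hgx : (x ^ 2 * n / m + X) / 2 ≤ gx) (hX : 0 ≤ X) (hgy : (Y + y ^ 2 * m' / n') / 2 ≤ gy)
    (hY : 0 ≤ Y) : |x| * |y| ≤ gx + 2 * gy := by
  have hn'0 : 0 ≤ n' := le_trans hn hn'
  have hm'0 : 0 ≤ m' := le_trans hm hm'
  have t1 : 0 ≤ x ^ 2 * n / m := by positivity
  have t2 : 0 ≤ y ^ 2 * m' / n' := by positivity
  rcases hm.eq_or_lt with h | hmp
  · have : x = 0 := by rw [← h] at hx; exact abs_nonpos_iff.1 hx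
    rw [this]; simp; linarith
  rcases hn.eq_or_lt with h | hnp
  · have : y = 0 := by
      have : n' ≤ 0 := by linarith
      exact abs_nonpos_iff.1 (le_trans hy this)
    rw [this]; simp; linarith
  have hn'p : 0 < n' := lt_of_lt_of_le hnp hn'
  have e1 : |x| * |y| ≤ (x ^ 2 * n / m + y ^ 2 * m / n) / 2 := by
    have h1 : x ^ 2 * n / m = (|x| ^ 2) * (n / m) := by rw [sq_abs]; ring
    have h2 : y ^ 2 * m / n = (|y| ^ 2) * (m / n) := by rw [sq_abs]; ring
    rw [h1, h2]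
    have h3 : n / m * (m / n) = 1 := by field_simp
    set c := n / m with hc
    have hcp : 0 < c := by positivity
    have h4 : m / n = 1 / c := by rw [hc]; field_simp
    rw [h4]
    have h5 : 2 * (|x| * |y|) ≤ |x| ^ 2 * c + |y| ^ 2 * (1 / c) := by
      have h6 : |x| ^ 2 * c + |y| ^ 2 * (1 / c) - 2 * (|x| * |y|) = (|x| * c - |y|) ^ 2 / c := by
        field_simp; ring
      have h7 : 0 ≤ (|x| * c - |y|) ^ 2 / c := by positivity
      linarith
    linarith
  have e2 : y ^ 2 * m / n ≤ 2 * (y ^ 2 * m' / n') := by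
    rw [div_le_iff₀ hnp]
    have : 2 * (y ^ 2 * m' / n') * n = y ^ 2 * (m' * (2 * n)) / n' := by ring
    rw [this, le_div_iff₀ hn'p]
    have h8 : m * n' ≤ m' * (2 * n) := mul_le_mul hm' hn2 hn'0 hm'0
    nlinarith [sq_nonneg y]
  linarith

theorem mx_mono_child (A : ℝ → ℝ) (D ω : ℝ) (i : ℕ) (k k' : ℤ) (h : k' / 2 = k) :
    mx A D ω i k ≤ mx A D ω (i + 1) k' := by
  simp only [mx, h]; exact le_max_left _ _

theorem mx_two {A : ℝ → ℝ} (hA : Continuous A) {D : ℝ} (hD : 0 < D) (ω : ℝ) (i : ℕ) (k k' : ℤ)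
    (h : k' = 2 * k ∨ k' = 2 * k + 1) : mx A D ω (i + 1) k' ≤ 2 * mx A D ω i k := by
  have h0 := mx_nonneg A hD ω i k
  have hs := av_split hA.abs hD ω i k
  have p1 := av_nonneg (A := fun x => |A x|) (fun _ => abs_nonneg _) hD ω (i + 1) (2 * k)
  have p2 := av_nonneg (A := fun x => |A x|) (fun _ => abs_nonneg _) hD ω (i + 1) (2 * k + 1)
  have p3 := av_le_mx A D ω i k
  rcases h with h | h
  · subst h; rw [mx_even]; exact max_le (by linarith) (by linarith)
  · subst h; rw [mx_odd]; exact max_le (by linarith) (by linarith)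

theorem term_le {A B : ℝ → ℝ} (hA : Continuous A) (hB : Continuous B) {D : ℝ} (hD : 0 < D)
    (ω : ℝ) (i : ℕ) (k : ℤ) :
    term A B (sc D i) ω k ≤ sc D i * gn A B D ω i k
      + (sc D i * gn A B D ω (i + 1) (2 * k) + sc D i * gn A B D ω (i + 1) (2 * k + 1)) := by
  have hs := sc_pos hD i
  unfold term
  rw [hh_int hA hD, et_int hB hD, abs_mul, abs_mul, abs_of_pos hs, abs_of_pos (by linarith : (0 : ℝ) < sc D i / 2)]
  have c : ∀ k', (k' = 2 * k ∨ k' = 2 * k + 1) →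
      |dl A D ω i k| * |dl B D ω (i + 1) k'| ≤ gn A B D ω i k + 2 * gn A B D ω (i + 1) k' := by
    intro k' hk'
    have hd : k' / 2 = k := by omega
    refine cross (m := mx A D ω i k) (n := mx B D ω i k) (m' := mx A D ω (i + 1) k')
      (n' := mx B D ω (i + 1) k') (X := dl B D ω i k ^ 2 * mx A D ω i k / mx B D ω i k)
      (Y := dl A D ω (i + 1) k' ^ 2 * mx B D ω (i + 1) k' / mx A D ω (i + 1) k')
      (mx_nonneg _ hD _ _ _) (mx_nonneg _ hD _ _ _) (mx_mono_child _ _ _ _ _ _ hd)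
      (mx_mono_child _ _ _ _ _ _ hd) (mx_two hB hD _ _ _ _ hk') (dl_le hA hD _ _ _)
      (dl_le hB hD _ _ _) le_rfl ?_ le_rfl ?_
    · have := mx_nonneg A hD ω i k
      have := mx_nonneg B hD ω i k
      positivity
    · have := mx_nonneg A hD ω (i + 1) k'
      have := mx_nonneg B hD ω (i + 1) k'
      positivity
  have c1 := c (2 * k) (Or.inl rfl)
  have c2 := c (2 * k + 1) (Or.inr rfl)
  have c3 : |dl B D ω (i + 1) (2 * k) - dl B D ω (i + 1) (2 * k + 1)|
      ≤ |dl B D ω (i + 1) (2 * k)| + |dl B D ω (i + 1) (2 * k + 1)| := abs_sub _ _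
  have e : (sc D i)⁻¹ * (sc D i * |dl A D ω i k|) *
      (sc D i / 2 * |dl B D ω (i + 1) (2 * k) - dl B D ω (i + 1) (2 * k + 1)|)
      = sc D i / 2 * (|dl A D ω i k| * |dl B D ω (i + 1) (2 * k) - dl B D ω (i + 1) (2 * k + 1)|) := by
    field_simp
  rw [e]
  have c4 : |dl A D ω i k| * |dl B D ω (i + 1) (2 * k) - dl B D ω (i + 1) (2 * k + 1)|
      ≤ 2 * (gn A B D ω i k + (gn A B D ω (i + 1) (2 * k) + gn A B D ω (i + 1) (2 * k + 1))) := by
    have := mul_le_mul_of_nonneg_left c3 (abs_nonneg (dl A D ω i k))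
    linarith
  have c5 := mul_le_mul_of_nonneg_left c4 (by linarith : (0 : ℝ) ≤ sc D i / 2)
  linarith

theorem term_sum {A B : ℝ → ℝ} (hA : Continuous A) (hB : Continuous B) {D : ℝ} (hD : 0 < D)
    (ω : ℝ) (i : ℕ) :
    ∑' k : ℤ, ENNReal.ofReal (term A B (sc D i) ω k)
      ≤ GG A B D ω i + 2 * GG A B D ω (i + 1) := by
  have hs := sc_pos hD i
  have h1 : ∑' k : ℤ, (ENNReal.ofReal (sc D i * gn A B D ω (i + 1) (2 * k))
      + ENNReal.ofReal (sc D i * gn A B D ω (i + 1) (2 * k + 1))) = 2 * GG A B D ω (i + 1) := by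
    rw [tsum_two (fun k => ENNReal.ofReal (sc D i * gn A B D ω (i + 1) k))]
    unfold GG
    rw [← ENNReal.tsum_mul_left]
    refine tsum_congr fun k => ?_
    rw [show (2 : ℝ≥0∞) = ENNReal.ofReal 2 by simp, ← ENNReal.ofReal_mul (by norm_num), sc_succ]
    congr 1; ring
  rw [← h1]
  unfold GG
  rw [← ENNReal.tsum_add]
  refine ENNReal.tsum_le_tsum fun k => ?_
  refine le_trans (ENNReal.ofReal_le_ofReal (term_le hA hB hD ω i k)) ?_
  rw [ENNReal.ofReal_add (mul_nonneg hs.le (gn_nonneg _ _ hD _ _ _))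
    (add_nonneg (mul_nonneg hs.le (gn_nonneg _ _ hD _ _ _)) (mul_nonneg hs.le (gn_nonneg _ _ hD _ _ _))),
    ENNReal.ofReal_add (mul_nonneg hs.le (gn_nonneg _ _ hD _ _ _)) (mul_nonneg hs.le (gn_nonneg _ _ hD _ _ _))]

theorem haarI : StHaar := by
  intro A B hA _ hB _ d hd ω n
  rcases Nat.eq_zero_or_pos n with h0 | hn
  · subst h0; simp
  set D := 2 ^ (n - 1) * d with hDdef
  have hD : 0 < D := by positivity
  have hsc : ∀ i ∈ Finset.range n, (2 : ℝ) ^ (n - 1 - i) * d = sc D i := by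
    intro i hi
    have hi' : i ≤ n - 1 := by have := Finset.mem_range.1 hi; omega
    unfold sc
    rw [hDdef, ← Nat.sub_add_cancel hi', pow_add, Nat.add_sub_cancel]
    field_simp
  rw [← Finset.sum_range_reflect]
  calc ∑ j ∈ Finset.range n, ∑' k : ℤ, ENNReal.ofReal (term A B (2 ^ (n - 1 - j) * d) ω k)
      = ∑ i ∈ Finset.range n, ∑' k : ℤ, ENNReal.ofReal (term A B (sc D i) ω k) :=
        Finset.sum_congr rfl fun i hi => by rw [hsc i hi]
    _ ≤ ∑ i ∈ Finset.range n, (GG A B D ω i + 2 * GG A B D ω (i + 1)) :=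
        Finset.sum_le_sum fun i _ => term_sum hA hB hD ω i
    _ = ∑ i ∈ Finset.range n, GG A B D ω i + 2 * ∑ i ∈ Finset.range n, GG A B D ω (i + 1) := by
        rw [Finset.sum_add_distrib, Finset.mul_sum]
    _ ≤ SS A B D ω (n + 1) + 2 * SS A B D ω (n + 1) := by
        have g1 := GG_sum hA hB hD ω (n + 1)
        refine add_le_add ?_ (mul_le_mul_right ?_ 2)
        · refine le_trans ?_ g1
          rw [Finset.sum_range_succ]; exact le_self_add
        · refine le_trans ?_ g1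
          rw [Finset.sum_range_succ']; exact le_self_add
    _ = 3 * SS A B D ω (n + 1) := by ring
    _ ≤ 3 * (2 * ∫⁻ t, MM (fun x => ‖A x‖ₑ) t * MM (fun x => ‖B x‖ₑ) t) :=
        mul_le_mul_right (SS_le hA hB hD ω (n + 1)) 3
    _ = _ := by rw [← mul_assoc]; norm_num

end

end Pool.Agent.Lib.SX53.H53

/-- ROW HAAR. -/
theorem Pool.Agent.Lib.SX53.haar53 : Pool.Agent.Lib.SX53.StHaar := Pool.Agent.Lib.SX53.H53.haarI
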