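import Pool.Agent.Lib.MP_5ef378_an.SX.Defs53

/-!
Row KAP: elementary facts on the correlation `kap`.
-/

set_option autoImplicit false

open MeasureTheory Set
open scoped ENNReal

namespace Pool.Agent.Lib.SX53

namespace Kap63

/-- The primitive of `et`. -/
noncomputable def E (x : ℝ) : ℝ :=
  max 0 (min x (1 / 2 - x)) - max 0 (min (x - 1 / 2) (1 - x))

theorem E_cont : Continuous E := by
  unfold E
  fun_prop

theorem E0 {x : ℝ} (h : x ≤ 0) : E x = 0 := by
  unfold E
  rw [max_eq_left (min_le_of_left_le h), max_eq_left (min_le_of_left_le (by linarith)), sub_self]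

theorem E1 {x : ℝ} (h0 : 0 ≤ x) (h : x ≤ 1 / 4) : E x = x := by
  unfold E
  rw [min_eq_left (by linarith), max_eq_right h0,
    max_eq_left (min_le_of_left_le (by linarith)), sub_zero]

theorem E2 {x : ℝ} (h0 : 1 / 4 ≤ x) (h : x ≤ 3 / 4) : E x = 1 / 2 - x := by
  unfold E
  rcases le_total x (1 / 2) with h1 | h1
  · rw [min_eq_right (by linarith), max_eq_right (by linarith),
      max_eq_left (min_le_of_left_le (by linarith))]
    ring
  · rw [max_eq_left (min_le_of_right_le (by linarith)),
      min_eq_left (a := x - 1 / 2) (by linarith), max_eq_right (by linarith)]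
    ring

theorem E3 {x : ℝ} (h0 : 3 / 4 ≤ x) (h : x ≤ 1) : E x = x - 1 := by
  unfold E
  rw [max_eq_left (min_le_of_right_le (by linarith)),
    min_eq_right (a := x - 1 / 2) (by linarith), max_eq_right (by linarith)]
  ring

theorem E4 {x : ℝ} (h : 1 ≤ x) : E x = 0 := by
  unfold E
  rw [max_eq_left (min_le_of_right_le (by linarith)),
    max_eq_left (min_le_of_right_le (by linarith)), sub_self]

theorem E_flip (x : ℝ) : E (1 - x) = -E x := by
  unfold E
  rw [show (1 : ℝ) / 2 - (1 - x) = x - 1 / 2 by ring, show 1 - x - 1 / 2 = 1 / 2 - x by ring,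
    show 1 - (1 - x) = x by ring, min_comm (1 - x) (x - 1 / 2), min_comm (1 / 2 - x) x]
  ring

theorem et0 {x : ℝ} (h : x < 0) : et x = 0 := by
  unfold et
  rw [if_neg (by intro h'; linarith [h'.1]), if_neg (by intro h'; linarith [h'.1]),
    if_neg (by intro h'; linarith [h'.1])]

theorem et1 {x : ℝ} (h0 : 0 ≤ x) (h : x < 1 / 4) : et x = 1 := by
  unfold et
  rw [if_pos ⟨h0, h⟩]

theorem et2 {x : ℝ} (h0 : 1 / 4 ≤ x) (h : x < 3 / 4) : et x = -1 := by
  unfold et
  rw [if_neg (by intro h'; linarith [h'.2]), if_pos ⟨h0, h⟩]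

theorem et3 {x : ℝ} (h0 : 3 / 4 ≤ x) (h : x < 1) : et x = 1 := by
  unfold et
  rw [if_neg (by intro h'; linarith [h'.2]), if_neg (by intro h'; linarith [h'.2]),
    if_pos ⟨h0, h⟩]

theorem et4 {x : ℝ} (h : 1 ≤ x) : et x = 0 := by
  unfold et
  rw [if_neg (by intro h'; linarith [h'.2]), if_neg (by intro h'; linarith [h'.2]),
    if_neg (by intro h'; linarith [h'.2])]

theorem E_step (x : ℝ) : ∃ d > 0, ∀ y, x ≤ y → y ≤ x + d → E y = E x + et x * (y - x) := by
  rcases lt_or_ge x 0 with h0 | h0
  · refine ⟨-x, by linarith, fun y h1 h2 => ?_⟩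
    rw [E0 (by linarith), E0 h0.le, et0 h0]
    ring
  rcases lt_or_ge x (1 / 4) with h3 | h3
  · refine ⟨1 / 4 - x, by linarith, fun y h1 h2 => ?_⟩
    rw [E1 (by linarith) (by linarith), E1 h0 h3.le, et1 h0 h3]
    ring
  rcases lt_or_ge x (3 / 4) with h4 | h4
  · refine ⟨3 / 4 - x, by linarith, fun y h1 h2 => ?_⟩
    rw [E2 (by linarith) (by linarith), E2 h3 h4.le, et2 h3 h4]
    ring
  rcases lt_or_ge x 1 with h5 | h5
  · refine ⟨1 - x, by linarith, fun y h1 h2 => ?_⟩
    rw [E3 (by linarith) (by linarith), E3 h4 h5.le, et3 h4 h5]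
    ring
  · refine ⟨1, by norm_num, fun y h1 h2 => ?_⟩
    rw [E4 (by linarith), E4 h5, et4 h5]
    ring

theorem E_deriv (x : ℝ) : HasDerivWithinAt E (et x) (Ioi x) x := by
  obtain ⟨d, hd, h⟩ := E_step x
  have h1 : HasDerivWithinAt (fun y => E x + et x * (y - x)) (et x) (Ioi x) x := by
    have := (((hasDerivAt_id x).sub_const x).const_mul (et x)).const_add (E x)
    simpa using this.hasDerivWithinAt
  refine h1.congr_of_eventuallyEq ?_ (by simp)
  filter_upwards [Ioc_mem_nhdsGT (show x < x + d by linarith)] with y hy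
  exact h y hy.1.le hy.2

theorem et_abs (x : ℝ) : |et x| ≤ 1 := by
  unfold et
  split_ifs <;> simp

theorem et_meas : Measurable et := by
  unfold et
  refine Measurable.ite ?_ measurable_const (Measurable.ite ?_ measurable_const
    (Measurable.ite ?_ measurable_const measurable_const))
  · exact measurableSet_Ico
  · exact measurableSet_Ico
  · exact measurableSet_Ico

theorem et_int (a b : ℝ) : IntervalIntegrable et volume a b := by
  refine (intervalIntegrable_const (c := (1 : ℝ))).mono_fun et_meas.aestronglyMeasurable ?_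
  exact Filter.Eventually.of_forall fun x => by simpa using et_abs x

theorem prim {x y : ℝ} (h : x ≤ y) : ∫ w in x..y, et w = E y - E x :=
  intervalIntegral.integral_eq_sub_of_hasDeriv_right_of_le h E_cont.continuousOn
    (fun w _ => E_deriv w) (et_int x y)

theorem int_Ico {x y : ℝ} (h : x ≤ y) : ∫ w in Ico x y, et w = E y - E x := by
  rw [integral_Ico_eq_integral_Ioc, ← intervalIntegral.integral_of_le h, prim h]

theorem et_Ico {x y : ℝ} (h : x ≤ y) : IntegrableOn et (Ico x y) volume := by
  have := (intervalIntegrable_iff_integrableOn_Ico_of_le h).1 (et_int x y)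
  exact this

theorem kap_eq (s : ℝ) : kap s = 2 * E (1 / 2 - s) - E (-s) - E (1 - s) := by
  have h0 : ∀ w, hh (w + s) * et w = (Ico (-s) (1 / 2 - s)).indicator et w -
      (Ico (1 / 2 - s) (1 - s)).indicator et w := by
    intro w
    unfold hh
    by_cases h1 : 0 ≤ w + s ∧ w + s < 1 / 2
    · have m1 : w ∈ Ico (-s) (1 / 2 - s) := ⟨by linarith [h1.1], by linarith [h1.2]⟩
      have m2 : w ∉ Ico (1 / 2 - s) (1 - s) := fun h => by linarith [h.1, h1.2]
      rw [if_pos h1, indicator_of_mem m1, indicator_of_notMem m2]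
      ring
    · have m1 : w ∉ Ico (-s) (1 / 2 - s) := fun h =>
        h1 ⟨by linarith [h.1], by linarith [h.2]⟩
      rw [if_neg h1, indicator_of_notMem m1]
      by_cases h2 : 1 / 2 ≤ w + s ∧ w + s < 1
      · have m2 : w ∈ Ico (1 / 2 - s) (1 - s) := ⟨by linarith [h2.1], by linarith [h2.2]⟩
        rw [if_pos h2, indicator_of_mem m2]
        ring
      · have m2 : w ∉ Ico (1 / 2 - s) (1 - s) := fun h =>
          h2 ⟨by linarith [h.1], by linarith [h.2]⟩
        rw [if_neg h2, indicator_of_notMem m2]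
        ring
  unfold kap
  simp_rw [h0]
  rw [integral_sub ((et_Ico (by linarith)).integrable_indicator measurableSet_Ico)
    ((et_Ico (by linarith)).integrable_indicator measurableSet_Ico),
    integral_indicator measurableSet_Ico, integral_indicator measurableSet_Ico,
    int_Ico (by linarith), int_Ico (by linarith)]
  ring

theorem E_lip (x y : ℝ) : |E y - E x| ≤ |y - x| := by
  rcases le_total x y with h | h
  · rw [← prim h]
    have := intervalIntegral.norm_integral_le_of_norm_le_const (f := et) (C := 1) (a := x) (b := y)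
      (fun w _ => et_abs w)
    simpa using this
  · rw [← neg_sub, abs_neg, ← prim h]
    have := intervalIntegral.norm_integral_le_of_norm_le_const (f := et) (C := 1) (a := y) (b := x)
      (fun w _ => et_abs w)
    rw [abs_sub_comm y x]
    simpa using this

theorem kap_cont : Continuous kap := by
  have : kap = fun s => 2 * E (1 / 2 - s) - E (-s) - E (1 - s) := funext kap_eq
  rw [this]
  have := E_cont
  fun_prop

theorem kap_odd (s : ℝ) : kap (-s) = -kap s := by
  rw [kap_eq, kap_eq, show (1 : ℝ) / 2 - -s = 1 - (1 / 2 - s) by ring, E_flip,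
    show (1 : ℝ) - -s = 1 - (-s) by ring, E_flip, neg_neg, show E s = -E (1 - s) by
      rw [E_flip, neg_neg]]
  ring

theorem kap_out (s : ℝ) (h : 1 ≤ |s|) : kap s = 0 := by
  have key : ∀ t : ℝ, 1 ≤ t → kap t = 0 := by
    intro t ht
    rw [kap_eq, E0 (by linarith), E0 (by linarith), E0 (by linarith)]
    ring
  rcases le_abs.1 h with h | h
  · exact key s h
  · have := key (-s) h
    rw [kap_odd] at this
    linarith

theorem kap_zero : kap 0 = 0 := by
  have := kap_odd 0
  rw [neg_zero] at this
  linarith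

theorem kap_le (s : ℝ) : |kap s| ≤ 4 * |s| := by
  have h0 : kap s = 2 * (E (1 / 2 - s) - E (1 / 2)) - (E (-s) - E 0) - (E (1 - s) - E 1) := by
    have := kap_zero
    rw [kap_eq] at this
    simp only [sub_zero, neg_zero] at this
    rw [kap_eq]
    linarith
  rw [h0]
  have a1 := E_lip (1 / 2) (1 / 2 - s)
  have a2 := E_lip 0 (-s)
  have a3 := E_lip 1 (1 - s)
  rw [show (1 : ℝ) / 2 - s - 1 / 2 = -s by ring, abs_neg] at a1
  rw [show -s - 0 = -s by ring, abs_neg] at a2
  rw [show (1 : ℝ) - s - 1 = -s by ring, abs_neg] at a3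
  have b1 := abs_le.1 a1
  have b2 := abs_le.1 a2
  have b3 := abs_le.1 a3
  rw [abs_le]
  constructor <;> linarith [b1.1, b1.2, b2.1, b2.2, b3.1, b3.2]

theorem int_E01 : ∫ s in (0 : ℝ)..1, E s = 0 := by
  have h1 : ∫ s in (0 : ℝ)..1, E (1 - s) = ∫ s in (0 : ℝ)..1, E s := by
    have := intervalIntegral.integral_comp_sub_left (a := 0) (b := 1) E 1
    simpa using this
  have h2 : ∫ s in (0 : ℝ)..1, E (1 - s) = -∫ s in (0 : ℝ)..1, E s := by
    simp_rw [E_flip]
    exact intervalIntegral.integral_neg
  linarith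

theorem int_half : ∫ s in (-1 / 2 : ℝ)..(1 / 2), E s = 1 / 16 := by
  have i := fun a b => E_cont.intervalIntegrable (μ := volume) a b
  rw [← intervalIntegral.integral_add_adjacent_intervals (i (-1 / 2) 0) (i 0 (1 / 2)),
    ← intervalIntegral.integral_add_adjacent_intervals (i 0 (1 / 4)) (i (1 / 4) (1 / 2))]
  have h1 : ∫ s in (-1 / 2 : ℝ)..0, E s = 0 := by
    rw [intervalIntegral.integral_congr (g := fun _ => (0 : ℝ))]
    · simp
    · intro x hx
      rw [uIcc_of_le (by norm_num)] at hx
      exact E0 hx.2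
  have h2 : ∫ s in (0 : ℝ)..(1 / 4), E s = 1 / 32 := by
    rw [intervalIntegral.integral_congr (g := fun x => x)]
    · rw [integral_id]; norm_num
    · intro x hx
      rw [uIcc_of_le (by norm_num)] at hx
      exact E1 hx.1 hx.2
  have h3 : ∫ s in (1 / 4 : ℝ)..(1 / 2), E s = 1 / 32 := by
    rw [intervalIntegral.integral_congr (g := fun x => 1 / 2 - x)]
    · rw [intervalIntegral.integral_sub (by simp) (by simp), integral_id,
        intervalIntegral.integral_const]
      norm_num
    · intro x hx
      rw [uIcc_of_le (by norm_num)] at hx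
      exact E2 hx.1 (by linarith [hx.2])
  rw [h1, h2, h3]
  norm_num

theorem int_kap : (∫ s in (0 : ℝ)..1, kap s) = 1 / 8 := by
  have h0 : ∫ s in (0 : ℝ)..1, kap s = ∫ s in (0 : ℝ)..1, (2 * E (1 / 2 - s) - E (1 - s)) := by
    refine intervalIntegral.integral_congr fun s hs => ?_
    rw [uIcc_of_le (by norm_num)] at hs
    beta_reduce
    rw [kap_eq, E0 (x := -s) (by linarith [hs.1])]
    ring
  have c := E_cont
  rw [h0, intervalIntegral.integral_sub, intervalIntegral.integral_const_mul]
  · have h1 : ∫ s in (0 : ℝ)..1, E (1 - s) = 0 := by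
      have := intervalIntegral.integral_comp_sub_left (a := 0) (b := 1) E 1
      rw [this]
      simpa using int_E01
    have h2 : ∫ s in (0 : ℝ)..1, E (1 / 2 - s) = 1 / 16 := by
      have := intervalIntegral.integral_comp_sub_left (a := 0) (b := 1) E (1 / 2)
      rw [this, ← int_half]
      norm_num
    rw [h1, h2]
    norm_num
  · exact (Continuous.intervalIntegrable (by fun_prop) _ _)
  · exact (Continuous.intervalIntegrable (by fun_prop) _ _)

end Kap63

theorem kap63 : StKap :=
  ⟨Kap63.kap_cont, Kap63.kap_odd, Kap63.kap_out, Kap63.kap_le, Kap63.int_kap⟩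

end Pool.Agent.Lib.SX53
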