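import Pool.Agent.Lib.MP_5ef378_an.SX.Defs53

/-!
Row KAP: elementary facts on `kap`.
-/

set_option autoImplicit false

open MeasureTheory Set Filter Topology

namespace Pool.Agent.Lib.SX53

/-- The tent, an antiderivative of `hh`. -/
noncomputable def tt (t : ℝ) : ℝ := max 0 (min t (1 - t))

theorem tt_cont : Continuous tt := by unfold tt; fun_prop

theorem tt_neg {t : ℝ} (h : t ≤ 0) : tt t = 0 := by
  unfold tt; rw [min_eq_left (by linarith), max_eq_left h]

theorem tt_one {t : ℝ} (h : 1 ≤ t) : tt t = 0 := by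
  unfold tt; rw [min_eq_right (by linarith), max_eq_left (by linarith)]

theorem tt_lo {t : ℝ} (h : 0 ≤ t) (h' : t ≤ 1 / 2) : tt t = t := by
  unfold tt; rw [min_eq_left (by linarith), max_eq_right h]

theorem tt_hi {t : ℝ} (h : 1 / 2 ≤ t) (h' : t ≤ 1) : tt t = 1 - t := by
  unfold tt; rw [min_eq_right (by linarith), max_eq_right (by linarith)]

theorem tt_symm (t : ℝ) : tt (1 - t) = tt t := by
  unfold tt; rw [show 1 - (1 - t) = t by ring, min_comm]

theorem hh_meas : Measurable hh := by
  unfold hh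
  refine Measurable.ite ?_ measurable_const (Measurable.ite ?_ measurable_const measurable_const)
  · exact measurableSet_Ici.inter measurableSet_Iio
  · exact measurableSet_Ici.inter measurableSet_Iio

theorem hh_le (u : ℝ) : ‖hh u‖ ≤ 1 := by
  unfold hh; split_ifs <;> simp

theorem hh_int (c a b : ℝ) : IntervalIntegrable (fun x => hh (x + c)) volume a b := by
  refine (intervalIntegrable_const (c := (1 : ℝ))).mono_fun ?_ ?_
  · exact (hh_meas.comp (measurable_id.add_const c)).aestronglyMeasurable
  · exact Eventually.of_forall fun x => by simpa using hh_le (x + c)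

theorem tt_der {x : ℝ} (h0 : x ≠ 0) (h1 : x ≠ 1 / 2) (h2 : x ≠ 1) : HasDerivAt tt (hh x) x := by
  rcases lt_or_gt_of_ne h0 with h | h
  · have e : hh x = 0 := by
      unfold hh; rw [if_neg (by intro q; linarith [q.1]), if_neg (by intro q; linarith [q.1])]
    rw [e]
    refine (hasDerivAt_const x (0 : ℝ)).congr_of_eventuallyEq ?_
    filter_upwards [Iio_mem_nhds h] with y hy using tt_neg (le_of_lt hy)
  rcases lt_or_gt_of_ne h1 with h' | h'
  · have e : hh x = 1 := by unfold hh; rw [if_pos ⟨h.le, h'⟩]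
    rw [e]
    refine (hasDerivAt_id x).congr_of_eventuallyEq ?_
    filter_upwards [Ioo_mem_nhds h h'] with y hy using tt_lo hy.1.le hy.2.le
  rcases lt_or_gt_of_ne h2 with h'' | h''
  · have e : hh x = -1 := by
      unfold hh; rw [if_neg (by intro q; linarith [q.2]), if_pos ⟨h'.le, h''⟩]
    rw [e]
    refine ((hasDerivAt_id x).const_sub 1).congr_of_eventuallyEq ?_
    filter_upwards [Ioo_mem_nhds h' h''] with y hy using tt_hi hy.1.le hy.2.le
  · have e : hh x = 0 := by
      unfold hh; rw [if_neg (by intro q; linarith [q.2]), if_neg (by intro q; linarith [q.2])]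
    rw [e]
    refine (hasDerivAt_const x (0 : ℝ)).congr_of_eventuallyEq ?_
    filter_upwards [Ioi_mem_nhds h''] with y hy using tt_one (le_of_lt hy)

theorem hh_integral (a b : ℝ) : ∫ x in a..b, hh x = tt b - tt a := by
  refine MeasureTheory.integral_eq_of_hasDerivAt_off_countable tt hh
    (s := ({0, 1 / 2, 1} : Set ℝ)) (by simp) tt_cont.continuousOn ?_ ?_
  · rintro x ⟨-, hx⟩
    simp only [mem_insert_iff, mem_singleton_iff, not_or] at hx
    exact tt_der hx.1 hx.2.1 hx.2.2
  · simpa using hh_int 0 a b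

theorem hh_shift (s a b : ℝ) : ∫ w in a..b, hh (w + s) = tt (b + s) - tt (a + s) := by
  rw [intervalIntegral.integral_comp_add_right (fun x => hh x) s, hh_integral]

theorem et_eq (w : ℝ) : et w = (Ioc (0 : ℝ) (1 / 4)).indicator 1 w
    - (Ioc (1 / 4 : ℝ) (3 / 4)).indicator 1 w + (Ioc (3 / 4 : ℝ) 1).indicator 1 w
    + ((if w = 0 then 1 else 0) - (if w = 1 / 4 then 2 else 0) + (if w = 3 / 4 then 2 else 0)
      - (if w = 1 then 1 else 0)) := by
  unfold et
  simp only [indicator, mem_Ioc, Pi.one_apply]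
  rcases lt_trichotomy w 0 with h | h | h
  · rw [if_neg (by intro q; linarith [q.1]), if_neg (by intro q; linarith [q.1]),
      if_neg (by intro q; linarith [q.1]), if_neg (by intro q; linarith [q.1]),
      if_neg (by intro q; linarith [q.1]), if_neg (by intro q; linarith [q.1]),
      if_neg (by linarith), if_neg (by linarith), if_neg (by linarith), if_neg (by linarith)]
    ring
  · subst h; norm_num
  rcases lt_trichotomy w (1 / 4) with h1 | h1 | h1
  · rw [if_pos ⟨h.le, h1⟩, if_pos ⟨h, h1.le⟩, if_neg (by intro q; linarith [q.1]),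
      if_neg (by intro q; linarith [q.1]), if_neg (by linarith), if_neg (by linarith),
      if_neg (by linarith), if_neg (by linarith)]
    ring
  · subst h1; norm_num
  rcases lt_trichotomy w (3 / 4) with h2 | h2 | h2
  · rw [if_neg (by intro q; linarith [q.2]), if_pos ⟨h1.le, h2⟩,
      if_neg (by intro q; linarith [q.2]), if_pos ⟨h1, h2.le⟩,
      if_neg (by intro q; linarith [q.1]), if_neg (by linarith), if_neg (by linarith),
      if_neg (by linarith), if_neg (by linarith)]
    ring
  · subst h2; norm_num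
  rcases lt_trichotomy w 1 with h3 | h3 | h3
  · rw [if_neg (by intro q; linarith [q.2]), if_neg (by intro q; linarith [q.2]),
      if_pos ⟨h2.le, h3⟩, if_neg (by intro q; linarith [q.2]),
      if_neg (by intro q; linarith [q.2]), if_pos ⟨h2, h3.le⟩, if_neg (by linarith),
      if_neg (by linarith), if_neg (by linarith), if_neg (by linarith)]
    ring
  · subst h3; norm_num
  · rw [if_neg (by intro q; linarith [q.2]), if_neg (by intro q; linarith [q.2]),
      if_neg (by intro q; linarith [q.2]), if_neg (by intro q; linarith [q.2]),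
      if_neg (by intro q; linarith [q.2]), if_neg (by intro q; linarith [q.2]),
      if_neg (by linarith), if_neg (by linarith), if_neg (by linarith), if_neg (by linarith)]
    ring

theorem ne_ae (c : ℝ) : ∀ᵐ w : ℝ, w ≠ c := by
  have := (measure_singleton c : volume ({c} : Set ℝ) = 0)
  rw [ae_iff]; simpa using this

theorem int3 {f g h : ℝ → ℝ} (hf : Integrable f) (hg : Integrable g) (hh' : Integrable h) :
    ∫ w, (f w - g w + h w) = (∫ w, f w) - (∫ w, g w) + ∫ w, h w := by
  have h1 := integral_add (hf.sub hg) hh'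
  have h2 := integral_sub hf hg
  simp only [Pi.sub_apply] at h1 h2
  rw [h1, h2]

theorem kap_eq (s : ℝ) :
    kap s = -tt s + 2 * tt (s + 1 / 4) - 2 * tt (s + 3 / 4) + tt (s + 1) := by
  have e1 : kap s = ∫ w, ((Ioc (0 : ℝ) (1 / 4)).indicator (fun w => hh (w + s)) w
      - (Ioc (1 / 4 : ℝ) (3 / 4)).indicator (fun w => hh (w + s)) w
      + (Ioc (3 / 4 : ℝ) 1).indicator (fun w => hh (w + s)) w) := by
    unfold kap
    refine integral_congr_ae ?_
    filter_upwards [ne_ae 0, ne_ae (1 / 4), ne_ae (3 / 4), ne_ae 1] with w h0 h1 h2 h3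
    rw [et_eq, if_neg h0, if_neg h1, if_neg h2, if_neg h3]
    simp only [indicator, Pi.one_apply]
    split_ifs <;> ring
  have i : ∀ a b : ℝ, a ≤ b → Integrable ((Ioc a b).indicator (fun w => hh (w + s))) := by
    intro a b hab
    rw [integrable_indicator_iff measurableSet_Ioc]
    exact (hh_int s a b).1
  have j : ∀ a b : ℝ, a ≤ b → ∫ w, (Ioc a b).indicator (fun w => hh (w + s)) w
      = tt (b + s) - tt (a + s) := by
    intro a b hab
    rw [integral_indicator measurableSet_Ioc, ← intervalIntegral.integral_of_le hab, hh_shift]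
  rw [e1, int3 (i _ _ (by norm_num)) (i _ _ (by norm_num)) (i _ _ (by norm_num)),
    j _ _ (by norm_num), j _ _ (by norm_num), j _ _ (by norm_num)]
  rw [zero_add, add_comm (1 / 4 : ℝ) s, add_comm (3 / 4 : ℝ) s, add_comm (1 : ℝ) s]
  ring

theorem kap_cont : Continuous kap := by
  have : kap = fun s => -tt s + 2 * tt (s + 1 / 4) - 2 * tt (s + 3 / 4) + tt (s + 1) :=
    funext kap_eq
  rw [this]
  have := tt_cont
  fun_prop

theorem kap_odd (s : ℝ) : kap (-s) = -kap s := by
  rw [kap_eq, kap_eq]
  rw [show -s + 1 / 4 = 1 - (s + 3 / 4) by ring, show -s + 3 / 4 = 1 - (s + 1 / 4) by ring,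
    show -s + 1 = 1 - s by ring, show -s = 1 - (s + 1) by ring, tt_symm, tt_symm, tt_symm, tt_symm]
  ring

theorem kap_1 {s : ℝ} (h : 0 ≤ s) (h' : s ≤ 1 / 4) : kap s = 3 * s := by
  rw [kap_eq, tt_lo h (by linarith), tt_lo (by linarith) (by linarith),
    tt_hi (by linarith) (by linarith), tt_one (by linarith)]
  ring

theorem kap_2 {s : ℝ} (h : 1 / 4 ≤ s) (h' : s ≤ 1 / 2) : kap s = 3 / 2 - 3 * s := by
  rw [kap_eq, tt_lo (by linarith) h', tt_hi (by linarith) (by linarith),
    tt_one (by linarith), tt_one (by linarith)]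
  ring

theorem kap_3 {s : ℝ} (h : 1 / 2 ≤ s) (h' : s ≤ 3 / 4) : kap s = 1 / 2 - s := by
  rw [kap_eq, tt_hi h (by linarith), tt_hi (by linarith) (by linarith),
    tt_one (by linarith), tt_one (by linarith)]
  ring

theorem kap_4 {s : ℝ} (h : 3 / 4 ≤ s) (h' : s ≤ 1) : kap s = s - 1 := by
  rw [kap_eq, tt_hi (by linarith) h', tt_one (by linarith), tt_one (by linarith),
    tt_one (by linarith)]
  ring

theorem kap_5 {s : ℝ} (h : 1 ≤ s) : kap s = 0 := by
  rw [kap_eq, tt_one h, tt_one (by linarith), tt_one (by linarith), tt_one (by linarith)]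
  ring

theorem kap_pos_bound {s : ℝ} (h : 0 ≤ s) : |kap s| ≤ 3 * s ∧ |kap s| ≤ 3 / 4 := by
  rcases le_total s (1 / 4) with h1 | h1
  · rw [kap_1 h h1, abs_of_nonneg (by linarith)]; constructor <;> linarith
  rcases le_total s (1 / 2) with h2 | h2
  · rw [kap_2 h1 h2, abs_of_nonneg (by linarith)]; constructor <;> linarith
  rcases le_total s (3 / 4) with h3 | h3
  · rw [kap_3 h2 h3, abs_of_nonpos (by linarith)]; constructor <;> linarith
  rcases le_total s 1 with h4 | h4
  · rw [kap_4 h3 h4, abs_of_nonpos (by linarith)]; constructor <;> linarith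
  · rw [kap_5 h4, abs_zero]; constructor <;> linarith

theorem kap_abs (s : ℝ) : abs (kap s) = abs (kap (abs s)) := by
  rcases abs_cases s with ⟨h, -⟩ | ⟨h, -⟩ <;> rw [h]
  rw [kap_odd, abs_neg]

theorem kap_le (s : ℝ) : |kap s| ≤ 3 / 4 := by
  rw [kap_abs]; exact (kap_pos_bound (abs_nonneg s)).2

theorem kap_lip (s : ℝ) : |kap s| ≤ 4 * |s| := by
  rw [kap_abs]; linarith [(kap_pos_bound (abs_nonneg s)).1, abs_nonneg s]

theorem kap_zero (s : ℝ) (h : 1 ≤ |s|) : kap s = 0 := by
  have := kap_abs s
  rw [kap_5 h, abs_zero, abs_eq_zero] at this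
  exact this

theorem m3 (a b : ℝ) : ∫ s in a..b, (3 : ℝ) * s = 3 * ((b ^ 2 - a ^ 2) / 2) := by
  have := intervalIntegral.integral_const_mul (μ := volume) (a := a) (b := b) (3 : ℝ) (fun s => s)
  rw [integral_id] at this
  exact this

theorem kap_integral : (∫ s in (0 : ℝ)..1, kap s) = 1 / 8 := by
  have ii : ∀ a b : ℝ, IntervalIntegrable kap volume a b := fun a b =>
    kap_cont.intervalIntegrable a b
  rw [← intervalIntegral.integral_add_adjacent_intervals (ii 0 (1 / 2)) (ii (1 / 2) 1),
    ← intervalIntegral.integral_add_adjacent_intervals (ii 0 (1 / 4)) (ii (1 / 4) (1 / 2)),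
    ← intervalIntegral.integral_add_adjacent_intervals (ii (1 / 2) (3 / 4)) (ii (3 / 4) 1)]
  have e1 : ∫ s in (0 : ℝ)..1 / 4, kap s = ∫ s in (0 : ℝ)..1 / 4, 3 * s := by
    refine intervalIntegral.integral_congr fun s hs => ?_
    rw [uIcc_of_le (by norm_num)] at hs
    exact kap_1 hs.1 hs.2
  have e2 : ∫ s in (1 / 4 : ℝ)..1 / 2, kap s = ∫ s in (1 / 4 : ℝ)..1 / 2, (3 / 2 - 3 * s) := by
    refine intervalIntegral.integral_congr fun s hs => ?_
    rw [uIcc_of_le (by norm_num)] at hs
    exact kap_2 hs.1 hs.2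
  have e3 : ∫ s in (1 / 2 : ℝ)..3 / 4, kap s = ∫ s in (1 / 2 : ℝ)..3 / 4, (1 / 2 - s) := by
    refine intervalIntegral.integral_congr fun s hs => ?_
    rw [uIcc_of_le (by norm_num)] at hs
    exact kap_3 hs.1 hs.2
  have e4 : ∫ s in (3 / 4 : ℝ)..1, kap s = ∫ s in (3 / 4 : ℝ)..1, (s - 1) := by
    refine intervalIntegral.integral_congr fun s hs => ?_
    rw [uIcc_of_le (by norm_num)] at hs
    exact kap_4 hs.1 hs.2
  rw [e1, e2, e3, e4,
    intervalIntegral.integral_sub (by simp) (Continuous.intervalIntegrable (by fun_prop) _ _),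
    intervalIntegral.integral_sub (by simp) (Continuous.intervalIntegrable (by fun_prop) _ _),
    intervalIntegral.integral_sub (Continuous.intervalIntegrable (by fun_prop) _ _) (by simp)]
  rw [m3, m3, integral_id, integral_id, intervalIntegral.integral_const,
    intervalIntegral.integral_const, intervalIntegral.integral_const]
  norm_num

theorem kap85 : StKap := ⟨kap_cont, kap_odd, kap_zero, kap_lip, kap_integral⟩

theorem kkc85 : StKKc := by
  intro a ha n
  unfold KK
  refine continuous_const.mul ?_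
  refine intervalIntegral.continuous_of_dominated_interval
    (bound := fun _ => ∑ j ∈ Finset.range n, (2 ^ j * a ^ 2)⁻¹) ?_ ?_ (by simp) ?_
  · intro s
    refine (Finset.measurable_fun_sum _ fun j _ => ?_).aestronglyMeasurable
    have := kap_cont.measurable
    fun_prop
  · intro s
    refine Eventually.of_forall fun r hr => ?_
    rw [uIoc_of_le (by linarith)] at hr
    refine (norm_sum_le _ _).trans (Finset.sum_le_sum fun j _ => ?_)
    have h2 : (0 : ℝ) < 2 ^ j := by positivity
    have hr0 : 0 < r := ha.trans hr.1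
    rw [norm_mul, Real.norm_eq_abs, Real.norm_eq_abs, abs_of_nonneg (by positivity)]
    have h3 : (2 ^ j * r ^ 2)⁻¹ ≤ (2 ^ j * a ^ 2)⁻¹ := by
      refine inv_anti₀ (by positivity) (mul_le_mul_of_nonneg_left ?_ h2.le)
      exact pow_le_pow_left₀ ha.le hr.1.le 2
    calc (2 ^ j * r ^ 2)⁻¹ * |kap (s / (2 ^ j * r))| ≤ (2 ^ j * a ^ 2)⁻¹ * 1 := by
          refine mul_le_mul h3 ((kap_le _).trans (by norm_num)) (abs_nonneg _) (by positivity)
      _ = _ := mul_one _
  · refine Eventually.of_forall fun r _ => ?_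
    refine continuous_finsetSum _ fun j _ => ?_
    exact continuous_const.mul (kap_cont.comp (continuous_id.div_const _))

end Pool.Agent.Lib.SX53
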