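import Pool.Agent.Lib.MP_5ef378_an.SX.Defs53

/-!
Row KKC: continuity of the smooth kernel.
-/

set_option autoImplicit false

open MeasureTheory Set
open scoped ENNReal

namespace Pool.Agent.Lib.SX53

/-- ROW KKC. -/
theorem kkc65 (hK : StKap) : StKKc := by
  intro a ha n
  have hkc := hK.1
  have ha2 : a ≤ 2 * a := by linarith
  have e : KK a n = fun s => 8 * ∫ r in a..(2 * a), ∑ j ∈ Finset.range n,
      (2 ^ j * (max r a) ^ 2)⁻¹ * kap (s / (2 ^ j * max r a)) := by
    funext s
    unfold KK
    congr 1
    refine intervalIntegral.integral_congr fun r hr => ?_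
    rw [uIcc_of_le ha2] at hr
    simp only [max_eq_left hr.1]
  rw [e]
  refine continuous_const.mul ?_
  refine intervalIntegral.continuous_parametric_intervalIntegral_of_continuous' ?_ a (2 * a)
  refine continuous_finsetSum _ fun j _ => ?_
  have hp : ∀ p : ℝ × ℝ, 0 < max p.2 a := fun p => lt_of_lt_of_le ha (le_max_right _ _)
  refine Continuous.mul (Continuous.inv₀ (by fun_prop) fun p => ?_)
    (hkc.comp (Continuous.div (by fun_prop) (by fun_prop) fun p => ?_))
  · have := hp p
    positivity
  · have := hp p
    positivity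

end Pool.Agent.Lib.SX53
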