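import Pool.Agent.Lib.MP_5ef378_an.SX.HL24

/-!
Row MES: joint measurability of the maximal function in one variable.
-/

set_option autoImplicit false

namespace Pool.Agent.Lib.SX53

open MeasureTheory Filter Topology Metric Set
open scoped ENNReal NNReal

/-- rational end points suffice -/
theorem rat_le (φ : ℝ → ℝ≥0∞) {u v t : ℝ} (hu : u < t) (hv : t < v) :
    (ENNReal.ofReal (v - u))⁻¹ * ∫⁻ x in Ioo u v, φ x ≤
      ⨆ (u' : ℚ) (v' : ℚ), {s : ℝ | (u' : ℝ) < s ∧ s < v'}.indicator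
        (fun _ => (ENNReal.ofReal ((v' : ℝ) - u'))⁻¹ * ∫⁻ x in Ioo (u' : ℝ) v', φ x) t := by
  refine le_of_forall_lt fun a ha => ?_
  have hU : Ioo u v = ⋃ n : ℕ, Ioo (u + (t - u) / (n + 1)) (v - (v - t) / (n + 1)) := by
    ext x
    simp only [mem_Ioo, mem_iUnion]
    constructor
    · rintro ⟨h1, h2⟩
      obtain ⟨n1, hn1⟩ := exists_nat_gt ((t - u) / (x - u))
      obtain ⟨n2, hn2⟩ := exists_nat_gt ((v - t) / (v - x))
      refine ⟨max n1 n2, ?_, ?_⟩
      · have h3 : (t - u) / (x - u) < ((max n1 n2 : ℕ) : ℝ) + 1 := by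
          have : (n1 : ℝ) ≤ ((max n1 n2 : ℕ) : ℝ) := by exact_mod_cast le_max_left _ _
          linarith
        rw [div_lt_iff₀ (by linarith)] at h3
        have h4 : (t - u) / (((max n1 n2 : ℕ) : ℝ) + 1) < x - u := by
          rw [div_lt_iff₀ (by positivity)]
          linarith [mul_comm (x - u) (((max n1 n2 : ℕ) : ℝ) + 1)]
        linarith
      · have h3 : (v - t) / (v - x) < ((max n1 n2 : ℕ) : ℝ) + 1 := by
          have : (n2 : ℝ) ≤ ((max n1 n2 : ℕ) : ℝ) := by exact_mod_cast le_max_right _ _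
          linarith
        rw [div_lt_iff₀ (by linarith)] at h3
        have h4 : (v - t) / (((max n1 n2 : ℕ) : ℝ) + 1) < v - x := by
          rw [div_lt_iff₀ (by positivity)]
          linarith [mul_comm (v - x) (((max n1 n2 : ℕ) : ℝ) + 1)]
        linarith
    · rintro ⟨n, h1, h2⟩
      have h3 : 0 < (t - u) / ((n : ℝ) + 1) := div_pos (by linarith) (by positivity)
      have h4 : 0 < (v - t) / ((n : ℝ) + 1) := div_pos (by linarith) (by positivity)
      constructor <;> linarith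
  have hmono : Monotone (fun n : ℕ => Ioo (u + (t - u) / ((n : ℝ) + 1))
      (v - (v - t) / ((n : ℝ) + 1))) := by
    intro m n hmn
    have hmn' : (m : ℝ) + 1 ≤ (n : ℝ) + 1 := by
      have : (m : ℝ) ≤ n := by exact_mod_cast hmn
      linarith
    refine Ioo_subset_Ioo ?_ ?_
    · have := div_le_div_of_nonneg_left (by linarith : (0 : ℝ) ≤ t - u) (by positivity) hmn'
      linarith
    · have := div_le_div_of_nonneg_left (by linarith : (0 : ℝ) ≤ v - t) (by positivity) hmn'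
      linarith
  have hint : ∫⁻ x in Ioo u v, φ x = ⨆ n : ℕ,
      ∫⁻ x in Ioo (u + (t - u) / ((n : ℝ) + 1)) (v - (v - t) / ((n : ℝ) + 1)), φ x := by
    conv_lhs => rw [hU]
    exact setLIntegral_iUnion_of_directed _ (hmono.directed_le)
  rw [hint, ENNReal.mul_iSup, lt_iSup_iff] at ha
  obtain ⟨n, hn⟩ := ha
  have h3 : 0 < (t - u) / ((n : ℝ) + 1) := div_pos (by linarith) (by positivity)
  have h4 : 0 < (v - t) / ((n : ℝ) + 1) := div_pos (by linarith) (by positivity)
  have h3' : (t - u) / ((n : ℝ) + 1) ≤ t - u :=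
    div_le_self (by linarith) (by have : (0 : ℝ) ≤ n := Nat.cast_nonneg n; linarith)
  have h4' : (v - t) / ((n : ℝ) + 1) ≤ v - t :=
    div_le_self (by linarith) (by have : (0 : ℝ) ≤ n := Nat.cast_nonneg n; linarith)
  obtain ⟨q1, hq1, hq1'⟩ := exists_rat_btwn (show u < u + (t - u) / ((n : ℝ) + 1) by linarith)
  obtain ⟨q2, hq2, hq2'⟩ := exists_rat_btwn (show v - (v - t) / ((n : ℝ) + 1) < v by linarith)
  have hmem : t ∈ {s : ℝ | (q1 : ℝ) < s ∧ s < q2} := ⟨by linarith, by linarith⟩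
  refine lt_of_lt_of_le ?_ (le_iSup_of_le q1 (le_iSup_of_le q2 le_rfl))
  rw [indicator_of_mem hmem]
  refine hn.trans_le (mul_le_mul' ?_ (lintegral_mono_set (Ioo_subset_Ioo hq1'.le hq2.le)))
  rw [ENNReal.inv_le_inv]
  exact ENNReal.ofReal_le_ofReal (by linarith)

/-- ROW MES. -/
theorem mes24 : StMes := by
  intro f hf
  -- for fixed `u v` the integral is measurable in the parameters
  have hint : ∀ u v : ℝ, Measurable (fun z : ℝ × ℝ × ℝ =>
      (ENNReal.ofReal (v - u))⁻¹ * ∫⁻ x in Ioo u v, ‖f (x, z.2.1, z.2.2)‖ₑ ^ 3) := by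
    intro u v
    refine Measurable.const_mul ?_ _
    refine Measurable.lintegral_prod_right ?_
    refine Measurable.pow_const ?_ _
    refine Measurable.enorm ?_
    exact (hf.comp (by fun_prop : Continuous (fun w : (ℝ × ℝ × ℝ) × ℝ =>
      (w.2, w.1.2.1, w.1.2.2)))).measurable
  -- rational end points suffice
  have key : ∀ z : ℝ × ℝ × ℝ, MM (fun x => ‖f (x, z.2.1, z.2.2)‖ₑ ^ 3) z.1 =
      ⨆ (u : ℚ) (v : ℚ), {z : ℝ × ℝ × ℝ | (u : ℝ) < z.1 ∧ z.1 < v}.indicator
        (fun z => (ENNReal.ofReal ((v : ℝ) - u))⁻¹ *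
          ∫⁻ x in Ioo (u : ℝ) v, ‖f (x, z.2.1, z.2.2)‖ₑ ^ 3) z := by
    intro z
    refine le_antisymm ?_ ?_
    · refine iSup_le fun u => iSup_le fun v => iSup_le fun huv => ?_
      exact rat_le _ huv.1 huv.2
    · refine iSup_le fun u => iSup_le fun v => ?_
      by_cases h : (u : ℝ) < z.1 ∧ z.1 < v
      · rw [indicator_of_mem (by exact h)]
        exact le_iSup_of_le (u : ℝ) (le_iSup_of_le (v : ℝ) (le_iSup_of_le h le_rfl))
      · rw [indicator_of_notMem (by exact h)]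
        exact zero_le
  have : (fun z : ℝ × ℝ × ℝ => MM (fun x => ‖f (x, z.2.1, z.2.2)‖ₑ ^ 3) z.1) = fun z =>
      ⨆ (u : ℚ) (v : ℚ), {z : ℝ × ℝ × ℝ | (u : ℝ) < z.1 ∧ z.1 < v}.indicator
        (fun z => (ENNReal.ofReal ((v : ℝ) - u))⁻¹ *
          ∫⁻ x in Ioo (u : ℝ) v, ‖f (x, z.2.1, z.2.2)‖ₑ ^ 3) z := funext key
  rw [this]
  refine Measurable.iSup fun u => Measurable.iSup fun v => ?_
  refine Measurable.indicator (hint u v) ?_
  exact (measurableSet_lt measurable_const measurable_fst).inter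
    (measurableSet_lt measurable_fst measurable_const)

end Pool.Agent.Lib.SX53
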